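import Mathlib
import Pool.Agent.TH278.DX.Defs

/-!
# Interpolation between a bounded and a unitary representation
-/

set_option autoImplicit false

namespace Pool.Agent.TH511.J4446

open scoped NNReal ENNReal

section alg

variable {B : Type} [CStarAlgebra B] [PartialOrder B] [StarOrderedRing B]

/-- The powers as units. -/
noncomputable def pw (A : B) (hA : IsStrictlyPositive A) (s : ℝ) : Bˣ :=
  ⟨A ^ s, A ^ (-s), CFC.rpow_mul_rpow_neg s hA, CFC.rpow_neg_mul_rpow s hA⟩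

theorem star_rpow (A : B) (s : ℝ) : star (A ^ s) = A ^ s :=
  (IsSelfAdjoint.of_nonneg (CFC.rpow_nonneg (a := A) (y := s))).star_eq

omit [PartialOrder B] [StarOrderedRing B] in
theorem norm_mul_conj (a : B) (u : Bˣ) (ha : IsSelfAdjoint ((u : B) * a * ((u⁻¹ : Bˣ) : B))) :
    ‖(u : B) * a * ((u⁻¹ : Bˣ) : B)‖ ≤ ‖a‖ := by
  rcases subsingleton_or_nontrivial B with h | h
  · rw [Subsingleton.elim ((u : B) * a * ((u⁻¹ : Bˣ) : B)) a]
  · have h1 := ha.spectralRadius_eq_nnnorm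
    have h2 : spectralRadius ℂ ((u : B) * a * ((u⁻¹ : Bˣ) : B)) = spectralRadius ℂ a := by
      unfold spectralRadius
      rw [spectrum.units_conjugate]
    have h3 : spectralRadius ℂ a ≤ ‖a‖₊ := spectrum.spectralRadius_le_nnnorm a
    rw [← h2, h1] at h3
    exact_mod_cast h3

theorem mid (A T : B) (hA : IsStrictlyPositive A) (s t : ℝ) :
    ‖A ^ ((s + t) / 4) * T * A ^ (-((s + t) / 4))‖ ^ 2 ≤
      ‖A ^ (s / 2) * T * A ^ (-(s / 2))‖ * ‖A ^ (t / 2) * T * A ^ (-(t / 2))‖ := by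
  have hadd : ∀ x y : ℝ, A ^ x * A ^ y = A ^ (x + y) := fun x y =>
    (CFC.rpow_add hA.isUnit).symm
  have hadd2 : ∀ (x y : ℝ) (z : B), A ^ x * (A ^ y * z) = A ^ (x + y) * z := fun x y z => by
    rw [← mul_assoc, hadd]
  have key : star (A ^ ((s + t) / 4) * T * A ^ (-((s + t) / 4))) *
      (A ^ ((s + t) / 4) * T * A ^ (-((s + t) / 4))) =
      ((pw A hA ((s - t) / 4) : Bˣ) : B) *
        (star (A ^ (s / 2) * T * A ^ (-(s / 2))) * (A ^ (t / 2) * T * A ^ (-(t / 2)))) *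
        (((pw A hA ((s - t) / 4))⁻¹ : Bˣ) : B) := by
    show _ = A ^ ((s - t) / 4) *
        (star (A ^ (s / 2) * T * A ^ (-(s / 2))) * (A ^ (t / 2) * T * A ^ (-(t / 2)))) *
        A ^ (-((s - t) / 4))
    simp only [star_mul, star_rpow, mul_assoc, hadd, hadd2]
    rw [show (s - t) / 4 + -(s / 2) = -((s + t) / 4) by ring,
      show s / 2 + t / 2 = (s + t) / 4 + (s + t) / 4 by ring,
      show -(t / 2) + -((s - t) / 4) = -((s + t) / 4) by ring]
  have h1 : ‖A ^ ((s + t) / 4) * T * A ^ (-((s + t) / 4))‖ ^ 2 =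
      ‖star (A ^ ((s + t) / 4) * T * A ^ (-((s + t) / 4))) *
      (A ^ ((s + t) / 4) * T * A ^ (-((s + t) / 4)))‖ := by
    rw [CStarRing.norm_star_mul_self, sq]
  rw [h1, key]
  refine (norm_mul_conj _ _ ?_).trans ((norm_mul_le _ _).trans_eq ?_)
  · rw [← key]
    exact IsSelfAdjoint.star_mul_self _
  · rw [norm_star]

theorem main (A T : B) (hA : IsStrictlyPositive A) (c : ℝ) (hc : 1 ≤ c) (hT : ‖T‖ ≤ c)
    (hinv : star T * A * T = A) : ∀ k j : ℕ, j ≤ 2 ^ k →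
      ‖A ^ (((j : ℝ) / 2 ^ k) / 2) * T * A ^ (-(((j : ℝ) / 2 ^ k) / 2))‖ ≤
        c ^ (1 - (j : ℝ) / 2 ^ k) := by
  have hadd : ∀ x y : ℝ, A ^ x * A ^ y = A ^ (x + y) := fun x y =>
    (CFC.rpow_add hA.isUnit).symm
  have hadd2 : ∀ (x y : ℝ) (z : B), A ^ x * (A ^ y * z) = A ^ (x + y) * z := fun x y z => by
    rw [← mul_assoc, hadd]
  have hc0 : 0 < c := by linarith
  intro k
  induction k with
  | zero =>
    intro j hj
    rcases Nat.eq_zero_or_pos j with rfl | hj0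
    · simp only [Nat.cast_zero, zero_div, neg_zero, sub_zero, Real.rpow_one]
      rw [CFC.rpow_zero A hA.nonneg, one_mul, mul_one]
      exact hT
    · have hj1 : j = 1 := by
        rw [pow_zero] at hj
        omega
      subst hj1
      simp only [Nat.cast_one, pow_zero, div_one, sub_self, Real.rpow_zero]
      have h2 : ‖A ^ ((1 : ℝ) / 2) * T * A ^ (-((1 : ℝ) / 2))‖ ^ 2 = ‖(1 : B)‖ := by
        rw [sq, ← CStarRing.norm_star_mul_self]
        congr 1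
        simp only [star_mul, star_rpow, mul_assoc, hadd2]
        have h3 : A ^ ((1 : ℝ) / 2 + 1 / 2) = A := by
          rw [show (1 : ℝ) / 2 + 1 / 2 = 1 by norm_num, CFC.rpow_one A hA.nonneg]
        rw [h3]
        have h4 : star T * (A * (T * A ^ (-((1 : ℝ) / 2)))) = A ^ ((1 : ℝ) + -(1 / 2)) := by
          calc star T * (A * (T * A ^ (-((1 : ℝ) / 2)))) =
              (star T * A * T) * A ^ (-((1 : ℝ) / 2)) := by simp only [mul_assoc]
            _ = A ^ (1 : ℝ) * A ^ (-((1 : ℝ) / 2)) := by rw [hinv, CFC.rpow_one A hA.nonneg]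
            _ = _ := hadd _ _
        rw [h4, hadd, show -((1 : ℝ) / 2) + (1 + -(1 / 2)) = 0 by norm_num,
          CFC.rpow_zero A hA.nonneg]
      have h3 : ‖(1 : B)‖ ≤ 1 := by
        rcases subsingleton_or_nontrivial B with h | h
        · rw [Subsingleton.elim (1 : B) 0, norm_zero]
          exact zero_le_one
        · exact CStarRing.norm_one.le
      rw [← h2] at h3
      exact (sq_le_one_iff₀ (norm_nonneg _)).1 h3
  | succ k ih =>
    intro j hj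
    rcases Nat.even_or_odd' j with ⟨i, rfl | rfl⟩
    · have h1 := ih i (by rw [pow_succ] at hj; omega)
      have h2 : ((2 * i : ℕ) : ℝ) / 2 ^ (k + 1) = (i : ℝ) / 2 ^ k := by
        rw [pow_succ]
        push_cast
        field_simp
      rw [h2]
      exact h1
    · have h1 := ih i (by rw [pow_succ] at hj; omega)
      have h2 := ih (i + 1) (by rw [pow_succ] at hj; omega)
      have h3 := mid A T hA ((i : ℝ) / 2 ^ k) (((i + 1 : ℕ) : ℝ) / 2 ^ k)
      have h4 : ((i : ℝ) / 2 ^ k + ((i + 1 : ℕ) : ℝ) / 2 ^ k) / 4 =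
          (((2 * i + 1 : ℕ) : ℝ) / 2 ^ (k + 1)) / 2 := by
        rw [pow_succ]
        push_cast
        field_simp
        ring
      rw [h4] at h3
      have h5 : c ^ (1 - (i : ℝ) / 2 ^ k) * c ^ (1 - ((i + 1 : ℕ) : ℝ) / 2 ^ k) =
          (c ^ (1 - ((2 * i + 1 : ℕ) : ℝ) / 2 ^ (k + 1))) ^ 2 := by
        rw [sq, ← Real.rpow_add hc0, ← Real.rpow_add hc0]
        congr 1
        rw [pow_succ]
        push_cast
        field_simp
        ring
      have h6 : 0 ≤ c ^ (1 - ((2 * i + 1 : ℕ) : ℝ) / 2 ^ (k + 1)) := (Real.rpow_pos_of_pos hc0 _).le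
      refine (sq_le_sq₀ (norm_nonneg _) h6).1 ?_
      rw [← h5]
      exact h3.trans (mul_le_mul h1 h2 (norm_nonneg _) (Real.rpow_pos_of_pos hc0 _).le)

end alg

section hilb

variable {H : Type} [NormedAddCommGroup H] [InnerProductSpace ℂ H] [CompleteSpace H]

theorem le_of (f g : H →L[ℂ] H) (hf : IsSelfAdjoint f) (hg : IsSelfAdjoint g)
    (h : ∀ x, (inner ℂ (f x) x).re ≤ (inner ℂ (g x) x).re) : f ≤ g := by
  rw [ContinuousLinearMap.le_def, ContinuousLinearMap.isPositive_def']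
  refine ⟨hg.sub hf, fun x => ?_⟩
  have h1 := h x
  rw [ContinuousLinearMap.reApplyInnerSelf_apply, sub_apply, inner_sub_left,
    map_sub]
  simpa using h1

theorem re_le_of (f g : H →L[ℂ] H) (h : f ≤ g) (x : H) :
    (inner ℂ (f x) x).re ≤ (inner ℂ (g x) x).re := by
  rw [ContinuousLinearMap.le_def, ContinuousLinearMap.isPositive_def'] at h
  have h1 := h.2 x
  rw [ContinuousLinearMap.reApplyInnerSelf_apply, sub_apply, inner_sub_left,
    map_sub] at h1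
  simpa using h1

omit [CompleteSpace H] in
theorem re_algebraMap (r : ℝ≥0) (x : H) :
    (inner ℂ ((algebraMap ℝ≥0 (H →L[ℂ] H) r) x) x).re = r * ‖x‖ ^ 2 := by
  have h1 : (algebraMap ℝ≥0 (H →L[ℂ] H) r) x = ((r : ℝ) : ℂ) • x := by
    rw [Algebra.algebraMap_eq_smul_one]
    rfl
  rw [h1, inner_smul_left, inner_self_eq_norm_sq_to_K, Complex.conj_ofReal]
  have h2 : ((r : ℝ) : ℂ) * ((‖x‖ : ℝ) : ℂ) ^ 2 = (((r : ℝ) * ‖x‖ ^ 2 : ℝ) : ℂ) := by push_cast; rfl
  exact (congrArg Complex.re h2).trans (Complex.ofReal_re _)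

/-- Interpolation between a bounded and a unitary representation. -/
theorem interp
    (A : H →L[ℂ] H) (κ : ℝ) (hκ : 1 ≤ κ) (hA : ∀ x y : H, inner ℂ (A x) y = inner ℂ x (A y))
    (h1 : ∀ x : H, 1 * ‖x‖ ^ 2 ≤ (inner ℂ (A x) x).re)
    (h2 : ∀ x : H, (inner ℂ (A x) x).re ≤ κ ^ 2 * ‖x‖ ^ 2) (j k : ℕ) (hj : j ≤ 2 ^ k) :
    ∃ R : (H →L[ℂ] H)ˣ, (∀ x y : H, inner ℂ ((R : H →L[ℂ] H) x) y = inner ℂ x ((R : H →L[ℂ] H) y)) ∧
      (∀ x : H, ‖x‖ ≤ ‖(R : H →L[ℂ] H) x‖) ∧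
      (∀ x : H, ‖(R : H →L[ℂ] H) x‖ ≤ κ ^ ((j : ℝ) / 2 ^ k) * ‖x‖) ∧
      ∀ (T : (H →L[ℂ] H)ˣ) (c : ℝ), 1 ≤ c → ‖(T : H →L[ℂ] H)‖ ≤ c →
        (∀ x y : H, inner ℂ (A ((T : H →L[ℂ] H) x)) ((T : H →L[ℂ] H) y) = inner ℂ (A x) y) →
        ‖((R * T * R⁻¹ : (H →L[ℂ] H)ˣ) : H →L[ℂ] H)‖ ≤ c ^ (1 - (j : ℝ) / 2 ^ k) := by
  have hκ0 : 0 < κ := by linarith
  have hsa : IsSelfAdjoint A := ContinuousLinearMap.isSelfAdjoint_iff_isSymmetric.2 hA
  have hle1 : (1 : H →L[ℂ] H) ≤ A := by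
    refine le_of _ _ (IsSelfAdjoint.one _) hsa fun x => ?_
    have e1 : (inner ℂ ((1 : H →L[ℂ] H) x) x).re = 1 * ‖x‖ ^ 2 := by
      have := re_algebraMap 1 x
      rw [map_one] at this
      simpa using this
    rw [e1]
    exact h1 x
  have hst : IsStrictlyPositive A := IsStrictlyPositive.of_le isStrictlyPositive_one hle1
  obtain ⟨K, hK⟩ : ∃ K : ℝ≥0, (K : ℝ) = κ ^ 2 := ⟨⟨κ ^ 2, sq_nonneg κ⟩, rfl⟩
  have hle2 : A ≤ algebraMap ℝ≥0 (H →L[ℂ] H) K := by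
    refine le_of _ _ hsa ?_ fun x => ?_
    · rw [Algebra.algebraMap_eq_smul_one]
      exact IsSelfAdjoint.smul (IsSelfAdjoint.all K) (IsSelfAdjoint.one _)
    · rw [re_algebraMap, hK]
      exact h2 x
  set t : ℝ := (j : ℝ) / 2 ^ k with ht
  have ht0 : 0 ≤ t := by positivity
  have ht1 : t ≤ 1 := by
    rw [ht, div_le_one (by positivity)]
    exact_mod_cast hj
  have hlt1 : (1 : H →L[ℂ] H) ≤ A ^ t := by
    have := CFC.rpow_le_rpow (p := t) ⟨ht0, ht1⟩ hle1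
    rwa [CFC.one_rpow] at this
  have hlt2 : A ^ t ≤ algebraMap ℝ≥0 (H →L[ℂ] H) (K ^ t) := by
    have := CFC.rpow_le_rpow (p := t) ⟨ht0, ht1⟩ hle2
    rwa [CFC.rpow_algebraMap] at this
  have hR : ∀ x y : H, inner ℂ ((A ^ (t / 2)) x) y = inner ℂ x ((A ^ (t / 2)) y) :=
    ContinuousLinearMap.isSelfAdjoint_iff_isSymmetric.1
      (IsSelfAdjoint.of_nonneg (CFC.rpow_nonneg (a := A) (y := t / 2)))
  have hRn : ∀ x : H, ‖(A ^ (t / 2)) x‖ ^ 2 = (inner ℂ ((A ^ t) x) x).re := by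
    intro x
    have e1 : (A ^ t) x = (A ^ (t / 2)) ((A ^ (t / 2)) x) := by
      have e2 : A ^ t = A ^ (t / 2) * A ^ (t / 2) := by
        rw [← CFC.rpow_add hst.isUnit]
        congr 1
        ring
      rw [e2]
      rfl
    rw [e1, hR]
    have e3 := inner_self_eq_norm_sq (𝕜 := ℂ) ((A ^ (t / 2)) x)
    exact e3.symm
  refine ⟨pw A hst (t / 2), hR, fun x => ?_, fun x => ?_, ?_⟩
  · refine (sq_le_sq₀ (norm_nonneg _) (norm_nonneg _)).1 ?_
    show ‖x‖ ^ 2 ≤ ‖(A ^ (t / 2)) x‖ ^ 2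
    rw [hRn]
    have e1 := re_le_of _ _ hlt1 x
    have e2 : (inner ℂ ((1 : H →L[ℂ] H) x) x).re = 1 * ‖x‖ ^ 2 := by
      have := re_algebraMap 1 x
      rw [map_one] at this
      simpa using this
    linarith
  · have hκt : 0 ≤ κ ^ t := (Real.rpow_pos_of_pos hκ0 _).le
    refine (sq_le_sq₀ (norm_nonneg _) (mul_nonneg hκt (norm_nonneg _))).1 ?_
    show ‖(A ^ (t / 2)) x‖ ^ 2 ≤ _
    rw [hRn]
    have e1 := re_le_of _ _ hlt2 x
    rw [re_algebraMap] at e1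
    refine e1.trans_eq ?_
    rw [mul_pow]
    congr 1
    rw [NNReal.coe_rpow, hK]
    rw [← Real.rpow_natCast, ← Real.rpow_natCast, ← Real.rpow_mul hκ0.le, ← Real.rpow_mul hκ0.le,
      mul_comm]
  · intro T c hc hT hinv
    have hinv' : star (T : H →L[ℂ] H) * A * (T : H →L[ℂ] H) = A := by
      ext x
      refine ext_inner_right ℂ fun y => ?_
      rw [← hinv x y]
      show inner ℂ ((star (T : H →L[ℂ] H)) (A ((T : H →L[ℂ] H) x))) y = _
      rw [ContinuousLinearMap.star_eq_adjoint, ContinuousLinearMap.adjoint_inner_left]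
    exact main A (T : H →L[ℂ] H) hst c hc hT hinv' k j hj

end hilb

end Pool.Agent.TH511.J4446
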