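import Pool.Agent.TH160.Stm
set_option autoImplicit false
open Polynomial

namespace Pool.Agent.TH511.J326

section
variable {k L : Type} [Field k] [Field L] [Algebra k L] {v s : L} {f : k[X]}
  (O : ValuationSubring L) (hk : ∀ c : k, algebraMap k L c ∈ O) (hv : v ∈ O)

include hk hv in
theorem ev_mem (p : k[X]) : aeval v p ∈ O := by
  induction p using Polynomial.induction_on' with
  | add p q hp hq => rw [map_add]; exact add_mem hp hq
  | monomial n a =>
    rw [aeval_monomial]
    exact mul_mem (hk a) (pow_mem hv n)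

include hk hv in
theorem ev_le (p : k[X]) : O.valuation (aeval v p) ≤ 1 := by
  rw [ValuationSubring.valuation_le_one_iff]; exact ev_mem O hk hv p

include hk in
theorem val_c {c : k} (hc : c ≠ 0) : O.valuation (algebraMap k L c) = 1 := by
  have h1 : O.valuation (algebraMap k L c) ≤ 1 := (ValuationSubring.valuation_le_one_iff _ _).2 (hk c)
  have h2 : O.valuation (algebraMap k L c⁻¹) ≤ 1 :=
    (ValuationSubring.valuation_le_one_iff _ _).2 (hk c⁻¹)
  have h3 : O.valuation (algebraMap k L c) * O.valuation (algebraMap k L c⁻¹) = 1 := by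
    rw [← map_mul, ← map_mul, mul_inv_cancel₀ hc, map_one, map_one]
  apply le_antisymm h1
  calc (1 : O.ValueGroup) = _ := h3.symm
    _ ≤ O.valuation (algebraMap k L c) * 1 := mul_le_mul_right h2 _
    _ = _ := mul_one _

include hk in
theorem val_two [CharZero k] : O.valuation (2 : L) = 1 := by
  have := val_c O hk (c := (2 : k)) two_ne_zero
  rwa [map_ofNat] at this

include hk hv in
theorem exists_pi : ∃ π : k[X], ∀ p : k[X], O.valuation (aeval v p) < 1 ↔ π ∣ p := by
  let P : Ideal k[X] :=
    { carrier := {p | O.valuation (aeval v p) < 1}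
      zero_mem' := by simp
      add_mem' := by
        intro p q hp hq
        show O.valuation (aeval v (p + q)) < 1
        rw [map_add]
        exact Valuation.map_add_lt _ hp hq
      smul_mem' := by
        intro c p hp
        show O.valuation (aeval v (c * p)) < 1
        rw [map_mul, map_mul]
        calc _ ≤ 1 * O.valuation (aeval v p) := mul_le_mul_left (ev_le O hk hv c) _
          _ = O.valuation (aeval v p) := one_mul _
          _ < 1 := hp }
  refine ⟨Submodule.IsPrincipal.generator P, fun p => ?_⟩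
  rw [← Submodule.IsPrincipal.mem_iff_generator_dvd]
  rfl

variable (hs : s ^ 2 = aeval v f) (hf : Squarefree f) (htr : Transcendental k v)

include hk hv hs in
theorem val_s_le : O.valuation s ≤ 1 := by
  have h1 : O.valuation s ^ 2 ≤ 1 := by
    rw [← map_pow, hs]; exact ev_le O hk hv f
  exact (pow_le_one_iff_of_nonneg zero_le two_ne_zero).1 h1

include hk hv hs hf htr in
/-- elements of the valuation ring as quotients -/
theorem rep [CharZero k] (n : ℕ) : ∀ (a : L) (p q r : k[X]), a ∈ O → r.natDegree ≤ n → r ≠ 0 →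
    a * aeval v r = aeval v p + aeval v q * s →
    ∃ p1 q1 p2 q2 : k[X], O.valuation (aeval v p2 + aeval v q2 * s) = 1 ∧
      a * (aeval v p2 + aeval v q2 * s) = aeval v p1 + aeval v q1 * s := by
  obtain ⟨π, hπ⟩ := exists_pi O hk hv
  have hle := ev_le O hk hv
  have hsle := val_s_le O hk hv hs
  have hunit : ∀ p : k[X], ¬ π ∣ p → O.valuation (aeval v p) = 1 := by
    intro p hp
    rw [← hπ] at hp
    exact le_antisymm (hle p) (not_lt.1 hp)
  have hne : ∀ p : k[X], p ≠ 0 → aeval v p ≠ 0 := by
    intro p hp h0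
    exact htr ⟨p, hp, h0⟩
  have hπ1 : ¬ π ∣ 1 := by
    rw [← hπ]
    simp
  have h2 := val_two (k := k) O hk
  induction n using Nat.strong_induction_on with
  | _ n ih =>
  intro a p q r ha hn hr heq
  have hva : O.valuation a ≤ 1 := (ValuationSubring.valuation_le_one_iff _ _).2 ha
  by_cases hπr : π ∣ r
  swap
  · refine ⟨p, q, r, 0, ?_, ?_⟩
    · rw [map_zero, zero_mul, add_zero]; exact hunit r hπr
    · rw [map_zero, zero_mul, add_zero]; exact heq
  by_cases hπp : π ∣ p ∧ π ∣ q
  · -- divide by `π`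
    obtain ⟨⟨p1, rfl⟩, ⟨q1, rfl⟩⟩ := hπp
    obtain ⟨r1, rfl⟩ := hπr
    have hπ0 : π ≠ 0 := left_ne_zero_of_mul hr
    have hr1 : r1 ≠ 0 := right_ne_zero_of_mul hr
    have hdeg : 0 < π.natDegree := by
      rw [Nat.pos_iff_ne_zero]
      intro h0
      apply hπ1
      rw [eq_C_of_natDegree_eq_zero h0]
      have hc : π.coeff 0 ≠ 0 := by
        intro h
        apply hπ0
        rw [eq_C_of_natDegree_eq_zero h0, h, C_0]
      exact ⟨C (π.coeff 0)⁻¹, by rw [← C_mul, mul_inv_cancel₀ hc, C_1]⟩
    have hdeg2 : (π * r1).natDegree = π.natDegree + r1.natDegree := natDegree_mul hπ0 hr1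
    refine ih r1.natDegree (by omega) a p1 q1 r1 ha le_rfl hr1 ?_
    apply mul_left_cancel₀ (hne π hπ0)
    rw [map_mul, map_mul, map_mul] at heq
    linear_combination heq
  -- now `π ∣ r`, and `π` does not divide both `p`, `q`
  obtain ⟨x, hx⟩ : ∃ x, x = aeval v p + aeval v q * s := ⟨_, rfl⟩
  obtain ⟨y, hy⟩ : ∃ y, y = aeval v p - aeval v q * s := ⟨_, rfl⟩
  have hvr : O.valuation (aeval v r) < 1 := (hπ r).2 hπr
  have hvx : O.valuation x ≤ O.valuation (aeval v r) := by
    rw [hx, ← heq, map_mul]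
    calc _ ≤ 1 * O.valuation (aeval v r) := mul_le_mul_left hva _
      _ = _ := one_mul _
  have hvqs : O.valuation (aeval v q * s) ≤ 1 := by
    rw [map_mul]
    exact mul_le_one' (hle q) hsle
  by_cases hπf : π ∣ f
  · exfalso
    obtain ⟨g, rfl⟩ := hπf
    have hg : ¬ π ∣ g := by
      rintro ⟨g', rfl⟩
      have := hf π ⟨g', by ring⟩
      exact hπ1 (isUnit_iff_dvd_one.1 this)
    have hvs : O.valuation s ^ 2 = O.valuation (aeval v π) := by
      rw [← map_pow, hs, map_mul, map_mul, hunit g hg, mul_one]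
    have hπlt : O.valuation (aeval v π) < 1 := (hπ π).2 dvd_rfl
    have hs1 : O.valuation s < 1 := by
      rw [← hvs] at hπlt
      exact (pow_lt_one_iff_of_nonneg zero_le two_ne_zero).1 hπlt
    have hrπ : O.valuation (aeval v r) ≤ O.valuation (aeval v π) := by
      obtain ⟨r1, rfl⟩ := hπr
      rw [map_mul, map_mul]
      calc _ ≤ O.valuation (aeval v π) * 1 := mul_le_mul_right (hle r1) _
        _ = _ := mul_one _
    have hp : π ∣ p := by
      by_contra hnp
      have h1 := hunit p hnp
      have h3 : O.valuation (aeval v q * s) < 1 := by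
        rw [map_mul]
        calc _ ≤ 1 * O.valuation s := mul_le_mul_left (hle q) _
          _ = O.valuation s := one_mul _
          _ < 1 := hs1
      have h4 : O.valuation x = 1 := by
        rw [hx, Valuation.map_add_eq_of_lt_left, h1]
        rw [h1]; exact h3
      rw [h4] at hvx
      exact absurd (lt_of_le_of_lt hvx hvr) (lt_irrefl _)
    apply hπp
    refine ⟨hp, ?_⟩
    rw [← hπ]
    have hpπ : O.valuation (aeval v p) ≤ O.valuation (aeval v π) := by
      obtain ⟨p1, rfl⟩ := hp
      rw [map_mul, map_mul]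
      calc _ ≤ O.valuation (aeval v π) * 1 := mul_le_mul_right (hle p1) _
        _ = _ := mul_one _
    have h5 : O.valuation (aeval v q * s) ≤ O.valuation s ^ 2 := by
      have e : aeval v q * s = x - aeval v p := by rw [hx]; ring
      rw [e, hvs]
      exact (Valuation.map_sub _ _ _).trans (max_le (hvx.trans hrπ) hpπ)
    have hs0 : O.valuation s ≠ 0 := by
      rw [Valuation.ne_zero_iff]
      intro h
      rw [h, zero_pow two_ne_zero] at hs
      exact hne _ hf.ne_zero hs.symm
    rw [map_mul, sq] at h5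
    exact lt_of_le_of_lt (le_of_mul_le_mul_right h5 (zero_lt_iff.2 hs0)) hs1
  · -- unramified case
    have hf1 := hunit f hπf
    have hs1 : O.valuation s = 1 := by
      rw [← hs, map_pow] at hf1
      exact (pow_eq_one_iff_of_nonneg zero_le two_ne_zero).1 hf1
    have hy1 : O.valuation y = 1 := by
      apply le_antisymm
      · rw [hy]
        exact (Valuation.map_sub _ _ _).trans (max_le (hle p) hvqs)
      · by_contra hlt
        push Not at hlt
        have hxlt := lt_of_le_of_lt hvx hvr
        apply hπp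
        constructor
        · rw [← hπ]
          have e : (2 : L) * aeval v p = x + y := by rw [hx, hy]; ring
          have h3 : O.valuation ((2 : L) * aeval v p) < 1 := by
            rw [e]; exact Valuation.map_add_lt _ hxlt hlt
          rwa [map_mul, h2, one_mul] at h3
        · rw [← hπ]
          have e : (2 : L) * (aeval v q * s) = x - y := by rw [hx, hy]; ring
          have h3 : O.valuation ((2 : L) * (aeval v q * s)) < 1 := by
            rw [e]
            exact lt_of_le_of_lt (Valuation.map_sub _ _ _) (max_lt hxlt hlt)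
          rwa [map_mul, h2, one_mul, map_mul, hs1, mul_one] at h3
    obtain ⟨N, hN⟩ : ∃ N : k[X], N = p ^ 2 - q ^ 2 * f := ⟨_, rfl⟩
    have hNv : aeval v N = x * y := by
      rw [hN, hx, hy, map_sub, map_pow, map_mul, map_pow, ← hs]; ring
    -- reduced fraction
    obtain ⟨g, N', r', hgN, hgr, hcop⟩ : ∃ g N' r' : k[X], N = g * N' ∧ r = g * r' ∧ IsCoprime N' r' := by
      classical
      let _ : GCDMonoid k[X] := UniqueFactorizationMonoid.toGCDMonoid k[X]
      refine ⟨gcd N r, N / gcd N r, r / gcd N r, ?_, ?_, isCoprime_div_gcd_div_gcd hr⟩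
      · exact (EuclideanDomain.mul_div_cancel' (gcd_ne_zero_of_right hr) (gcd_dvd_left N r)).symm
      · exact (EuclideanDomain.mul_div_cancel' (gcd_ne_zero_of_right hr) (gcd_dvd_right N r)).symm
    have hg0 : g ≠ 0 := by
      rintro rfl
      exact hr (by rw [hgr, zero_mul])
    have hgv := hne g hg0
    have hle2 : O.valuation (aeval v N') ≤ O.valuation (aeval v r') := by
      have h3 : O.valuation (aeval v N) ≤ O.valuation (aeval v r) := by
        rw [hNv, map_mul, hy1, mul_one]; exact hvx
      rw [hgN, hgr, map_mul, map_mul, map_mul, map_mul] at h3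
      exact le_of_mul_le_mul_left h3 (zero_lt_iff.2 ((Valuation.ne_zero_iff _).2 hgv))
    have hr' : O.valuation (aeval v r') = 1 := by
      apply hunit
      intro h
      have h4 : π ∣ N' := by
        rw [← hπ] at h ⊢
        exact lt_of_le_of_lt hle2 h
      obtain ⟨A, B, hAB⟩ := hcop
      apply hπ1
      rw [← hAB]
      exact dvd_add (Dvd.dvd.mul_left h4 A) (Dvd.dvd.mul_left h B)
    refine ⟨N', 0, r' * p, -(r' * q), ?_, ?_⟩
    · have e : aeval v (r' * p) + aeval v (-(r' * q)) * s = aeval v r' * y := by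
        rw [hy, map_neg, map_mul, map_mul]; ring
      rw [e, map_mul, hr', hy1, mul_one]
    · have e : aeval v (r' * p) + aeval v (-(r' * q)) * s = aeval v r' * y := by
        rw [hy, map_neg, map_mul, map_mul]; ring
      rw [e, map_zero, zero_mul, add_zero]
      apply mul_left_cancel₀ hgv
      have e2 : aeval v g * aeval v N' = x * y := by rw [← hNv, hgN, map_mul]
      have e3 : aeval v r = aeval v g * aeval v r' := by rw [hgr, map_mul]
      rw [e2, hx, ← heq, e3]
      ring

end

theorem sh_mem {k L : Type} [Field k] [CharZero k] [Field L] [Algebra k L] (v s : L) (f : k[X])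
    (htr : Transcendental k v) (hs : s ^ 2 = aeval v f) (hf : Squarefree f)
    (hrep : ∀ z : L, ∃ p q r : k[X], r ≠ 0 ∧ z * aeval v r = aeval v p + aeval v q * s)
    (D1 D2 : Derivation ℤ L L)
    (hD1 : ∀ p : k[X], ∃ p' : k[X], D1 (aeval v p) = aeval v p')
    (hD2 : ∀ p : k[X], ∃ p' : k[X], D2 (aeval v p) = aeval v p')
    (O : ValuationSubring L) (hk : ∀ c : k, algebraMap k L c ∈ O) (hv : v ∈ O)
    (a b : L) (ha : a ∈ O) (hb : b ∈ O) : s * (D1 a * D2 b - D2 a * D1 b) ∈ O := by
  have hsO : s ∈ O := (ValuationSubring.valuation_le_one_iff _ _).1 (val_s_le O hk hv hs)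
  have hev := ev_mem O hk hv
  have key : ∀ a ∈ O, ∃ β ∈ O, ∃ A1 ∈ O, ∃ A2 ∈ O, D1 a = A1 + β * D1 s ∧ D2 a = A2 + β * D2 s := by
    intro a ha
    obtain ⟨p, q, r, hr, heq⟩ := hrep a
    obtain ⟨p1, q1, p2, q2, hu, he⟩ := rep O hk hv hs hf htr r.natDegree a p q r ha le_rfl hr heq
    obtain ⟨y, hy⟩ : ∃ y, y = aeval v p2 + aeval v q2 * s := ⟨_, rfl⟩
    rw [← hy] at hu he
    have hy0 : y ≠ 0 := by
      rintro rfl
      simp at hu
    have hyinv : y⁻¹ ∈ O := by
      rw [← ValuationSubring.valuation_le_one_iff, map_inv₀, hu, inv_one]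
    have hDgen : ∀ D : Derivation ℤ L L, (∀ p : k[X], ∃ p' : k[X], D (aeval v p) = aeval v p') →
        ∃ A ∈ O, D a = A + (aeval v q1 - a * aeval v q2) * y⁻¹ * D s := by
      intro D hD
      have hDm : ∀ p : k[X], D (aeval v p) ∈ O := by
        intro p
        obtain ⟨p', hp'⟩ := hD p
        rw [hp']; exact hev p'
      refine ⟨((D (aeval v p1) + D (aeval v q1) * s) - a * (D (aeval v p2) + D (aeval v q2) * s)) * y⁻¹,
        mul_mem (sub_mem (add_mem (hDm _) (mul_mem (hDm _) hsO))
          (mul_mem ha (add_mem (hDm _) (mul_mem (hDm _) hsO)))) hyinv, ?_⟩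
      have h1 := congrArg D he
      rw [D.leibniz, map_add, D.leibniz, smul_eq_mul, smul_eq_mul, smul_eq_mul, smul_eq_mul] at h1
      have h2 : D y = D (aeval v p2) + (aeval v q2 * D s + s * D (aeval v q2)) := by
        rw [hy, map_add, D.leibniz, smul_eq_mul, smul_eq_mul]
      field_simp
      rw [h2] at h1
      linear_combination h1
    obtain ⟨A1, hA1, e1⟩ := hDgen D1 hD1
    obtain ⟨A2, hA2, e2⟩ := hDgen D2 hD2
    exact ⟨(aeval v q1 - a * aeval v q2) * y⁻¹, mul_mem (sub_mem (hev _) (mul_mem ha (hev _))) hyinv,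
      A1, hA1, A2, hA2, e1, e2⟩
  have hsD : ∀ D : Derivation ℤ L L, (∀ p : k[X], ∃ p' : k[X], D (aeval v p) = aeval v p') →
      s * D s ∈ O := by
    intro D hD
    obtain ⟨p', hp'⟩ := hD f
    have h1 : (2 : L) * (s * D s) = aeval v p' := by
      rw [← hp', ← hs, sq, D.leibniz, smul_eq_mul]; ring
    have h2 : O.valuation ((2 : L) * (s * D s)) ≤ 1 := by
      rw [h1]; exact ev_le O hk hv p'
    rw [map_mul, val_two (k := k) O hk, one_mul] at h2
    exact (ValuationSubring.valuation_le_one_iff _ _).1 h2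
  obtain ⟨β, hβ, A1, hA1, A2, hA2, ea1, ea2⟩ := key a ha
  obtain ⟨γ, hγ, B1, hB1, B2, hB2, eb1, eb2⟩ := key b hb
  have h1 := hsD D1 hD1
  have h2 := hsD D2 hD2
  have e : s * (D1 a * D2 b - D2 a * D1 b) = s * (A1 * B2 - A2 * B1) +
      γ * (A1 * (s * D2 s) - A2 * (s * D1 s)) + β * (B2 * (s * D1 s) - B1 * (s * D2 s)) := by
    rw [ea1, ea2, eb1, eb2]; ring
  rw [e]
  exact add_mem (add_mem (mul_mem hsO (sub_mem (mul_mem hA1 hB2) (mul_mem hA2 hB1)))
    (mul_mem hγ (sub_mem (mul_mem hA1 h2) (mul_mem hA2 h1))))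
    (mul_mem hβ (sub_mem (mul_mem hB2 h1) (mul_mem hB1 h2)))

theorem stmCore : TH160.StmCore := by
  intro k L _ _ _ _ v s f htr hs hf hrep D1 D2 hD1 hD2 h hh
  have h1 : s * h ∈ (integralClosure (Subring.closure (Set.range (algebraMap k L) ∪ {v})) L).toSubring := by
    rw [← iInf_valuationSubring_superset, Subring.mem_iInf]
    rintro ⟨O, hO⟩
    have hk : ∀ c : k, algebraMap k L c ∈ O := fun c => hO (Or.inl ⟨c, rfl⟩)
    have hv : v ∈ O := hO (Or.inr rfl)
    obtain ⟨a, ha, b, hb, c, hc, e⟩ := hh O hk hv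
    have h2 := sh_mem v s f htr hs hf hrep D1 D2 hD1 hD2 O hk hv a b ha hb
    show s * h ∈ O
    have e2 : s * h = c * (s * (D1 a * D2 b - D2 a * D1 b)) := by rw [e]; ring
    rw [e2]
    exact mul_mem hc h2
  have h2 : IsIntegral (Subring.closure (Set.range (algebraMap k L) ∪ {v})) (s * h) := h1
  rw [← Algebra.adjoin_eq_ring_closure] at h2
  exact h2

end Pool.Agent.TH511.J326
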