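import Pool.Agent.TH160.Stm
set_option autoImplicit false
open Polynomial

namespace Pool.Agent.TH511.J331

/-- a valuation ring of `ℂ` whose maximal ideal contains `5` -/
theorem exists_V : ∃ V : ValuationSubring ℂ, V.valuation (5 : ℂ) < 1 := by
  let A : Subring ℂ := (Int.castRingHom ℂ).range
  let I : Ideal A := Ideal.span {(5 : A)}
  have hI : I ≠ ⊤ := by
    intro h
    rw [Ideal.eq_top_iff_one, Ideal.mem_span_singleton] at h
    obtain ⟨⟨c, ⟨n, hn⟩⟩, hc⟩ := h
    have h1 : (1 : ℂ) = 5 * c := congrArg (fun z : A => (z : ℂ)) hc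
    rw [← hn] at h1
    have h2 : (1 : ℤ) = 5 * n := by
      have : ((1 : ℤ) : ℂ) = ((5 * n : ℤ) : ℂ) := by
        push_cast
        simpa using h1
      exact_mod_cast this
    omega
  obtain ⟨B, hB1, hB2⟩ := Ideal.image_subset_nonunits_valuationSubring I hI
  refine ⟨B, ?_⟩
  rw [← ValuationSubring.mem_nonunits_iff]
  apply hB2
  exact ⟨(5 : A), Ideal.mem_span_singleton_self _, rfl⟩

/-- divisibility by `X` from the value at `0` -/
theorem X_dvd_of {k : Type*} [Field k] {u p : k[X]} (hu : u.eval 0 ≠ 0)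
    (h : (u * p ^ 3).eval 0 = 0) : X ∣ p := by
  rw [X_dvd_iff, coeff_zero_eq_eval_zero]
  rw [eval_mul, eval_pow] at h
  rcases mul_eq_zero.1 h with h1 | h1
  · exact absurd h1 hu
  · exact pow_eq_zero_iff (n := 3) (by norm_num) |>.1 h1

theorem descent {k : Type*} [Field k] (h2 : (2 : k) ≠ 0) (n : ℕ) : ∀ a b c : k[X],
    2 * X * (X ^ 2 - 2 * X + 4) * a ^ 3 - 4 * X ^ 2 * b ^ 3 +
      (X ^ 2 + 4) * (X ^ 2 + 2 * X + 4) * c ^ 3 = 0 → X ^ n ∣ a ∧ X ^ n ∣ b ∧ X ^ n ∣ c := by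
  have h4 : (4 : k) ≠ 0 := by
    have : (4 : k) = 2 * 2 := by norm_num
    rw [this]; exact mul_ne_zero h2 h2
  have hX : (X : k[X]) ≠ 0 := X_ne_zero
  induction n with
  | zero => intro a b c _; simp
  | succ n ih =>
    intro a b c h
    -- `X ∣ c`
    have hc : X ∣ c := by
      apply X_dvd_of (u := (X ^ 2 + 4) * (X ^ 2 + 2 * X + 4))
      · simp [h4]
      · have e := congrArg (eval 0) h
        simp only [eval_add, eval_sub, eval_mul, eval_pow, eval_X, eval_zero, mul_zero, zero_mul,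
          zero_pow two_ne_zero, sub_zero, zero_add] at e
        simp only [eval_add, eval_mul, eval_pow, eval_X, zero_pow two_ne_zero, mul_zero, zero_add,
          add_zero] at e ⊢
        exact e
    obtain ⟨c1, rfl⟩ := hc
    have h1 : 2 * (X ^ 2 - 2 * X + 4) * a ^ 3 - 4 * X * b ^ 3 +
        (X ^ 2 + 4) * (X ^ 2 + 2 * X + 4) * X ^ 2 * c1 ^ 3 = 0 := by
      apply mul_left_cancel₀ hX
      linear_combination h
    have ha : X ∣ a := by
      apply X_dvd_of (u := 2 * (X ^ 2 - 2 * X + 4))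
      · simp [h2, h4]
      · have e := congrArg (eval 0) h1
        simp only [eval_add, eval_sub, eval_mul, eval_pow, eval_X, eval_zero, mul_zero, zero_mul,
          zero_pow two_ne_zero, sub_zero, zero_add, add_zero] at e ⊢
        exact e
    obtain ⟨a1, rfl⟩ := ha
    have h3 : 2 * (X ^ 2 - 2 * X + 4) * X ^ 2 * a1 ^ 3 + (-4) * b ^ 3 +
        (X ^ 2 + 4) * (X ^ 2 + 2 * X + 4) * X * c1 ^ 3 = 0 := by
      apply mul_left_cancel₀ hX
      linear_combination h1
    have hb : X ∣ b := by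
      apply X_dvd_of (u := (-4 : k[X]))
      · simp [h4]
      · have e := congrArg (eval 0) h3
        simp only [eval_add, eval_sub, eval_mul, eval_pow, eval_X, eval_zero, mul_zero, zero_mul,
          zero_pow two_ne_zero, sub_zero, zero_add, add_zero] at e ⊢
        exact e
    obtain ⟨b1, rfl⟩ := hb
    obtain ⟨d1, d2, d3⟩ := ih a1 b1 c1 (by
      apply mul_left_cancel₀ hX
      linear_combination h3)
    rw [pow_succ']
    exact ⟨mul_dvd_mul_left X d1, mul_dvd_mul_left X d2, mul_dvd_mul_left X d3⟩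

theorem residue_zero {k : Type*} [Field k] (h2 : (2 : k) ≠ 0) (a b c : k[X])
    (h : 2 * X * (X ^ 2 - 2 * X + 4) * a ^ 3 - 4 * X ^ 2 * b ^ 3 +
      (X ^ 2 + 4) * (X ^ 2 + 2 * X + 4) * c ^ 3 = 0) : a = 0 ∧ b = 0 ∧ c = 0 := by
  have key : ∀ p : k[X], (∀ n, X ^ n ∣ p) → p = 0 := by
    intro p hp
    by_contra hne
    have h1 := natDegree_le_of_dvd (hp (p.natDegree + 1)) hne
    rw [natDegree_X_pow] at h1
    omega
  exact ⟨key a fun n => (descent h2 n a b c h).1, key b fun n => (descent h2 n a b c h).2.1,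
    key c fun n => (descent h2 n a b c h).2.2⟩

theorem scaled (a b c : ℂ[X]) (h : (5 * X ^ 2 + 2 * X + 20) * (X ^ 2 - 2 * X + 4) * a ^ 3 +
    2 * X * (5 * X ^ 2 - 2 * X + 20) * b ^ 3 + (X ^ 2 + 4) * (X ^ 2 + 2 * X + 4) * c ^ 3 = 0) :
    a = 0 ∧ b = 0 ∧ c = 0 := by
  obtain ⟨V, h5⟩ := exists_V
  by_contra hne
  let P : Fin 3 → ℂ[X] := ![a, b, c]
  obtain ⟨N, hN⟩ : ∃ N, N = a.natDegree + b.natDegree + c.natDegree := ⟨_, rfl⟩
  have hdeg : ∀ i, (P i).natDegree ≤ N := by
    intro i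
    fin_cases i
    · show a.natDegree ≤ N; omega
    · show b.natDegree ≤ N; omega
    · show c.natDegree ≤ N; omega
  have hne' : ∃ i j, (P i).coeff j ≠ 0 := by
    by_contra hall
    push Not at hall
    apply hne
    refine ⟨?_, ?_, ?_⟩
    · ext j; exact hall 0 j
    · ext j; exact hall 1 j
    · ext j; exact hall 2 j
  obtain ⟨⟨i0, j0⟩, -, hmax⟩ := Finset.exists_max_image
    ((Finset.univ : Finset (Fin 3)) ×ˢ Finset.range (N + 1))
    (fun p => V.valuation ((P p.1).coeff p.2)) ⟨(0, 0), by simp⟩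
  obtain ⟨t, ht⟩ : ∃ t, t = (P i0).coeff j0 := ⟨_, rfl⟩
  have hle : ∀ i j, V.valuation ((P i).coeff j) ≤ V.valuation t := by
    intro i j
    by_cases hj : j ≤ N
    · rw [ht]
      exact hmax (i, j) (by simp; omega)
    · rw [coeff_eq_zero_of_natDegree_lt (lt_of_le_of_lt (hdeg i) (not_le.1 hj)), map_zero]
      exact zero_le
  have ht0 : t ≠ 0 := by
    rintro rfl
    obtain ⟨i, j, hij⟩ := hne'
    have := hle i j
    rw [map_zero] at this
    exact (Valuation.ne_zero_iff _).2 hij (le_antisymm this zero_le)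
  have hvt : V.valuation t ≠ 0 := (Valuation.ne_zero_iff _).2 ht0
  have hlift : ∀ i, ∃ q : V[X], q.map V.subtype = C t⁻¹ * P i := by
    intro i
    have : C t⁻¹ * P i ∈ lifts V.subtype := by
      rw [lifts_iff_coeff_lifts]
      intro j
      rw [coeff_C_mul]
      have h1 : V.valuation (t⁻¹ * (P i).coeff j) ≤ 1 := by
        rw [map_mul, map_inv₀, inv_mul_le_iff₀ (zero_lt_iff.2 hvt), mul_one]
        exact hle i j
      exact ⟨⟨_, (ValuationSubring.valuation_le_one_iff _ _).1 h1⟩, rfl⟩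
    obtain ⟨q, hq⟩ := this
    exact ⟨q, hq⟩
  choose q hq using hlift
  have hqa : (q 0).map V.subtype = C t⁻¹ * a := hq 0
  have hqb : (q 1).map V.subtype = C t⁻¹ * b := hq 1
  have hqc : (q 2).map V.subtype = C t⁻¹ * c := hq 2
  have hV : (5 * X ^ 2 + 2 * X + 20) * (X ^ 2 - 2 * X + 4) * (q 0) ^ 3 +
    2 * X * (5 * X ^ 2 - 2 * X + 20) * (q 1) ^ 3 +
      (X ^ 2 + 4) * (X ^ 2 + 2 * X + 4) * (q 2) ^ 3 = 0 := by
    apply map_injective V.subtype Subtype.val_injective
    simp only [Polynomial.map_add, Polynomial.map_sub, Polynomial.map_mul, Polynomial.map_pow,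
      Polynomial.map_X, Polynomial.map_ofNat, Polynomial.map_zero, hqa, hqb, hqc]
    linear_combination (C t⁻¹) ^ 3 * h
  -- reduce
  let κ := IsLocalRing.ResidueField V
  let ρ : V →+* κ := IsLocalRing.residue V
  have hρ5 : ρ 5 = 0 := by
    rw [IsLocalRing.residue_eq_zero_iff]
    rw [ValuationSubring.valuation_lt_one_iff]
    exact h5
  have h5' : (5 : κ) = 0 := by
    rw [← hρ5, map_ofNat]
  have h2' : (2 : κ) ≠ 0 := by
    intro h0
    have : (1 : κ) = 5 - 2 * 2 := by norm_num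
    rw [h5', h0] at this
    simp at this
  have h5X : (5 : κ[X]) = 0 := by
    have : (5 : κ[X]) = C (5 : κ) := (map_ofNat C 5).symm
    rw [this, h5', C_0]
  have hred := congrArg (Polynomial.map ρ) hV
  simp only [Polynomial.map_add, Polynomial.map_sub, Polynomial.map_mul, Polynomial.map_pow,
      Polynomial.map_X, Polynomial.map_ofNat, Polynomial.map_zero] at hred
  obtain ⟨r0, r1, r2⟩ := residue_zero h2' ((q 0).map ρ) ((q 1).map ρ) ((q 2).map ρ) (by
    linear_combination hred - ((X ^ 2 + 4) * (X ^ 2 - 2 * X + 4) * (q 0).map ρ ^ 3 +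
      2 * X * (X ^ 2 + 4) * (q 1).map ρ ^ 3) * h5X)
  have hall : ∀ i, (q i).map ρ = 0 := by
    intro i
    fin_cases i
    · exact r0
    · exact r1
    · exact r2
  have h1 : ((q i0).coeff j0 : ℂ) = 1 := by
    have h6 := congrArg (fun p => coeff p j0) (hq i0)
    simp only [coeff_map, coeff_C_mul] at h6
    rw [← ht, inv_mul_cancel₀ ht0] at h6
    exact h6
  have h7 : (q i0).coeff j0 = 1 := Subtype.ext h1
  have h8 := congrArg (fun p => coeff p j0) (hall i0)
  simp only [coeff_map, coeff_zero] at h8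
  rw [h7, map_one] at h8
  exact one_ne_zero h8

theorem stmNS : TH160.StmNS := by
  intro a b c h
  unfold TH160.pA TH160.pB TH160.pC at h
  obtain ⟨e, he⟩ := IsAlgClosed.exists_pow_nat_eq (5 : ℂ) (n := 3) (by norm_num)
  have he0 : e ≠ 0 := by
    rintro rfl
    norm_num at he
  have hC : (C (2 * (1 / 5)) : ℂ[X]) * 5 = 2 := by
    have : (5 : ℂ[X]) = C 5 := (map_ofNat C 5).symm
    rw [this, ← C_mul]
    have h2 : (2 * (1 / 5) * 5 : ℂ) = 2 := by norm_num
    rw [h2]
    exact map_ofNat C 2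
  have hCe : (C e : ℂ[X]) ^ 3 = 5 := by
    rw [← C_pow, he]
    exact map_ofNat C 5
  obtain ⟨h1, h2, h3⟩ := scaled a b (C e * c) (by
    rw [mul_pow, hCe]
    linear_combination 5 * h - (X * (X ^ 2 - 2 * X + 4) * a ^ 3 - 2 * X * X * b ^ 3) * hC)
  refine ⟨h1, h2, ?_⟩
  rcases mul_eq_zero.1 h3 with h4 | h4
  · exact absurd (C_eq_zero.1 h4) he0
  · exact h4

end Pool.Agent.TH511.J331
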