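import Pool.Agent.TH279.MD.Defs

set_option autoImplicit false

open Set Filter Metric MeasureTheory
open Pool.Agent.TH279.MD

namespace Pool.Agent.TH511.J2488

theorem continuous_vv (d j : ℕ) : Continuous (fun p : ℂ × ℂ × ℂ => vv d p.1 p.2.1 j) := by
  induction j with
  | zero => simp only [vv_zero]; fun_prop
  | succ j ih =>
    simp only [vv_succ]
    exact (ih.pow d).add continuous_fst

theorem continuous_EE (d L k : ℕ) (ω : ℂ) :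
    Continuous (fun p : ℂ × ℂ × ℂ => EE d L k ω p.1 p.2.1 p.2.2) := by
  unfold EE
  refine continuous_finsetProd _ (fun j _ => ?_)
  exact (continuous_snd.comp continuous_snd).sub (continuous_const.mul (continuous_vv d j.1))

/-- the weight -/
noncomputable def wt (d L k : ℕ) (ω : ℂ) (h₀ : ℂ → ℝ) (c v y : ℂ) : ℝ :=
  (‖f d c y - v‖ * ‖EE d L k ω c v y‖) ^ al d / ((d : ℝ) ^ 2 * ‖y‖ ^ (2 * (d - 1))) * h₀ y

theorem RU_ne_zero {d : ℕ} (hd : 2 ≤ d) {ζ : ℂ} (hζ : ζ ∈ RU d) : ζ ≠ 0 := by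
  rintro rfl
  rw [mem_RU hd, zero_pow (by omega)] at hζ
  exact zero_ne_one hζ

theorem wt_cont {d : ℕ} (hd : 2 ≤ d) (L k : ℕ) (ω : ℂ) {h₀ : ℂ → ℝ} (hcont : Continuous h₀) {ζ : ℂ}
    (hζ : ζ ∈ RU d) (K : Set (ℂ × ℂ × ℂ)) (hK : ∀ p ∈ K, p.2.2 ≠ 0) :
    ContinuousOn (fun p : ℂ × ℂ × ℂ => wt d L k ω h₀ p.1 p.2.1 (ζ * p.2.2)) K := by
  unfold wt f
  have e1 : Continuous (fun p : ℂ × ℂ × ℂ => ‖EE d L k ω p.1 p.2.1 (ζ * p.2.2)‖) := by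
    have h : Continuous (fun p : ℂ × ℂ × ℂ => ((p.1, p.2.1, ζ * p.2.2) : ℂ × ℂ × ℂ)) := by fun_prop
    exact ((continuous_EE d L k ω).comp h).norm
  have n1 : Continuous (fun p : ℂ × ℂ × ℂ => ‖(ζ * p.2.2) ^ d + p.1 - p.2.1‖) := by fun_prop
  have d1 : Continuous (fun p : ℂ × ℂ × ℂ => ((d : ℝ) ^ 2 * ‖ζ * p.2.2‖ ^ (2 * (d - 1)) : ℝ)) := by fun_prop
  have g1 : Continuous (fun p : ℂ × ℂ × ℂ => h₀ (ζ * p.2.2)) := by fun_prop
  have r1 : Continuous (fun p : ℂ × ℂ × ℂ =>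
      (‖(ζ * p.2.2) ^ d + p.1 - p.2.1‖ * ‖EE d L k ω p.1 p.2.1 (ζ * p.2.2)‖) ^ al d) :=
    (n1.mul e1).rpow_const (fun _ => Or.inr (al_pos hd).le)
  refine (r1.continuousOn.div d1.continuousOn ?_).mul g1.continuousOn
  intro p hp
  have h1 : 0 < ‖ζ * p.2.2‖ := norm_pos_iff.2 (mul_ne_zero (RU_ne_zero hd hζ) (hK p hp))
  have h2 : (0 : ℝ) < d := by exact_mod_cast (by omega : 0 < d)
  positivity

theorem sum_shift {d : ℕ} (hd : 2 ≤ d) (g : ℂ → ℝ) {y y' : ℂ} (h : y' ^ d = y ^ d) (hy : y ≠ 0) :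
    ∑ ζ ∈ RU d, g (ζ * y') = ∑ ζ ∈ RU d, g (ζ * y) := by
  set ζ₀ := y' / y with hζ₀
  have h1 : ζ₀ ^ d = 1 := by
    rw [hζ₀, div_pow, h, div_self (pow_ne_zero _ hy)]
  have h2 : y' = ζ₀ * y := by rw [hζ₀, div_mul_cancel₀ _ hy]
  have hζ₀0 : ζ₀ ≠ 0 := RU_ne_zero hd ((mem_RU hd).2 h1)
  refine Finset.sum_nbij' (fun ζ => ζ * ζ₀) (fun ζ => ζ / ζ₀) ?_ ?_ ?_ ?_ ?_
  · intro ζ hζ
    rw [mem_RU hd] at hζ ⊢
    rw [mul_pow, hζ, h1, one_mul]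
  · intro ζ hζ
    rw [mem_RU hd] at hζ ⊢
    rw [div_pow, hζ, h1, div_one]
  · intro ζ _
    exact mul_div_cancel_right₀ _ hζ₀0
  · intro ζ _
    exact div_mul_cancel₀ _ hζ₀0
  · intro ζ _
    rw [h2, mul_assoc]

theorem perturb {d L k : ℕ} (hd : 2 ≤ d) {ω c₀ : ℂ} {h₀ : ℂ → ℝ} (hcont : Continuous h₀)
    (h1 : ∀ z, 1 ≤ h₀ z) {r : ℝ} (hr : 0 < r)
    (hsup : ∀ z : ℂ, ‖z‖ ≤ r + 1 →
      TR d c₀ (fun y => ‖EE d L k ω c₀ c₀ y‖ ^ al d / (d : ℝ) ^ 2 * h₀ y) z ≤ h₀ z - 1 / 2) :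
    ∃ θ : ℝ, 0 < θ ∧ θ < 1 ∧ ∀ δ : ℝ, 0 < δ → ∃ ρ : ℝ, 0 < ρ ∧ ∀ c v : ℂ, ‖c - c₀‖ ≤ ρ →
      ‖v - c₀‖ ≤ ρ → ∀ w : ℂ, ‖w‖ ≤ r → δ ^ d ≤ ‖w - c‖ →
        TR d c (fun y => (‖f d c y - v‖ * ‖EE d L k ω c v y‖) ^ al d /
          ((d : ℝ) ^ 2 * ‖y‖ ^ (2 * (d - 1))) * h₀ y) w ≤ θ * h₀ w := by
  have hdR : (0 : ℝ) < d := by exact_mod_cast (by omega : 0 < d)
  obtain ⟨H0, hH0⟩ := (isCompact_closedBall (0 : ℂ) r).exists_bound_of_continuousOn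
    hcont.continuousOn
  set H : ℝ := max H0 1 with hHdef
  have hH1 : 1 ≤ H := le_max_right _ _
  have hHb : ∀ w : ℂ, ‖w‖ ≤ r → h₀ w ≤ H := by
    intro w hw
    have := hH0 w (by simpa using hw)
    exact (le_abs_self _).trans (this.trans (le_max_left _ _))
  have hH4 : 1 / (4 * H) ≤ 1 / 4 := by
    apply one_div_le_one_div_of_le (by norm_num)
    linarith
  refine ⟨1 - 1 / (4 * H), by linarith, by
    have : 0 < 1 / (4 * H) := by positivity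
    linarith, ?_⟩
  intro δ hδ
  set R0 : ℝ := r + ‖c₀‖ + 2 with hR0
  set K : Set (ℂ × ℂ × ℂ) :=
    closedBall c₀ 1 ×ˢ (closedBall c₀ 1 ×ˢ (closedBall 0 R0 ∩ {y : ℂ | δ ≤ ‖y‖})) with hK
  have hKc : IsCompact K := by
    refine (isCompact_closedBall _ _).prod ((isCompact_closedBall _ _).prod
      ((isCompact_closedBall _ _).inter_right ?_))
    exact isClosed_le continuous_const continuous_norm
  have hKne : ∀ p ∈ K, p.2.2 ≠ 0 := by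
    intro p hp
    have h3 : δ ≤ ‖p.2.2‖ := hp.2.2.2
    exact norm_pos_iff.1 (lt_of_lt_of_le hδ h3)
  set Φ : ℂ × ℂ × ℂ → ℝ := fun p =>
    ∑ ζ ∈ RU d, wt d L k ω h₀ p.1 p.2.1 (ζ * p.2.2) - h₀ (p.2.2 ^ d + p.1) with hΦ
  have hΦc : ContinuousOn Φ K := by
    have g3 : Continuous (fun p : ℂ × ℂ × ℂ => h₀ (p.2.2 ^ d + p.1)) := by fun_prop
    exact (continuousOn_finsetSum _ fun ζ hζ => wt_cont hd L k ω hcont hζ K hKne).sub g3.continuousOn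
  have hU := hKc.uniformContinuousOn_of_continuous hΦc
  rw [Metric.uniformContinuousOn_iff] at hU
  obtain ⟨η, hη, hU⟩ := hU (1 / 4) (by norm_num)
  refine ⟨min (η / 2) 1, by positivity, ?_⟩
  intro c v hc hv w hw hwc
  have hc1 : ‖c - c₀‖ ≤ 1 := hc.trans (min_le_right _ _)
  have hv1 : ‖v - c₀‖ ≤ 1 := hv.trans (min_le_right _ _)
  have hc2 : ‖c - c₀‖ < η := lt_of_le_of_lt (hc.trans (min_le_left _ _)) (by linarith)
  have hv2 : ‖v - c₀‖ < η := lt_of_le_of_lt (hv.trans (min_le_left _ _)) (by linarith)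
  set y := rt d (w - c) with hy
  have hy2 : y ^ d = w - c := rt_pow hd _
  have hyn : ‖y‖ ^ d = ‖w - c‖ := by rw [← norm_pow, hy2]
  have hyδ : δ ≤ ‖y‖ := by
    have : δ ^ d ≤ ‖y‖ ^ d := by rw [hyn]; exact hwc
    exact le_of_pow_le_pow_left₀ (by omega) (norm_nonneg _) this
  have hyR : ‖y‖ ≤ R0 := by
    have hc3 : ‖c‖ ≤ ‖c₀‖ + 1 := by
      calc ‖c‖ = ‖(c - c₀) + c₀‖ := by ring_nf
        _ ≤ ‖c - c₀‖ + ‖c₀‖ := norm_add_le _ _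
        _ ≤ ‖c₀‖ + 1 := by linarith
    have h4 : ‖w - c‖ ≤ r + (‖c₀‖ + 1) := (norm_sub_le _ _).trans (by linarith)
    have h5 : ‖y‖ ^ d ≤ r + (‖c₀‖ + 1) := by rw [hyn]; exact h4
    rcases le_total ‖y‖ 1 with h6 | h6
    · have := norm_nonneg c₀
      linarith
    · have h7 : ‖y‖ ≤ ‖y‖ ^ d := le_self_pow₀ h6 (by omega)
      linarith
  have hp : ((c, v, y) : ℂ × ℂ × ℂ) ∈ K := by
    refine ⟨?_, ?_, ?_, hyδ⟩
    · simpa [dist_eq_norm] using hc1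
    · simpa [dist_eq_norm] using hv1
    · simpa using hyR
  have hq : ((c₀, c₀, y) : ℂ × ℂ × ℂ) ∈ K := by
    refine ⟨?_, ?_, ?_, hyδ⟩
    · simp
    · simp
    · simpa using hyR
  have hdd : dist ((c, v, y) : ℂ × ℂ × ℂ) (c₀, c₀, y) < η := by
    rw [Prod.dist_eq, Prod.dist_eq]
    simp only [dist_self]
    refine max_lt (by rw [dist_eq_norm]; exact hc2) (max_lt (by rw [dist_eq_norm]; exact hv2) hη)
  have hdiff := hU _ hp _ hq hdd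
  rw [Real.dist_eq] at hdiff
  have hdiff' := (abs_lt.mp hdiff).2
  -- at the base point
  have hypos : 0 < ‖y‖ := lt_of_lt_of_le hδ hyδ
  have hy0 : y ≠ 0 := norm_pos_iff.1 hypos
  have hbase : Φ (c₀, c₀, y) ≤ -(1 / 2) := by
    set z := y ^ d + c₀ with hz
    have hzn : ‖z‖ ≤ r + 1 := by
      have : z = w - (c - c₀) := by rw [hz, hy2]; ring
      rw [this]
      exact (norm_sub_le _ _).trans (by linarith)
    have hs := hsup z hzn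
    have hzc : z - c₀ = y ^ d := by rw [hz]; ring
    have hsq : rt d (z - c₀) ^ d = y ^ d := by rw [rt_pow hd, hzc]
    unfold TR at hs
    rw [sum_shift hd (fun y => ‖EE d L k ω c₀ c₀ y‖ ^ al d / (d : ℝ) ^ 2 * h₀ y) hsq hy0] at hs
    have hg : ∀ ζ ∈ RU d, wt d L k ω h₀ c₀ c₀ (ζ * y) =
        ‖EE d L k ω c₀ c₀ (ζ * y)‖ ^ al d / (d : ℝ) ^ 2 * h₀ (ζ * y) := by
      intro ζ hζ
      have h6 : 0 < ‖ζ * y‖ := norm_pos_iff.2 (mul_ne_zero (RU_ne_zero hd hζ) hy0)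
      unfold wt f
      rw [add_sub_cancel_right, Real.mul_rpow (norm_nonneg _) (norm_nonneg _), norm_pow,
        pow_al hd (norm_nonneg _)]
      field_simp
    have hΦe : Φ (c₀, c₀, y) = ∑ ζ ∈ RU d, ‖EE d L k ω c₀ c₀ (ζ * y)‖ ^ al d / (d : ℝ) ^ 2 * h₀ (ζ * y) -
        h₀ z := by
      simp only [hΦ]
      rw [Finset.sum_congr rfl hg]
    rw [hΦe]
    linarith
  have hfin : Φ (c, v, y) ≤ -(1 / 4) := by linarith
  have hwy : y ^ d + c = w := by rw [hy2]; ring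
  have hTR : TR d c (fun y => (‖f d c y - v‖ * ‖EE d L k ω c v y‖) ^ al d /
      ((d : ℝ) ^ 2 * ‖y‖ ^ (2 * (d - 1))) * h₀ y) w - h₀ w = Φ (c, v, y) := by
    simp only [hΦ, hwy]
    rfl
  have hw1 : h₀ w ≤ H := hHb w hw
  have : 1 / (4 * H) * h₀ w ≤ 1 / 4 := by
    rw [div_mul_eq_mul_div, one_mul, div_le_div_iff₀ (by positivity) (by norm_num)]
    linarith
  nlinarith

end Pool.Agent.TH511.J2488
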