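import Mathlib
import Pool.Agent.Helper549.Tri.DataDef
import Pool.Agent.TH387.Base
import Pool.Agent.TH387.ShapeH
set_option autoImplicit false
noncomputable section
open scoped BigOperators

namespace Pool.Agent.TH511.J44
open Pool.Agent.Helper549.Tri

/-- a rational linear relation for an irrational number is trivial -/
theorem irr_lem {x : ℝ} (hx : ¬ ∃ q : ℚ, x = q) {p q : ℚ} (h : x = p * x + q) : q = 0 := by
  by_cases hp : p = 1
  · subst hp
    have h1 : (q : ℝ) = 0 := by push_cast at h; linarith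
    exact_mod_cast h1
  · exfalso
    apply hx
    have hp' : (1 - (p : ℝ)) ≠ 0 := by
      intro h0
      apply hp
      have : (p : ℝ) = 1 := by linarith
      exact_mod_cast this
    refine ⟨q / (1 - p), ?_⟩
    push_cast
    rw [eq_div_iff hp']
    linear_combination h

/-- a natural number which is the square of a rational is a perfect square -/
theorem nat_sq {N : ℕ} {q : ℚ} (h : (N : ℚ) = q * q) : IsSquare N := by
  have h1 : IsSquare (N : ℚ) := ⟨q, h⟩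
  exact Rat.isSquare_natCast_iff.1 h1

theorem setup {N : ℕ} {ℓ θ S A : Fin 3 → ℝ} {κ β : Fin 3 → Fin 3 → ℕ}
    (h : Data N ℓ θ S A κ β) (h32 : 3 * θ 0 + 2 * θ 1 = Real.pi) :
    ∃ s σ : ℝ, 0 < s ∧ s < 1 ∧ 0 < σ ∧ ℓ 0 = ℓ 2 * s ∧ ℓ 1 = ℓ 2 * (1 - s ^ 2) ∧
      Real.sin (θ 0) = s * σ ∧ Real.sin (θ 1) = (1 - s ^ 2) * σ ∧ Real.sin (θ 2) = σ ∧
      Real.cos (θ 0) = 1 - s ^ 2 / 2 ∧ Real.cos (θ 1) = s * (3 - s ^ 2) / 2 ∧
      Real.sin (θ 0 + θ 1) = σ := by
  have h4 := h.tsum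
  obtain ⟨ε, hε⟩ : ∃ ε, ε = θ 0 + θ 1 := ⟨_, rfl⟩
  have hα : θ 0 = Real.pi - 2 * ε := by linarith
  have hβ : θ 1 = 3 * ε - Real.pi := by linarith
  have hγ : θ 2 = Real.pi - ε := by linarith
  obtain ⟨y, hy⟩ : ∃ y, y = 2 * Real.cos ε := ⟨_, rfl⟩
  have hsin : 0 < Real.sin ε := by
    apply Real.sin_pos_of_pos_of_lt_pi
    · have := h.tpos 0
      have := h.tpos 1
      linarith
    · have := h.tpos 2
      linarith
  obtain ⟨σ, hσ⟩ : ∃ σ, σ = Real.sin ε := ⟨_, rfl⟩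
  have hcs : σ ^ 2 = 1 - (y / 2) ^ 2 := by
    have := Real.sin_sq_add_cos_sq ε
    rw [hσ, hy]
    linarith [this]
  have hc : Real.cos ε = y / 2 := by rw [hy]; ring
  have sα : Real.sin (θ 0) = y * σ := by
    rw [hα, Real.sin_pi_sub, Real.sin_two_mul, hc, ← hσ]; ring
  have sβ : Real.sin (θ 1) = (1 - y ^ 2) * σ := by
    rw [hβ, Real.sin_sub_pi, Real.sin_three_mul, ← hσ]
    have : σ ^ 3 = σ * σ ^ 2 := by ring
    rw [this, hcs]; ring
  have sγ : Real.sin (θ 2) = σ := by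
    rw [hγ, Real.sin_pi_sub, ← hσ]
  have cα : Real.cos (θ 0) = 1 - y ^ 2 / 2 := by
    rw [hα, Real.cos_pi_sub, Real.cos_two_mul, hc]; ring
  have cβ : Real.cos (θ 1) = y * (3 - y ^ 2) / 2 := by
    rw [hβ, Real.cos_sub_pi, Real.cos_three_mul, hc]; ring
  rw [← hσ] at hsin
  have hne : σ ≠ 0 := hsin.ne'
  have ha : ℓ 0 = ℓ 2 * y := by
    have := h.sinet 0 2
    rw [sα, sγ] at this
    apply mul_right_cancel₀ hne
    rw [this]; ring
  have hb : ℓ 1 = ℓ 2 * (1 - y ^ 2) := by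
    have := h.sinet 1 2
    rw [sβ, sγ] at this
    apply mul_right_cancel₀ hne
    rw [this]; ring
  have hl0 := h.lpos 0
  have hl1 := h.lpos 1
  have hc0 := h.lpos 2
  have hy0 : 0 < y := by
    rw [ha] at hl0
    exact pos_of_mul_pos_right hl0 hc0.le
  have hy1 : 0 < 1 - y ^ 2 := by
    rw [hb] at hl1
    exact pos_of_mul_pos_right hl1 hc0.le
  have hylt : y < 1 := by nlinarith
  exact ⟨y, σ, hy0, hylt, hsin, ha, hb, sα, sβ, sγ, cα, cβ, by rw [← hε, hσ]⟩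

end Pool.Agent.TH511.J44

namespace Pool.Agent.TH387
open Pool.Agent.Helper549.Tri Pool.Agent.TH511.J44

theorem shape_c {N : ℕ} (hN : ¬ IsSquare N) : ShapeH N ![![2,0,0],![1,1,0],![0,1,0]] := by
  intro ℓ θ S A β h _
  have hA0 : A 0 = 2 * θ 0 := by
    have := h.angles 0
    simpa [Fin.sum_univ_three] using this
  have hA1 : A 1 = θ 0 + θ 1 := by
    have := h.angles 1
    simpa [Fin.sum_univ_three] using this
  have hA2 : A 2 = θ 1 := by
    have := h.angles 2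
    simpa [Fin.sum_univ_three] using this
  have h3 := h.Asum
  obtain ⟨s, σ, hs0, hs1, hσ, ha, hb, sα, sβ, sγ, cα, cβ, sαβ⟩ := setup h (by linarith)
  have hne : σ ≠ 0 := hσ.ne'
  have sA0 : Real.sin (A 0) = s * (2 - s ^ 2) * σ := by
    rw [hA0, Real.sin_two_mul, sα, cα]; ring
  have sA1 : Real.sin (A 1) = σ := by rw [hA1, sαβ]
  have sA2 : Real.sin (A 2) = (1 - s ^ 2) * σ := by rw [hA2, sβ]
  have hS0 : S 0 = S 1 * (s * (2 - s ^ 2)) := by
    have := h.sineT 0 1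
    rw [sA0, sA1] at this
    apply mul_right_cancel₀ hne
    rw [this]; ring
  have hS2 : S 2 = S 1 * (1 - s ^ 2) := by
    have := h.sineT 2 1
    rw [sA2, sA1] at this
    apply mul_right_cancel₀ hne
    rw [this]; ring
  have hc0 := h.lpos 2
  have hS1 := h.Spos 1
  have hy1 : 0 < 1 - s ^ 2 := by nlinarith
  obtain ⟨x, hx⟩ : ∃ x, x = S 1 / ℓ 2 := ⟨_, rfl⟩
  have hx0 : 0 < x := by rw [hx]; positivity
  have hSs : S 1 = x * ℓ 2 := by rw [hx]; field_simp
  have harea : x ^ 2 * (2 - s ^ 2) = N := by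
    have := h.area
    rw [sγ, sA2, hS0, ha, hb, hSs] at this
    have h7 : 0 < ℓ 2 ^ 2 * s * (1 - s ^ 2) * σ := by positivity
    apply mul_left_cancel₀ h7.ne'
    linear_combination -this
  obtain ⟨M, hM1, hM2, hM3, -⟩ := h.char ![-1, 1, 1] (by decide) (by decide) (by decide) (by decide)
  have hM4 : x * s = (M : ℝ) := by
    simp [Fin.sum_univ_three, Fin.prod_univ_three] at hM3
    rw [hS0, hS2, ha, hb, hSs] at hM3
    have h7 : 0 < ℓ 2 * ((1 - s) * (2 + s)) := by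
      have : 0 < 1 - s := by linarith
      positivity
    apply mul_left_cancel₀ h7.ne'
    linear_combination hM3
  by_cases hxr : ∃ q : ℚ, x = q
  · obtain ⟨q, hq⟩ := hxr
    have hq0 : (0 : ℝ) < q := by rw [← hq]; exact hx0
    have hq0' : 0 < q := by exact_mod_cast hq0
    have hsq : s = ((M / q : ℚ) : ℝ) := by
      push_cast
      rw [eq_div_iff hq0.ne', ← hM4, hq]; ring
    obtain ⟨t, ht⟩ : ∃ t : ℚ, t = M / q := ⟨_, rfl⟩
    rw [← ht] at hsq
    rw [hsq] at hs0 hs1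
    refine Or.inr (Or.inr (Or.inr (Or.inl ⟨t, by exact_mod_cast hs0, by exact_mod_cast hs1, ?_, ?_⟩)))
    · rintro ⟨w, hw⟩
      apply hN
      apply nat_sq (q := q * w)
      have h1 : ((q ^ 2 * (2 - t ^ 2) : ℚ) : ℝ) = ((N : ℚ) : ℝ) := by
        push_cast
        rw [← harea, hq, hsq]
      have h2 : q ^ 2 * (2 - t ^ 2) = N := by exact_mod_cast h1
      rw [← h2, hw]; ring
    · refine ⟨Equiv.refl _, S 1, hS1, ?_, ?_, ?_⟩
      · rw [← hsq]; exact hS0
      · simp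
      · rw [← hsq]; exact hS2
  · exfalso
    have hx2 : x ^ 2 = (((N + M ^ 2) / 2 : ℚ) : ℝ) := by
      push_cast
      rw [← harea, ← hM4]; ring
    obtain ⟨X, hX⟩ : ∃ X : ℚ, X = (N + M ^ 2) / 2 := ⟨_, rfl⟩
    rw [← hX] at hx2
    have hX0 : (X : ℝ) ≠ 0 := by rw [← hx2]; positivity
    have hsx : s = M / X * x := by
      rw [← hx2, ← hM4]; field_simp
    have hs2 : s ^ 2 = M ^ 2 / X := by
      rw [← hx2, ← hM4]; field_simp
    have hside : x = β 1 0 * s + β 1 1 * (1 - s ^ 2) + β 1 2 := by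
      have := h.side 1
      rw [Fin.sum_univ_three, ha, hb, hSs] at this
      apply mul_left_cancel₀ hc0.ne'
      linear_combination this
    have e3 := irr_lem (q := (β 1 1 : ℚ) * (1 - M ^ 2 / X) + (β 1 2 : ℚ)) (p := (β 1 0 : ℚ) * (M / X))
      hxr (by
        push_cast
        rw [← hs2]
        calc x = β 1 0 * s + β 1 1 * (1 - s ^ 2) + β 1 2 := hside
          _ = β 1 0 * (M / X * x) + β 1 1 * (1 - s ^ 2) + β 1 2 := by rw [← hsx]
          _ = _ := by ring)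
    have e3' : (β 1 1 : ℝ) * (1 - s ^ 2) + (β 1 2 : ℝ) = 0 := by
      rw [hs2]; exact_mod_cast e3
    have e4 : (0 : ℝ) ≤ (β 1 1 : ℝ) := Nat.cast_nonneg _
    have e5 : (0 : ℝ) ≤ (β 1 2 : ℝ) := Nat.cast_nonneg _
    have e45 : (0 : ℝ) ≤ (β 1 1 : ℝ) * (1 - s ^ 2) := mul_nonneg e4 hy1.le
    have e7 : (β 1 2 : ℝ) = 0 := by linarith only [e3', e5, e45]
    have e6' : (β 1 1 : ℝ) * (1 - s ^ 2) = 0 := by linarith only [e3', e5, e45]
    have e6 : (β 1 1 : ℝ) = 0 := by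
      rcases mul_eq_zero.1 e6' with h0 | h0
      · exact h0
      · exact absurd h0 hy1.ne'
    have e8 : β 1 1 = 0 := by exact_mod_cast e6
    have e9 : β 1 2 = 0 := by exact_mod_cast e7
    obtain ⟨u, z, hxz, hu, hz⟩ := h.corner 0 1 (by decide)
    fin_cases u
    · fin_cases z
      · exact hxz rfl
      · exact absurd hz (by simp [e8])
      · exact absurd hz (by simp [e9])
    · exact absurd hu (by simp)
    · exact absurd hu (by simp)

theorem shape_d {N : ℕ} (hN : ¬ IsSquare N) : ShapeH N ![![2,0,0],![1,0,0],![0,2,0]] := by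
  intro ℓ θ S A β h _
  have hA0 : A 0 = 2 * θ 0 := by
    have := h.angles 0
    simpa [Fin.sum_univ_three] using this
  have hA1 : A 1 = θ 0 := by
    have := h.angles 1
    simpa [Fin.sum_univ_three] using this
  have hA2 : A 2 = 2 * θ 1 := by
    have := h.angles 2
    simpa [Fin.sum_univ_three] using this
  have h3 := h.Asum
  obtain ⟨s, σ, hs0, hs1, hσ, ha, hb, sα, sβ, sγ, cα, cβ, sαβ⟩ := setup h (by linarith)
  have hne : σ ≠ 0 := hσ.ne'
  have sA0 : Real.sin (A 0) = s * (2 - s ^ 2) * σ := by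
    rw [hA0, Real.sin_two_mul, sα, cα]; ring
  have sA1 : Real.sin (A 1) = s * σ := by rw [hA1, sα]
  have sA2 : Real.sin (A 2) = s * ((1 - s ^ 2) * (3 - s ^ 2)) * σ := by
    rw [hA2, Real.sin_two_mul, sβ, cβ]; ring
  have hsne : s * σ ≠ 0 := by positivity
  have hS0 : S 0 = S 1 * (2 - s ^ 2) := by
    have := h.sineT 0 1
    rw [sA0, sA1] at this
    apply mul_right_cancel₀ hsne
    rw [this]; ring
  have hS2 : S 2 = S 1 * ((1 - s ^ 2) * (3 - s ^ 2)) := by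
    have := h.sineT 2 1
    rw [sA2, sA1] at this
    apply mul_right_cancel₀ hsne
    rw [this]; ring
  have hc0 := h.lpos 2
  have hS1 := h.Spos 1
  have hy1 : 0 < 1 - s ^ 2 := by nlinarith
  have hy2 : 0 < 2 - s ^ 2 := by nlinarith
  obtain ⟨x, hx⟩ : ∃ x, x = S 1 / ℓ 2 := ⟨_, rfl⟩
  have hx0 : 0 < x := by rw [hx]; positivity
  have hSs : S 1 = x * ℓ 2 := by rw [hx]; field_simp
  have harea : x ^ 2 * ((2 - s ^ 2) * (3 - s ^ 2)) = N := by
    have := h.area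
    rw [sγ, sA2, hS0, ha, hb, hSs] at this
    have h7 : 0 < ℓ 2 ^ 2 * s * (1 - s ^ 2) * σ := by positivity
    apply mul_left_cancel₀ h7.ne'
    linear_combination -this
  obtain ⟨M, hM1, hM2, hM3, -⟩ := h.char ![-1, 1, 1] (by decide) (by decide) (by decide) (by decide)
  obtain ⟨K, hK1, hK2, hK3, -⟩ := h.char ![-1, -1, -1] (by decide) (by decide) (by decide) (by decide)
  have hM4 : x * (2 + s - s ^ 2) = (M : ℝ) := by
    simp [Fin.sum_univ_three, Fin.prod_univ_three] at hM3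
    rw [hS0, hS2, ha, hb, hSs] at hM3
    have h7 : 0 < ℓ 2 * ((1 - s) * (2 + s)) := by
      have : 0 < 1 - s := by linarith
      positivity
    apply mul_left_cancel₀ h7.ne'
    linear_combination hM3
  have hK4 : x * (2 - s - s ^ 2) = -(K : ℝ) := by
    simp [Fin.sum_univ_three, Fin.prod_univ_three] at hK3
    rw [hS0, hS2, ha, hb, hSs] at hK3
    have h7 : 0 < ℓ 2 * ((1 + s) * (2 - s)) := by
      have : 0 < 2 - s := by linarith
      positivity
    apply mul_left_cancel₀ h7.ne'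
    linear_combination hK3
  have hv : x * (2 - s ^ 2) = (((M - K) / 2 : ℚ) : ℝ) := by
    push_cast
    linear_combination (1 / 2 : ℝ) * hM4 + (1 / 2 : ℝ) * hK4
  have hu : x * s = (((M + K) / 2 : ℚ) : ℝ) := by
    push_cast
    linear_combination (1 / 2 : ℝ) * hM4 - (1 / 2 : ℝ) * hK4
  obtain ⟨v, hv'⟩ : ∃ v : ℚ, v = (M - K) / 2 := ⟨_, rfl⟩
  obtain ⟨u, hu'⟩ : ∃ u : ℚ, u = (M + K) / 2 := ⟨_, rfl⟩
  rw [← hv'] at hv
  rw [← hu'] at hu
  have hv0 : (v : ℝ) ≠ 0 := by rw [← hv]; positivity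
  obtain ⟨q, hq'⟩ : ∃ q : ℚ, q = N / v - v := ⟨_, rfl⟩
  have hq : x = q := by
    rw [hq']
    push_cast
    rw [eq_sub_iff_add_eq, eq_div_iff hv0, ← hv, ← harea]
    ring
  have hq0 : (0 : ℝ) < q := by rw [← hq]; exact hx0
  have hsq : s = ((u / q : ℚ) : ℝ) := by
    push_cast
    rw [eq_div_iff hq0.ne', ← hu, hq]; ring
  obtain ⟨t, ht⟩ : ∃ t : ℚ, t = u / q := ⟨_, rfl⟩
  rw [← ht] at hsq
  rw [hsq] at hs0 hs1
  refine Or.inr (Or.inr (Or.inr (Or.inr (Or.inl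
    ⟨t, by exact_mod_cast hs0, by exact_mod_cast hs1, ?_, ?_⟩))))
  · rintro ⟨w, hw⟩
    apply hN
    apply nat_sq (q := q * w)
    have h1 : ((q ^ 2 * ((2 - t ^ 2) * (3 - t ^ 2)) : ℚ) : ℝ) = ((N : ℚ) : ℝ) := by
      push_cast
      rw [← harea, hq, hsq]
    have h2 : q ^ 2 * ((2 - t ^ 2) * (3 - t ^ 2)) = N := by exact_mod_cast h1
    rw [← h2, hw]; ring
  · refine ⟨Equiv.refl _, S 1, hS1, ?_, ?_, ?_⟩
    · rw [← hsq]; exact hS0
    · simp
    · rw [← hsq]; exact hS2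

end Pool.Agent.TH387
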