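import Mathlib
import Pool.Agent.Helper549.Tri.DataDef
import Pool.Agent.TH387.Base
import Pool.Agent.TH387.ShapeH
set_option autoImplicit false
set_option maxHeartbeats 2000000
noncomputable section
open scoped BigOperators

namespace Pool.Agent.TH511.J45
open Pool.Agent.Helper549.Tri

/-- a natural number which is the square of a rational is a perfect square -/
theorem nat_sq {N : ℕ} {q : ℚ} (h : (N : ℚ) = q * q) : IsSquare N := by
  have h1 : IsSquare (N : ℚ) := ⟨q, h⟩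
  exact Rat.isSquare_natCast_iff.1 h1

/-- common natural representation of two positive rationals -/
theorem natrep (u w : ℚ) (hu : 0 < u) (hw : 0 < w) :
    ∃ p q c : ℕ, 0 < p ∧ 0 < q ∧ 0 < c ∧ (p : ℚ) = q * u ∧ (c : ℚ) = q * w := by
  have hun : 0 < u.num := Rat.num_pos.2 hu
  have hwn : 0 < w.num := Rat.num_pos.2 hw
  have hud : (u.den : ℚ) ≠ 0 := by exact_mod_cast u.den_ne_zero
  have hwd : (w.den : ℚ) ≠ 0 := by exact_mod_cast w.den_ne_zero
  have h1 : ((u.num.toNat : ℕ) : ℚ) = u * u.den := by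
    have : ((u.num.toNat : ℕ) : ℤ) = u.num := Int.toNat_of_nonneg hun.le
    have h2 : ((u.num.toNat : ℕ) : ℚ) = ((u.num : ℤ) : ℚ) := by exact_mod_cast this
    rw [h2, Rat.mul_den_eq_num]
  have h1' : ((w.num.toNat : ℕ) : ℚ) = w * w.den := by
    have : ((w.num.toNat : ℕ) : ℤ) = w.num := Int.toNat_of_nonneg hwn.le
    have h2 : ((w.num.toNat : ℕ) : ℚ) = ((w.num : ℤ) : ℚ) := by exact_mod_cast this
    rw [h2, Rat.mul_den_eq_num]
  refine ⟨u.num.toNat * w.den, u.den * w.den, w.num.toNat * u.den, ?_, ?_, ?_, ?_, ?_⟩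
  · have : 0 < u.num.toNat := by omega
    have := w.den_pos
    positivity
  · have := w.den_pos
    have := u.den_pos
    positivity
  · have : 0 < w.num.toNat := by omega
    have := u.den_pos
    positivity
  · push_cast
    rw [h1]; ring
  · push_cast
    rw [h1']; ring

theorem setup {N : ℕ} {ℓ θ S A : Fin 3 → ℝ} {κ β : Fin 3 → Fin 3 → ℕ}
    (h : Data N ℓ θ S A κ β) (hab : θ 0 + θ 1 = Real.pi / 3) :
    ∃ t : ℝ, 0 < t ∧ t ^ 2 = 3 / 4 ∧ Real.sin (θ 2) = t ∧ Real.sin (Real.pi / 3) = t ∧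
      ℓ 0 * t = ℓ 2 * Real.sin (θ 0) ∧ ℓ 1 * t = ℓ 2 * Real.sin (θ 1) ∧
      ℓ 2 * Real.cos (θ 0) = ℓ 1 + ℓ 0 / 2 ∧ ℓ 2 * Real.cos (θ 1) = ℓ 0 + ℓ 1 / 2 ∧
      ℓ 2 ^ 2 = ℓ 0 ^ 2 + ℓ 0 * ℓ 1 + ℓ 1 ^ 2 := by
  have hts := h.tsum
  have hg : θ 2 = Real.pi - Real.pi / 3 := by linarith
  have hsg : Real.sin (θ 2) = √3 / 2 := by rw [hg, Real.sin_pi_sub, Real.sin_pi_div_three]
  obtain ⟨t, ht⟩ : ∃ t : ℝ, t = √3 / 2 := ⟨_, rfl⟩
  have ht0 : 0 < t := by rw [ht]; positivity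
  have ht2 : t ^ 2 = 3 / 4 := by
    rw [ht, div_pow, Real.sq_sqrt (by norm_num)]; norm_num
  rw [← ht] at hsg
  have e1 := h.sinet 0 2
  have e2 := h.sinet 1 2
  rw [hsg] at e1
  rw [hsg] at e2
  have hb' : θ 1 = Real.pi / 3 - θ 0 := by linarith
  have ha' : θ 0 = Real.pi / 3 - θ 1 := by linarith
  have f1 : Real.sin (θ 1) = t * Real.cos (θ 0) - 1 / 2 * Real.sin (θ 0) := by
    conv_lhs => rw [hb']
    rw [Real.sin_sub, Real.sin_pi_div_three, Real.cos_pi_div_three, ht]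
  have f2 : Real.sin (θ 0) = t * Real.cos (θ 1) - 1 / 2 * Real.sin (θ 1) := by
    conv_lhs => rw [ha']
    rw [Real.sin_sub, Real.sin_pi_div_three, Real.cos_pi_div_three, ht]
  have g1 : ℓ 2 * Real.cos (θ 0) = ℓ 1 + ℓ 0 / 2 := by
    have : t * (ℓ 2 * Real.cos (θ 0)) = t * (ℓ 1 + ℓ 0 / 2) := by
      linear_combination (-ℓ 2) * f1 - e2 - e1 / 2
    exact mul_left_cancel₀ ht0.ne' this
  have g2 : ℓ 2 * Real.cos (θ 1) = ℓ 0 + ℓ 1 / 2 := by
    have : t * (ℓ 2 * Real.cos (θ 1)) = t * (ℓ 0 + ℓ 1 / 2) := by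
      linear_combination (-ℓ 2) * f2 - e1 - e2 / 2
    exact mul_left_cancel₀ ht0.ne' this
  have law : ℓ 2 ^ 2 = ℓ 0 ^ 2 + ℓ 0 * ℓ 1 + ℓ 1 ^ 2 := by
    have h1 := Real.sin_sq_add_cos_sq (θ 0)
    have h2 : (ℓ 2 * Real.sin (θ 0)) ^ 2 + (ℓ 2 * Real.cos (θ 0)) ^ 2 = ℓ 2 ^ 2 := by
      linear_combination ℓ 2 ^ 2 * h1
    rw [← e1, g1] at h2
    linear_combination -h2 + ℓ 0 ^ 2 * ht2
  exact ⟨t, ht0, ht2, hsg, by rw [Real.sin_pi_div_three, ht], e1, e2, g1, g2, law⟩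

/-- rational parametrization -/
theorem paramY {a b c : ℝ} (ha : 0 < a) (hb : 0 < b) (hc : 0 < c)
    (law : c ^ 2 = a ^ 2 + a * b + b ^ 2) :
    ∃ y u w : ℝ, 1 / 2 < y ∧ y < 1 ∧ 0 < u ∧ 0 < w ∧ u * (2 * y - 1) = 1 - y ^ 2 ∧
      w * (2 * y - 1) = y ^ 2 - y + 1 ∧ a = b * u ∧ c = b * w ∧ w ^ 2 = u ^ 2 + u + 1 := by
  obtain ⟨u, hu⟩ : ∃ u, u = a / b := ⟨_, rfl⟩
  obtain ⟨w, hw⟩ : ∃ w, w = c / b := ⟨_, rfl⟩
  have hau : a = b * u := by rw [hu]; field_simp
  have hcw : c = b * w := by rw [hw]; field_simp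
  have hu0 : 0 < u := by rw [hu]; positivity
  have hw0 : 0 < w := by rw [hw]; positivity
  have hlaw : w ^ 2 = u ^ 2 + u + 1 := by
    rw [hau, hcw] at law
    have : b ^ 2 * w ^ 2 = b ^ 2 * (u ^ 2 + u + 1) := by linear_combination law
    exact mul_left_cancel₀ (by positivity) this
  refine ⟨w - u, u, w, ?_, ?_, hu0, hw0, ?_, ?_, hau, hcw, hlaw⟩
  · have : u + 1 / 2 < w := by
      apply lt_of_pow_lt_pow_left₀ 2 hw0.le
      rw [hlaw]; nlinarith
    linarith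
  · have : w < u + 1 := by
      apply lt_of_pow_lt_pow_left₀ 2 (by positivity)
      rw [hlaw]; nlinarith
    linarith
  · linear_combination hlaw
  · linear_combination hlaw

theorem natshape {a b c u w : ℝ} {uq wq : ℚ} (hb : 0 < b) (hu0 : 0 < u) (hw0 : 0 < w)
    (hau : a = b * u) (hcw : c = b * w) (hlaw : w ^ 2 = u ^ 2 + u + 1) (hu : u = uq) (hw : w = wq) :
    ∃ (p q c0 : ℕ) (r : ℝ), 0 < p ∧ 0 < q ∧ 0 < c0 ∧ 0 < r ∧ c0 ^ 2 = p ^ 2 + p * q + q ^ 2 ∧
      a = r * p ∧ b = r * q ∧ c = r * c0 := by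
  rw [hu] at hu0
  rw [hw] at hw0
  obtain ⟨p, q, c0, hp, hq, hc, e1, e2⟩ := natrep uq wq (by exact_mod_cast hu0) (by exact_mod_cast hw0)
  have hq' : (0 : ℝ) < q := by exact_mod_cast hq
  have e1' : (p : ℝ) = q * u := by rw [hu]; exact_mod_cast e1
  have e2' : (c0 : ℝ) = q * w := by rw [hw]; exact_mod_cast e2
  refine ⟨p, q, c0, b / q, hp, hq, hc, by positivity, ?_, ?_, ?_, ?_⟩
  · have : ((c0 ^ 2 : ℕ) : ℝ) = ((p ^ 2 + p * q + q ^ 2 : ℕ) : ℝ) := by
      push_cast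
      rw [e1', e2']
      linear_combination (q : ℝ) ^ 2 * hlaw
    exact_mod_cast this
  · rw [e1', hau]; field_simp
  · field_simp
  · rw [e2', hcw]; field_simp

end Pool.Agent.TH511.J45

namespace Pool.Agent.TH387
open Pool.Agent.Helper549.Tri Pool.Agent.TH511.J45

theorem shape_u1 {N : ℕ} (hN : ¬ IsSquare N) : ShapeH N ![![3,0,0],![0,1,0],![0,2,0]] := by
  intro ℓ θ S A β h _
  have hA0 : A 0 = 3 * θ 0 := by simpa [Fin.sum_univ_three] using h.angles 0
  have hA1 : A 1 = θ 1 := by simpa [Fin.sum_univ_three] using h.angles 1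
  have hA2 : A 2 = 2 * θ 1 := by simpa [Fin.sum_univ_three] using h.angles 2
  have hAs := h.Asum
  obtain ⟨t, ht0, ht2, hsg, hs3, e1, e2, g1, g2, law⟩ := setup h (by linarith)
  obtain ⟨a, ha⟩ : ∃ a, a = ℓ 0 := ⟨_, rfl⟩
  obtain ⟨b, hb⟩ : ∃ b, b = ℓ 1 := ⟨_, rfl⟩
  obtain ⟨c, hc⟩ : ∃ c, c = ℓ 2 := ⟨_, rfl⟩
  have ha0 : 0 < a := ha ▸ h.lpos 0
  have hb0 : 0 < b := hb ▸ h.lpos 1
  have hc0 : 0 < c := hc ▸ h.lpos 2
  rw [← ha, ← hc] at e1
  rw [← hb, ← hc] at e2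
  rw [← ha, ← hb, ← hc] at g1 g2 law
  have sA0 : c ^ 3 * Real.sin (A 0) = t * (3 * a * b * (a + b)) := by
    rw [hA0, Real.sin_three_mul]
    have : c ^ 3 * (3 * Real.sin (θ 0) - 4 * Real.sin (θ 0) ^ 3) =
        (c * Real.sin (θ 0)) * (3 * c ^ 2 - 4 * (c * Real.sin (θ 0)) ^ 2) := by ring
    rw [this, ← e1, law]
    linear_combination (-4 * a ^ 3 * t) * ht2
  have sA1 : c * Real.sin (A 1) = t * b := by
    rw [hA1, ← e2]; ring
  have sA2 : c ^ 2 * Real.sin (A 2) = t * (b * (2 * a + b)) := by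
    rw [hA2, Real.sin_two_mul]
    have : c ^ 2 * (2 * Real.sin (θ 1) * Real.cos (θ 1)) =
        2 * (c * Real.sin (θ 1)) * (c * Real.cos (θ 1)) := by ring
    rw [this, ← e2, g2]
    ring
  have q1 := h.sineT 0 1
  have q2 := h.sineT 2 1
  have htb : t * b ≠ 0 := by positivity
  have hS0 : S 0 * c ^ 2 = S 1 * (3 * a * (a + b)) := by
    have : (t * b) * (S 0 * c ^ 2) = (t * b) * (S 1 * (3 * a * (a + b))) := by
      linear_combination c ^ 3 * q1 + S 1 * sA0 - S 0 * c ^ 2 * sA1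
    exact mul_left_cancel₀ htb this
  have hS2 : S 2 * c = S 1 * (2 * a + b) := by
    have : (t * b) * (S 2 * c) = (t * b) * (S 1 * (2 * a + b)) := by
      linear_combination c ^ 2 * q2 + S 1 * sA2 - S 2 * c * sA1
    exact mul_left_cancel₀ htb this
  obtain ⟨s, hs⟩ : ∃ s, s = S 1 / c ^ 2 := ⟨_, rfl⟩
  have hS1 : S 1 = s * c ^ 2 := by rw [hs]; field_simp
  have hs0 : 0 < s := by rw [hs]; have := h.Spos 1; positivity
  have hS0' : S 0 = s * (3 * a * (a + b)) := by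
    have : S 0 * c ^ 2 = (s * (3 * a * (a + b))) * c ^ 2 := by
      rw [hS0, hS1]; ring
    exact mul_right_cancel₀ (by positivity) this
  have hS2' : S 2 = s * ((2 * a + b) * c) := by
    have : S 2 * c = (s * ((2 * a + b) * c)) * c := by
      rw [hS2, hS1]; ring
    exact mul_right_cancel₀ hc0.ne' this
  have har := h.area
  rw [hsg, ← ha, ← hb] at har
  have harea : (N : ℝ) = s ^ 2 * (3 * (a + b) * (2 * a + b)) := by
    have h1 : (N : ℝ) * (a * b * t) = s * (3 * a * (a + b)) * s * (c ^ 2 * Real.sin (A 2)) := by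
      rw [hS0', hS1] at har
      linear_combination har
    rw [sA2] at h1
    have h2 : (a * b * t) * (N : ℝ) = (a * b * t) * (s ^ 2 * (3 * (a + b) * (2 * a + b))) := by
      linear_combination h1
    exact mul_left_cancel₀ (by positivity) h2
  obtain ⟨m, hm1, -, hm3, -⟩ := h.char ![1, -1, 1] (by intro k; fin_cases k <;> simp) (by simp)
    ⟨2, by decide⟩ (by decide)
  obtain ⟨n, hn1, -, hn3, -⟩ := h.char ![-1, 1, 1] (by intro k; fin_cases k <;> simp) (by simp)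
    ⟨2, by decide⟩ (by decide)
  obtain ⟨y, u, w, hy1, hy2, hu0, hw0, hud, hwd, hau, hcw, hlaw⟩ := paramY ha0 hb0 hc0 law
  obtain ⟨k, hk⟩ : ∃ k, k = s * b := ⟨_, rfl⟩
  have hk0 : 0 < k := by rw [hk]; positivity
  have hd0 : 0 < 2 * y - 1 := by linarith
  have hd2 : 0 < 2 - y := by linarith
  -- the two character relations
  have hm : k * (2 * u ^ 2 + 2 * u - 1 + (2 * u + 1) * w) = m * (u - 1 + w) := by
    simp [Fin.sum_univ_three, Fin.prod_univ_three, ← ha, ← hb, ← hc] at hm3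
    rw [hS0', hS1, hS2', hau, hcw] at hm3
    apply mul_left_cancel₀ hb0.ne'
    rw [hk]
    linear_combination hm3 + s * b ^ 2 * hlaw
  have hn : k * (-3 * u * (u + 1) + w ^ 2 + (2 * u + 1) * w) = n * (-u + 1 + w) := by
    simp [Fin.sum_univ_three, Fin.prod_univ_three, ← ha, ← hb, ← hc] at hn3
    rw [hS0', hS1, hS2', hau, hcw] at hn3
    apply mul_left_cancel₀ hb0.ne'
    rw [hk]
    linear_combination hn3
  have hmy : (m : ℝ) * (2 * y - 1) = 3 * k * y := by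
    have h1y : 0 < 1 - y := by linarith
    have h3 : (3 * (1 - y)) * ((m : ℝ) * (2 * y - 1)) = (3 * (1 - y)) * (3 * k * y) := by
      have e3 : (u - 1 + w) * (2 * y - 1) = 3 * (1 - y) := by linear_combination hud + hwd
      have e4 : (2 * u ^ 2 + 2 * u - 1 + (2 * u + 1) * w) * (2 * y - 1) ^ 2 =
          9 * y * (1 - y) := by
        have e5 : (2 * u ^ 2 + 2 * u - 1 + (2 * u + 1) * w) * (2 * y - 1) ^ 2 =
          2 * (u * (2 * y - 1)) ^ 2 + 2 * (u * (2 * y - 1)) * (2 * y - 1) - (2 * y - 1) ^ 2 +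
          (2 * (u * (2 * y - 1)) + (2 * y - 1)) * (w * (2 * y - 1)) := by ring
        rw [e5, hud, hwd]; ring
      linear_combination (-(m : ℝ) * (2 * y - 1)) * e3 - (2 * y - 1) ^ 2 * hm + k * e4
    exact mul_left_cancel₀ (by positivity) h3
  have hny : (n : ℝ) = k * (2 - y) := by
    have e3 : (-u + 1 + w) * (2 * y - 1) = (2 * y - 1) * (1 + y) := by
      linear_combination -hud + hwd
    have e4 : (-3 * u * (u + 1) + w ^ 2 + (2 * u + 1) * w) * (2 * y - 1) ^ 2 =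
          (2 * y - 1) ^ 2 * ((2 - y) * (1 + y)) := by
      have e5 : (-3 * u * (u + 1) + w ^ 2 + (2 * u + 1) * w) * (2 * y - 1) ^ 2 =
          -3 * (u * (2 * y - 1)) * ((u * (2 * y - 1)) + (2 * y - 1)) + (w * (2 * y - 1)) ^ 2 +
          (2 * (u * (2 * y - 1)) + (2 * y - 1)) * (w * (2 * y - 1)) := by ring
      rw [e5, hud, hwd]; ring
    have h3 : ((2 * y - 1) ^ 2 * (1 + y)) * (n : ℝ) = ((2 * y - 1) ^ 2 * (1 + y)) * (k * (2 - y)) := by
      linear_combination (-(n : ℝ) * (2 * y - 1)) * e3 - (2 * y - 1) ^ 2 * hn + k * e4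
    exact mul_left_cancel₀ (by positivity) h3
  have hNy : (N : ℝ) * (2 * y - 1) = m * n * (1 + 2 * y - 2 * y ^ 2) := by
    have e3 : (N : ℝ) = k ^ 2 * (3 * (u + 1) * (2 * u + 1)) := by
      rw [harea, hk, hau]; ring
    have e4 : (3 * (u + 1) * (2 * u + 1)) * (2 * y - 1) ^ 2 =
        3 * (y * (2 - y)) * (1 + 2 * y - 2 * y ^ 2) := by
      have e5 : (3 * (u + 1) * (2 * u + 1)) * (2 * y - 1) ^ 2 =
        3 * (u * (2 * y - 1) + (2 * y - 1)) * (2 * (u * (2 * y - 1)) + (2 * y - 1)) := by ring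
      rw [e5, hud]; ring
    apply mul_right_cancel₀ hd0.ne'
    rw [hny, e3]
    linear_combination k ^ 2 * e4 - (k * (2 - y) * (1 + 2 * y - 2 * y ^ 2)) * hmy
  have hn0 : (0 : ℝ) < n := by rw [hny]; positivity
  have hm0 : (0 : ℝ) < m := by
    have : 0 < (m : ℝ) * (2 * y - 1) := by rw [hmy]; positivity
    exact (mul_pos_iff_of_pos_right hd0).1 this
  have hn0' : (0 : ℚ) < n := by exact_mod_cast hn0
  have hm0' : (0 : ℚ) < m := by exact_mod_cast hm0
  have hNnn : (0 : ℝ) ≤ (N : ℝ) := Nat.cast_nonneg _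
  have hNnn' : (0 : ℚ) ≤ (N : ℚ) := Nat.cast_nonneg _
  -- y is rational: (2 N m + 3 m^2 n - 3 m n^2) y = m (N + 3 m n)
  have hyeq : ((2 * N + 3 * m * n - 3 * n ^ 2 : ℝ)) * y = N + 3 * m * n := by
    have q3 : (m : ℝ) * ((2 * y - 1) * (2 - y)) = n * (3 * y) := by
      rw [hny]
      linear_combination (2 - y) * hmy
    linear_combination 2 * hNy + n * q3 - hNy
  have hmn : (0 : ℝ) < N + 3 * m * n := by positivity
  have hcoef : (2 * N + 3 * m * n - 3 * n ^ 2 : ℝ) ≠ 0 := by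
    intro h0
    rw [h0] at hyeq
    linarith
  have hyq : y = (((N + 3 * m * n) / (2 * N + 3 * m * n - 3 * n ^ 2) : ℚ) : ℝ) := by
    push_cast
    rw [eq_div_iff hcoef]
    linear_combination hyeq
  obtain ⟨yq, hyq'⟩ : ∃ yq : ℚ, yq = (N + 3 * m * n) / (2 * N + 3 * m * n - 3 * n ^ 2) := ⟨_, rfl⟩
  rw [← hyq'] at hyq
  have huq : u = (((1 - yq ^ 2) / (2 * yq - 1) : ℚ) : ℝ) := by
    push_cast
    rw [← hyq, eq_div_iff hd0.ne', hud]
  have hwq : w = (((yq ^ 2 - yq + 1) / (2 * yq - 1) : ℚ) : ℝ) := by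
    push_cast
    rw [← hyq, eq_div_iff hd0.ne', hwd]
  have hkq : k = ((n / (2 - yq) : ℚ) : ℝ) := by
    push_cast
    rw [← hyq, eq_div_iff hd2.ne', hny]
  obtain ⟨p, q, c0, r, hp, hq, hc', hr, hpq, ep, eq, ec⟩ :=
    natshape hb0 hu0 hw0 hau hcw hlaw huq hwq
  refine Or.inr (Or.inr (Or.inr (Or.inr (Or.inr
    ⟨p, q, c0, hp, hq, hpq, Or.inr (Or.inr (Or.inr ⟨?_, ?_⟩))⟩))))
  · rintro ⟨x, hx⟩
    apply hN
    have hq' : (0 : ℝ) < q := by exact_mod_cast hq
    apply nat_sq (q := n / (2 - yq) * x / q)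
    have h1 : ((N : ℚ) : ℝ) = ((n / (2 - yq) * x / q * (n / (2 - yq) * x / q) : ℚ) : ℝ) := by
      rw [Rat.cast_mul, Rat.cast_div, Rat.cast_mul, ← hkq]
      push_cast
      have hx' : (3 * ((p : ℝ) + q) * (2 * p + q)) = x * x := by exact_mod_cast hx
      have : s * r = k / q := by
        rw [hk, eq]; field_simp
      have e : (N : ℝ) = (s * r) ^ 2 * (3 * ((p : ℝ) + q) * (2 * p + q)) := by
        rw [harea, ep, eq]; ring
      rw [e, hx', this]
      field_simp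
    exact_mod_cast h1
  · refine ⟨Equiv.refl _, s * r ^ 2, by positivity, ?_, ?_, ?_⟩
    · simp only [Equiv.refl_apply]
      rw [hS0', ep, eq]; ring
    · simp only [Equiv.refl_apply]
      rw [hS1, ec]; ring
    · simp only [Equiv.refl_apply]
      rw [hS2', ep, eq, ec]; ring

theorem shape_u2 {N : ℕ} (hN : ¬ IsSquare N) : ShapeH N ![![2,1,0],![1,0,0],![0,2,0]] := by
  intro ℓ θ S A β h _
  have hA0 : A 0 = 2 * θ 0 + θ 1 := by simpa [Fin.sum_univ_three] using h.angles 0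
  have hA1 : A 1 = θ 0 := by simpa [Fin.sum_univ_three] using h.angles 1
  have hA2 : A 2 = 2 * θ 1 := by simpa [Fin.sum_univ_three] using h.angles 2
  have hAs := h.Asum
  obtain ⟨t, ht0, ht2, hsg, hs3, e1, e2, g1, g2, law⟩ := setup h (by linarith)
  obtain ⟨a, ha⟩ : ∃ a, a = ℓ 0 := ⟨_, rfl⟩
  obtain ⟨b, hb⟩ : ∃ b, b = ℓ 1 := ⟨_, rfl⟩
  obtain ⟨c, hc⟩ : ∃ c, c = ℓ 2 := ⟨_, rfl⟩
  have ha0 : 0 < a := ha ▸ h.lpos 0
  have hb0 : 0 < b := hb ▸ h.lpos 1
  have hc0 : 0 < c := hc ▸ h.lpos 2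
  rw [← ha, ← hc] at e1
  rw [← hb, ← hc] at e2
  rw [← ha, ← hb, ← hc] at g1 g2 law
  have sA0 : c * Real.sin (A 0) = t * (a + b) := by
    have : A 0 = θ 0 + Real.pi / 3 := by linarith
    rw [this, Real.sin_add, Real.cos_pi_div_three, hs3]
    linear_combination t * g1 - (1 / 2) * e1
  have sA1 : c * Real.sin (A 1) = t * a := by
    rw [hA1, ← e1]; ring
  have sA2 : c ^ 2 * Real.sin (A 2) = t * (b * (2 * a + b)) := by
    rw [hA2, Real.sin_two_mul]
    have : c ^ 2 * (2 * Real.sin (θ 1) * Real.cos (θ 1)) =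
        2 * (c * Real.sin (θ 1)) * (c * Real.cos (θ 1)) := by ring
    rw [this, ← e2, g2]
    ring
  have q1 := h.sineT 0 1
  have q2 := h.sineT 2 1
  obtain ⟨s, hs⟩ : ∃ s, s = S 1 / (a * c) := ⟨_, rfl⟩
  have hS1 : S 1 = s * (a * c) := by rw [hs]; field_simp
  have hs0 : 0 < s := by rw [hs]; have := h.Spos 1; positivity
  have hta : t * a ≠ 0 := by positivity
  have hS0' : S 0 = s * ((a + b) * c) := by
    have : (t * a) * S 0 = (t * a) * (s * ((a + b) * c)) := by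
      linear_combination c * q1 + S 1 * sA0 - S 0 * sA1 + t * (a + b) * hS1
    exact mul_left_cancel₀ hta this
  have hS2' : S 2 = s * (b * (2 * a + b)) := by
    have : (t * a * c) * S 2 = (t * a * c) * (s * (b * (2 * a + b))) := by
      linear_combination c ^ 2 * q2 + S 1 * sA2 - c * S 2 * sA1 + t * (b * (2 * a + b)) * hS1
    exact mul_left_cancel₀ (by positivity) this
  have har := h.area
  rw [hsg, ← ha, ← hb] at har
  have harea : (N : ℝ) = s ^ 2 * ((a + b) * (2 * a + b)) := by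
    have h1 : (N : ℝ) * (a * b * t) = s ^ 2 * (a * (a + b)) * (c ^ 2 * Real.sin (A 2)) := by
      rw [hS0', hS1] at har
      linear_combination har
    rw [sA2] at h1
    have h2 : (a * b * t) * (N : ℝ) = (a * b * t) * (s ^ 2 * ((a + b) * (2 * a + b))) := by
      linear_combination h1
    exact mul_left_cancel₀ (by positivity) h2
  obtain ⟨m, hm1, -, hm3, -⟩ := h.char ![1, -1, 1] (by intro k; fin_cases k <;> simp) (by simp)
    ⟨2, by decide⟩ (by decide)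
  obtain ⟨n, hn1, -, hn3, -⟩ := h.char ![-1, 1, 1] (by intro k; fin_cases k <;> simp) (by simp)
    ⟨2, by decide⟩ (by decide)
  obtain ⟨y, u, w, hy1, hy2, hu0, hw0, hud, hwd, hau, hcw, hlaw⟩ := paramY ha0 hb0 hc0 law
  obtain ⟨k, hk⟩ : ∃ k, k = s * b := ⟨_, rfl⟩
  have hk0 : 0 < k := by rw [hk]; positivity
  have hd0 : 0 < 2 * y - 1 := by linarith
  have hd2 : 0 < 2 - y := by linarith
  have hy0 : 0 < y := by linarith
  have hm : k * (-(u + 1) * w + u * w + (2 * u + 1)) = m * (u - 1 + w) := by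
    simp [Fin.sum_univ_three, Fin.prod_univ_three, ← ha, ← hb, ← hc] at hm3
    rw [hS0', hS1, hS2', hau, hcw] at hm3
    apply mul_left_cancel₀ hb0.ne'
    rw [hk]
    linear_combination hm3
  have hn : k * ((u + 1) * w - u * w + (2 * u + 1)) = n * (-u + 1 + w) := by
    simp [Fin.sum_univ_three, Fin.prod_univ_three, ← ha, ← hb, ← hc] at hn3
    rw [hS0', hS1, hS2', hau, hcw] at hn3
    apply mul_left_cancel₀ hb0.ne'
    rw [hk]
    linear_combination hn3
  have hmy : (m : ℝ) = k * y := by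
    have h1y : 0 < 1 - y := by linarith
    have h3 : (3 * (1 - y)) * (m : ℝ) = (3 * (1 - y)) * (k * y) := by
      have e3 : (u - 1 + w) * (2 * y - 1) = 3 * (1 - y) := by linear_combination hud + hwd
      have e4 : (-(u + 1) * w + u * w + (2 * u + 1)) * (2 * y - 1) = 3 * y * (1 - y) := by
        linear_combination -hwd + 2 * hud
      linear_combination (-(m : ℝ)) * e3 - (2 * y - 1) * hm + k * e4
    exact mul_left_cancel₀ (by positivity) h3
  have hny : (n : ℝ) * (2 * y - 1) = k * (2 - y) := by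
    have e3 : (-u + 1 + w) * (2 * y - 1) = (2 * y - 1) * (1 + y) := by
      linear_combination -hud + hwd
    have e4 : ((u + 1) * w - u * w + (2 * u + 1)) * (2 * y - 1) = (2 - y) * (1 + y) := by
      linear_combination hwd + 2 * hud
    have h3 : (1 + y) * ((n : ℝ) * (2 * y - 1)) = (1 + y) * (k * (2 - y)) := by
      linear_combination (-(n : ℝ)) * e3 - (2 * y - 1) * hn + k * e4
    exact mul_left_cancel₀ (by positivity) h3
  have hNy : (N : ℝ) * (2 * y - 1) = m * n * (1 + 2 * y - 2 * y ^ 2) := by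
    have e3 : (N : ℝ) = k ^ 2 * ((u + 1) * (2 * u + 1)) := by
      rw [harea, hk, hau]; ring
    have e4 : ((u + 1) * (2 * u + 1)) * (2 * y - 1) ^ 2 =
        (y * (2 - y)) * (1 + 2 * y - 2 * y ^ 2) := by
      have e5 : ((u + 1) * (2 * u + 1)) * (2 * y - 1) ^ 2 =
        (u * (2 * y - 1) + (2 * y - 1)) * (2 * (u * (2 * y - 1)) + (2 * y - 1)) := by ring
      rw [e5, hud]; ring
    apply mul_right_cancel₀ hd0.ne'
    rw [hmy, e3]
    linear_combination k ^ 2 * e4 - (k * y * (1 + 2 * y - 2 * y ^ 2)) * hny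
  have hm0 : (0 : ℝ) < m := by rw [hmy]; positivity
  have hn0 : (0 : ℝ) < n := by
    have : 0 < (n : ℝ) * (2 * y - 1) := by rw [hny]; positivity
    exact (mul_pos_iff_of_pos_right hd0).1 this
  have hNnn : (0 : ℝ) ≤ (N : ℝ) := Nat.cast_nonneg _
  have q3 : (n : ℝ) * (y * (2 * y - 1)) = m * (2 - y) := by
    rw [hmy]
    linear_combination y * hny
  -- (2 N - m n - m^2) y = N + m n - 2 m^2
  have hyeq : ((2 * N - m * n - m ^ 2 : ℝ)) * y = N + m * n - 2 * m ^ 2 := by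
    linear_combination hNy - m * q3
  have hcoef : (2 * N - m * n - m ^ 2 : ℝ) ≠ 0 := by
    intro h0
    rw [h0] at hyeq
    have h1 : (m : ℝ) * (n - m) = 0 := by linear_combination (2 / 3 : ℝ) * (-hyeq) - (1 / 3 : ℝ) * h0
    have h2 : (n : ℝ) - m = 0 := by
      rcases mul_eq_zero.1 h1 with h2 | h2
      · exact absurd h2 hm0.ne'
      · exact h2
    have h3 : (n : ℝ) = m := by linarith
    rw [h3] at q3
    have h4 : (m : ℝ) * (y * (2 * y - 1) - (2 - y)) = 0 := by linear_combination q3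
    have h5 : y * (2 * y - 1) - (2 - y) = 0 := by
      rcases mul_eq_zero.1 h4 with h2 | h2
      · exact absurd h2 hm0.ne'
      · exact h2
    have h6 : (y - 1) * (y + 1) = 0 := by linear_combination h5 / 2
    rcases mul_eq_zero.1 h6 with h2 | h2
    · linarith only [h2, hy2]
    · linarith only [h2, hy0]
  have hyq : y = (((N + m * n - 2 * m ^ 2) / (2 * N - m * n - m ^ 2) : ℚ) : ℝ) := by
    push_cast
    rw [eq_div_iff hcoef]
    linear_combination hyeq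
  obtain ⟨yq, hyq'⟩ : ∃ yq : ℚ, yq = (N + m * n - 2 * m ^ 2) / (2 * N - m * n - m ^ 2) := ⟨_, rfl⟩
  rw [← hyq'] at hyq
  have huq : u = (((1 - yq ^ 2) / (2 * yq - 1) : ℚ) : ℝ) := by
    push_cast
    rw [← hyq, eq_div_iff hd0.ne', hud]
  have hwq : w = (((yq ^ 2 - yq + 1) / (2 * yq - 1) : ℚ) : ℝ) := by
    push_cast
    rw [← hyq, eq_div_iff hd0.ne', hwd]
  have hkq : k = ((m / yq : ℚ) : ℝ) := by
    push_cast
    rw [← hyq, eq_div_iff hy0.ne', hmy]
  obtain ⟨p, q, c0, r, hp, hq, hc', hr, hpq, ep, eq, ec⟩ :=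
    natshape hb0 hu0 hw0 hau hcw hlaw huq hwq
  refine Or.inr (Or.inr (Or.inr (Or.inr (Or.inr
    ⟨p, q, c0, hp, hq, hpq, Or.inr (Or.inl ⟨?_, ?_⟩)⟩))))
  · rintro ⟨x, hx⟩
    apply hN
    have hq' : (0 : ℝ) < q := by exact_mod_cast hq
    apply nat_sq (q := m / yq * x / q)
    have h1 : ((N : ℚ) : ℝ) = ((m / yq * x / q * (m / yq * x / q) : ℚ) : ℝ) := by
      rw [Rat.cast_mul, Rat.cast_div, Rat.cast_mul, ← hkq]
      push_cast
      have hx' : (((p : ℝ) + q) * (2 * p + q)) = x * x := by exact_mod_cast hx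
      have : s * r = k / q := by
        rw [hk, eq]; field_simp
      have e : (N : ℝ) = (s * r) ^ 2 * (((p : ℝ) + q) * (2 * p + q)) := by
        rw [harea, ep, eq]; ring
      rw [e, hx', this]
      field_simp
    exact_mod_cast h1
  · refine ⟨Equiv.refl _, s * r ^ 2, by positivity, ?_, ?_, ?_⟩
    · simp only [Equiv.refl_apply]
      rw [hS0', ep, eq, ec]; ring
    · simp only [Equiv.refl_apply]
      rw [hS1, ep, ec]; ring
    · simp only [Equiv.refl_apply]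
      rw [hS2', ep, eq]; ring

end Pool.Agent.TH387
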