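import Pool.Agent.TH97.GB.Defs

set_option autoImplicit false

/-!
# A characteristic series of a `p`-group of bounded class and exponent
-/

namespace Pool.Agent.TH511.GB_LS

open Pool.Agent.TH97.GB

variable {H : Type} [Group H]

/-- generators of the next term -/
def gens (p : ℕ) (P L : Subgroup H) : Set H :=
  {z | ∃ x ∈ L, ∃ g ∈ P, z = x⁻¹ * g⁻¹ * x * g} ∪ {z | ∃ x ∈ L, z = x ^ p}

/-- the series -/
def ser (p : ℕ) (P : Subgroup H) : ℕ → Subgroup H
  | 0 => P
  | n + 1 => Subgroup.normalClosure (gens p P (ser p P n))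

theorem ser_normal (p : ℕ) (P : Subgroup H) (hP : P.Normal) (n : ℕ) : (ser p P n).Normal := by
  cases n with
  | zero => exact hP
  | succ n => exact Subgroup.normalClosure_normal

theorem ser_le (p : ℕ) (P : Subgroup H) (hP : P.Normal) (n : ℕ) :
    ser p P (n + 1) ≤ ser p P n := by
  have := ser_normal p P hP n
  refine Subgroup.normalClosure_le_normal ?_
  rintro z (⟨x, hx, g, _, rfl⟩ | ⟨x, hx, rfl⟩)
  · have h1 : g⁻¹ * x * g ∈ ser p P n := by
      have := this.conj_mem x hx g⁻¹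
      rwa [inv_inv] at this
    have h2 := (ser p P n).mul_mem ((ser p P n).inv_mem hx) h1
    have h3 : x⁻¹ * g⁻¹ * x * g = x⁻¹ * (g⁻¹ * x * g) := by group
    rw [h3]
    exact h2
  · exact (ser p P n).pow_mem hx p

theorem ser_comm (p : ℕ) (P : Subgroup H) (n : ℕ) (x : H) (hx : x ∈ ser p P n) (g : H)
    (hg : g ∈ P) : x⁻¹ * g⁻¹ * x * g ∈ ser p P (n + 1) :=
  Subgroup.subset_normalClosure (Or.inl ⟨x, hx, g, hg, rfl⟩)

theorem ser_pow (p : ℕ) (P : Subgroup H) (n : ℕ) (x : H) (hx : x ∈ ser p P n) :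
    x ^ p ∈ ser p P (n + 1) :=
  Subgroup.subset_normalClosure (Or.inr ⟨x, hx, rfl⟩)

/-- the `p ^ t`-th powers of elements of `Γ`, together with `N` -/
def U (p : ℕ) (Γ N : Subgroup H) (t : ℕ) : Subgroup H :=
  Subgroup.normalClosure ({z | ∃ y ∈ Γ, z = y ^ p ^ t} ∪ N)

theorem U_le (p : ℕ) {Γ N : Subgroup H} (hΓ : Γ.Normal) (hN : N ≤ Γ) (t : ℕ) : U p Γ N t ≤ Γ := by
  refine Subgroup.normalClosure_le_normal ?_
  rintro z (⟨y, hy, rfl⟩ | hz)
  · exact Γ.pow_mem hy _
  · exact hN hz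

theorem N_le (p : ℕ) (Γ N : Subgroup H) (t : ℕ) : N ≤ U p Γ N t := fun _ hz =>
  Subgroup.subset_normalClosure (Or.inr hz)

theorem U_pow (p : ℕ) {Γ N : Subgroup H} (hΓ : Γ.Normal) (hNn : N.Normal) (hN : N ≤ Γ)
    (hab : ∀ x ∈ Γ, ∀ y ∈ Γ, x⁻¹ * y⁻¹ * x * y ∈ N) (t : ℕ) (x : H) (hx : x ∈ U p Γ N t) :
    x ^ p ∈ U p Γ N (t + 1) := by
  have hle := U_le p hΓ hN t
  unfold U Subgroup.normalClosure at hx
  have key : x ∈ Γ ∧ x ^ p ∈ U p Γ N (t + 1) := by
    induction hx using Subgroup.closure_induction with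
    | mem x hx =>
      rw [Group.mem_conjugatesOfSet_iff] at hx
      obtain ⟨a, ha, hax⟩ := hx
      obtain ⟨g, rfl⟩ := isConj_iff.1 hax
      rcases ha with ⟨y, hy, rfl⟩ | hz
      · refine ⟨hΓ.conj_mem _ (Γ.pow_mem hy _) g, ?_⟩
        refine Subgroup.subset_normalClosure (Or.inl ⟨g * y * g⁻¹, hΓ.conj_mem _ hy g, ?_⟩)
        rw [conj_pow, conj_pow, ← pow_mul, pow_succ]
      · refine ⟨hΓ.conj_mem _ (hN hz) g, ?_⟩
        exact N_le p Γ N _ (N.pow_mem (hNn.conj_mem _ hz g) p)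
    | one => exact ⟨Γ.one_mem, by rw [one_pow]; exact Subgroup.one_mem _⟩
    | mul x y hx hy ihx ihy =>
      refine ⟨Γ.mul_mem ihx.1 ihy.1, ?_⟩
      have h1 : (x ^ p * y ^ p)⁻¹ * (x * y) ^ p ∈ N := by
        rw [← QuotientGroup.eq]
        have hc : Commute (x : H ⧸ N) (y : H ⧸ N) := by
          show (x : H ⧸ N) * (y : H ⧸ N) = (y : H ⧸ N) * (x : H ⧸ N)
          rw [← QuotientGroup.mk_mul, ← QuotientGroup.mk_mul]
          refine (QuotientGroup.eq.2 ?_).symm
          have h2 := hab x ihx.1 y ihy.1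
          have h3 : (y * x)⁻¹ * (x * y) = x⁻¹ * y⁻¹ * x * y := by group
          rw [h3]
          exact h2
        have h4 := hc.mul_pow p
        rw [QuotientGroup.mk_mul, QuotientGroup.mk_pow, QuotientGroup.mk_pow,
          QuotientGroup.mk_pow, QuotientGroup.mk_mul]
        exact h4.symm
      have h2 := (U p Γ N (t + 1)).mul_mem ((U p Γ N (t + 1)).mul_mem ihx.2 ihy.2)
        (N_le p Γ N (t + 1) h1)
      rwa [mul_inv_cancel_left] at h2
    | inv x hx ih =>
      refine ⟨Γ.inv_mem ih.1, ?_⟩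
      rw [inv_pow]
      exact Subgroup.inv_mem _ ih.2
  exact key.2

theorem U_end (p e : ℕ) {Γ N : Subgroup H} (hNn : N.Normal) (he : ∀ x ∈ Γ, x ^ p ^ e = 1) :
    U p Γ N e ≤ N := by
  refine Subgroup.normalClosure_le_normal ?_
  rintro z (⟨y, hy, rfl⟩ | hz)
  · rw [he y hy]
    exact N.one_mem
  · exact hz

theorem lcs_normal (P : Subgroup H) (hP : P.Normal) (j : ℕ) : (P.lowerCentralSeries j).Normal := by
  induction j with
  | zero => exact hP
  | succ j ih =>
    rw [Subgroup.lowerCentralSeries_succ]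
    exact Subgroup.commutator_normal _ _

theorem lcs_comm (P : Subgroup H) (j : ℕ) (x : H) (hx : x ∈ P.lowerCentralSeries j) (g : H)
    (hg : g ∈ P) : x⁻¹ * g⁻¹ * x * g ∈ P.lowerCentralSeries (j + 1) := by
  rw [Subgroup.lowerCentralSeries_succ]
  have h := Subgroup.commutator_mem_commutator (Subgroup.inv_mem _ hx) (Subgroup.inv_mem _ hg)
  rw [commutatorElement_def, inv_inv, inv_inv] at h
  exact h

theorem lcs_le (P : Subgroup H) (j : ℕ) : P.lowerCentralSeries j ≤ P :=
  (P.lowerCentralSeries_antitone (Nat.zero_le j)).trans le_rfl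

theorem step (p e : ℕ) (P : Subgroup H) (hP : P.Normal) (hexp : ∀ x ∈ P, x ^ p ^ e = 1) (j : ℕ) :
    ser p P (j * e) ≤ P.lowerCentralSeries j := by
  induction j with
  | zero =>
    rw [Nat.zero_mul]
    exact le_rfl
  | succ j ih =>
    have hΓ := lcs_normal P hP j
    have hN := lcs_normal P hP (j + 1)
    have hNΓ : P.lowerCentralSeries (j + 1) ≤ P.lowerCentralSeries j :=
      P.lowerCentralSeries_antitone (Nat.le_succ j)
    have hab : ∀ x ∈ P.lowerCentralSeries j, ∀ y ∈ P.lowerCentralSeries j,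
        x⁻¹ * y⁻¹ * x * y ∈ P.lowerCentralSeries (j + 1) := fun x hx y hy =>
      lcs_comm P j x hx y (lcs_le P j hy)
    have key : ∀ t, ser p P (j * e + t) ≤
        U p (P.lowerCentralSeries j) (P.lowerCentralSeries (j + 1)) t := by
      intro t
      induction t with
      | zero =>
        intro x hx
        refine Subgroup.subset_normalClosure (Or.inl ⟨x, ih hx, ?_⟩)
        rw [pow_zero, pow_one]
      | succ t iht =>
        show Subgroup.normalClosure (gens p P (ser p P (j * e + t))) ≤ _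
        have : (U p (P.lowerCentralSeries j) (P.lowerCentralSeries (j + 1)) (t + 1)).Normal :=
          Subgroup.normalClosure_normal
        refine Subgroup.normalClosure_le_normal ?_
        rintro z (⟨x, hx, g, hg, rfl⟩ | ⟨x, hx, rfl⟩)
        · exact N_le p _ _ _ (lcs_comm P j x (U_le p hΓ hNΓ t (iht hx)) g hg)
        · exact U_pow p hΓ hN hNΓ hab t x (iht hx)
    rw [Nat.succ_mul]
    exact (key e).trans (U_end p e hN fun x hx => hexp x (lcs_le P j hx))

theorem t_LS : P_LS := by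
  intro p _ k e H _ _ P hP _ hk hexp
  refine ⟨ser p P, ⟨fun i => ser_normal p P hP i, fun i => ser_le p P hP i,
    fun i x hx g hg => ser_comm p P i x hx g hg, fun i x hx => ser_pow p P i x hx, ?_⟩, rfl⟩
  rw [eq_bot_iff, ← hk]
  exact step p e P hP hexp k

end Pool.Agent.TH511.GB_LS
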