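import Pool.Agent.TH97.GB.Defs

set_option autoImplicit false

/-!
# Trace lemma: families with the simultaneous triple product property versus vanishing subspaces
# of the group algebra
-/

namespace Pool.Agent.TH511.GB_TL

open Pool.Agent.TH97.GB
open Finset

section lead

variable {F S : Type} [Field F] [Fintype S]

/-- leading positions of a subspace -/
def Pos (V : Submodule F (S → F)) (om : S → ℤ) : Set S :=
  {σ | ∃ x ∈ V, x σ ≠ 0 ∧ ∀ t, om σ < om t → x t = 0}

theorem finrank_le_pos (V : Submodule F (S → F)) (om : S → ℤ) :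
    Module.finrank F V ≤ Nat.card (Pos V om) := by
  classical
  let r : V →ₗ[F] (Pos V om → F) :=
    { toFun := fun x σ => x.1 σ.1
      map_add' := fun x y => rfl
      map_smul' := fun c x => rfl }
  have hr : Function.Injective r := by
    rw [injective_iff_map_eq_zero]
    intro x hx
    by_contra hne
    have hex : ∃ σ, x.1 σ ≠ 0 := by
      by_contra hcon
      apply hne
      apply Subtype.ext
      funext σ
      by_contra h
      exact hcon ⟨σ, h⟩
    obtain ⟨σ0, h0⟩ := hex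
    obtain ⟨σ, hσ, hmax⟩ := Finset.exists_max_image (univ.filter fun σ => x.1 σ ≠ 0) om
      ⟨σ0, by simp [h0]⟩
    have hσ' : x.1 σ ≠ 0 := (Finset.mem_filter.1 hσ).2
    have hpos : σ ∈ Pos V om := by
      refine ⟨x.1, x.2, hσ', fun t ht => ?_⟩
      by_contra h
      have := hmax t (by simp [h])
      omega
    have := congrFun hx ⟨σ, hpos⟩
    exact hσ' this
  have h := LinearMap.finrank_le_finrank_of_injective hr
  rwa [Module.finrank_fintype_fun_eq_card, ← Nat.card_eq_fintype_card] at h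

theorem codim {R : Type} [AddCommGroup R] [Module F R] [Module.Finite F R] [DecidableEq S]
    (φ : (S → F) →ₗ[F] R) (W : Submodule F R) :
    Fintype.card S ≤ Module.finrank F (W.comap φ) + Module.finrank F (R ⧸ W) := by
  have h := LinearMap.finrank_range_add_finrank_ker (W.mkQ ∘ₗ φ)
  rw [LinearMap.ker_comp, Submodule.ker_mkQ, Module.finrank_fintype_fun_eq_card] at h
  have h2 : Module.finrank F (LinearMap.range (W.mkQ ∘ₗ φ)) ≤ Module.finrank F (R ⧸ W) :=
    Submodule.finrank_le _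
  omega

theorem not_pos {R : Type} [AddCommGroup R] [Module F R] [Module.Finite F R] [DecidableEq S]
    (φ : (S → F) →ₗ[F] R) (W : Submodule F R) (om : S → ℤ) :
    Nat.card {σ : S // σ ∉ Pos (W.comap φ) om} ≤ Module.finrank F (R ⧸ W) := by
  classical
  have h1 := codim φ W
  have h2 := finrank_le_pos (W.comap φ) om
  have h3 : Nat.card {σ : S // σ ∈ Pos (W.comap φ) om} +
      Nat.card {σ : S // σ ∉ Pos (W.comap φ) om} = Fintype.card S := by
    rw [Nat.card_eq_fintype_card, Nat.card_eq_fintype_card, Fintype.card_subtype_compl]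
    have : Fintype.card {σ : S // σ ∈ Pos (W.comap φ) om} ≤ Fintype.card S :=
      Fintype.card_subtype_le _
    omega
  have h4 : Nat.card {σ : S // σ ∈ Pos (W.comap φ) om} = Nat.card (Pos (W.comap φ) om) := rfl
  omega

end lead

section weights

theorem pow_inj {m n m' n' : ℕ} (_h1 : m ≠ n) (h2 : m' ≠ n') (h3 : m ≠ n') (h4 : m' ≠ n)
    (h : (2 : ℤ) ^ m - 2 ^ n = 2 ^ m' - 2 ^ n') : m = m' ∧ n = n' := by
  have h5 : (2 : ℤ) ^ m + 2 ^ n' = 2 ^ m' + 2 ^ n := by linarith
  have h6 : 2 ^ m + 2 ^ n' = 2 ^ m' + 2 ^ n := by exact_mod_cast h5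
  have h7 : ∑ i ∈ ({m, n'} : Finset ℕ), 2 ^ i = ∑ i ∈ ({m', n} : Finset ℕ), 2 ^ i := by
    rw [Finset.sum_pair h3, Finset.sum_pair h4, h6]
  have h8 : ({m, n'} : Finset ℕ) = {m', n} := Finset.geomSum_injective le_rfl h7
  have h9 : m ∈ ({m', n} : Finset ℕ) := by rw [← h8]; simp
  have h10 : n' ∈ ({m', n} : Finset ℕ) := by rw [← h8]; simp
  simp only [Finset.mem_insert, Finset.mem_singleton] at h9 h10
  omega

end weights

section main

variable {G : Type} [Group G]

/-- the coefficient of `1` -/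
noncomputable def lam {F : Type} [Field F] : MonoidAlgebra F G →+ F where
  toFun f := f.coeff 1
  map_zero' := rfl
  map_add' _ _ := rfl

theorem lam_single {F : Type} [Field F] [DecidableEq G] (g : G) (r : F) :
    lam (MonoidAlgebra.single g r) = if g = 1 then r else 0 := by
  show (MonoidAlgebra.single g r).coeff 1 = _
  rw [MonoidAlgebra.coeff_single, Finsupp.single_apply]

/-- the linear map given by a family of group elements -/
noncomputable def phi {F S : Type} [Field F] [Fintype S] (g : S → G) :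
    (S → F) →ₗ[F] MonoidAlgebra F G where
  toFun X := ∑ σ, MonoidAlgebra.single (g σ) (X σ)
  map_add' X Y := by
    rw [← Finset.sum_add_distrib]
    exact Finset.sum_congr rfl fun σ _ => by rw [Pi.add_apply, MonoidAlgebra.single_add]
  map_smul' c X := by
    rw [RingHom.id_apply, Finset.smul_sum]
    exact Finset.sum_congr rfl fun σ _ => by
      rw [Pi.smul_apply, MonoidAlgebra.smul_single]

theorem lam_phi {F S : Type} [Field F] [Fintype S] [DecidableEq G] (g1 g2 g3 : S → G)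
    (X Y Z : S → F) :
    lam (phi g1 X * phi g2 Y * phi g3 Z) =
      ∑ q : S × S × S, if g1 q.1 * g2 q.2.1 * g3 q.2.2 = 1 then X q.1 * Y q.2.1 * Z q.2.2 else 0 := by
  rw [Fintype.sum_prod_type]
  have h : phi g1 X * phi g2 Y * phi g3 Z = ∑ σ1, ∑ σ2, ∑ σ3,
      MonoidAlgebra.single (g1 σ1 * g2 σ2 * g3 σ3) (X σ1 * Y σ2 * Z σ3) := by
    show (∑ σ, MonoidAlgebra.single (g1 σ) (X σ)) * (∑ σ, MonoidAlgebra.single (g2 σ) (Y σ)) *
      (∑ σ, MonoidAlgebra.single (g3 σ) (Z σ)) = _
    rw [Finset.sum_mul_sum, Finset.sum_mul]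
    refine Finset.sum_congr rfl fun σ1 _ => ?_
    rw [Finset.sum_mul]
    refine Finset.sum_congr rfl fun σ2 _ => ?_
    rw [Finset.mul_sum]
    refine Finset.sum_congr rfl fun σ3 _ => ?_
    rw [MonoidAlgebra.single_mul_single, MonoidAlgebra.single_mul_single]
  rw [h, map_sum]
  refine Finset.sum_congr rfl fun σ1 _ => ?_
  rw [map_sum, Fintype.sum_prod_type]
  refine Finset.sum_congr rfl fun σ2 _ => ?_
  rw [map_sum]
  exact Finset.sum_congr rfl fun σ3 _ => lam_single _ _

end main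

theorem t_TL : P_TL := by
  classical
  intro p _ G _ _ W hW ι _ A B C s hS hcard
  let _ : Fintype ι := Fintype.ofFinite ι
  rcases Nat.eq_zero_or_pos s with rfl | hs
  · simp
  have : NeZero s := ⟨hs.ne'⟩
  -- enumerations
  let eA : ∀ i, Fin s ≃ A i := fun i => (Finset.equivFinOfCardEq (hcard i).1).symm
  let eB : ∀ i, Fin s ≃ B i := fun i => (Finset.equivFinOfCardEq (hcard i).2.1).symm
  let eC : ∀ i, Fin s ≃ C i := fun i => (Finset.equivFinOfCardEq (hcard i).2.2).symm
  let a : ι → Fin s → G := fun i x => (eA i x : G)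
  let b : ι → Fin s → G := fun i x => (eB i x : G)
  let c : ι → Fin s → G := fun i x => (eC i x : G)
  have ha : ∀ i x, a i x ∈ A i := fun i x => (eA i x).2
  have hb : ∀ i x, b i x ∈ B i := fun i x => (eB i x).2
  have hc : ∀ i x, c i x ∈ C i := fun i x => (eC i x).2
  have hai : ∀ i x y, a i x = a i y → x = y := fun i x y h => (eA i).injective (Subtype.ext h)
  have hbi : ∀ i x y, b i x = b i y → x = y := fun i x y h => (eB i).injective (Subtype.ext h)
  have hci : ∀ i x y, c i x = c i y → x = y := fun i x y h => (eC i).injective (Subtype.ext h)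
  let S := ι × Fin s × Fin s
  let g1 : S → G := fun σ => (c σ.1 σ.2.1)⁻¹ * a σ.1 σ.2.2
  let g2 : S → G := fun σ => (a σ.1 σ.2.1)⁻¹ * b σ.1 σ.2.2
  let g3 : S → G := fun σ => (b σ.1 σ.2.1)⁻¹ * c σ.1 σ.2.2
  -- weights
  obtain ⟨n, hn⟩ : ∃ n : ι × Fin s × Fin 3 → ℕ, Function.Injective n := by
    let e := Fintype.equivFin (ι × Fin s × Fin 3)
    exact ⟨fun x => (e x).val, fun x y h => e.injective (Fin.ext h)⟩
  have hn0 : ∀ (i j : ι) (x y : Fin s) (k l : Fin 3), n (i, x, k) = n (j, y, l) →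
      i = j ∧ x = y ∧ k = l := by
    intro i j x y k l h
    have := hn h
    simp only [Prod.mk.injEq] at this
    exact this
  let om1 : S → ℤ := fun σ => 2 ^ n (σ.1, σ.2.1, 2) - 2 ^ n (σ.1, σ.2.2, 0)
  let om2 : S → ℤ := fun σ => 2 ^ n (σ.1, σ.2.1, 0) - 2 ^ n (σ.1, σ.2.2, 1)
  let om3 : S → ℤ := fun σ => 2 ^ n (σ.1, σ.2.1, 1) - 2 ^ n (σ.1, σ.2.2, 2)
  have hom : ∀ (k l : Fin 3), k ≠ l → ∀ σ τ : S,
      (2 : ℤ) ^ n (σ.1, σ.2.1, k) - 2 ^ n (σ.1, σ.2.2, l) =
        2 ^ n (τ.1, τ.2.1, k) - 2 ^ n (τ.1, τ.2.2, l) → σ = τ := by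
    intro k l hkl σ τ h
    have h1 := pow_inj (fun h => hkl (hn0 _ _ _ _ _ _ h).2.2) (fun h => hkl (hn0 _ _ _ _ _ _ h).2.2)
      (fun h => hkl (hn0 _ _ _ _ _ _ h).2.2) (fun h => hkl (hn0 _ _ _ _ _ _ h).2.2) h
    have h2 := hn0 _ _ _ _ _ _ h1.1
    have h3 := hn0 _ _ _ _ _ _ h1.2
    exact Prod.ext h2.1 (Prod.ext h2.2.1 h3.2.1)
  let R := MonoidAlgebra (ZMod p) G
  let f1 : (S → ZMod p) →ₗ[ZMod p] R := phi g1
  let f2 : (S → ZMod p) →ₗ[ZMod p] R := phi g2
  let f3 : (S → ZMod p) →ₗ[ZMod p] R := phi g3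
  let P1 := Pos (W.comap f1) om1
  let P2 := Pos (W.comap f2) om2
  let P3 := Pos (W.comap f3) om3
  -- no triangle
  have key : ∀ (i : ι) (x y z : Fin s), ((i, z, x) : S) ∈ P1 → ((i, x, y) : S) ∈ P2 →
      ((i, y, z) : S) ∈ P3 → False := by
    intro i x y z h1 h2 h3
    obtain ⟨X, hX, hX0, hXm⟩ := h1
    obtain ⟨Y, hY, hY0, hYm⟩ := h2
    obtain ⟨Z, hZ, hZ0, hZm⟩ := h3
    have hzero : lam (phi g1 X * phi g2 Y * phi g3 Z) = 0 := by
      have h4 : phi g1 X * phi g2 Y * phi g3 Z = 0 := hW _ hX _ hY _ hZ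
      rw [h4, map_zero]
    rw [lam_phi, Finset.sum_eq_single (((i, z, x), (i, x, y), (i, y, z)) : S × S × S)] at hzero
    · rw [if_pos] at hzero
      · exact mul_ne_zero (mul_ne_zero hX0 hY0) hZ0 hzero
      · show (c i z)⁻¹ * a i x * ((a i x)⁻¹ * b i y) * ((b i y)⁻¹ * c i z) = 1
        group
    · rintro ⟨⟨i1, z1, x1⟩, ⟨i2, x2, y2⟩, ⟨i3, y3, z3⟩⟩ _ hne
      by_cases hprod : g1 (i1, z1, x1) * g2 (i2, x2, y2) * g3 (i3, y3, z3) = 1
      · rw [if_pos hprod]
        have h4 : (c i1 z1)⁻¹ * a i1 x1 * ((a i2 x2)⁻¹ * b i2 y2) * ((b i3 y3)⁻¹ * c i3 z3) = 1 :=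
          hprod
        have h5 : a i1 x1 * (a i2 x2)⁻¹ * (b i2 y2 * (b i3 y3)⁻¹) * (c i3 z3 * (c i1 z1)⁻¹) = 1 := by
          have h6 : a i1 x1 * (a i2 x2)⁻¹ * (b i2 y2 * (b i3 y3)⁻¹) * (c i3 z3 * (c i1 z1)⁻¹) =
              c i1 z1 * ((c i1 z1)⁻¹ * a i1 x1 * ((a i2 x2)⁻¹ * b i2 y2) *
                ((b i3 y3)⁻¹ * c i3 z3)) * (c i1 z1)⁻¹ := by group
          rw [h6, h4, mul_one, mul_inv_cancel]
        have h7 := hS i1 i2 i3 _ (ha i1 x1) _ (ha i2 x2) _ (hb i2 y2) _ (hb i3 y3) _ (hc i3 z3) _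
          (hc i1 z1) h5
        obtain ⟨e1, e2, e3, e4, e5⟩ := h7
        subst e1
        subst e2
        have e3' := hai _ _ _ e3
        have e4' := hbi _ _ _ e4
        have e5' := hci _ _ _ e5
        subst e3' e4' e5'
        by_contra hnz
        have hXn : X (i1, z3, x1) ≠ 0 := fun h => hnz (by simp only [h, zero_mul])
        have hYn : Y (i1, x1, y2) ≠ 0 := fun h => hnz (by simp only [h, mul_zero, zero_mul])
        have hZn : Z (i1, y2, z3) ≠ 0 := fun h => hnz (by simp only [h, mul_zero])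
        have l1 : om1 (i1, z3, x1) ≤ om1 (i, z, x) := by
          by_contra h
          exact hXn (hXm _ (not_le.1 h))
        have l2 : om2 (i1, x1, y2) ≤ om2 (i, x, y) := by
          by_contra h
          exact hYn (hYm _ (not_le.1 h))
        have l3 : om3 (i1, y2, z3) ≤ om3 (i, y, z) := by
          by_contra h
          exact hZn (hZm _ (not_le.1 h))
        have t1 : om1 (i1, z3, x1) + om2 (i1, x1, y2) + om3 (i1, y2, z3) = 0 := by
          simp only [om1, om2, om3]
          ring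
        have t2 : om1 (i, z, x) + om2 (i, x, y) + om3 (i, y, z) = 0 := by
          simp only [om1, om2, om3]
          ring
        have q1 := hom 2 0 (by decide) (i1, z3, x1) (i, z, x) (by
          show om1 (i1, z3, x1) = om1 (i, z, x)
          omega)
        have q2 := hom 0 1 (by decide) (i1, x1, y2) (i, x, y) (by
          show om2 (i1, x1, y2) = om2 (i, x, y)
          omega)
        have q3 := hom 1 2 (by decide) (i1, y2, z3) (i, y, z) (by
          show om3 (i1, y2, z3) = om3 (i, y, z)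
          omega)
        exact hne (Prod.ext q1 (Prod.ext q2 q3))
      · rw [if_neg hprod]
    · intro h
      exact absurd (mem_univ _) h
  -- counting
  have hcount : Nat.card ι * s ^ 2 ≤ Nat.card {σ : S // σ ∉ P1} + Nat.card {σ : S // σ ∉ P2} +
      Nat.card {σ : S // σ ∉ P3} := by
    have h1 : ∀ σ : S, ((σ.1, σ.2.1 + σ.2.2, σ.2.1) : S) ∉ P1 ∨ ((σ.1, σ.2.1, σ.2.2) : S) ∉ P2 ∨
        ((σ.1, σ.2.2, σ.2.1 + σ.2.2) : S) ∉ P3 := by
      intro σ
      by_contra hcon
      push Not at hcon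
      exact key σ.1 σ.2.1 σ.2.2 (σ.2.1 + σ.2.2) hcon.1 hcon.2.1 hcon.2.2
    have h2 : ∀ σ : S, ∃ t : {σ : S // σ ∉ P1} ⊕ {σ : S // σ ∉ P2} ⊕ {σ : S // σ ∉ P3},
        (∀ u, t = Sum.inl u → u.1 = (σ.1, σ.2.1 + σ.2.2, σ.2.1)) ∧
        (∀ u, t = Sum.inr (Sum.inl u) → u.1 = (σ.1, σ.2.1, σ.2.2)) ∧
        (∀ u, t = Sum.inr (Sum.inr u) → u.1 = (σ.1, σ.2.2, σ.2.1 + σ.2.2)) := by
      intro σ
      rcases h1 σ with h | h | h
      · refine ⟨Sum.inl ⟨_, h⟩, ?_, ?_, ?_⟩
        · intro u hu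
          rw [← Sum.inl.inj hu]
        · intro u hu
          exact absurd hu (by simp)
        · intro u hu
          exact absurd hu (by simp)
      · refine ⟨Sum.inr (Sum.inl ⟨_, h⟩), ?_, ?_, ?_⟩
        · intro u hu
          exact absurd hu (by simp)
        · intro u hu
          rw [← Sum.inl.inj (Sum.inr.inj hu)]
        · intro u hu
          exact absurd (Sum.inr.inj hu) (by simp)
      · refine ⟨Sum.inr (Sum.inr ⟨_, h⟩), ?_, ?_, ?_⟩
        · intro u hu
          exact absurd hu (by simp)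
        · intro u hu
          exact absurd (Sum.inr.inj hu) (by simp)
        · intro u hu
          rw [← Sum.inr.inj (Sum.inr.inj hu)]
    choose t ht1 ht2 ht3 using h2
    have hinj : Function.Injective t := by
      rintro ⟨i, x, y⟩ ⟨j, x', y'⟩ hστ
      rcases ht : t (i, x, y) with u | u | u
      · have e1 := ht1 _ u ht
        have e2 := ht1 _ u (hστ ▸ ht)
        rw [e1] at e2
        have q1 : i = j := congrArg Prod.fst e2
        have q2 : x + y = x' + y' := congrArg (fun q => q.2.1) e2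
        have q3 : x = x' := congrArg (fun q => q.2.2) e2
        subst q1 q3
        have := add_left_cancel q2
        rw [this]
      · have e1 := ht2 _ u ht
        have e2 := ht2 _ u (hστ ▸ ht)
        rw [e1] at e2
        exact e2
      · have e1 := ht3 _ u ht
        have e2 := ht3 _ u (hστ ▸ ht)
        rw [e1] at e2
        have q1 : i = j := congrArg Prod.fst e2
        have q2 : y = y' := congrArg (fun q => q.2.1) e2
        have q3 : x + y = x' + y' := congrArg (fun q => q.2.2) e2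
        subst q1 q2
        have := add_right_cancel q3
        rw [this]
    have h3 := Nat.card_le_card_of_injective t hinj
    have h4 : Nat.card S = Nat.card ι * s ^ 2 := by
      show Nat.card (ι × Fin s × Fin s) = _
      rw [Nat.card_prod, Nat.card_prod, Nat.card_eq_fintype_card (α := Fin s), Fintype.card_fin]
      ring
    rw [h4, Nat.card_sum, Nat.card_sum] at h3
    omega
  have n1 := not_pos f1 W om1
  have n2 := not_pos f2 W om2
  have n3 := not_pos f3 W om3
  have n1' : Nat.card {σ : S // σ ∉ P1} ≤ Module.finrank (ZMod p) (R ⧸ W) := n1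
  have n2' : Nat.card {σ : S // σ ∉ P2} ≤ Module.finrank (ZMod p) (R ⧸ W) := n2
  have n3' : Nat.card {σ : S // σ ∉ P3} ≤ Module.finrank (ZMod p) (R ⧸ W) := n3
  show Nat.card ι * s ^ 2 ≤ 3 * Module.finrank (ZMod p) (R ⧸ W)
  omega

end Pool.Agent.TH511.GB_TL
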