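import Pool.Agent.TH296.NC.Defs
import Pool.Agent.Results.MP_2957ea_an.EquivalenceFails
set_option autoImplicit false
open Filter Topology Finset MeasureTheory
open scoped commutatorElement
namespace Pool.Agent.TH511.J165
open Pool.Agent.TH296.NC
open Pool.Agent.Results.MP_2957ea_an.EquivalenceFails.Conc

variable {ι : Type}

theorem sum_flat {E : Type} [AddCommMonoid E] (Ψ : ℤ → E) (l : List ι) (f : ι → List ℤ) :
    ((l.flatMap f).map Ψ).sum = (l.map (fun p => ((f p).map Ψ).sum)).sum := by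
  induction l with
  | nil => simp
  | cons a l ih => simp [List.flatMap_cons, ih]

/-- the list with multiplicities `⌊Q w p⌋` -/
noncomputable def lst (S : Finset ι) (pt : ι → ℤ) (w : ι → ℝ) (Q : ℕ) : List ℤ :=
  0 :: S.toList.flatMap (fun p => List.replicate ⌊Q * w p⌋₊ (pt p))

theorem sum_lst {E : Type} [AddCommMonoid E] (Ψ : ℤ → E) (S : Finset ι) (pt : ι → ℤ) (w : ι → ℝ)
    (Q : ℕ) : ((lst S pt w Q).map Ψ).sum = Ψ 0 + ∑ p ∈ S, ⌊Q * w p⌋₊ • Ψ (pt p) := by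
  unfold lst
  rw [List.map_cons, List.sum_cons, sum_flat]
  congr 1
  rw [Finset.sum_map_toList]
  refine Finset.sum_congr rfl fun p _ => ?_
  rw [List.map_replicate, List.sum_replicate]

theorem len_lst (S : Finset ι) (pt : ι → ℤ) (w : ι → ℝ) (Q : ℕ) :
    (lst S pt w Q).length = 1 + ∑ p ∈ S, ⌊Q * w p⌋₊ := by
  have h := sum_lst (fun _ => (1 : ℕ)) S pt w Q
  rw [List.map_const', List.sum_replicate] at h
  simpa using h

theorem avg_err (S : Finset ι) (pt : ι → ℤ) (w : ι → ℝ) (k : ℕ) (hw : ∀ p ∈ S, 0 ≤ w p)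
    (ht1 : 1 / 2 ≤ ∑ p ∈ S, w p) (ht2 : ∑ p ∈ S, w p ≤ 2) (Ψ : ℤ → ℂ) (C : ℝ)
    (hC : ∀ n, ‖Ψ n‖ ≤ C) (L : List ℤ) (hL : L = lst S pt w (4 * (#S + 1) * (k + 1))) :
    ‖((L.length : ℝ)⁻¹ • (L.map Ψ).sum) - ∑ p ∈ S, (w p : ℂ) * Ψ (pt p)‖ ≤
      C * (3 / (k + 1) + 8 * |∑ p ∈ S, w p - 1|) := by
  obtain ⟨Q, hQ⟩ : ∃ Q, Q = 4 * (#S + 1) * (k + 1) := ⟨_, rfl⟩
  rw [← hQ] at hL
  obtain ⟨t, ht⟩ : ∃ t, t = ∑ p ∈ S, w p := ⟨_, rfl⟩
  rw [← ht] at ht1 ht2 ⊢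
  obtain ⟨W, hW⟩ : ∃ W, W = ∑ p ∈ S, (w p : ℂ) * Ψ (pt p) := ⟨_, rfl⟩
  rw [← hW]
  have hC0 : 0 ≤ C := (norm_nonneg _).trans (hC 0)
  have hQ1 : (Q : ℝ) = 4 * ((#S : ℝ) + 1) * (k + 1) := by rw [hQ]; push_cast; ring
  have hk : (0 : ℝ) < (k : ℝ) + 1 := by positivity
  have hS : (0 : ℝ) < (#S : ℝ) + 1 := by positivity
  have hQ0 : (0 : ℝ) < Q := by rw [hQ1]; positivity
  -- sums
  obtain ⟨s, hs⟩ : ∃ s, s = (L.map Ψ).sum := ⟨_, rfl⟩
  obtain ⟨n, hn⟩ : ∃ n, n = (L.length : ℝ) := ⟨_, rfl⟩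
  rw [← hs, ← hn]
  have hs' : s = Ψ 0 + ∑ p ∈ S, ⌊Q * w p⌋₊ • Ψ (pt p) := by rw [hs, hL, sum_lst]
  have hn' : n = 1 + ∑ p ∈ S, (⌊Q * w p⌋₊ : ℝ) := by
    rw [hn, hL, len_lst]; push_cast; ring
  have hfl : ∀ p ∈ S, |(⌊Q * w p⌋₊ : ℝ) - Q * w p| ≤ 1 := by
    intro p hp
    have h0 : 0 ≤ Q * w p := mul_nonneg hQ0.le (hw p hp)
    have h1 := Nat.floor_le h0
    have h2 := Nat.lt_floor_add_one (Q * w p)
    rw [abs_le]
    constructor <;> linarith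
  have hsum : ∑ p ∈ S, |(⌊Q * w p⌋₊ : ℝ) - Q * w p| ≤ #S := by
    calc _ ≤ ∑ p ∈ S, (1 : ℝ) := Finset.sum_le_sum hfl
      _ = _ := by simp
  have e1 : |n - Q * t| ≤ #S + 1 := by
    have : n - Q * t = 1 + ∑ p ∈ S, ((⌊Q * w p⌋₊ : ℝ) - Q * w p) := by
      rw [hn', ht, Finset.sum_sub_distrib, ← Finset.mul_sum]; ring
    rw [this]
    calc _ ≤ |(1 : ℝ)| + |∑ p ∈ S, ((⌊Q * w p⌋₊ : ℝ) - Q * w p)| := abs_add_le _ _
      _ ≤ 1 + ∑ p ∈ S, |(⌊Q * w p⌋₊ : ℝ) - Q * w p| := by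
        rw [abs_one]
        have := Finset.abs_sum_le_sum_abs (fun p => (⌊Q * w p⌋₊ : ℝ) - Q * w p) S
        linarith
      _ ≤ _ := by linarith
  have e2 : ‖s - (Q : ℂ) * W‖ ≤ C * (#S + 1) := by
    have : s - (Q : ℂ) * W = Ψ 0 + ∑ p ∈ S, (((⌊Q * w p⌋₊ : ℝ) - Q * w p : ℝ) : ℂ) * Ψ (pt p) := by
      rw [hs', hW, Finset.mul_sum, add_sub_assoc, ← Finset.sum_sub_distrib]
      congr 1
      refine Finset.sum_congr rfl fun p _ => ?_
      rw [nsmul_eq_mul]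
      push_cast
      ring
    rw [this]
    calc _ ≤ ‖Ψ 0‖ + ‖∑ p ∈ S, (((⌊Q * w p⌋₊ : ℝ) - Q * w p : ℝ) : ℂ) * Ψ (pt p)‖ := norm_add_le _ _
      _ ≤ C + ∑ p ∈ S, |(⌊Q * w p⌋₊ : ℝ) - Q * w p| * C := by
        refine add_le_add (hC 0) ((norm_sum_le _ _).trans (Finset.sum_le_sum fun p _ => ?_))
        rw [norm_mul, Complex.norm_real, Real.norm_eq_abs]
        exact mul_le_mul_of_nonneg_left (hC _) (abs_nonneg _)
      _ ≤ _ := by
        rw [← Finset.sum_mul]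
        nlinarith
  have hWn : ‖W‖ ≤ C * 2 := by
    rw [hW]
    calc _ ≤ ∑ p ∈ S, ‖(w p : ℂ) * Ψ (pt p)‖ := norm_sum_le _ _
      _ ≤ ∑ p ∈ S, w p * C := by
        refine Finset.sum_le_sum fun p hp => ?_
        rw [norm_mul, Complex.norm_real, Real.norm_of_nonneg (hw p hp)]
        exact mul_le_mul_of_nonneg_left (hC _) (hw p hp)
      _ = t * C := by rw [ht, Finset.sum_mul]
      _ ≤ _ := by nlinarith
  have hnQ : (Q : ℝ) / 4 ≤ n := by
    have h1 := (abs_le.1 e1).1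
    have h2 : (Q : ℝ) * (1 / 2) ≤ Q * t := mul_le_mul_of_nonneg_left ht1 hQ0.le
    have h3 : (#S : ℝ) + 1 ≤ Q / 4 := by
      rw [hQ1]
      nlinarith [Nat.cast_nonneg (α := ℝ) k]
    linarith
  have hn0 : 0 < n := by linarith
  have e3 : n⁻¹ • s - W = n⁻¹ • ((s - (Q : ℂ) * W) + ((Q - n : ℝ) : ℂ) * W) := by
    have hnc : (n : ℂ) ≠ 0 := by exact_mod_cast hn0.ne'
    rw [Complex.real_smul, Complex.real_smul]
    push_cast
    field_simp
    ring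
  rw [e3, norm_smul, norm_inv, Real.norm_of_nonneg hn0.le, inv_mul_le_iff₀ hn0]
  have e4 : |(Q : ℝ) - n| ≤ Q * |t - 1| + (#S + 1) := by
    have : (Q : ℝ) - n = -(Q * (t - 1)) - (n - Q * t) := by ring
    rw [this]
    calc _ ≤ |-(Q * (t - 1))| + |n - Q * t| := abs_sub _ _
      _ ≤ _ := by
        rw [abs_neg, abs_mul, abs_of_nonneg hQ0.le]
        linarith
  calc _ ≤ ‖s - (Q : ℂ) * W‖ + ‖((Q - n : ℝ) : ℂ) * W‖ := norm_add_le _ _
    _ ≤ C * (#S + 1) + (Q * |t - 1| + (#S + 1)) * (C * 2) := by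
      refine add_le_add e2 ?_
      rw [norm_mul, Complex.norm_real, Real.norm_eq_abs]
      exact mul_le_mul e4 hWn (norm_nonneg _) (by positivity)
    _ = C * (3 * (#S + 1) + 2 * Q * |t - 1|) := by ring
    _ ≤ C * ((Q / 4) * (3 / (k + 1) + 8 * |t - 1|)) := by
      apply mul_le_mul_of_nonneg_left _ hC0
      have : (Q : ℝ) / 4 * (3 / (k + 1)) = 3 * (#S + 1) := by
        rw [hQ1]; field_simp
      rw [mul_add ((Q : ℝ) / 4), this]
      apply le_of_eq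
      ring
    _ ≤ C * (n * (3 / (k + 1) + 8 * |t - 1|)) := by
      apply mul_le_mul_of_nonneg_left _ hC0
      apply mul_le_mul_of_nonneg_right hnQ
      positivity
    _ = _ := by ring

theorem exists_seq_of_weights {ι : Type} (S : ℕ → Finset ι) (pt : ι → ℤ) (w : ℕ → ι → ℝ)
    (hw : ∀ k, ∀ p ∈ S k, 0 ≤ w k p)
    (hsum : Tendsto (fun k => ∑ p ∈ S k, w k p) atTop (𝓝 1)) :
    ∃ a : ℕ → ℤ, ∀ Ψ : ℤ → ℂ, (∃ C : ℝ, ∀ n, ‖Ψ n‖ ≤ C) → ∀ L : ℂ,
      (Tendsto (fun k => ∑ p ∈ S k, (w k p : ℂ) * Ψ (pt p)) atTop (𝓝 L) ↔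
      Tendsto (fun N : ℕ => (1 / (N : ℂ)) * ∑ n ∈ Finset.Icc 1 N, Ψ (a n)) atTop (𝓝 L)) := by
  obtain ⟨M, hM⟩ : ∃ M : ℕ → List ℤ, ∀ k, M k = lst (S k) pt (w k) (4 * (#(S k) + 1) * (k + 1)) :=
    ⟨_, fun _ => rfl⟩
  have hMne : ∀ k, M k ≠ [] := by
    intro k
    rw [hM, lst]
    exact List.cons_ne_nil _ _
  refine ⟨fun n => seqq M (n - 1), fun Ψ ⟨C, hC⟩ L => ?_⟩
  -- the difference between list averages and weights
  have hdiff : Tendsto (fun k => (((M k).length : ℝ)⁻¹ • ((M k).map Ψ).sum) -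
      ∑ p ∈ S k, (w k p : ℂ) * Ψ (pt p)) atTop (𝓝 0) := by
    rw [tendsto_zero_iff_norm_tendsto_zero]
    have hb : Tendsto (fun k : ℕ => C * (3 / ((k : ℝ) + 1) + 8 * |∑ p ∈ S k, w k p - 1|)) atTop
        (𝓝 0) := by
      have t1 : Tendsto (fun k : ℕ => 3 / ((k : ℝ) + 1)) atTop (𝓝 0) :=
        (tendsto_const_div_atTop_nhds_zero_nat 3).comp (tendsto_add_atTop_nat 1) |>.congr
          (fun k => by simp)
      have t2 : Tendsto (fun k => |∑ p ∈ S k, w k p - 1|) atTop (𝓝 0) := by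
        have := (hsum.sub_const 1).abs
        simpa using this
      have := (t1.add (t2.const_mul 8)).const_mul C
      simpa using this
    refine squeeze_zero' (Eventually.of_forall fun _ => norm_nonneg _) ?_ hb
    have h1 : ∀ᶠ k in atTop, ∑ p ∈ S k, w k p ∈ Set.Icc (1 / 2 : ℝ) 2 :=
      hsum.eventually (Icc_mem_nhds (by norm_num) (by norm_num))
    filter_upwards [h1] with k hk
    exact avg_err (S k) pt (w k) k (hw k) hk.1 hk.2 Ψ C hC (M k) (hM k)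
  have hrun : ∀ N : ℕ, (1 / (N : ℂ)) * ∑ n ∈ Finset.Icc 1 N, Ψ (seqq M (n - 1)) =
      (N : ℝ)⁻¹ • ∑ n ∈ Finset.range N, Ψ (seqq M n) := by
    intro N
    have : ∑ n ∈ Finset.Icc 1 N, Ψ (seqq M (n - 1)) = ∑ n ∈ Finset.range N, Ψ (seqq M n) := by
      induction N with
      | zero => simp
      | succ N ih =>
        rw [Finset.sum_Icc_succ_top (by omega), Finset.sum_range_succ, ih]
        simp
    rw [this, Complex.real_smul]
    push_cast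
    rw [one_div]
  simp only [hrun]
  constructor
  · intro h
    apply tendsto_avg M hMne Ψ C hC L
    have := hdiff.add h
    simpa using this
  · intro h
    have h1 : Tendsto (fun k : ℕ => (((pre M (k + 1)).length : ℝ))⁻¹ •
        ∑ n ∈ Finset.range (pre M (k + 1)).length, Ψ (seqq M n)) atTop (𝓝 L) := by
      have hl : Tendsto (fun k : ℕ => (pre M (k + 1)).length) atTop atTop := by
        apply tendsto_atTop_mono (fun k => le_length_pre M hMne (k + 1))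
        exact tendsto_add_atTop_nat 1
      exact h.comp hl
    have h2 : Tendsto (fun k : ℕ => (((pre M (k + 1)).length : ℝ))⁻¹ •
        ∑ n ∈ Finset.range (pre M (k + 1)).length, Ψ (seqq M n) -
        ((M k).length : ℝ)⁻¹ • ((M k).map Ψ).sum) atTop (𝓝 0) := by
      rw [tendsto_zero_iff_norm_tendsto_zero]
      have hb : Tendsto (fun k : ℕ => 2 * C / ((k : ℝ) + 1)) atTop (𝓝 0) :=
        (tendsto_const_div_atTop_nhds_zero_nat (2 * C)).comp (tendsto_add_atTop_nat 1) |>.congr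
          (fun k => by simp)
      exact squeeze_zero (fun _ => norm_nonneg _) (fun k => avg_block_end M hMne Ψ C hC k) hb
    have h3 := (h1.sub h2).sub hdiff
    simpa using h3

end Pool.Agent.TH511.J165
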