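import Mathlib
import Pool.Agent.TH109.M.Defs

/-!
# No unit character of exponential size
-/

set_option autoImplicit false
open scoped Classical
namespace Pool.Agent.TH511.J1564
open Pool.Agent.Helper943.LM (UA wpow)
open Pool.Agent.TH109.M
variable {G : Type} [Group G]

theorem vol_list {L : Type} [Field L] (χ : G →* Lˣ) (X : G → L)
    (hX : ∀ g h, X (g * h) = X g + χ g * X h) (W : Set G) (hW : W.Finite)
    (Ls : List (L →+* ℂ)) : ∃ C : ℝ, 0 < C ∧ ∀ l : List G, l.length = Ls.length + 1 →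
      (∀ v ∈ l, ∀ w ∈ l, v⁻¹ * w ∈ W) → ∀ u, (∀ v ∈ l, u⁻¹ * v ∈ W) →
      ‖cupd (Ls.map fun σ => fun g => σ (X g)) l‖ ≤
        C * (Ls.map fun σ => ‖σ (χ u : L)‖).prod := by
  induction Ls with
  | nil =>
    refine ⟨1, one_pos, fun l _ _ u _ => ?_⟩
    simp [cupd]
  | cons σ Ls ih =>
    obtain ⟨C, hC, h⟩ := ih
    let K : ℝ := 1 + ∑ a ∈ hW.toFinset, ∑ b ∈ hW.toFinset, ‖σ ((χ a : L) * X b)‖
    have hK : 0 < K := by
      have : 0 ≤ ∑ a ∈ hW.toFinset, ∑ b ∈ hW.toFinset, ‖σ ((χ a : L) * X b)‖ :=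
        Finset.sum_nonneg fun a _ => Finset.sum_nonneg fun b _ => norm_nonneg _
      simp only [K]
      linarith
    have hKb : ∀ a ∈ W, ∀ b ∈ W, ‖σ ((χ a : L) * X b)‖ ≤ K := by
      intro a ha b hb
      have h1 : ‖σ ((χ a : L) * X b)‖ ≤ ∑ b ∈ hW.toFinset, ‖σ ((χ a : L) * X b)‖ :=
        Finset.single_le_sum (f := fun b => ‖σ ((χ a : L) * X b)‖) (fun _ _ => norm_nonneg _)
          (hW.mem_toFinset.2 hb)
      have h2 : ∑ b ∈ hW.toFinset, ‖σ ((χ a : L) * X b)‖ ≤
          ∑ a ∈ hW.toFinset, ∑ b ∈ hW.toFinset, ‖σ ((χ a : L) * X b)‖ :=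
        Finset.single_le_sum (f := fun a => ∑ b ∈ hW.toFinset, ‖σ ((χ a : L) * X b)‖)
          (fun _ _ => Finset.sum_nonneg fun _ _ => norm_nonneg _) (hW.mem_toFinset.2 ha)
      simp only [K]
      linarith
    refine ⟨K * C, mul_pos hK hC, fun l hl hl2 u hu => ?_⟩
    match l, hl, hl2, hu with
    | [], hl, _, _ => simp at hl
    | [g], hl, _, _ => simp at hl
    | g :: h' :: l, hl, hl2, hu =>
      simp only [List.map_cons, cupd, List.prod_cons]
      rw [norm_mul]
      have hg : g ∈ g :: h' :: l := List.mem_cons_self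
      have hh : h' ∈ g :: h' :: l := List.mem_cons_of_mem _ List.mem_cons_self
      have e1 : σ (X h') - σ (X g) = σ (χ u : L) * σ ((χ (u⁻¹ * g) : L) * X (g⁻¹ * h')) := by
        have e2 : X h' = X g + χ g * X (g⁻¹ * h') := by
          rw [← hX, mul_inv_cancel_left]
        have e3 : (χ g : L) = χ u * χ (u⁻¹ * g) := by
          rw [← Units.val_mul, ← map_mul, mul_inv_cancel_left]
        rw [← map_sub, ← map_mul, e2, e3]
        congr 1
        ring
      rw [e1, norm_mul]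
      have h1 := hKb _ (hu g hg) _ (hl2 g hg h' hh)
      have h2 := h (h' :: l) (by simpa using hl)
        (fun v hv w hw => hl2 v (List.mem_cons_of_mem _ hv) w (List.mem_cons_of_mem _ hw)) u
        (fun v hv => hu v (List.mem_cons_of_mem _ hv))
      calc ‖σ (χ u : L)‖ * ‖σ ((χ (u⁻¹ * g) : L) * X (g⁻¹ * h'))‖ *
            ‖cupd (Ls.map fun σ => fun g => σ (X g)) (h' :: l)‖
          ≤ ‖σ (χ u : L)‖ * K * (C * (Ls.map fun σ => ‖σ (χ u : L)‖).prod) := by
            gcongr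
        _ = _ := by ring

/-- size of the volume form on small lists -/
theorem vol_bound {L : Type} [Field L] (χ : G →* Lˣ) (X : G → L)
    (hX : ∀ g h, X (g * h) = X g + χ g * X h) {m : ℕ} (σ : Fin m → L →+* ℂ)
    (W : Set G) (hW : W.Finite) : ∃ C : ℝ, 0 < C ∧ ∀ l : List G, l.length = m + 1 →
      (∀ v ∈ l, ∀ w ∈ l, v⁻¹ * w ∈ W) → ∀ u ∈ l,
      ‖cupd (List.ofFn fun k => fun g => σ k (X g)) l‖ ≤ C * ∏ k, ‖σ k (χ u : L)‖ := by
  obtain ⟨C, hC, h⟩ := vol_list χ X hX W hW (List.ofFn σ)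
  refine ⟨C, hC, fun l hl hl2 u hu => ?_⟩
  have h1 := h l (by rw [List.length_ofFn]; exact hl) hl2 u (fun v hv => hl2 u hu v hv)
  rw [List.map_ofFn, List.map_ofFn, List.prod_ofFn] at h1
  exact h1

theorem len_pow {U : UA G} {C : ℕ} (h : ∀ g h : G, len U (g * h) ≤ len U g + C * len U h)
    (g : G) (m : ℕ) : len U (g ^ m) ≤ len U 1 + m * (C * len U g) := by
  induction m with
  | zero => simp
  | succ m ih =>
    rw [pow_succ]
    have := h (g ^ m) g
    have h2 : (m + 1) * (C * len U g) = m * (C * len U g) + C * len U g := by ring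
    omega

omit [Group G] in
theorem pa_bound (φ : List G → ℂ) (c : Ch G) (K : ℝ) (h : ∀ l ∈ c.support, ‖φ l‖ ≤ K) :
    ‖pa φ c‖ ≤ (nrm c : ℝ) * K := by
  unfold pa nrm
  rw [Finsupp.linearCombination_apply, Finsupp.sum, Finsupp.sum]
  refine (norm_sum_le _ _).trans ?_
  rw [Nat.cast_sum, Finset.sum_mul]
  refine Finset.sum_le_sum fun l hl => ?_
  rw [zsmul_eq_mul, norm_mul, Complex.norm_intCast]
  have h1 : |((c l : ℤ) : ℝ)| = ((c l).natAbs : ℝ) := by
    rw [Nat.cast_natAbs, Int.cast_abs]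
  rw [h1]
  exact mul_le_mul_of_nonneg_left (h l hl) (Nat.cast_nonneg _)

theorem B0 {M : Type} [AddCommGroup M] (U : UA G) (hlen : LenF U) (hbb : BoxB U)
    (hcup : CupB U ℂ) (hdetA : ∀ (n : ℕ) (X : Fin n → G → ℂ) (b : Fin n → G),
      detA (List.ofFn X) (List.ofFn b) = (Matrix.of fun k j => X k (b j)).det)
    (B : MB G M) {L : Type} [Field L]
    (χ : G →* Lˣ) (x : M →+ L) (hx : ∀ g a, x (B.ρ g a) = (χ g : L) * x a)
    (X : G → L) (hX : ∀ g h, X (g * h) = X g + χ g * X h) (hXi : ∀ a, X (B.i a) = x a)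
    {m : ℕ} (σ : Fin m → L →+* ℂ) (hprod : ∀ g, (∏ k, ‖σ k (χ g : L)‖) = 1)
    (b : Fin m → M) (hdet : (Matrix.of fun k j => σ k (x (b j))).det ≠ 0)
    (g0 : G) (k0 : Fin m) (hk0 : 1 < ‖σ k0 (χ g0 : L)‖) : False := by
  obtain ⟨⟨C0, hC0⟩, -, -⟩ := hlen
  -- a nonzero entry in the row `k0`
  obtain ⟨j0, hj0⟩ : ∃ j0, σ k0 (x (b j0)) ≠ 0 := by
    by_contra hcon
    push Not at hcon
    exact hdet (Matrix.det_eq_zero_of_row_eq_zero k0 fun j => hcon j)
  have hxb : x (b j0) ≠ 0 := fun h => hj0 (by rw [h, map_zero])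
  have hχ : ∀ a, (χ (B.i a) : L) = 1 := by
    intro a
    have h1 := hX (B.i a) (B.i (b j0))
    rw [← B.i_add, hXi, hXi, hXi, map_add] at h1
    have h2 : (χ (B.i a) : L) * x (b j0) = 1 * x (b j0) := by
      rw [one_mul]
      exact (add_left_cancel h1).symm
    exact mul_right_cancel₀ hxb h2
  obtain ⟨C1, W, hW, hbox⟩ := hbb m
  obtain ⟨C2, hC2, hvol⟩ := vol_bound χ X hX σ W hW
  -- bound for the determinant
  have hbd : ∀ (n : ℕ) (a : Fin m → M), 1 ≤ n → (∀ j, len U (B.i (a j)) ≤ n) →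
      ‖(Matrix.of fun k j => σ k (x (a j))).det‖ ≤ (C1 * C2) * (n : ℝ) ^ m := by
    intro n a hn ha
    have hlb : ∀ g ∈ List.ofFn (fun j => B.i (a j)), ∃ c, g = B.i c := by
      intro g hg
      obtain ⟨j, rfl⟩ := (List.mem_ofFn' _ _).1 hg
      exact ⟨a j, rfl⟩
    have h1 := hcup (List.ofFn fun k => fun g => σ k (X g)) (List.ofFn fun j => B.i (a j))
      (by rw [List.length_ofFn, List.length_ofFn]) (by
        intro g hg h hh
        obtain ⟨c, rfl⟩ := hlb g hg
        obtain ⟨d, rfl⟩ := hlb h hh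
        rw [← B.i_add, ← B.i_add, add_comm]) (by
        intro Y hY g hg h
        obtain ⟨k, rfl⟩ := (List.mem_ofFn' _ _).1 hY
        obtain ⟨c, rfl⟩ := hlb g hg
        simp only
        rw [hX, hχ, one_mul, map_add])
    rw [hdetA] at h1
    have h2 : (Matrix.of fun k j => σ k (X (B.i (a j)))) = Matrix.of fun k j => σ k (x (a j)) := by
      ext k j
      simp only [Matrix.of_apply, hXi]
    rw [h2] at h1
    rw [← h1]
    obtain ⟨hn1, hn2⟩ := hbox n (List.ofFn fun j => B.i (a j)) hn (List.length_ofFn) (by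
      intro g hg
      obtain ⟨j, rfl⟩ := (List.mem_ofFn' _ _).1 hg
      exact ha j)
    have h3 := pa_bound (cupd (List.ofFn fun k => fun g => σ k (X g)))
      (box U (List.ofFn fun j => B.i (a j))) C2 (by
        intro l hl
        obtain ⟨hl1, -, hl3⟩ := hn2 l hl
        obtain ⟨u, hu⟩ : ∃ u, u ∈ l := by
          cases l with
          | nil => simp at hl1
          | cons u l => exact ⟨u, List.mem_cons_self⟩
        have := hvol l hl1 hl3 u hu
        rwa [hprod, mul_one] at this)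
    refine h3.trans ?_
    have h4 : (nrm (box U (List.ofFn fun j => B.i (a j))) : ℝ) ≤ C1 * (n : ℝ) ^ m := by
      exact_mod_cast hn1
    calc _ ≤ (C1 * (n : ℝ) ^ m) * C2 := mul_le_mul_of_nonneg_right h4 hC2.le
      _ = _ := by ring
  -- the elements y_n
  let y : ℕ → M := fun n => B.ρ (g0 ^ n) (b j0)
  let C3 : ℕ := (len U 1 + C0 * len U g0) + C0 * len U (B.i (b j0)) +
    C0 * (len U 1 + C0 * len U g0⁻¹) + ∑ j, len U (B.i (b j))
  have hy : ∀ n, 1 ≤ n → len U (B.i (y n)) ≤ C3 * n := by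
    intro n hn
    have e1 : B.i (y n) = g0 ^ n * B.i (b j0) * g0⁻¹ ^ n := by
      simp only [y]
      rw [← B.conj, inv_pow]
    rw [e1]
    have l1 := hC0 (g0 ^ n * B.i (b j0)) (g0⁻¹ ^ n)
    have l2 := hC0 (g0 ^ n) (B.i (b j0))
    have l3 := len_pow hC0 g0 n
    have l4 := len_pow hC0 g0⁻¹ n
    have l5 : C0 * len U (g0⁻¹ ^ n) ≤ C0 * (len U 1 + n * (C0 * len U g0⁻¹)) :=
      Nat.mul_le_mul_left _ l4
    have q1 : len U 1 ≤ len U 1 * n := Nat.le_mul_of_pos_right _ hn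
    have q2 : C0 * len U (B.i (b j0)) ≤ C0 * len U (B.i (b j0)) * n :=
      Nat.le_mul_of_pos_right _ hn
    have q3 : C0 * (len U 1 + n * (C0 * len U g0⁻¹)) ≤
        C0 * (len U 1 * n + n * (C0 * len U g0⁻¹)) :=
      Nat.mul_le_mul_left _ (Nat.add_le_add_right q1 _)
    have q4 : C3 * n = (len U 1 * n + n * (C0 * len U g0)) + C0 * len U (B.i (b j0)) * n +
          C0 * (len U 1 * n + n * (C0 * len U g0⁻¹)) + (∑ j, len U (B.i (b j))) * n := by
      simp only [C3]
      ring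
    rw [q4]
    omega
  have hbj : ∀ n j, 1 ≤ n → len U (B.i (b j)) ≤ C3 * n := by
    intro n j hn
    have h1 : len U (B.i (b j)) ≤ ∑ j, len U (B.i (b j)) :=
      Finset.single_le_sum (f := fun j => len U (B.i (b j))) (fun _ _ => Nat.zero_le _)
        (Finset.mem_univ j)
    have h2 : len U (B.i (b j)) ≤ C3 := h1.trans (Nat.le_add_left _ _)
    exact h2.trans (Nat.le_mul_of_pos_right _ hn)
  set A : Matrix (Fin m) (Fin m) ℂ := Matrix.of fun k j => σ k (x (b j)) with hA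
  set r : ℝ := ‖σ k0 (χ g0 : L)‖ with hr
  set c0 : ℝ := ‖σ k0 (x (b j0))‖ with hc0
  have hc0pos : 0 < c0 := norm_pos_iff.2 hj0
  have hdetpos : 0 < ‖A.det‖ := norm_pos_iff.2 hdet
  let C4 : ℕ := C3 + 1
  let K : ℝ := (∑ j, ‖A k0 j‖) * ((C1 * C2) * (C4 : ℝ) ^ m)
  have hmain : ∀ n : ℕ, 1 ≤ n → ‖A.det‖ * (r ^ n * c0) ≤ K * (n : ℝ) ^ m := by
    intro n hn
    let v : Fin m → ℂ := fun k => σ k (x (y n))
    have h1 := congrFun (Matrix.mulVec_cramer A v) k0
    have h2 : ‖(A.det • v) k0‖ = ‖A.det‖ * (r ^ n * c0) := by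
      rw [Pi.smul_apply, smul_eq_mul, norm_mul]
      simp only [v, y]
      rw [hx, map_mul, norm_mul, map_pow, Units.val_pow_eq_pow_val, map_pow, norm_pow]
    rw [← h2, ← h1]
    have h3 : (A.mulVec (A.cramer v)) k0 = ∑ j, A k0 j * A.cramer v j := rfl
    rw [h3]
    refine (norm_sum_le _ _).trans ?_
    have h4 : ∀ j, ‖A k0 j * A.cramer v j‖ ≤ ‖A k0 j‖ * ((C1 * C2) * ((C4 * n : ℕ) : ℝ) ^ m) := by
      intro j
      rw [norm_mul]
      refine mul_le_mul_of_nonneg_left ?_ (norm_nonneg _)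
      rw [Matrix.cramer_apply]
      have h5 : A.updateCol j v = Matrix.of fun k j' => σ k (x (Function.update b j (y n) j')) := by
        ext k j'
        rw [Matrix.updateCol_apply, Matrix.of_apply]
        by_cases hjj : j' = j
        · rw [if_pos hjj, hjj, Function.update_self]
        · rw [if_neg hjj, Function.update_of_ne hjj, hA, Matrix.of_apply]
      rw [h5]
      refine hbd (C4 * n) (Function.update b j (y n)) ?_ ?_
      · exact Nat.mul_pos (Nat.succ_pos _) hn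
      · intro j'
        have h6 : C3 * n ≤ C4 * n := Nat.mul_le_mul_right _ (Nat.le_succ _)
        by_cases hjj : j' = j
        · rw [hjj, Function.update_self]
          exact (hy n hn).trans h6
        · rw [Function.update_of_ne hjj]
          exact (hbj n j' hn).trans h6
    refine (Finset.sum_le_sum fun j _ => h4 j).trans (le_of_eq ?_)
    rw [← Finset.sum_mul]
    simp only [K]
    push_cast
    ring
  -- exponential beats polynomial
  have hlim := tendsto_pow_const_div_const_pow_of_one_lt m hk0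
  have hε : 0 < ‖A.det‖ * c0 / (|K| + 1) := by positivity
  have hev := (hlim.eventually (gt_mem_nhds hε)).and (Filter.eventually_ge_atTop 1)
  obtain ⟨n, hn1, hn2⟩ := hev.exists
  have hrn : 0 < r ^ n := pow_pos (lt_trans one_pos hk0) n
  rw [div_lt_div_iff₀ hrn (by positivity)] at hn1
  have h7 := hmain n hn2
  have h8 : K * (n : ℝ) ^ m ≤ |K| * (n : ℝ) ^ m :=
    mul_le_mul_of_nonneg_right (le_abs_self K) (by positivity)
  have h9 : (0 : ℝ) < (n : ℝ) ^ m := by
    have : (0 : ℝ) < n := by exact_mod_cast hn2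
    positivity
  nlinarith

end Pool.Agent.TH511.J1564
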