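import Mathlib
import Pool.Agent.TH109.M.Defs

/-!
# Candidates with large values at one place, and selection by counting
-/

set_option autoImplicit false
open scoped Classical
namespace Pool.Agent.TH511.J1565
open Pool.Agent.Helper943.LM (UA wpow)
open Pool.Agent.TH109.M
variable {G : Type} [Group G]

theorem selection {α : Type} {s : ℕ} (T : Fin s → Finset α) (N Q : ℕ) (hT : ∀ i, (T i).card = N)
    (bad : Fin s → (Fin s → α) → Prop)
    (hbad : ∀ i, ∀ c : Fin s → α, (∀ j, c j ∈ T j) →
      ((T i).filter (fun a => bad i (Function.update c i a))).card ≤ Q)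
    (hlt : s * Q < N) : ∃ c : Fin s → α, (∀ j, c j ∈ T j) ∧ ∀ i, ¬ bad i c := by
  set X : Finset (Fin s → α) := Fintype.piFinset T with hX
  have hXc : X.card = N ^ s := by
    rw [hX, Fintype.card_piFinset, Finset.prod_congr rfl fun i _ => hT i]
    simp
  have hN : 0 < N := by omega
  have hmem : ∀ c, c ∈ X ↔ ∀ j, c j ∈ T j := fun c => Fintype.mem_piFinset
  have key : ∀ i, N * (X.filter (bad i)).card ≤ Q * N ^ s := by
    intro i
    have h1 : (X.filter (bad i)).card * N =
        ((X ×ˢ T i).filter fun q => bad i (Function.update q.1 i q.2)).card := by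
      rw [← hT i, ← Finset.card_product]
      refine Finset.card_nbij' (fun q => (Function.update q.1 i q.2, q.1 i))
        (fun q => (Function.update q.1 i q.2, q.1 i)) ?_ ?_ ?_ ?_
      · rintro ⟨c, a⟩ hq
        have hq' := Finset.mem_product.1 (Finset.mem_coe.1 hq)
        have hc := Finset.mem_filter.1 hq'.1
        have hcm := (hmem c).1 hc.1
        refine Finset.mem_coe.2 (Finset.mem_filter.2 ⟨Finset.mem_product.2 ⟨?_, hcm i⟩, ?_⟩)
        · rw [hmem]
          intro j
          by_cases hj : j = i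
          · subst hj
            simp only [Function.update_self]
            exact hq'.2
          · simp only [Function.update_of_ne hj]
            exact hcm j
        · show bad i (Function.update (Function.update c i a) i (c i))
          rw [Function.update_idem, Function.update_eq_self]
          exact hc.2
      · rintro ⟨c, a⟩ hq
        have hq' := Finset.mem_filter.1 (Finset.mem_coe.1 hq)
        have hq2 := Finset.mem_product.1 hq'.1
        have hcm := (hmem c).1 hq2.1
        refine Finset.mem_coe.2 (Finset.mem_product.2 ⟨Finset.mem_filter.2 ⟨?_, hq'.2⟩, hcm i⟩)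
        rw [hmem]
        intro j
        by_cases hj : j = i
        · subst hj
          simp only [Function.update_self]
          exact hq2.2
        · simp only [Function.update_of_ne hj]
          exact hcm j
      · rintro ⟨c, a⟩ _
        simp only [Function.update_idem, Function.update_eq_self, Function.update_self]
      · rintro ⟨c, a⟩ _
        simp only [Function.update_idem, Function.update_eq_self, Function.update_self]
    have h2 : ((X ×ˢ T i).filter fun q => bad i (Function.update q.1 i q.2)).card ≤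
        X.card * Q := by
      rw [Finset.card_filter, Finset.sum_product, ← smul_eq_mul]
      refine Finset.sum_le_card_nsmul _ _ _ fun c hc => ?_
      rw [← Finset.card_filter]
      exact hbad i c ((hmem c).1 hc)
    rw [hXc] at h2
    rw [mul_comm, h1, mul_comm Q]
    exact h2
  by_contra hcon
  push Not at hcon
  have hcover : X ⊆ Finset.univ.biUnion fun i => X.filter (bad i) := by
    intro c hc
    obtain ⟨i, hi⟩ := hcon c ((hmem c).1 hc)
    exact Finset.mem_biUnion.2 ⟨i, Finset.mem_univ _, Finset.mem_filter.2 ⟨hc, hi⟩⟩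
  have h1 : X.card ≤ ∑ i, (X.filter (bad i)).card :=
    (Finset.card_le_card hcover).trans Finset.card_biUnion_le
  have h2 : N * N ^ s ≤ s * (Q * N ^ s) := by
    calc N * N ^ s = N * X.card := by rw [hXc]
      _ ≤ N * ∑ i, (X.filter (bad i)).card := Nat.mul_le_mul_left _ h1
      _ = ∑ i, N * (X.filter (bad i)).card := Finset.mul_sum _ _ _
      _ ≤ ∑ _i : Fin s, Q * N ^ s := Finset.sum_le_sum fun i _ => key i
      _ = s * (Q * N ^ s) := by simp
  have h3 : N ≤ s * Q := by
    have hp : 0 < N ^ s := pow_pos hN s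
    have h4 : N * N ^ s ≤ s * Q * N ^ s := by rw [mul_assoc]; exact h2
    exact Nat.le_of_mul_le_mul_right h4 hp
  omega

/-! ### nonarchimedean absolute values -/

section na

variable {L : Type} [Field L]

theorem sum_lt {v : AbsoluteValue L ℝ} (hv : IsNonarchimedean v) {ι : Type} (F : Finset ι)
    (c : ι → L) (b : ℝ) (hb : 0 < b) (h : ∀ r ∈ F, v (c r) < b) : v (∑ r ∈ F, c r) < b := by
  induction F using Finset.induction_on with
  | empty => simpa using hb
  | insert a s ha ih =>
    rw [Finset.sum_insert ha]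
    refine (hv _ _).trans_lt (max_lt (h a (Finset.mem_insert_self _ _)) ?_)
    exact ih fun r hr => h r (Finset.mem_insert_of_mem hr)

theorem sum_le {v : AbsoluteValue L ℝ} (hv : IsNonarchimedean v) {ι : Type} (F : Finset ι)
    (c : ι → L) (b : ℝ) (hb : 0 ≤ b) (h : ∀ r ∈ F, v (c r) ≤ b) : v (∑ r ∈ F, c r) ≤ b := by
  induction F using Finset.induction_on with
  | empty => simpa using hb
  | insert a s ha ih =>
    rw [Finset.sum_insert ha]
    refine (hv _ _).trans (max_le (h a (Finset.mem_insert_self _ _)) ?_)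
    exact ih fun r hr => h r (Finset.mem_insert_of_mem hr)

theorem dom {v : AbsoluteValue L ℝ} (hv : IsNonarchimedean v) {ι : Type} (F : Finset ι)
    (c : ι → L) (t : ι) (ht : t ∈ F) (hpos : 0 < v (c t))
    (h : ∀ r ∈ F, r ≠ t → v (c r) < v (c t)) : v (c t) ≤ v (∑ r ∈ F, c r) := by
  have h1 : v (∑ r ∈ F.erase t, c r) < v (c t) :=
    sum_lt hv _ _ _ hpos fun r hr => h r (Finset.mem_of_mem_erase hr) (Finset.ne_of_mem_erase hr)
  have h2 : c t = (∑ r ∈ F, c r) + -(∑ r ∈ F.erase t, c r) := by
    rw [← Finset.add_sum_erase F c ht]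
    ring
  have h3 := hv (∑ r ∈ F, c r) (-(∑ r ∈ F.erase t, c r))
  rw [← h2, v.map_neg] at h3
  rcases le_max_iff.1 h3 with h4 | h4
  · exact h4
  · exact absurd h1 (not_lt.2 h4)

end na

section cand

variable {M : Type} [AddCommGroup M]

/-- the element of a set of exponents -/
noncomputable def el (B : MB G M) (q : G) (a0 : M) (J : ℕ) (S : Finset ℕ) : M :=
  ∑ t ∈ S, B.ρ (q ^ (J + t)) a0

theorem i_zero (B : MB G M) : B.i 0 = 1 := by
  have h := B.i_add 0 0
  rw [add_zero] at h
  exact (mul_eq_left.1 h.symm)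

theorem len_pow {U : UA G} {C : ℕ} (h : ∀ g h : G, len U (g * h) ≤ len U g + C * len U h)
    (g : G) (m : ℕ) : len U (g ^ m) ≤ len U 1 + m * (C * len U g) := by
  induction m with
  | zero => simp
  | succ m ih =>
    rw [pow_succ]
    have := h (g ^ m) g
    have h2 : (m + 1) * (C * len U g) = m * (C * len U g) + C * len U g := by ring
    omega

theorem len_el {U : UA G} {C : ℕ} (h : ∀ g h : G, len U (g * h) ≤ len U g + C * len U h)
    (B : MB G M) (q : G) (a0 : M) (n : ℕ) :
    ∀ S : Finset ℕ, S ⊆ Finset.range n →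
      len U (B.i (el B q a0 0 S) * q ^ n) ≤ len U 1 + n * (C * len U (B.i a0) + C * len U q) := by
  induction n with
  | zero =>
    intro S hS
    have hS0 : S = ∅ := Finset.subset_empty.1 hS
    subst hS0
    simp [el, i_zero]
  | succ n ih =>
    intro S hS
    have h2 : (n + 1) * (C * len U (B.i a0) + C * len U q) =
      n * (C * len U (B.i a0) + C * len U q) + (C * len U (B.i a0) + C * len U q) := by ring
    by_cases hn : n ∈ S
    · have hS' : S.erase n ⊆ Finset.range n := by
        intro r hr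
        have h3 := Finset.mem_range.1 (hS (Finset.mem_of_mem_erase hr))
        have h4 := Finset.ne_of_mem_erase hr
        exact Finset.mem_range.2 (by omega)
      have e1 : el B q a0 0 S = el B q a0 0 (S.erase n) + B.ρ (q ^ n) a0 := by
        unfold el
        rw [← Finset.add_sum_erase S _ hn, Nat.zero_add, add_comm]
      have e2 : B.i (el B q a0 0 S) * q ^ (n + 1) =
          B.i (el B q a0 0 (S.erase n)) * q ^ n * B.i a0 * q := by
        rw [e1, B.i_add, ← B.conj, pow_succ]
        group
      rw [e2]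
      have h5 := ih _ hS'
      have h6 := h (B.i (el B q a0 0 (S.erase n)) * q ^ n * B.i a0) q
      have h7 := h (B.i (el B q a0 0 (S.erase n)) * q ^ n) (B.i a0)
      omega
    · have hS' : S ⊆ Finset.range n := by
        intro r hr
        have h3 := Finset.mem_range.1 (hS hr)
        have h4 : r ≠ n := fun h => hn (h ▸ hr)
        exact Finset.mem_range.2 (by omega)
      rw [pow_succ, ← mul_assoc]
      have h5 := ih _ hS'
      have h6 := h (B.i (el B q a0 0 S) * q ^ n) q
      omega

theorem el_shift (B : MB G M) (q : G) (a0 : M) (J : ℕ) (S : Finset ℕ) :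
    B.i (el B q a0 J S) = q ^ J * B.i (el B q a0 0 S) * (q ^ J)⁻¹ := by
  rw [B.conj]
  congr 1
  unfold el
  rw [map_sum]
  refine Finset.sum_congr rfl fun t _ => ?_
  rw [Nat.zero_add, pow_add, map_mul]
  rfl

theorem x_el (B : MB G M) {L : Type} [Field L] (χ : G →* Lˣ) (x : M →+ L)
    (hx : ∀ g a, x (B.ρ g a) = (χ g : L) * x a) (q : G) (a0 : M) (J : ℕ) (S : Finset ℕ) :
    x (el B q a0 J S) = ∑ t ∈ S, (χ q : L) ^ (J + t) * x a0 := by
  unfold el
  rw [map_sum]
  refine Finset.sum_congr rfl fun t _ => ?_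
  rw [hx, map_pow, Units.val_pow_eq_pow_val]

theorem one_place (U : UA G) (hlen : LenF U) (B : MB G M)
    {L : Type} [Field L]
    (χ : G →* Lˣ) (x : M →+ L) (hx : ∀ g a, x (B.ρ g a) = (χ g : L) * x a)
    {s : ℕ} (v : Fin s → AbsoluteValue L ℝ) (hv : ∀ i, IsNonarchimedean (v i))
    (hq : ∀ i, ∃ q, 1 < v i (χ q : L)) (ha : ∃ a, x a ≠ 0) (i : Fin s) (R : ℝ) :
    ∃ (Bd : ℝ) (C : ℕ), 0 ≤ Bd ∧ (1 < R → ∀ n : ℕ, 1 ≤ n →
      ∃ T : Finset M, T.card = 2 ^ n ∧ (∀ a ∈ T, len U (B.i a) ≤ C * n) ∧
        (∀ a ∈ T, ∀ k, v k (x a) ≤ Bd ^ n) ∧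
        ∀ a ∈ T, ∀ a' ∈ T, a ≠ a' → R ^ n < v i (x a - x a')) := by
  obtain ⟨⟨C0, hC0⟩, -, -⟩ := hlen
  obtain ⟨q, hq⟩ := hq i
  obtain ⟨a0, ha0⟩ := ha
  set μ := v i (χ q : L) with hμ
  have hxa : 0 < v i (x a0) := (v i).pos ha0
  have hmin : 0 < min 1 (v i (x a0)) := lt_min one_pos hxa
  obtain ⟨j, hj⟩ : ∃ j : ℕ, R / min 1 (v i (x a0)) < μ ^ j := pow_unbounded_of_one_lt _ hq
  have hj' : R < μ ^ j * min 1 (v i (x a0)) := (div_lt_iff₀ hmin).1 hj
  let Mk : Fin s → ℝ := fun k => max 1 (v k (χ q : L)) ^ (j + 1) * max 1 (v k (x a0))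
  have hMk0 : ∀ k, 0 ≤ Mk k := fun k => by positivity
  refine ⟨∑ k, Mk k, len U 1 + j * (C0 * len U q) +
    C0 * (len U 1 + (C0 * len U (B.i a0) + C0 * len U q)) +
    C0 * (len U 1 + (1 + j) * (C0 * len U q⁻¹)), Finset.sum_nonneg fun k _ => hMk0 k, ?_⟩
  intro hR n hn
  have hsep : ∀ S ⊆ Finset.range n, ∀ S' ⊆ Finset.range n, S ≠ S' →
      R ^ n < v i (x (el B q a0 (j * n) S) - x (el B q a0 (j * n) S')) := by
    intro S hS S' hS' hne
    let c : ℕ → L := fun r => ((if r ∈ S then 1 else 0) - (if r ∈ S' then 1 else 0)) *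
      ((χ q : L) ^ (j * n + r) * x a0)
    have hdiff : x (el B q a0 (j * n) S) - x (el B q a0 (j * n) S') =
        ∑ r ∈ Finset.range n, c r := by
      rw [x_el B χ x hx, x_el B χ x hx]
      have e : ∀ S ⊆ Finset.range n, ∑ t ∈ S, (χ q : L) ^ (j * n + t) * x a0 =
          ∑ r ∈ Finset.range n, (if r ∈ S then 1 else 0) * ((χ q : L) ^ (j * n + r) * x a0) := by
        intro S hS
        rw [← Finset.sum_subset hS]
        · refine Finset.sum_congr rfl fun r hr => ?_
          rw [if_pos hr, one_mul]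
        · intro r _ hr
          rw [if_neg hr, zero_mul]
      rw [e S hS, e S' hS', ← Finset.sum_sub_distrib]
      exact Finset.sum_congr rfl fun r _ => by simp only [c, sub_mul]
    have hDne : (symmDiff S S').Nonempty := by
      rw [Finset.nonempty_iff_ne_empty]
      intro h
      exact hne (symmDiff_eq_bot.1 h)
    obtain ⟨t, htD, htmax⟩ := Finset.exists_max_image (symmDiff S S') id hDne
    have htn : t ∈ Finset.range n := by
      rcases Finset.mem_symmDiff.1 htD with h | h
      · exact hS h.1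
      · exact hS' h.1
    have hval : ∀ r, v i ((χ q : L) ^ (j * n + r) * x a0) = μ ^ (j * n + r) * v i (x a0) := by
      intro r
      rw [(v i).map_mul, (v i).map_pow]
    have hct : v i (c t) = μ ^ (j * n + t) * v i (x a0) := by
      have h1 : ∃ u : L, v i u = 1 ∧ c t = u * ((χ q : L) ^ (j * n + t) * x a0) := by
        rcases Finset.mem_symmDiff.1 htD with h | h
        · exact ⟨1, (v i).map_one, by simp only [c]; rw [if_pos h.1, if_neg h.2, sub_zero]⟩
        · refine ⟨-1, by rw [(v i).map_neg, (v i).map_one], ?_⟩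
          simp only [c]
          rw [if_pos h.1, if_neg h.2, zero_sub]
      obtain ⟨u, hu, hcu⟩ := h1
      rw [hcu, (v i).map_mul, hu, one_mul, hval]
    have hμ0 : 0 < μ := lt_trans one_pos hq
    have hpos : 0 < v i (c t) := by
      rw [hct]
      positivity
    have hdom := dom (hv i) (Finset.range n) c t htn hpos (by
      intro r hr hrt
      rcases lt_or_gt_of_ne hrt with hlt | hgt
      · have h1 : v i (c r) ≤ μ ^ (j * n + r) * v i (x a0) := by
          have h2 : v i (((if r ∈ S then 1 else 0) - (if r ∈ S' then 1 else 0) : L)) ≤ 1 := by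
            split_ifs
            · simp
            · simp
            · rw [zero_sub, (v i).map_neg, (v i).map_one]
            · simp
          calc v i (c r) = v i (((if r ∈ S then 1 else 0) - (if r ∈ S' then 1 else 0) : L)) *
                (μ ^ (j * n + r) * v i (x a0)) := by
                  simp only [c]
                  rw [(v i).map_mul, hval]
            _ ≤ 1 * (μ ^ (j * n + r) * v i (x a0)) :=
                mul_le_mul_of_nonneg_right h2 (by positivity)
            _ = _ := one_mul _
        refine h1.trans_lt ?_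
        rw [hct]
        refine mul_lt_mul_of_pos_right ?_ hxa
        exact pow_lt_pow_right₀ hq (by omega)
      · have h1 : r ∉ symmDiff S S' := fun h => by
          have := htmax r h
          simp only [id] at this
          omega
        have h2 : c r = 0 := by
          rw [Finset.mem_symmDiff] at h1
          simp only [c]
          by_cases ha : r ∈ S
          · by_cases hb : r ∈ S'
            · rw [if_pos ha, if_pos hb, sub_self, zero_mul]
            · exact absurd (Or.inl ⟨ha, hb⟩) h1
          · by_cases hb : r ∈ S'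
            · exact absurd (Or.inr ⟨hb, ha⟩) h1
            · rw [if_neg ha, if_neg hb, sub_self, zero_mul]
        rw [h2, (v i).map_zero]
        exact hpos)
    rw [hdiff]
    refine lt_of_lt_of_le ?_ hdom
    rw [hct]
    have h3 : R ^ n < (μ ^ j * min 1 (v i (x a0))) ^ n :=
      pow_lt_pow_left₀ hj' (by linarith) (by omega)
    refine h3.trans_le ?_
    rw [mul_pow, ← pow_mul, pow_add, mul_assoc]
    refine mul_le_mul_of_nonneg_left ?_ (by positivity)
    have h4 : min 1 (v i (x a0)) ^ n ≤ min 1 (v i (x a0)) :=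
      pow_le_of_le_one hmin.le (min_le_left _ _) (by omega)
    have h5 : (1 : ℝ) ≤ μ ^ t := one_le_pow₀ hq.le
    calc min 1 (v i (x a0)) ^ n ≤ v i (x a0) := h4.trans (min_le_right _ _)
      _ = 1 * v i (x a0) := (one_mul _).symm
      _ ≤ μ ^ t * v i (x a0) := mul_le_mul_of_nonneg_right h5 hxa.le
  have hinj : Set.InjOn (el B q a0 (j * n)) ((Finset.range n).powerset : Set (Finset ℕ)) := by
    intro S hS S' hS' he
    by_contra hne
    have h1 := hsep S (Finset.mem_powerset.1 (Finset.mem_coe.1 hS)) S'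
      (Finset.mem_powerset.1 (Finset.mem_coe.1 hS')) hne
    rw [he, sub_self, (v i).map_zero] at h1
    have h2 : 0 < R ^ n := pow_pos (by linarith) n
    linarith
  refine ⟨(Finset.range n).powerset.image (el B q a0 (j * n)), ?_, ?_, ?_, ?_⟩
  · rw [Finset.card_image_of_injOn hinj, Finset.card_powerset, Finset.card_range]
  · intro a haT
    obtain ⟨S, hS, rfl⟩ := Finset.mem_image.1 haT
    have hS' := Finset.mem_powerset.1 hS
    have e1 : B.i (el B q a0 (j * n) S) =
        q ^ (j * n) * (B.i (el B q a0 0 S) * q ^ n) * q⁻¹ ^ (n + j * n) := by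
      rw [el_shift]
      rw [inv_pow, pow_add, mul_inv_rev]
      group
    rw [e1]
    have l1 := hC0 (q ^ (j * n) * (B.i (el B q a0 0 S) * q ^ n)) (q⁻¹ ^ (n + j * n))
    have l2 := hC0 (q ^ (j * n)) (B.i (el B q a0 0 S) * q ^ n)
    have l3 := len_pow hC0 q (j * n)
    have l4 := len_pow hC0 q⁻¹ (n + j * n)
    have l5 := len_el hC0 B q a0 n S hS'
    have l6 : C0 * len U (q⁻¹ ^ (n + j * n)) ≤
        C0 * (len U 1 + (n + j * n) * (C0 * len U q⁻¹)) := Nat.mul_le_mul_left _ l4
    have l7 : C0 * len U (B.i (el B q a0 0 S) * q ^ n) ≤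
        C0 * (len U 1 + n * (C0 * len U (B.i a0) + C0 * len U q)) := Nat.mul_le_mul_left _ l5
    have l8 : len U 1 ≤ len U 1 * n := Nat.le_mul_of_pos_right _ hn
    have l9 : C0 * len U 1 ≤ C0 * (len U 1 * n) := Nat.mul_le_mul_left _ l8
    calc _ ≤ (len U 1 + j * n * (C0 * len U q)) +
          C0 * (len U 1 + n * (C0 * len U (B.i a0) + C0 * len U q)) +
          C0 * (len U 1 + (n + j * n) * (C0 * len U q⁻¹)) := by omega
      _ ≤ (len U 1 * n + j * n * (C0 * len U q)) +
          C0 * (len U 1 * n + n * (C0 * len U (B.i a0) + C0 * len U q)) +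
          C0 * (len U 1 * n + (n + j * n) * (C0 * len U q⁻¹)) := by gcongr
      _ = _ := by ring
  · intro a haT k
    obtain ⟨S, hS, rfl⟩ := Finset.mem_image.1 haT
    have hS' := Finset.mem_powerset.1 hS
    have hb : v k (x (el B q a0 (j * n) S)) ≤ Mk k ^ n := by
      rw [x_el B χ x hx]
      refine sum_le (hv k) _ _ _ (pow_nonneg (hMk0 k) n) fun t ht => ?_
      have htn := Finset.mem_range.1 (hS' ht)
      rw [(v k).map_mul, (v k).map_pow]
      have h1 : v k (χ q : L) ^ (j * n + t) ≤ max 1 (v k (χ q : L)) ^ ((j + 1) * n) := by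
        calc v k (χ q : L) ^ (j * n + t) ≤ max 1 (v k (χ q : L)) ^ (j * n + t) :=
              pow_le_pow_left₀ ((v k).nonneg _) (le_max_right _ _) _
          _ ≤ _ := pow_le_pow_right₀ (le_max_left _ _) (by
              have : (j + 1) * n = j * n + n := by ring
              omega)
      have h2 : v k (x a0) ≤ max 1 (v k (x a0)) ^ n :=
        (le_max_right _ _).trans (le_self_pow₀ (le_max_left _ _) (by omega))
      simp only [Mk]
      rw [mul_pow, ← pow_mul]
      exact mul_le_mul h1 h2 ((v k).nonneg _) (by positivity)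
    refine hb.trans (pow_le_pow_left₀ (hMk0 k) ?_ n)
    exact Finset.single_le_sum (fun k _ => hMk0 k) (Finset.mem_univ k)
  · intro a haT a' haT' hne
    obtain ⟨S, hS, rfl⟩ := Finset.mem_image.1 haT
    obtain ⟨S', hS', rfl⟩ := Finset.mem_image.1 haT'
    refine hsep S (Finset.mem_powerset.1 hS) S' (Finset.mem_powerset.1 hS') ?_
    rintro rfl
    exact hne rfl

theorem candidates {M : Type} [AddCommGroup M] (U : UA G) (hlen : LenF U) (B : MB G M)
    {L : Type} [Field L]
    (χ : G →* Lˣ) (x : M →+ L) (hx : ∀ g a, x (B.ρ g a) = (χ g : L) * x a)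
    {s : ℕ} (v : Fin s → AbsoluteValue L ℝ) (hv : ∀ i, IsNonarchimedean (v i))
    (hq : ∀ i, ∃ q, 1 < v i (χ q : L)) (ha : ∃ a, x a ≠ 0) :
    ∃ (R : Fin s → ℝ) (C : ℕ), (∀ i, 1 < R i) ∧ ∀ n : ℕ, 1 ≤ n → ∀ i : Fin s,
      ∃ T : Finset M, T.card = 2 ^ n ∧ (∀ a ∈ T, len U (B.i a) ≤ C * n) ∧
        (∀ a ∈ T, ∀ k, i < k → v k (x a) ≤ R k ^ n) ∧
        ∀ a ∈ T, ∀ a' ∈ T, a ≠ a' → R i ^ n < v i (x a - x a') := by
  choose Bd C hBd h using one_place U hlen B χ x hx v hv hq ha
  let bd' : ℕ → ℝ → ℝ := fun i R => if h : i < s then Bd ⟨i, h⟩ R else 0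
  let r : ℕ → ℝ := fun k => Nat.rec (motive := fun _ => ℝ) 2 (fun i y => max y (bd' i y)) k
  have r0 : r 0 = 2 := rfl
  have rs : ∀ k, r (k + 1) = max (r k) (bd' k (r k)) := fun k => rfl
  have rmono : Monotone r := monotone_nat_of_le_succ fun k => by
    rw [rs]; exact le_max_left _ _
  have r1 : ∀ k, 1 < r k := fun k => by
    have := rmono (Nat.zero_le k)
    rw [r0] at this
    linarith
  have rb : ∀ (i : Fin s) (k : ℕ), i.val < k → Bd i (r i) ≤ r k := by
    intro i k hik
    have h1 : r (i + 1) ≤ r k := rmono hik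
    have h2 : bd' i (r i) = Bd i (r i) := by
      simp only [bd', dif_pos i.isLt]
    rw [rs, h2] at h1
    exact (le_max_right _ _).trans h1
  refine ⟨fun i => r i, ∑ i : Fin s, C i (r i), fun i => r1 i, fun n hn i => ?_⟩
  obtain ⟨T, hT1, hT2, hT3, hT4⟩ := h i (r i) (r1 i) n hn
  refine ⟨T, hT1, fun a haT => ?_, fun a haT k hik => ?_, hT4⟩
  · refine (hT2 a haT).trans (Nat.mul_le_mul_right _ ?_)
    exact Finset.single_le_sum (f := fun i : Fin s => C i (r i)) (fun _ _ => Nat.zero_le _)
      (Finset.mem_univ i)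
  · exact (hT3 a haT k).trans (pow_le_pow_left₀ (hBd i (r i)) (rb i k hik) n)

end cand

end Pool.Agent.TH511.J1565
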