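import Mathlib
import Pool.Agent.TH109.M.Defs

/-!
# Counting and commuting powers
-/

set_option autoImplicit false
open scoped Classical
namespace Pool.Agent.TH511.J1571
open Pool.Agent.Helper943.LM (UA wpow)
open Pool.Agent.TH109.M
variable {G : Type} [Group G]

/-- `e_d^{m_d} ⋯ e_1^{m_1}` -/
def rml : List G → List ℕ → G
  | e :: es, m :: ms => rml es ms * e ^ m
  | _, _ => 1

theorem rml_conj (x : G) (es : List G) : ∀ ms : List ℕ,
    rml (es.map fun b => x * b * x⁻¹) ms = x * rml es ms * x⁻¹ := by
  induction es with
  | nil =>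
    intro ms
    simp [rml]
  | cons e es ih =>
    intro ms
    cases ms with
    | nil => simp [rml]
    | cons m ms =>
      simp only [List.map_cons, rml, ih, conj_pow]
      group

theorem ml_eq (as : List G) : ∀ ms : List ℕ, ml as ms = rml (cj as ms) ms := by
  induction as with
  | nil =>
    intro ms
    simp [ml, cj, rml]
  | cons a as ih =>
    intro ms
    cases ms with
    | nil => simp [ml, cj, rml]
    | cons m ms =>
      simp only [ml, cj, rml, rml_conj, ih ms]
      group

theorem cj_length (as : List G) : ∀ ms : List ℕ, (cj as ms).length ≤ as.length := by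
  induction as with
  | nil =>
    intro ms
    simp [cj]
  | cons a as ih =>
    intro ms
    cases ms with
    | nil => simp [cj]
    | cons m ms =>
      simp only [cj, List.length_cons, List.length_map]
      exact Nat.succ_le_succ (ih ms)

theorem cj_comm (as : List G) : ∀ (m m' : List ℕ) (i k d : ℕ), (∀ j, j ≠ i → m[j]? = m'[j]?) →
    m[i]? = some k → m'[i]? = some (k + d) → cj as m = cj as m' → ∀ j, i < j → ∀ x y,
    (cj as m)[i]? = some x → (cj as m)[j]? = some y → x ^ d * y = y * x ^ d := by
  induction as with
  | nil =>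
    intro m m' i k d _ _ _ _ j _ x y hx _
    simp [cj] at hx
  | cons a as ih =>
    intro m m' i k d hne hm hm' he j hij x y hx hy
    cases m with
    | nil => simp at hm
    | cons k0 ms =>
      cases m' with
      | nil => simp at hm'
      | cons k1 ms' =>
        cases i with
        | zero =>
          simp only [List.getElem?_cons_zero, Option.some.injEq] at hm hm'
          have hms : ms = ms' := by
            apply List.ext_getElem?
            intro r
            have := hne (r + 1) (by omega)
            simpa only [List.getElem?_cons_succ] using this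
          subst hms hm hm'
          simp only [cj, List.cons.injEq, true_and] at he
          simp only [cj, List.getElem?_cons_zero, Option.some.injEq] at hx
          subst hx
          obtain ⟨r, rfl⟩ : ∃ r, j = r + 1 := ⟨j - 1, by omega⟩
          simp only [cj, List.getElem?_cons_succ] at hy
          have hy' := hy
          rw [he] at hy'
          rw [List.getElem?_map] at hy hy'
          cases hz : (cj as ms)[r]? with
          | none => simp [hz] at hy
          | some z =>
            rw [hz] at hy hy'
            simp only [Option.map_some, Option.some.injEq] at hy hy'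
            have h1 : y = a ^ d * y * (a ^ d)⁻¹ := by
              conv_lhs => rw [← hy']
              rw [← hy, add_comm, pow_add]
              group
            calc a ^ d * y = a ^ d * y * (a ^ d)⁻¹ * a ^ d := by group
              _ = y * a ^ d := by rw [← h1]
        | succ i =>
          have hk : k0 = k1 := by
            have := hne 0 (by omega)
            simpa using this
          subst hk
          simp only [List.getElem?_cons_succ] at hm hm'
          have he' : cj as ms = cj as ms' := by
            simp only [cj, List.cons.injEq, true_and] at he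
            have hinj : Function.Injective fun b : G => a ^ k0 * b * (a ^ k0)⁻¹ := by
              intro b c hbc
              have := mul_right_cancel hbc
              exact mul_left_cancel this
            exact (List.map_injective_iff.2 hinj) he
          obtain ⟨r, rfl⟩ : ∃ r, j = r + 1 := ⟨j - 1, by omega⟩
          simp only [cj, List.getElem?_cons_succ, List.getElem?_map] at hx hy
          cases hz : (cj as ms)[i]? with
          | none => simp [hz] at hx
          | some z =>
            cases hw : (cj as ms)[r]? with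
            | none => simp [hw] at hy
            | some w =>
              rw [hz] at hx
              rw [hw] at hy
              simp only [Option.map_some, Option.some.injEq] at hx hy
              have h1 := ih ms ms' i k d (fun j hj => by
                have := hne (j + 1) (by omega)
                simpa only [List.getElem?_cons_succ] using this) hm hm' he' r (by omega) z w hz hw
              rw [← hx, ← hy, conj_pow]
              calc a ^ k0 * z ^ d * (a ^ k0)⁻¹ * (a ^ k0 * w * (a ^ k0)⁻¹) =
                    a ^ k0 * (z ^ d * w) * (a ^ k0)⁻¹ := by group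
                _ = a ^ k0 * (w * z ^ d) * (a ^ k0)⁻¹ := by rw [h1]
                _ = _ := by group

theorem rml_comm (x : G) (es : List G) : (∀ y ∈ es, x * y = y * x) → ∀ ms : List ℕ,
    x * rml es ms = rml es ms * x := by
  induction es with
  | nil =>
    intro _ ms
    simp [rml]
  | cons e es ih =>
    intro h ms
    cases ms with
    | nil => simp [rml]
    | cons m ms =>
      simp only [rml]
      have h1 := ih (fun y hy => h y (List.mem_cons_of_mem _ hy)) ms
      have h2 : x * e ^ m = e ^ m * x := by
        have : Commute x e := h e (List.mem_cons_self)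
        exact (this.pow_right m)
      rw [← mul_assoc, h1, mul_assoc, h2, mul_assoc]

theorem decomp (k0 : ℕ) (E : Subgroup G) (es : List G)
    (hp : es.Pairwise fun x y => x ^ k0 * y = y * x ^ k0) (hE : ∀ x ∈ es, x ^ k0 ∈ E) :
    ∀ ms : List ℕ, ∃ e ∈ E, rml es ms = e * rml es (ms.map (· % k0)) := by
  induction es with
  | nil =>
    intro ms
    exact ⟨1, E.one_mem, by simp [rml]⟩
  | cons x es ih =>
    intro ms
    cases ms with
    | nil => exact ⟨1, E.one_mem, by simp [rml]⟩
    | cons m ms =>
      rw [List.pairwise_cons] at hp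
      obtain ⟨e, he, hee⟩ := ih hp.2 (fun y hy => hE y (List.mem_cons_of_mem _ hy)) ms
      refine ⟨(x ^ k0) ^ (m / k0) * e, E.mul_mem (E.pow_mem (hE x List.mem_cons_self) _) he, ?_⟩
      simp only [rml, List.map_cons]
      have h1 : (x ^ k0) ^ (m / k0) * rml es ms = rml es ms * (x ^ k0) ^ (m / k0) := by
        refine rml_comm _ es (fun y hy => ?_) ms
        have : Commute (x ^ k0) y := hp.1 y hy
        exact this.pow_left _
      have h2 : x ^ m = (x ^ k0) ^ (m / k0) * x ^ (m % k0) := by
        rw [← pow_mul, ← pow_add, Nat.div_add_mod]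
      rw [h2, ← mul_assoc, ← h1, hee]
      group

theorem countG (D : ℕ) (T : Finset (List G × G)) (hT : ∀ τ ∈ T, τ.1.length = D) (C : ℕ) :
    ∃ N : ℕ, ∀ n : ℕ, N ≤ n → ∀ (Bn : Finset G) (es : List G), n ^ D ≤ C * Bn.card →
      (∀ h ∈ Bn, ∃ τ ∈ T, ∃ m : List ℕ, m.length = D ∧ (∀ k ∈ m, k ≤ C * n) ∧
        h = ml τ.1 m * τ.2 ∧ cj τ.1 m = es) →
      ∃ E : Subgroup G, (∀ x ∈ E, ∀ y ∈ E, x * y = y * x) ∧ ∃ F : Finset G, F.card ≤ N ∧
        ∀ h ∈ Bn, ∃ e ∈ E, ∃ f ∈ F, h = e * f := by
  set a0 : ℕ := C * T.card * (C + 1) ^ D with ha0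
  set k0 : ℕ := a0.factorial with hk0
  have hk0pos : 0 < k0 := Nat.factorial_pos _
  refine ⟨max (a0 + 1) (k0 ^ D * T.card), fun n hn Bn es hcard hB => ?_⟩
  have hn1 : a0 + 1 ≤ n := (le_max_left _ _).trans hn
  -- choices
  have hB' : ∀ h : G, ∃ (τ : List G × G) (m : List ℕ), h ∈ Bn → τ ∈ T ∧ m.length = D ∧
      (∀ k ∈ m, k ≤ C * n) ∧ h = ml τ.1 m * τ.2 ∧ cj τ.1 m = es := by
    intro h
    by_cases hh : h ∈ Bn
    · obtain ⟨τ, hτ, m, h1, h2, h3, h4⟩ := hB h hh
      exact ⟨τ, m, fun _ => ⟨hτ, h1, h2, h3, h4⟩⟩
    · exact ⟨([], 1), [], fun h' => absurd h' hh⟩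
  choose τ m hτm using hB'
  let g : G → Fin D → ℕ := fun h j => (m h).getD j.val 0
  have hg : ∀ h ∈ Bn, ∀ j : Fin D, (m h)[j.val]? = some (g h j) := by
    intro h hh j
    have hl := (hτm h hh).2.1
    have hj : j.val < (m h).length := by rw [hl]; exact j.isLt
    simp only [g, List.getD_eq_getElem?_getD]
    rw [List.getElem?_eq_getElem hj]
    rfl
  have hgle : ∀ h ∈ Bn, ∀ j : Fin D, g h j ≤ C * n := by
    intro h hh j
    exact (hτm h hh).2.2.1 _ (List.mem_of_getElem? (hg h hh j))
  have hlen : ∀ h ∈ Bn, (m h).length = D := fun h hh => (hτm h hh).2.1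
  have hmext : ∀ h ∈ Bn, ∀ h' ∈ Bn, (∀ j, g h j = g h' j) → m h = m h' := by
    intro h hh h' hh' he
    apply List.ext_getElem?
    intro r
    by_cases hr : r < D
    · have h1 := hg h hh ⟨r, hr⟩
      have h2 := hg h' hh' ⟨r, hr⟩
      simp only at h1 h2
      rw [h1, h2, he]
    · rw [List.getElem?_eq_none (by rw [hlen h hh]; omega),
        List.getElem?_eq_none (by rw [hlen h' hh']; omega)]
  have hCpos : 0 < C := by
    rcases Nat.eq_zero_or_pos C with h | h
    · rw [h, Nat.zero_mul] at hcard
      have : 0 < n ^ D := pow_pos (by omega) D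
      omega
    · exact h
  -- commuting powers
  have hcomm : ∀ i : Fin D, ∃ d : ℕ, 0 < d ∧ d ≤ a0 ∧ ∀ j, i.val < j → ∀ x y,
      es[i.val]? = some x → es[j]? = some y → x ^ d * y = y * x ^ d := by
    intro i
    let f : ℕ × G → (List G × G) × (Fin D → ℕ) := fun p =>
      (τ p.2, Function.update (g p.2) i (g p.2 i + p.1))
    have hmaps : Set.MapsTo f (Finset.range (a0 + 1) ×ˢ Bn : Finset (ℕ × G))
        (T ×ˢ Fintype.piFinset fun _ : Fin D => Finset.range (C * n + a0 + 1) :
          Finset ((List G × G) × (Fin D → ℕ))) := by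
      rintro ⟨k, h⟩ hkh
      obtain ⟨hk, hh⟩ := Finset.mem_product.1 (Finset.mem_coe.1 hkh)
      refine Finset.mem_coe.2 (Finset.mem_product.2 ⟨(hτm h hh).1, ?_⟩)
      rw [Fintype.mem_piFinset]
      intro j
      rw [Finset.mem_range]
      have hk' := Finset.mem_range.1 hk
      simp only at hk'
      by_cases hj : j = i
      · subst hj
        simp only [f, Function.update_self]
        have := hgle h hh j
        omega
      · simp only [f, Function.update_of_ne hj]
        have := hgle h hh j
        omega
    have hlt : (T ×ˢ Fintype.piFinset fun _ : Fin D => Finset.range (C * n + a0 + 1) :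
          Finset ((List G × G) × (Fin D → ℕ))).card <
        (Finset.range (a0 + 1) ×ˢ Bn : Finset (ℕ × G)).card := by
      rw [Finset.card_product, Finset.card_product, Fintype.card_piFinset, Finset.card_range]
      simp only [Finset.card_range, Finset.prod_const, Finset.card_univ, Fintype.card_fin]
      have h1 : C * n + a0 + 1 ≤ (C + 1) * n := by
        have : (C + 1) * n = C * n + n := by ring
        omega
      have h2 : C * (T.card * (C * n + a0 + 1) ^ D) < C * ((a0 + 1) * Bn.card) := by
        calc C * (T.card * (C * n + a0 + 1) ^ D) ≤ C * (T.card * ((C + 1) * n) ^ D) := by gcongr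
          _ = a0 * n ^ D := by rw [ha0, mul_pow]; ring
          _ < (a0 + 1) * n ^ D := Nat.mul_lt_mul_of_pos_right (Nat.lt_succ_self _)
              (pow_pos (by omega) D)
          _ ≤ (a0 + 1) * (C * Bn.card) := Nat.mul_le_mul_left _ hcard
          _ = _ := by ring
      exact Nat.lt_of_mul_lt_mul_left h2
    obtain ⟨⟨k, h⟩, hkh, ⟨k', h'⟩, hkh', hne, heq⟩ :=
      Finset.exists_ne_map_eq_of_card_lt_of_maps_to hlt hmaps
    obtain ⟨hk, hh⟩ := Finset.mem_product.1 hkh
    obtain ⟨hk', hh'⟩ := Finset.mem_product.1 hkh'
    simp only at hh hh'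
    have hk1 := Finset.mem_range.1 hk
    have hk1' := Finset.mem_range.1 hk'
    simp only at hk1 hk1'
    have hτe : τ h = τ h' := congrArg Prod.fst heq
    have hge : Function.update (g h) i (g h i + k) = Function.update (g h') i (g h' i + k') :=
      congrArg Prod.snd heq
    have hgi : g h i + k = g h' i + k' := by
      have := congrFun hge i
      simpa only [Function.update_self] using this
    have hgj : ∀ j, j ≠ i → g h j = g h' j := by
      intro j hj
      have := congrFun hge j
      simpa only [Function.update_of_ne hj] using this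
    have hkk : k ≠ k' := by
      intro hkk
      subst hkk
      have hall : ∀ j, g h j = g h' j := by
        intro j
        by_cases hj : j = i
        · subst hj; omega
        · exact hgj j hj
      have hm := hmext h hh h' hh' hall
      have e1 := (hτm h hh).2.2.2.1
      have e2 := (hτm h' hh').2.2.2.1
      apply hne
      have : h = h' := by rw [e1, e2, hm, hτe]
      rw [this]
    -- symmetric core
    have core : ∀ h h' : G, h ∈ Bn → h' ∈ Bn → τ h = τ h' → (∀ j, j ≠ i → g h j = g h' j) →
        ∀ d, g h' i = g h i + d → ∀ j, i.val < j → ∀ x y,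
        es[i.val]? = some x → es[j]? = some y → x ^ d * y = y * x ^ d := by
      intro h h' hh hh' hτe hgj d hd j hij x y hx hy
      have c1 := (hτm h hh).2.2.2.2
      have c2 := (hτm h' hh').2.2.2.2
      rw [← hτe] at c2
      refine cj_comm (τ h).1 (m h) (m h') i.val (g h i) d ?_ (hg h hh i) ?_ ?_ j hij x y ?_ ?_
      · intro r hr
        by_cases hrD : r < D
        · have q1 := hg h hh ⟨r, hrD⟩
          have q2 := hg h' hh' ⟨r, hrD⟩
          simp only at q1 q2
          rw [q1, q2, hgj ⟨r, hrD⟩ (fun h => hr (congrArg Fin.val h))]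
        · rw [List.getElem?_eq_none (by rw [hlen h hh]; omega),
            List.getElem?_eq_none (by rw [hlen h' hh']; omega)]
      · rw [hg h' hh' i, hd]
      · rw [c1, c2]
      · rw [c1]; exact hx
      · rw [c1]; exact hy
    rcases lt_or_gt_of_ne hkk with hlt' | hgt'
    · refine ⟨k' - k, by omega, by omega, ?_⟩
      exact core h' h hh' hh hτe.symm (fun j hj => (hgj j hj).symm) (k' - k) (by omega)
    · refine ⟨k - k', by omega, by omega, ?_⟩
      exact core h h' hh hh' hτe hgj (k - k') (by omega)
  have hBne : Bn.Nonempty := by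
    rw [Finset.nonempty_iff_ne_empty]
    intro h
    rw [h, Finset.card_empty, Nat.mul_zero] at hcard
    have : 0 < n ^ D := pow_pos (by omega) D
    omega
  have hesD : es.length ≤ D := by
    obtain ⟨h, hh⟩ := hBne
    rw [← (hτm h hh).2.2.2.2]
    refine (cj_length _ _).trans ?_
    rw [hT _ (hτm h hh).1]
  have hpair : es.Pairwise fun x y => x ^ k0 * y = y * x ^ k0 := by
    rw [List.pairwise_iff_getElem]
    intro i j hi hj hij
    obtain ⟨d, hd0, hda, hd⟩ := hcomm ⟨i, by omega⟩
    have h1 := hd j hij es[i] es[j] (List.getElem?_eq_getElem hi) (List.getElem?_eq_getElem hj)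
    obtain ⟨q, hq⟩ := Nat.dvd_factorial hd0 hda
    have h2 : Commute (es[i] ^ d) es[j] := h1
    have h3 := h2.pow_left q
    rw [← pow_mul, ← hq] at h3
    exact h3
  -- the abelian subgroup
  let E : Subgroup G := Subgroup.closure {z | ∃ x ∈ es, z = x ^ k0}
  have hcl : ∀ x ∈ {z | ∃ x ∈ es, z = x ^ k0}, ∀ y ∈ {z | ∃ x ∈ es, z = x ^ k0},
      x * y = y * x := by
    rintro _ ⟨x, hx, rfl⟩ _ ⟨y, hy, rfl⟩
    obtain ⟨i, hi, rfl⟩ := List.getElem_of_mem hx
    obtain ⟨j, hj, rfl⟩ := List.getElem_of_mem hy
    rw [List.pairwise_iff_getElem] at hpair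
    rcases lt_trichotomy i j with h | h | h
    · have : Commute (es[i] ^ k0) es[j] := hpair i j hi hj h
      exact this.pow_right k0
    · subst h
      rfl
    · have : Commute (es[j] ^ k0) es[i] := hpair j i hj hi h
      exact (this.pow_right k0).symm
  have hEab : ∀ x ∈ E, ∀ y ∈ E, x * y = y * x := by
    intro x hx y hy
    have h1 : ∀ y ∈ {z | ∃ x ∈ es, z = x ^ k0}, ∀ x ∈ E, x * y = y * x := by
      intro y hy x hx
      induction hx using Subgroup.closure_induction with
      | mem x hx => exact hcl x hx y hy
      | one => rw [one_mul, mul_one]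
      | mul a b _ _ ha hb => exact (Commute.mul_left (ha : Commute a y) hb)
      | inv a _ ha => exact (Commute.inv_left (ha : Commute a y))
    induction hy using Subgroup.closure_induction with
    | mem y hy => exact h1 y hy x hx
    | one => rw [one_mul, mul_one]
    | mul a b _ _ ha hb => exact (Commute.mul_right (ha : Commute x a) hb)
    | inv a _ ha => exact (Commute.inv_right (ha : Commute x a))
  refine ⟨E, hEab, ((Fintype.piFinset fun _ : Fin D => Finset.range k0) ×ˢ T).image
    (fun p => rml es (List.ofFn p.1) * p.2.2), ?_, ?_⟩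
  · refine Finset.card_image_le.trans (le_trans (le_of_eq ?_) (le_max_right _ _))
    rw [Finset.card_product, Fintype.card_piFinset]
    simp
  · intro h hh
    obtain ⟨hτT, hml, -, hhe, hcj⟩ := hτm h hh
    obtain ⟨e, he, hee⟩ := decomp k0 E es hpair
      (fun x hx => Subgroup.subset_closure ⟨x, hx, rfl⟩) (m h)
    have hof : List.ofFn (fun j : Fin D => g h j % k0) = (m h).map (· % k0) := by
      apply List.ext_getElem?
      intro r
      rw [List.getElem?_map]
      by_cases hr : r < D
      · have h1 := hg h hh ⟨r, hr⟩
        simp only at h1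
        rw [h1, List.getElem?_ofFn, dif_pos hr]
        rfl
      · rw [List.getElem?_eq_none (l := m h) (by rw [hml]; omega), List.getElem?_ofFn,
          dif_neg hr]
        rfl
    refine ⟨e, he, rml es ((m h).map (· % k0)) * (τ h).2, ?_, ?_⟩
    · refine Finset.mem_image.2 ⟨(fun j => g h j % k0, τ h), ?_, ?_⟩
      · refine Finset.mem_product.2 ⟨?_, hτT⟩
        rw [Fintype.mem_piFinset]
        intro j
        exact Finset.mem_range.2 (Nat.mod_lt _ hk0pos)
      · show rml es (List.ofFn fun j : Fin D => g h j % k0) * (τ h).2 = _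
        rw [hof]
    · rw [← mul_assoc, ← hee]
      conv_lhs => rw [hhe, ml_eq, hcj]

/-- local to global -/
theorem limitL (N : ℕ) (h : ∀ S : Finset G, ∃ E : Subgroup G, (∀ x ∈ E, ∀ y ∈ E, x * y = y * x) ∧
      ∃ F : Finset G, F.card ≤ N ∧ ∀ g ∈ S, ∃ e ∈ E, ∃ f ∈ F, g = e * f) :
    ∃ H : Subgroup G, H.FiniteIndex ∧ ∀ x ∈ H, ∀ y ∈ H, x * y = y * x := by
  choose E hE F hF hEF using h
  let p : Ultrafilter (Finset G) := Ultrafilter.of Filter.atTop
  have hp : ∀ S0 : Finset G, ∀ᶠ S in (p : Filter (Finset G)), S0 ⊆ S := fun S0 =>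
    (Ultrafilter.of_le Filter.atTop) (Filter.eventually_ge_atTop S0)
  let H : Subgroup G :=
    { carrier := {g | ∀ᶠ S in (p : Filter (Finset G)), g ∈ E S}
      one_mem' := Filter.Eventually.of_forall fun S => (E S).one_mem
      mul_mem' := by
        intro a b ha hb
        filter_upwards [ha, hb] with S h1 h2
        exact (E S).mul_mem h1 h2
      inv_mem' := by
        intro a ha
        filter_upwards [ha] with S h1
        exact (E S).inv_mem h1 }
  have hH : ∀ g, g ∈ H ↔ ∀ᶠ S in (p : Filter (Finset G)), g ∈ E S := fun g => Iff.rfl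
  refine ⟨H, ?_, ?_⟩
  · have hfin : Finite (G ⧸ H) := by
      by_contra hinf
      rw [not_finite_iff_infinite] at hinf
      let u : ℕ ↪ G ⧸ H := Infinite.natEmbedding _
      let x : ℕ → G := fun a => (Quotient.out (u a))⁻¹
      have hnot : ∀ a b : Fin (N + 1), a ≠ b → ∀ᶠ S in (p : Filter (Finset G)),
          x a * (x b)⁻¹ ∉ E S := by
        intro a b hab
        rw [Ultrafilter.eventually_not]
        intro hmem
        have h1 : x a * (x b)⁻¹ ∈ H := hmem
        simp only [x, inv_inv] at h1
        rw [← QuotientGroup.eq, QuotientGroup.out_eq', QuotientGroup.out_eq'] at h1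
        exact hab (Fin.ext (u.injective h1))
      have hall : ∀ᶠ S in (p : Filter (Finset G)), ∀ a b : Fin (N + 1), a ≠ b →
          x a * (x b)⁻¹ ∉ E S := by
        rw [Filter.eventually_all]
        intro a
        rw [Filter.eventually_all]
        intro b
        by_cases hab : a = b
        · exact Filter.Eventually.of_forall fun S h => absurd hab h
        · filter_upwards [hnot a b hab] with S hS
          exact fun _ => hS
      obtain ⟨S, hS1, hS2⟩ := (hall.and (hp ((Finset.range (N + 1)).image x))).exists
      have hx : ∀ a : Fin (N + 1), ∃ e ∈ E S, ∃ f ∈ F S, x a = e * f := by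
        intro a
        refine hEF S (x a) (hS2 (Finset.mem_image.2 ⟨a, Finset.mem_range.2 a.isLt, rfl⟩))
      choose e he f hf hx using hx
      obtain ⟨a, -, b, -, hab, hfab⟩ := Finset.exists_ne_map_eq_of_card_lt_of_maps_to
        (s := (Finset.univ : Finset (Fin (N + 1)))) (t := F S) (f := f)
        (by rw [Finset.card_univ, Fintype.card_fin]; exact Nat.lt_succ_of_le (hF S))
        (fun a _ => Finset.mem_coe.2 (hf a))
      apply hS1 a b hab
      have h2 : x a * (x b)⁻¹ = e a * (e b)⁻¹ := by
        rw [hx a, hx b, hfab]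
        group
      rw [h2]
      exact (E S).mul_mem (he a) ((E S).inv_mem (he b))
    exact Subgroup.finiteIndex_of_finite_quotient
  · intro x hx y hy
    obtain ⟨S, h1, h2⟩ := (((hH x).1 hx).and ((hH y).1 hy)).exists
    exact hE S x h1 y h2

end Pool.Agent.TH511.J1571
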