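import Pool.Agent.TH313.SC.Sec
import Pool.Agent.TH989.SC_wuc
import Pool.Agent.TH113.SC_submeasure_null

/-! Operators from the space of sections to the fibre are continuous along bounded pointwise null sequences. -/

set_option autoImplicit false

namespace Pool.Agent.TH511.SC5

open Finset Filter Topology Pool.Agent.TH313.HI Pool.Agent.TH313.SC

noncomputable section

variable {Ω M : Type} [TopologicalSpace Ω] [MetricSpace M] {F : C(Ω, M)} {N : Net M}

/-- the set of norms of images of sections dominated by the function -/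
def PS (S : YT F N →L[ℝ] WT) (φ : Ω → ℝ) : Set ℝ :=
  {r | ∃ (g : Ω → ℝ) (y y' : YT F N), C0 g ∧ (∀ t, |g t| ≤ φ t) ∧ ‖y‖ ≤ 1 ∧
    (∀ t, evY F N t y' = g t • evY F N t y) ∧ r = ‖S y'‖}

/-- the submeasure of an operator -/
def pp (S : YT F N →L[ℝ] WT) (φ : Ω → ℝ) : ℝ := sSup (PS S φ)

theorem PS_le (S : YT F N →L[ℝ] WT) {φ : Ω → ℝ} {c : ℝ} (hc : 0 ≤ c) (h : ∀ t, φ t ≤ c) {r : ℝ}
    (hr : r ∈ PS S φ) : r ≤ ‖S‖ * c := by
  obtain ⟨g, y, y', hg, h1, h2, h3, rfl⟩ := hr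
  refine (S.le_opNorm y').trans (mul_le_mul_of_nonneg_left ?_ (norm_nonneg _))
  apply YT.norm_le hc
  intro t
  rw [h3, norm_smul, Real.norm_eq_abs]
  have h4 := (norm_evY_le t y).trans h2
  calc |g t| * ‖evY F N t y‖ ≤ c * 1 :=
        mul_le_mul ((h1 t).trans (h t)) h4 (norm_nonneg _) hc
    _ = c := mul_one c

theorem zero_mem_PS (S : YT F N →L[ℝ] WT) {φ : Ω → ℝ} (h : ∀ t, 0 ≤ φ t) : (0 : ℝ) ∈ PS S φ := by
  refine ⟨fun _ => 0, 0, 0, C0.zero, fun t => ?_, ?_, fun t => ?_, ?_⟩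
  · rw [abs_zero]; exact h t
  · rw [norm_zero]; exact zero_le_one
  · rw [_root_.map_zero, smul_zero]
  · rw [_root_.map_zero, norm_zero]

theorem PS_bdd (S : YT F N →L[ℝ] WT) {φ : Ω → ℝ} (hφ : C0 φ) : BddAbove (PS S φ) := by
  obtain ⟨c, hc, h⟩ := hφ.bdd
  exact ⟨‖S‖ * c, fun r hr => PS_le S hc.le (fun t => (le_abs_self _).trans (h t)) hr⟩

theorem le_pp (S : YT F N →L[ℝ] WT) {φ : Ω → ℝ} (hφ : C0 φ) {r : ℝ} (hr : r ∈ PS S φ) : r ≤ pp S φ :=
  le_csSup (PS_bdd S hφ) hr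

theorem pp_nonneg (S : YT F N →L[ℝ] WT) (φ : Ω → ℝ) (hφ : C0 φ) (h : ∀ t, 0 ≤ φ t) : 0 ≤ pp S φ :=
  le_pp S hφ (zero_mem_PS S h)

theorem pp_mono (S : YT F N →L[ℝ] WT) (f g : Ω → ℝ) (_ : C0 f) (hg : C0 g) (h : ∀ t, 0 ≤ f t)
    (hfg : ∀ t, f t ≤ g t) : pp S f ≤ pp S g := by
  refine csSup_le_csSup (PS_bdd S hg) ⟨0, zero_mem_PS S h⟩ ?_
  rintro r ⟨a, y, y', h1, h2, h3, h4, h5⟩
  exact ⟨a, y, y', h1, fun t => (h2 t).trans (hfg t), h3, h4, h5⟩

theorem pp_sub (S : YT F N →L[ℝ] WT) (f g : Ω → ℝ) (hf : C0 f) (hg : C0 g) (h0f : ∀ t, 0 ≤ f t)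
    (h0g : ∀ t, 0 ≤ g t) : pp S (fun t => f t + g t) ≤ pp S f + pp S g := by
  refine csSup_le ⟨0, zero_mem_PS S (fun t => add_nonneg (h0f t) (h0g t))⟩ ?_
  rintro r ⟨a, y, y', h1, h2, h3, h4, rfl⟩
  have ha1 : C0 (fun t => max (-f t) (min (a t) (f t))) := hf.neg.max (h1.min hf)
  have ha2 : C0 (fun t => a t - max (-f t) (min (a t) (f t))) := h1.sub ha1
  have hb1 : ∀ t, |max (-f t) (min (a t) (f t))| ≤ f t := by
    intro t
    rw [abs_le]
    exact ⟨le_max_left _ _, max_le (by linarith [h0f t]) (min_le_right _ _)⟩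
  have hb2 : ∀ t, |a t - max (-f t) (min (a t) (f t))| ≤ g t := by
    intro t
    have e1 := abs_le.1 (h2 t)
    have e2 := h0f t
    have e3 := h0g t
    simp only at e1
    rw [abs_le]
    rcases le_total (a t) (f t) with h5 | h5
    · rw [min_eq_left h5]
      rcases le_total (-f t) (a t) with h6 | h6
      · rw [max_eq_right h6]
        constructor <;> linarith
      · rw [max_eq_left h6]
        constructor <;> linarith
    · rw [min_eq_right h5, max_eq_right (by linarith)]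
      constructor <;> linarith
  obtain ⟨c1, hc1, hd1⟩ := ha1.bdd
  obtain ⟨c2, hc2, hd2⟩ := ha2.bdd
  have e : y' = mulY F N _ ha1.1 c1 hc1.le hd1 y + mulY F N _ ha2.1 c2 hc2.le hd2 y := by
    apply YT.ext
    intro t
    rw [_root_.map_add, ev_mulY, ev_mulY, h4, ← add_smul, add_sub_cancel]
  rw [e, _root_.map_add]
  refine (norm_add_le _ _).trans (add_le_add ?_ ?_)
  · exact le_pp S hf ⟨_, y, _, ha1, hb1, h3, fun t => ev_mulY F N _ _ _ _ _ _ _, rfl⟩
  · exact le_pp S hg ⟨_, y, _, ha2, hb2, h3, fun t => ev_mulY F N _ _ _ _ _ _ _, rfl⟩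

theorem pp_le (S : YT F N →L[ℝ] WT) (f : Ω → ℝ) (c : ℝ) (_ : C0 f) (h : ∀ t, 0 ≤ f t ∧ f t ≤ c) :
    pp S f ≤ ‖S‖ * c := by
  by_cases hc : 0 ≤ c
  · exact csSup_le ⟨0, zero_mem_PS S (fun t => (h t).1)⟩ fun r hr => PS_le S hc (fun t => (h t).2) hr
  · -- then the domain is empty
    have hemp : ∀ y : YT F N, y = 0 := by
      intro y
      apply YT.ext
      intro t
      exact absurd ((h t).1.trans (h t).2) hc
    have hS : S = 0 := by
      apply ContinuousLinearMap.ext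
      intro y
      rw [hemp y, _root_.map_zero, _root_.map_zero]
    refine csSup_le ⟨0, zero_mem_PS S (fun t => (h t).1)⟩ ?_
    rintro r ⟨a, y, y', h1, h2, h3, h4, rfl⟩
    rw [hS, norm_zero, zero_mul, _root_.zero_apply, norm_zero]

theorem pp_exh (S : YT F N →L[ℝ] WT) (ψ : ℕ → Ω → ℝ) (hψ : ∀ i, C0 (ψ i)) (h0 : ∀ i t, 0 ≤ ψ i t)
    (h1 : ∀ n t, ∑ i ∈ Finset.range n, ψ i t ≤ 1) : Tendsto (fun i => pp S (ψ i)) atTop (𝓝 0) := by
  have hch : ∀ i : ℕ, ∃ r ∈ PS S (ψ i), pp S (ψ i) - 1 / ((i : ℝ) + 1) < r := by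
    intro i
    apply exists_lt_of_lt_csSup ⟨0, zero_mem_PS S (h0 i)⟩
    have : (0 : ℝ) < 1 / ((i : ℝ) + 1) := by positivity
    show pp S (ψ i) - 1 / ((i : ℝ) + 1) < pp S (ψ i)
    linarith
  choose r hr hr2 using hch
  choose g y y' hg hgψ hy hy' hrr using hr
  have hw : Tendsto (fun i => S (y' i)) atTop (𝓝 0) := by
    apply Pool.Agent.TH989.SC1.wuc _ ‖S‖
    intro I θ hθ
    have e : ∑ i ∈ I, ((θ i : ℝ) : ℂ) • S (y' i) = S (∑ i ∈ I, θ i • y' i) := by
      rw [map_sum]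
      refine Finset.sum_congr rfl fun i _ => ?_
      rw [_root_.map_smul]
      rfl
    rw [e]
    refine (S.le_opNorm _).trans ?_
    have h2 : ‖∑ i ∈ I, θ i • y' i‖ ≤ 1 := by
      apply YT.norm_le zero_le_one
      intro t
      rw [map_sum]
      refine (norm_sum_le _ _).trans ?_
      have h3 : ∀ i ∈ I, ‖evY F N t (θ i • y' i)‖ ≤ ψ i t := by
        intro i _
        rw [_root_.map_smul, hy', norm_smul, norm_smul, Real.norm_eq_abs, Real.norm_eq_abs]
        have a1 := hθ i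
        have a2 := hgψ i t
        have a3 := (norm_evY_le t (y i)).trans (hy i)
        calc |θ i| * (|g i t| * ‖evY F N t (y i)‖) ≤ 1 * (ψ i t * 1) :=
              mul_le_mul a1 (mul_le_mul a2 a3 (norm_nonneg _) (h0 i t))
                (mul_nonneg (abs_nonneg _) (norm_nonneg _)) zero_le_one
          _ = ψ i t := by ring
      refine (Finset.sum_le_sum h3).trans ?_
      obtain ⟨n, hn⟩ := I.exists_nat_subset_range
      exact (Finset.sum_le_sum_of_subset_of_nonneg hn fun i _ _ => h0 i t).trans (h1 n t)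
    calc ‖S‖ * ‖∑ i ∈ I, θ i • y' i‖ ≤ ‖S‖ * 1 := mul_le_mul_of_nonneg_left h2 (norm_nonneg _)
      _ = ‖S‖ := mul_one _
  have hw2 : Tendsto (fun i : ℕ => ‖S (y' i)‖ + 1 / ((i : ℝ) + 1)) atTop (𝓝 0) := by
    have := hw.norm.add (tendsto_one_div_add_atTop_nhds_zero_nat (𝕜 := ℝ))
    simpa using this
  refine squeeze_zero (fun i => pp_nonneg S _ (hψ i) (h0 i)) (fun i => ?_) hw2
  have := hr2 i
  rw [hrr i] at this
  linarith

/-- the cut-off function -/
def cu (δ : ℝ) (y : YT F N) (t : Ω) : ℝ := max 0 (min 1 (2 / δ * ‖evY F N t y‖ - 1))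

theorem cu_nonneg (δ : ℝ) (y : YT F N) (t : Ω) : 0 ≤ cu δ y t := le_max_left _ _

theorem cu_le_one (δ : ℝ) (y : YT F N) (t : Ω) : cu δ y t ≤ 1 := max_le zero_le_one (min_le_left _ _)

theorem cu_le {δ : ℝ} (hδ : 0 < δ) (y : YT F N) (t : Ω) : cu δ y t ≤ 2 / δ * ‖evY F N t y‖ := by
  have h : 0 ≤ 2 / δ * ‖evY F N t y‖ := by positivity
  exact max_le h ((min_le_right _ _).trans (by linarith))

theorem cu_cont (δ : ℝ) (y : YT F N) : Continuous (cu δ y) :=
  continuous_const.max (continuous_const.min ((continuous_const.mul (continuous_ev_YT y).norm).sub continuous_const))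

theorem cu_abs (δ : ℝ) (y : YT F N) (t : Ω) : |cu δ y t| ≤ 1 := by
  rw [abs_of_nonneg (cu_nonneg δ y t)]
  exact cu_le_one δ y t

theorem cu_C0 {δ : ℝ} (hδ : 0 < δ) (y : YT F N) : C0 (cu δ y) := by
  refine (YT.c0 F N y).of_le (cu_cont δ y) (c := 2 / δ) (by positivity) fun t => ?_
  rw [abs_of_nonneg (cu_nonneg δ y t), abs_norm]
  exact cu_le hδ y t

theorem cu_rest {δ : ℝ} (hδ : 0 < δ) (y : YT F N) (t : Ω) : (1 - cu δ y t) * ‖evY F N t y‖ ≤ δ := by
  have h0 := cu_nonneg δ y t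
  have h1 := cu_le_one δ y t
  have hn := norm_nonneg (evY F N t y)
  rcases le_total δ ‖evY F N t y‖ with h | h
  · have h2 : cu δ y t = 1 := by
      unfold cu
      have : 2 ≤ 2 / δ * ‖evY F N t y‖ := by
        rw [div_mul_eq_mul_div, le_div_iff₀ hδ]
        linarith
      rw [min_eq_left (by linarith), max_eq_right zero_le_one]
    rw [h2, sub_self, zero_mul]
    exact hδ.le
  · nlinarith

theorem dc (S : YT F N →L[ℝ] WT) (D : ℕ → YT F N) (C : ℝ) (hD : ∀ l, ‖D l‖ ≤ C)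
    (h0 : ∀ t, Tendsto (fun l => evY F N t (D l)) atTop (𝓝 0)) : Tendsto (fun l => S (D l)) atTop (𝓝 0) := by
  have hC0 : 0 ≤ C := (norm_nonneg _).trans (hD 0)
  rw [tendsto_zero_iff_norm_tendsto_zero, Metric.tendsto_atTop]
  intro ε hε
  set δ : ℝ := ε / (2 * (‖S‖ + 1)) with hδ
  have hδ0 : 0 < δ := by positivity
  have hSδ : ‖S‖ * δ ≤ ε / 2 := by
    have h1 : (‖S‖ + 1) * δ = ε / 2 := by
      rw [hδ]
      field_simp
    nlinarith [norm_nonneg S]
  have hnull : Tendsto (fun l => pp S (cu δ (D l))) atTop (𝓝 0) := by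
    refine Pool.Agent.TH113.SC2.submeasure_null (pp S) ‖S‖ (pp_nonneg S) (pp_mono S) (pp_sub S) (pp_le S) (pp_exh S)
      (fun l => cu δ (D l)) (fun l => cu_C0 hδ0 _) (fun l t => ⟨cu_nonneg δ _ t, cu_le_one δ _ t⟩) ?_
    intro t
    have h1 : Tendsto (fun l => 2 / δ * ‖evY F N t (D l)‖) atTop (𝓝 0) := by
      have := ((h0 t).norm).const_mul (2 / δ)
      simpa using this
    exact squeeze_zero (fun l => cu_nonneg δ _ t) (fun l => cu_le hδ0 _ t) h1
  have hnull2 : Tendsto (fun l => (C + 1) * pp S (cu δ (D l))) atTop (𝓝 0) := by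
    have := hnull.const_mul (C + 1)
    simpa using this
  have hev := (hnull2.eventually (gt_mem_nhds (show (0 : ℝ) < ε / 2 by positivity)))
  obtain ⟨L, hL⟩ := eventually_atTop.1 hev
  refine ⟨L, fun l hl => ?_⟩
  rw [Real.dist_eq, sub_zero, abs_norm]
  have h1 := hL l hl
  have hcl : ∀ t, |1 - cu δ (D l) t| ≤ 1 := by
    intro t
    rw [abs_of_nonneg (by linarith [cu_le_one δ (D l) t])]
    linarith [cu_nonneg δ (D l) t]
  have e : D l = (C + 1) • mulY F N _ (cu_cont δ (D l)) 1 zero_le_one (cu_abs δ (D l)) ((C + 1)⁻¹ • D l)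
      + mulY F N (fun t => 1 - cu δ (D l) t) (continuous_const.sub (cu_cont δ (D l))) 1 zero_le_one hcl (D l) := by
    apply YT.ext
    intro t
    rw [_root_.map_add, _root_.map_smul, ev_mulY, ev_mulY, _root_.map_smul, smul_smul, smul_smul, ← add_smul]
    have h2 : (C + 1) * cu δ (D l) t * (C + 1)⁻¹ + (1 - cu δ (D l) t) = 1 := by
      have h3 : (C + 1) * (C + 1)⁻¹ = 1 := mul_inv_cancel₀ (by linarith)
      linear_combination (cu δ (D l) t) * h3
    rw [h2, one_smul]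
  have hn1 : ‖S (mulY F N _ (cu_cont δ (D l)) 1 zero_le_one (cu_abs δ (D l)) ((C + 1)⁻¹ • D l))‖ ≤
      pp S (cu δ (D l)) := by
    refine le_pp S (cu_C0 hδ0 _) ⟨_, (C + 1)⁻¹ • D l, _, cu_C0 hδ0 (D l), fun t => ?_, ?_,
      fun t => ev_mulY F N _ _ _ _ _ _ _, rfl⟩
    · rw [abs_of_nonneg (cu_nonneg δ (D l) t)]
    · rw [norm_smul, norm_inv, Real.norm_eq_abs, abs_of_pos (by linarith), inv_mul_le_iff₀ (by linarith)]
      linarith [hD l]
  have hn2 : ‖S (mulY F N (fun t => 1 - cu δ (D l) t) (continuous_const.sub (cu_cont δ (D l))) 1 zero_le_one hcl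
      (D l))‖ ≤ ‖S‖ * δ := by
    refine (S.le_opNorm _).trans (mul_le_mul_of_nonneg_left ?_ (norm_nonneg _))
    apply YT.norm_le hδ0.le
    intro t
    rw [ev_mulY, norm_smul, Real.norm_eq_abs, abs_of_nonneg (by linarith [cu_le_one δ (D l) t])]
    exact cu_rest hδ0 (D l) t
  have h3 : ‖S (D l)‖ ≤ (C + 1) * pp S (cu δ (D l)) + ‖S‖ * δ := by
    conv_lhs => rw [e]
    rw [_root_.map_add, _root_.map_smul]
    refine (norm_add_le _ _).trans (add_le_add ?_ hn2)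
    rw [norm_smul, Real.norm_eq_abs, abs_of_pos (by linarith)]
    exact mul_le_mul_of_nonneg_left hn1 (by linarith)
  linarith

end

end Pool.Agent.TH511.SC5
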