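import Pool.Agent.TH477.PA.Defs

/-!
# Job 656 (PA-VALUE): perfect colourings of `K_n` with one class
-/

set_option autoImplicit false

namespace Pool.Agent.TH511.J656

open Finset Pool.Agent.TH477.PA

theorem perf_iff {n r : ℕ} (A : Finset (Fin r)) (ψ : Sym2 (Fin n) → Fin r) :
    Perf (⊤ : SimpleGraph (Fin n)) 1 A ψ ↔ ∀ e : Sym2 (Fin n), ¬ e.IsDiag → ψ e ∈ A := by
  constructor
  · rintro ⟨κ, h1, h2⟩ e he
    induction e using Sym2.ind with
    | _ x y =>
      have hxy : x ≠ y := by
        rw [Sym2.mk_isDiag_iff] at he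
        exact he
      apply h2 x y ((SimpleGraph.top_adj x y).2 hxy)
      have a1 := h1 x
      have a2 := h1 y
      omega
  · intro h
    refine ⟨fun _ => 0, fun _ => one_pos, fun x y hxy _ => ?_⟩
    apply h
    rw [Sym2.mk_isDiag_iff]
    exact (SimpleGraph.top_adj x y).1 hxy

theorem J15_value_le (k s r n : ℕ) (hk : 3 ≤ k) (hs : 3 ≤ s) (hsr : s ≤ r) (hsk : s ≤ k.choose 2) :
    (∀ (A : Finset (Fin r)) , A.card = s - 1 →
      ∑ ψ : Sym2 (Fin n) → Fin r, ind (Perf (⊤ : SimpleGraph (Fin n)) 1 A ψ) =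
      ((s - 1 : ℕ) : ℝ) ^ (n.choose 2) * (r : ℝ) ^ (Fintype.card (Sym2 (Fin n)) - n.choose 2)) := by
  classical
  intro A hA
  set P : Sym2 (Fin n) → Finset (Fin r) := fun e => if e.IsDiag then univ else A with hP
  have h1 : ∀ ψ : Sym2 (Fin n) → Fin r,
      ind (Perf (⊤ : SimpleGraph (Fin n)) 1 A ψ) = ind (ψ ∈ Fintype.piFinset P) := by
    intro ψ
    apply ind_congr
    rw [perf_iff, Fintype.mem_piFinset]
    refine forall_congr' fun e => ?_
    by_cases he : e.IsDiag
    · simp [hP, he]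
    · simp [hP, he]
  have h2 : ∑ ψ : Sym2 (Fin n) → Fin r, ind (Perf (⊤ : SimpleGraph (Fin n)) 1 A ψ) =
      ((Fintype.piFinset P).card : ℝ) := by
    rw [Finset.sum_congr rfl (fun ψ _ => h1 ψ), ← card_filter_ind]
    congr 1
    congr 1
    ext ψ
    simp
  rw [h2, Fintype.card_piFinset]
  have h3 : ∀ e : Sym2 (Fin n), (P e).card = if e.IsDiag then r else s - 1 := by
    intro e
    by_cases he : e.IsDiag
    · simp [hP, he]
    · simp [hP, he, hA]
  rw [Finset.prod_congr rfl (fun e _ => h3 e), Finset.prod_ite, Finset.prod_const,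
    Finset.prod_const]
  have h4 : (univ.filter fun e : Sym2 (Fin n) => ¬ e.IsDiag).card = n.choose 2 := by
    have := Sym2.card_subtype_not_diag (α := Fin n)
    rw [Fintype.card_subtype, Fintype.card_fin] at this
    exact this
  have h5 : (univ.filter fun e : Sym2 (Fin n) => e.IsDiag).card =
      Fintype.card (Sym2 (Fin n)) - n.choose 2 := by
    have := Finset.card_filter_add_card_filter_not (s := (univ : Finset (Sym2 (Fin n))))
      (p := fun e => e.IsDiag)
    rw [h4, Finset.card_univ] at this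
    omega
  rw [h4, h5]
  push_cast
  ring

end Pool.Agent.TH511.J656
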