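import Pool.Agent.TH793.SB.Defs

/-!
# Job 588 (SB-13): invariant measures exist
-/

set_option autoImplicit false

open MeasureTheory Filter Topology Set BoundedContinuousFunction

namespace Pool.Agent.TH511.J588

open Pool.Agent.TH793.SB

/-! ### boxes -/

/-- the box `[0, L)^d` -/
noncomputable def BB (d L : ℕ) : Finset (Fin d → ℤ) :=
  Fintype.piFinset fun _ : Fin d => Finset.Ico (0 : ℤ) L

lemma mem_BB {d L : ℕ} {b : Fin d → ℤ} : b ∈ BB d L ↔ ∀ i, 0 ≤ b i ∧ b i < L := by
  unfold BB
  simp [Fintype.mem_piFinset]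

lemma card_BB (d L : ℕ) : (BB d L).card = L ^ d := by
  unfold BB
  rw [Fintype.card_piFinset]
  simp

lemma line_count (L : ℕ) (a : ℤ) :
    ((Finset.Ico (0 : ℤ) L).filter fun t => t + a ∉ Finset.Ico (0 : ℤ) L).card ≤ a.natAbs := by
  rcases le_total 0 a with h | h
  · have h1 : ((Finset.Ico (0 : ℤ) L).filter fun t => t + a ∉ Finset.Ico (0 : ℤ) L) ⊆
        Finset.Ico ((L : ℤ) - a) L := by
      intro t ht
      rw [Finset.mem_filter, Finset.mem_Ico, Finset.mem_Ico] at ht
      rw [Finset.mem_Ico]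
      omega
    refine (Finset.card_le_card h1).trans ?_
    rw [Int.card_Ico]
    omega
  · have h1 : ((Finset.Ico (0 : ℤ) L).filter fun t => t + a ∉ Finset.Ico (0 : ℤ) L) ⊆
        Finset.Ico (0 : ℤ) (-a) := by
      intro t ht
      rw [Finset.mem_filter, Finset.mem_Ico, Finset.mem_Ico] at ht
      rw [Finset.mem_Ico]
      omega
    refine (Finset.card_le_card h1).trans ?_
    rw [Int.card_Ico]
    omega

open Classical in
lemma slab_count (d L : ℕ) (i : Fin d) (S : Finset ℤ) :
    ((BB d L).filter fun b => b i ∈ S).card * L ≤ S.card * L ^ d := by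
  have h1 : (((BB d L).filter fun b => b i ∈ S) ×ˢ Finset.Ico (0 : ℤ) L).card ≤
      (S ×ˢ BB d L).card := by
    apply Finset.card_le_card_of_injOn (fun p => (p.1 i, Function.update p.1 i p.2))
    · intro p hp
      rw [Finset.mem_coe, Finset.mem_product, Finset.mem_filter, mem_BB, Finset.mem_Ico] at hp
      rw [Finset.mem_coe, Finset.mem_product, mem_BB]
      refine ⟨hp.1.2, fun j => ?_⟩
      by_cases hj : j = i
      · subst hj
        simpa using hp.2
      · simpa [Function.update_of_ne hj] using hp.1.1 j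
    · intro p _ q _ h
      simp only [Prod.mk.injEq] at h
      obtain ⟨h1, h2⟩ := h
      have h3 : p.2 = q.2 := by
        have := congrFun h2 i
        simpa using this
      have h4 : p.1 = q.1 := by
        funext j
        by_cases hj : j = i
        · rw [hj]; exact h1
        · have := congrFun h2 j
          simpa [Function.update_of_ne hj] using this
      exact Prod.ext h4 h3
  rw [Finset.card_product, Finset.card_product, card_BB] at h1
  simpa using h1

open Classical in
lemma edge_count (d L : ℕ) (a : Fin d → ℤ) :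
    ((BB d L).filter fun b => b + a ∉ BB d L).card * L ≤ (∑ i, (a i).natAbs) * L ^ d := by
  have h1 : ((BB d L).filter fun b => b + a ∉ BB d L) ⊆ Finset.univ.biUnion fun i : Fin d =>
      (BB d L).filter fun b => b i ∈
        (Finset.Ico (0 : ℤ) L).filter fun t => t + a i ∉ Finset.Ico (0 : ℤ) L := by
    intro b hb
    rw [Finset.mem_filter] at hb
    obtain ⟨hb1, hb2⟩ := hb
    rw [mem_BB, not_forall] at hb2
    obtain ⟨i, hi⟩ := hb2
    rw [Finset.mem_biUnion]
    refine ⟨i, Finset.mem_univ _, ?_⟩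
    rw [Finset.mem_filter, Finset.mem_filter, Finset.mem_Ico, Finset.mem_Ico]
    exact ⟨hb1, mem_BB.1 hb1 i, hi⟩
  have h2 := (Finset.card_le_card h1).trans Finset.card_biUnion_le
  calc ((BB d L).filter fun b => b + a ∉ BB d L).card * L
      ≤ (∑ i : Fin d, ((BB d L).filter fun b => b i ∈
        (Finset.Ico (0 : ℤ) L).filter fun t => t + a i ∉ Finset.Ico (0 : ℤ) L).card) * L :=
        Nat.mul_le_mul_right _ h2
    _ = ∑ i : Fin d, ((BB d L).filter fun b => b i ∈
        (Finset.Ico (0 : ℤ) L).filter fun t => t + a i ∉ Finset.Ico (0 : ℤ) L).card * L := by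
        rw [Finset.sum_mul]
    _ ≤ ∑ i : Fin d, (a i).natAbs * L ^ d := by
        apply Finset.sum_le_sum
        intro i _
        exact (slab_count d L i _).trans (Nat.mul_le_mul_right _ (line_count L (a i)))
    _ = (∑ i, (a i).natAbs) * L ^ d := by rw [Finset.sum_mul]

open Classical in
lemma shift_bound (d L : ℕ) (hL : 0 < L) (a : Fin d → ℤ) (F : (Fin d → ℤ) → ℝ) (M : ℝ)
    (hF : ∀ b, |F b| ≤ M) :
    |((BB d L).card : ℝ)⁻¹ * ∑ b ∈ BB d L, F (b + a) -
      ((BB d L).card : ℝ)⁻¹ * ∑ b ∈ BB d L, F b| ≤ 2 * M * (∑ i, (a i).natAbs : ℕ) / L := by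
  have hM : 0 ≤ M := (abs_nonneg _).trans (hF 0)
  have hLR : (0 : ℝ) < L := by exact_mod_cast hL
  have hBp : (0 : ℝ) < (BB d L).card := by
    rw [card_BB]
    exact_mod_cast pow_pos hL d
  set B := BB d L with hB
  set B' := B.image (fun b => b + a) with hB'
  have hinj : Function.Injective (fun b : Fin d → ℤ => b + a) := add_left_injective a
  have e1 : ∑ b ∈ B, F (b + a) = ∑ c ∈ B', F c := by
    rw [hB', Finset.sum_image (fun x _ y _ h => hinj h)]
  have hcard : B'.card = B.card := Finset.card_image_of_injective _ hinj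
  have h1 : (B' \ B).card ≤ (B.filter fun b => b + a ∉ B).card := by
    have h2 : B' \ B ⊆ (B.filter fun b => b + a ∉ B).image (fun b => b + a) := by
      intro c hc
      rw [Finset.mem_sdiff, hB', Finset.mem_image] at hc
      obtain ⟨⟨b, hb, rfl⟩, hc2⟩ := hc
      rw [Finset.mem_image]
      exact ⟨b, Finset.mem_filter.2 ⟨hb, hc2⟩, rfl⟩
    exact (Finset.card_le_card h2).trans Finset.card_image_le
  have h2 : (B \ B').card = (B' \ B).card := Finset.card_sdiff_comm hcard.symm
  have h3 : |∑ c ∈ B', F c - ∑ b ∈ B, F b| ≤ 2 * M * (B' \ B).card := by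
    rw [← Finset.sum_sdiff_sub_sum_sdiff]
    have a1 : |∑ x ∈ B' \ B, F x| ≤ (B' \ B).card * M := by
      refine (Finset.abs_sum_le_sum_abs _ _).trans ?_
      have := Finset.sum_le_card_nsmul (B' \ B) (fun x => |F x|) M (fun x _ => hF x)
      simpa using this
    have a2 : |∑ x ∈ B \ B', F x| ≤ (B' \ B).card * M := by
      refine (Finset.abs_sum_le_sum_abs _ _).trans ?_
      have := Finset.sum_le_card_nsmul (B \ B') (fun x => |F x|) M (fun x _ => hF x)
      rw [h2] at this
      simpa using this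
    have a3 := abs_sub (∑ x ∈ B' \ B, F x) (∑ x ∈ B \ B', F x)
    linarith
  have h4 := edge_count d L a
  have h5 : ((B' \ B).card : ℝ) * L ≤ ((∑ i, (a i).natAbs : ℕ) : ℝ) * (B.card : ℝ) := by
    rw [card_BB] at *
    have := (Nat.mul_le_mul_right L h1).trans h4
    exact_mod_cast this
  rw [← mul_sub, e1, abs_mul, abs_inv, abs_of_pos hBp, le_div_iff₀ hLR]
  have h6 : (B.card : ℝ)⁻¹ * |∑ c ∈ B', F c - ∑ b ∈ B, F b| * L ≤
      (B.card : ℝ)⁻¹ * (2 * M * (B' \ B).card) * L := by gcongr
  refine h6.trans ?_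
  have h7 : (B.card : ℝ)⁻¹ * (2 * M * (B' \ B).card) * L =
      2 * M * ((B.card : ℝ)⁻¹ * ((B' \ B).card * L)) := by ring
  rw [h7]
  have h8 : (B.card : ℝ)⁻¹ * ((B' \ B).card * L) ≤ ((∑ i, (a i).natAbs : ℕ) : ℝ) := by
    rw [inv_mul_le_iff₀ hBp]
    linarith
  exact mul_le_mul_of_nonneg_left h8 (by positivity)

/-! ### the averages -/

section
variable {d k : ℕ}

/-- translation -/
def sh (a : Fin d → ℤ) (X : (Fin d → ℤ) → Fin k) : (Fin d → ℤ) → Fin k := fun i => X (i - a)

lemma sh_cont (a : Fin d → ℤ) : Continuous (sh (k := k) a) :=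
  continuous_pi fun i => continuous_apply (i - a)

lemma sh_sh (a b : Fin d → ℤ) (X : (Fin d → ℤ) → Fin k) : sh a (sh b X) = sh (b + a) X := by
  funext i
  unfold sh
  congr 1
  abel

/-- average over the box -/
noncomputable def av (X : (Fin d → ℤ) → Fin k) (L : ℕ) : Measure ((Fin d → ℤ) → Fin k) :=
  (((BB d L).card : ENNReal)⁻¹) • ∑ b ∈ BB d L, Measure.dirac (sh b X)

lemma av_prob (X : (Fin d → ℤ) → Fin k) {L : ℕ} (hL : 0 < L) :
    IsProbabilityMeasure (av X L) := by
  constructor
  unfold av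
  simp only [Measure.smul_apply, Measure.coe_finsetSum, Finset.sum_apply, measure_univ,
    Finset.sum_const, nsmul_eq_mul, mul_one, smul_eq_mul]
  have h : (BB d L).card ≠ 0 := by
    rw [card_BB]
    exact (pow_pos hL d).ne'
  exact ENNReal.inv_mul_cancel (by exact_mod_cast h) (ENNReal.natCast_ne_top _)

lemma av_eq_zero (X : (Fin d → ℤ) → Fin k) (L : ℕ) {G : Set ((Fin d → ℤ) → Fin k)}
    (hG : MeasurableSet G) (h : ∀ b, sh b X ∉ G) : av X L G = 0 := by
  unfold av
  simp only [Measure.smul_apply, Measure.coe_finsetSum, Finset.sum_apply, smul_eq_mul]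
  rw [Finset.sum_eq_zero, mul_zero]
  intro i _
  rw [Measure.dirac_apply' _ hG, indicator_of_notMem (h i)]

lemma av_integral (X : (Fin d → ℤ) → Fin k) (L : ℕ) (g : ((Fin d → ℤ) → Fin k) →ᵇ ℝ) :
    ∫ y, g y ∂(av X L) = ((BB d L).card : ℝ)⁻¹ * ∑ b ∈ BB d L, g (sh b X) := by
  unfold av
  rw [integral_smul_measure, integral_finsetSum_measure]
  · simp only [ENNReal.toReal_inv, ENNReal.toReal_natCast, smul_eq_mul]
    congr 1
    refine Finset.sum_congr rfl fun i _ => ?_
    exact integral_dirac' _ _ g.continuous.stronglyMeasurable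
  · intro i _
    exact g.integrable _

end

theorem invMeas : InvMeas := by
  intro d k Ω hne hcl hinv
  obtain ⟨X0, hX0⟩ := hne
  have hprob : ∀ L : ℕ, IsProbabilityMeasure (av X0 (L + 1)) := fun L => av_prob X0 L.succ_pos
  set Q : ℕ → ProbabilityMeasure ((Fin d → ℤ) → Fin k) := fun L => ⟨av X0 (L + 1), hprob L⟩ with hQ
  set U : Ultrafilter ℕ := hyperfilter ℕ with hU
  have hUle : (U : Filter ℕ) ≤ atTop := by
    rw [hU, ← Nat.cofinite_eq_atTop]; exact hyperfilter_le_cofinite
  obtain ⟨P, -, hP⟩ := isCompact_univ.ultrafilter_le_nhds (U.map Q) (by simp)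
  have hlim : Tendsto Q U (𝓝 P) := hP
  refine ⟨P, inferInstance, ?_, ?_⟩
  · have h1 := ProbabilityMeasure.le_liminf_measure_open_of_tendsto hlim hcl.isOpen_compl
    refine le_antisymm (h1.trans ?_) zero_le
    have h0 : ∀ L, (Q L : Measure ((Fin d → ℤ) → Fin k)) Ωᶜ = 0 := fun L =>
      av_eq_zero X0 (L + 1) hcl.isOpen_compl.measurableSet (fun b hb => hb (hinv X0 hX0 b))
    refine (Filter.liminf_le_liminf (v := fun _ => (0 : ENNReal))
      (Eventually.of_forall fun L => (h0 L).le)).trans ?_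
    simp
  · intro a
    have hf : Continuous (sh (k := k) a) := sh_cont a
    change Measure.map (sh a) (P : Measure ((Fin d → ℤ) → Fin k)) = P
    have hmapP : IsProbabilityMeasure (Measure.map (sh a)
        (P : Measure ((Fin d → ℤ) → Fin k))) :=
      Measure.isProbabilityMeasure_map hf.measurable.aemeasurable
    refine ext_of_forall_integral_eq_of_IsFiniteMeasure fun g => ?_
    rw [integral_map hf.measurable.aemeasurable g.continuous.aestronglyMeasurable]
    have h1 := (ProbabilityMeasure.tendsto_iff_forall_integral_tendsto.1 hlim) g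
    have h2 := (ProbabilityMeasure.tendsto_iff_forall_integral_tendsto.1 hlim)
      (g.compContinuous ⟨sh a, hf⟩)
    have h3 := h2.sub h1
    have h4 : Tendsto (fun L => (∫ y, (g.compContinuous ⟨sh a, hf⟩) y
        ∂(Q L : Measure ((Fin d → ℤ) → Fin k))) -
        ∫ y, g y ∂(Q L : Measure ((Fin d → ℤ) → Fin k))) U (𝓝 0) := by
      have h5 : ∀ L, |(∫ y, (g.compContinuous ⟨sh a, hf⟩) y
          ∂(Q L : Measure ((Fin d → ℤ) → Fin k))) -
          ∫ y, g y ∂(Q L : Measure ((Fin d → ℤ) → Fin k))| ≤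
            2 * ‖g‖ * (∑ i, (a i).natAbs : ℕ) / ((L + 1 : ℕ) : ℝ) := by
        intro L
        have e1 : ∫ y, (g.compContinuous ⟨sh a, hf⟩) y ∂(Q L : Measure ((Fin d → ℤ) → Fin k)) =
            ((BB d (L + 1)).card : ℝ)⁻¹ * ∑ b ∈ BB d (L + 1), g (sh (b + a) X0) := by
          refine (av_integral X0 (L + 1) (g.compContinuous ⟨sh a, hf⟩)).trans ?_
          congr 1
          refine Finset.sum_congr rfl fun i _ => ?_
          simp only [BoundedContinuousFunction.compContinuous_apply, ContinuousMap.coe_mk]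
          rw [sh_sh]
        have e2 : ∫ y, g y ∂(Q L : Measure ((Fin d → ℤ) → Fin k)) =
            ((BB d (L + 1)).card : ℝ)⁻¹ * ∑ b ∈ BB d (L + 1), g (sh b X0) :=
          av_integral X0 (L + 1) g
        rw [e1, e2]
        exact shift_bound d (L + 1) L.succ_pos a (fun b => g (sh b X0)) ‖g‖
          (fun b => g.norm_coe_le_norm _)
      have h6 : Tendsto (fun L : ℕ => 2 * ‖g‖ * (∑ i, (a i).natAbs : ℕ) / ((L + 1 : ℕ) : ℝ))
          U (𝓝 0) := by
        have : Tendsto (fun L : ℕ => 2 * ‖g‖ * (∑ i, (a i).natAbs : ℕ) / ((L + 1 : ℕ) : ℝ))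
            atTop (𝓝 0) :=
          tendsto_const_nhds.div_atTop
            (tendsto_natCast_atTop_atTop.comp (tendsto_add_atTop_nat 1))
        exact this.mono_left hUle
      exact squeeze_zero_norm h5 h6
    have h7 := tendsto_nhds_unique h3 h4
    have h8 : ∫ y, (g.compContinuous ⟨sh a, hf⟩) y ∂(P : Measure ((Fin d → ℤ) → Fin k)) =
      ∫ y, g (sh a y) ∂(P : Measure ((Fin d → ℤ) → Fin k)) := rfl
    rw [h8] at h7
    linarith

end Pool.Agent.TH511.J588
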