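import Pool.Agent.TH511.J588

/-!
# Job 589 (SB-14): uniform patch counts imply uniqueness of the invariant measure
-/

set_option autoImplicit false

open MeasureTheory Filter Topology Set

namespace Pool.Agent.TH511.J589

open Pool.Agent.TH793.SB
open Pool.Agent.TH511.J588

/-- cylinder sets -/
def cyl {d k : ℕ} (D : Finset (Fin d → ℤ)) (p : (Fin d → ℤ) → Fin k) :
    Set ((Fin d → ℤ) → Fin k) := {X | ∀ i ∈ D, X i = p i}

lemma cyl_meas {d k : ℕ} (D : Finset (Fin d → ℤ)) (p : (Fin d → ℤ) → Fin k) :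
    MeasurableSet (cyl D p) := by
  have : cyl D p = ⋂ i ∈ D, (fun X : (Fin d → ℤ) → Fin k => X i) ⁻¹' {p i} := by
    ext X
    simp [cyl]
  rw [this]
  exact Finset.measurableSet_biInter D fun i _ => measurable_pi_apply i (measurableSet_singleton _)

/-- all cylinder sets -/
def CC (d k : ℕ) : Set (Set ((Fin d → ℤ) → Fin k)) := {S | ∃ D p, S = cyl D p}

lemma pi_CC (d k : ℕ) : IsPiSystem (CC d k) := by
  classical
  rintro _ ⟨D, p, rfl⟩ _ ⟨E, q, rfl⟩ ⟨X0, h1, h2⟩
  refine ⟨D ∪ E, X0, ?_⟩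
  ext X
  simp only [cyl, mem_inter_iff, mem_ofPred_eq, Finset.mem_union] at *
  constructor
  · rintro ⟨h3, h4⟩ i (hi | hi)
    · rw [h3 i hi, h1 i hi]
    · rw [h4 i hi, h2 i hi]
  · intro h
    refine ⟨fun i hi => ?_, fun i hi => ?_⟩
    · rw [h i (Or.inl hi), h1 i hi]
    · rw [h i (Or.inr hi), h2 i hi]

lemma gen_CC (d k : ℕ) : (MeasurableSpace.pi : MeasurableSpace ((Fin d → ℤ) → Fin k)) =
    MeasurableSpace.generateFrom (CC d k) := by
  apply le_antisymm
  · refine iSup_le fun i => ?_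
    rw [← measurable_iff_comap_le]
    refine @measurable_to_countable' _ _ _ _ (MeasurableSpace.generateFrom (CC d k)) _ ?_
    intro c
    apply MeasurableSpace.measurableSet_generateFrom
    refine ⟨{i}, fun _ => c, ?_⟩
    ext X
    simp [cyl]
  · refine MeasurableSpace.generateFrom_le ?_
    rintro _ ⟨D, p, rfl⟩
    exact cyl_meas D p

open Classical in
/-- patch count -/
noncomputable def NN {d k : ℕ} (D : Finset (Fin d → ℤ)) (p : (Fin d → ℤ) → Fin k) (L : ℕ)
    (X : (Fin d → ℤ) → Fin k) : ℝ :=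
  (((BB d L).filter fun a => ∀ i ∈ D, X (i + a) = p i).card : ℝ)

lemma shift_cyl {d k : ℕ} (D : Finset (Fin d → ℤ)) (p : (Fin d → ℤ) → Fin k) (a : Fin d → ℤ) :
    {X : (Fin d → ℤ) → Fin k | ∀ i ∈ D, X (i + a) = p i} = sh (-a) ⁻¹' (cyl D p) := by
  ext X
  simp [cyl, sh, sub_neg_eq_add]

lemma meas_shift {d k : ℕ} {μ : Measure ((Fin d → ℤ) → Fin k)}
    (hμ : ∀ a : Fin d → ℤ, Measure.map (fun X : (Fin d → ℤ) → Fin k => fun i => X (i - a)) μ = μ)
    (D : Finset (Fin d → ℤ)) (p : (Fin d → ℤ) → Fin k) (a : Fin d → ℤ) :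
    μ {X : (Fin d → ℤ) → Fin k | ∀ i ∈ D, X (i + a) = p i} = μ (cyl D p) := by
  rw [shift_cyl]
  have h1 := hμ (-a)
  change Measure.map (sh (-a)) μ = μ at h1
  conv_rhs => rw [← h1]
  rw [Measure.map_apply (sh_cont (-a)).measurable (cyl_meas D p)]

lemma NN_eq {d k : ℕ} (D : Finset (Fin d → ℤ)) (p : (Fin d → ℤ) → Fin k) (L : ℕ) :
    NN D p L = fun X => ∑ a ∈ BB d L,
      ({X : (Fin d → ℤ) → Fin k | ∀ i ∈ D, X (i + a) = p i}.indicator (fun _ => (1 : ℝ))) X := by
  classical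
  funext X
  unfold NN
  rw [Finset.card_filter]
  push_cast
  refine Finset.sum_congr rfl fun a _ => ?_
  by_cases h : ∀ i ∈ D, X (i + a) = p i
  · rw [if_pos h, indicator_of_mem (show X ∈ {X : (Fin d → ℤ) → Fin k | ∀ i ∈ D, X (i + a) = p i}
      from h)]
  · rw [if_neg h, indicator_of_notMem (show X ∉ {X : (Fin d → ℤ) → Fin k |
      ∀ i ∈ D, X (i + a) = p i} from h)]

lemma NN_int {d k : ℕ} {μ : Measure ((Fin d → ℤ) → Fin k)} [IsProbabilityMeasure μ]
    (hμ : ∀ a : Fin d → ℤ, Measure.map (fun X : (Fin d → ℤ) → Fin k => fun i => X (i - a)) μ = μ)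
    (D : Finset (Fin d → ℤ)) (p : (Fin d → ℤ) → Fin k) (L : ℕ) :
    Integrable (NN D p L) μ ∧ ∫ X, NN D p L X ∂μ = (L : ℝ) ^ d * μ.real (cyl D p) := by
  have hm : ∀ a : Fin d → ℤ, MeasurableSet {X : (Fin d → ℤ) → Fin k | ∀ i ∈ D, X (i + a) = p i} := by
    intro a
    rw [shift_cyl]
    exact (sh_cont (-a)).measurable (cyl_meas D p)
  rw [NN_eq]
  have hi : ∀ a ∈ BB d L, Integrable (fun X => ({X : (Fin d → ℤ) → Fin k |
      ∀ i ∈ D, X (i + a) = p i}.indicator (fun _ => (1 : ℝ))) X) μ := fun a _ =>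
    (integrable_const 1).indicator (hm a)
  refine ⟨integrable_finsetSum _ hi, ?_⟩
  rw [integral_finsetSum _ hi]
  have h1 : ∀ a ∈ BB d L, ∫ X, ({X : (Fin d → ℤ) → Fin k |
      ∀ i ∈ D, X (i + a) = p i}.indicator (fun _ => (1 : ℝ))) X ∂μ = μ.real (cyl D p) := by
    intro a _
    rw [integral_indicator (hm a), integral_const, smul_eq_mul, mul_one, measureReal_restrict_apply
      MeasurableSet.univ, univ_inter, measureReal_def, measureReal_def, meas_shift hμ]
  rw [Finset.sum_congr rfl h1, Finset.sum_const, card_BB, nsmul_eq_mul]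
  push_cast
  ring

lemma compare {d k : ℕ} {μ : Measure ((Fin d → ℤ) → Fin k)} [IsProbabilityMeasure μ]
    (hμ : ∀ a : Fin d → ℤ, Measure.map (fun X : (Fin d → ℤ) → Fin k => fun i => X (i - a)) μ = μ)
    {Ω : Set ((Fin d → ℤ) → Fin k)} (hΩ : μ Ωᶜ = 0)
    (D : Finset (Fin d → ℤ)) (p : (Fin d → ℤ) → Fin k) (L : ℕ) (B : ℝ)
    {X0 : (Fin d → ℤ) → Fin k} (h : ∀ X ∈ Ω, |NN D p L X - NN D p L X0| ≤ B) :
    |(L : ℝ) ^ d * μ.real (cyl D p) - NN D p L X0| ≤ B := by
  obtain ⟨h1, h2⟩ := NN_int hμ D p L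
  have h3 : ∫ X, (NN D p L X - NN D p L X0) ∂μ =
      (L : ℝ) ^ d * μ.real (cyl D p) - NN D p L X0 := by
    rw [integral_sub h1 (integrable_const _), h2, integral_const]
    simp
  rw [← h3, ← Real.norm_eq_abs]
  have hae : ∀ᵐ X ∂μ, X ∈ Ω := by
    rw [ae_iff]
    exact hΩ
  have h4 := norm_integral_le_of_norm_le_const (μ := μ)
    (f := fun X => NN D p L X - NN D p L X0) (C := B) (by
      filter_upwards [hae] with X hX
      rw [Real.norm_eq_abs]
      exact h X hX)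
  simpa using h4

theorem uniqMeas : UniqMeas := by
  classical
  intro d k Ω hd hcount μ ν hμp hνp hμΩ hνΩ hμ hν
  have hne : Ω.Nonempty := by
    by_contra h
    rw [not_nonempty_iff_eq_empty] at h
    rw [h, compl_empty, measure_univ] at hμΩ
    exact one_ne_zero hμΩ
  obtain ⟨X0, hX0⟩ := hne
  refine ext_of_generate_finite (CC d k) (gen_CC d k) (pi_CC d k) ?_ ?_
  · rintro _ ⟨D, p, rfl⟩
    obtain ⟨C, hC⟩ := hcount D p
    have key : ∀ L : ℕ, 1 ≤ L → |μ.real (cyl D p) - ν.real (cyl D p)| * L ≤ 2 * C := by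
      intro L hL
      have hLR : (0 : ℝ) < L := by exact_mod_cast hL
      have h0 : ∀ X ∈ Ω, |NN D p L X - NN D p L X0| ≤ C * (L : ℝ) ^ (d - 1) := by
        intro X hX
        have := hC X hX X0 hX0 L hL
        unfold NN BB
        convert this using 1
      have h1 := compare hμ hμΩ D p L _ h0
      have h2 := compare hν hνΩ D p L _ h0
      have h3 : |(L : ℝ) ^ d * (μ.real (cyl D p) - ν.real (cyl D p))| ≤
          2 * (C * (L : ℝ) ^ (d - 1)) := by
        have e : (L : ℝ) ^ d * (μ.real (cyl D p) - ν.real (cyl D p)) =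
            ((L : ℝ) ^ d * μ.real (cyl D p) - NN D p L X0) -
              ((L : ℝ) ^ d * ν.real (cyl D p) - NN D p L X0) := by ring
        rw [e]
        have := abs_sub ((L : ℝ) ^ d * μ.real (cyl D p) - NN D p L X0)
          ((L : ℝ) ^ d * ν.real (cyl D p) - NN D p L X0)
        linarith
      have hpow : (L : ℝ) ^ d = (L : ℝ) ^ (d - 1) * L := by
        rw [← pow_succ]
        congr 1
        omega
      rw [abs_mul, abs_of_pos (by positivity : (0 : ℝ) < (L : ℝ) ^ d), hpow] at h3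
      have hp : (0 : ℝ) < (L : ℝ) ^ (d - 1) := by positivity
      have h4 : (L : ℝ) ^ (d - 1) * (|μ.real (cyl D p) - ν.real (cyl D p)| * L) ≤
          (L : ℝ) ^ (d - 1) * (2 * C) := by linarith
      exact le_of_mul_le_mul_left h4 hp
    have h5 : μ.real (cyl D p) = ν.real (cyl D p) := by
      by_contra hne
      have hpos : 0 < |μ.real (cyl D p) - ν.real (cyl D p)| := abs_pos.2 (sub_ne_zero.2 hne)
      obtain ⟨n, hn⟩ := exists_nat_gt (2 * C / |μ.real (cyl D p) - ν.real (cyl D p)|)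
      have h6 := key (n + 1) (by omega)
      rw [div_lt_iff₀ hpos] at hn
      push_cast at h6
      nlinarith
    rw [measureReal_def, measureReal_def] at h5
    exact (ENNReal.toReal_eq_toReal_iff' (measure_ne_top _ _) (measure_ne_top _ _)).1 h5
  · rw [measure_univ, measure_univ]

end Pool.Agent.TH511.J589
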