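import Pool.Agent.TH511.J588

/-!
# Job 590 (SB-15): patch counts of two valid tilings differ by a surface term
-/

set_option autoImplicit false

namespace Pool.Agent.TH511.J590

open Pool.Agent.TH793.SB
open Pool.Agent.TH511.J588

open Classical in
/-- indicator of a match -/
noncomputable def mt (D : Finset Site) (p : Site → Tile) (X : Cfg) (a : Site) : ℝ :=
  if ∀ i ∈ D, X (i + a) = p i then 1 else 0

lemma mt_abs (D : Finset Site) (p : Site → Tile) (X Y : Cfg) (a : Site) :
    |mt D p X a - mt D p Y a| ≤ 1 := by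
  unfold mt
  split_ifs <;> simp

lemma mt_congr {D : Finset Site} {p : Site → Tile} {X Y : Cfg} {a : Site}
    (h : ∀ i ∈ D, X (i + a) = Y (i + a)) : mt D p X a = mt D p Y a := by
  unfold mt
  have : (∀ i ∈ D, X (i + a) = p i) ↔ (∀ i ∈ D, Y (i + a) = p i) := by
    constructor
    · intro h1 i hi
      rw [← h i hi]; exact h1 i hi
    · intro h1 i hi
      rw [h i hi]; exact h1 i hi
  by_cases h1 : ∀ i ∈ D, Y (i + a) = p i
  · rw [if_pos h1, if_pos (this.2 h1)]
  · rw [if_neg h1, if_neg (fun h2 => h1 (this.1 h2))]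

open Classical in
/-- the mixed configuration -/
noncomputable def mix (L : ℕ) (X X' : Cfg) : Cfg := fun u => if u ∈ BB 3 L then X' u else X u

lemma mix_in {L : ℕ} {X X' : Cfg} {u : Site} (h : u ∈ BB 3 L) : mix L X X' u = X' u := by
  unfold mix
  rw [if_pos h]

lemma mix_out {L : ℕ} {X X' : Cfg} {u : Site} (h : u ∉ BB 3 L) : mix L X X' u = X u := by
  unfold mix
  rw [if_neg h]

lemma slab_one (L : ℕ) (hL : 0 < L) (i : Fin 3) (c : ℤ) :
    ((BB 3 L).filter fun b => b i ∈ ({c} : Finset ℤ)).card ≤ L ^ 2 := by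
  have h := slab_count 3 L i {c}
  rw [Finset.card_singleton, one_mul, pow_succ] at h
  exact Nat.le_of_mul_le_mul_right h hL

open Classical in
/-- superset of the broken edges -/
noncomputable def EE (L : ℕ) : Finset Site :=
  Finset.univ.biUnion fun i : Fin 3 =>
    ((BB 3 L).filter fun b => b i ∈ ({(L : ℤ) - 1} : Finset ℤ)) ∪
      (((BB 3 L).filter fun b => b i ∈ ({0} : Finset ℤ)).image fun b => b - st i 1)

lemma EE_card (L : ℕ) (hL : 0 < L) : (EE L).card ≤ 6 * L ^ 2 := by
  classical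
  unfold EE
  refine Finset.card_biUnion_le.trans ?_
  have h : ∀ i ∈ (Finset.univ : Finset (Fin 3)),
      (((BB 3 L).filter fun b => b i ∈ ({(L : ℤ) - 1} : Finset ℤ)) ∪
        (((BB 3 L).filter fun b => b i ∈ ({0} : Finset ℤ)).image fun b => b - st i 1)).card ≤
        2 * L ^ 2 := by
    intro i _
    refine (Finset.card_union_le _ _).trans ?_
    have h1 := slab_one L hL i ((L : ℤ) - 1)
    have h2 := slab_one L hL i 0
    have h3 := Finset.card_image_le (s := (BB 3 L).filter fun b => b i ∈ ({0} : Finset ℤ))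
      (f := fun b => b - st i 1)
    omega
  refine (Finset.sum_le_card_nsmul _ _ _ h).trans ?_
  simp only [Finset.card_univ, Fintype.card_fin, smul_eq_mul]
  omega

lemma bad_sub {L : ℕ} {X X' : Cfg} (hX : Valid X) (hX' : Valid X') :
    bad (mix L X X') ⊆ (EE L : Set Site) := by
  classical
  intro u hu
  unfold bad Good at hu
  simp only [Set.mem_ofPred_eq, not_forall] at hu
  obtain ⟨i, hi⟩ := hu
  unfold EE
  rw [Finset.mem_coe, Finset.mem_biUnion]
  refine ⟨i, Finset.mem_univ _, ?_⟩
  rw [Finset.mem_union, Finset.mem_filter, Finset.mem_image]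
  by_cases h1 : u ∈ BB 3 L
  · by_cases h2 : u + st i 1 ∈ BB 3 L
    · exfalso
      apply hi
      rw [mix_in h1, mix_in h2]
      exact hX' u i
    · left
      refine ⟨h1, ?_⟩
      rw [Finset.mem_singleton]
      rw [mem_BB] at h1 h2
      by_contra h3
      apply h2
      intro j
      have h4 := h1 j
      have h5 := h1 i
      simp only [Pi.add_apply, st]
      by_cases hj : j = i
      · subst hj
        rw [if_pos rfl]
        omega
      · rw [if_neg hj]
        omega
  · by_cases h2 : u + st i 1 ∈ BB 3 L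
    · right
      refine ⟨u + st i 1, ?_, by abel⟩
      rw [Finset.mem_filter]
      refine ⟨h2, ?_⟩
      rw [Finset.mem_singleton]
      rw [mem_BB] at h1 h2
      by_contra h3
      apply h1
      intro j
      have h4 := h2 j
      have h5 := h2 i
      simp only [Pi.add_apply, st] at h3 h4 h5
      by_cases hj : j = i
      · subst hj
        simp only [if_true] at h3 h4
        omega
      · rw [if_neg hj] at h4
        omega
    · exfalso
      apply hi
      rw [mix_out h1, mix_out h2]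
      exact hX u i

open Classical in
/-- matches near the boundary, inside -/
noncomputable def Ein (D : Finset Site) (L : ℕ) : Finset Site :=
  D.biUnion fun i => (BB 3 L).filter fun b => b + i ∉ BB 3 L

open Classical in
/-- matches near the boundary, outside -/
noncomputable def Eout (D : Finset Site) (L : ℕ) : Finset Site :=
  D.biUnion fun i => ((BB 3 L).filter fun b => b + (-i) ∉ BB 3 L).image fun b => b - i

/-- size of the pattern -/
def sz (D : Finset Site) : ℕ := ∑ i ∈ D, ∑ l, (i l).natAbs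

open Classical in
lemma edge3 (L : ℕ) (hL : 0 < L) (i : Site) :
    ((BB 3 L).filter fun b => b + i ∉ BB 3 L).card ≤ (∑ l, (i l).natAbs) * L ^ 2 := by
  have h := edge_count 3 L i
  have h2 : ((BB 3 L).filter fun b => b + i ∉ BB 3 L).card * L ≤
      (∑ l, (i l).natAbs) * L ^ 2 * L := by
    rw [mul_assoc, ← pow_succ]
    exact h
  exact Nat.le_of_mul_le_mul_right h2 hL

lemma Ein_card (D : Finset Site) (L : ℕ) (hL : 0 < L) : (Ein D L).card ≤ sz D * L ^ 2 := by
  classical
  unfold Ein sz
  refine Finset.card_biUnion_le.trans ?_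
  rw [Finset.sum_mul]
  exact Finset.sum_le_sum fun i _ => edge3 L hL i

lemma Eout_card (D : Finset Site) (L : ℕ) (hL : 0 < L) : (Eout D L).card ≤ sz D * L ^ 2 := by
  classical
  unfold Eout sz
  refine Finset.card_biUnion_le.trans ?_
  rw [Finset.sum_mul]
  refine Finset.sum_le_sum fun i _ => Finset.card_image_le.trans ?_
  refine (edge3 L hL (-i)).trans (le_of_eq ?_)
  congr 1
  refine Finset.sum_congr rfl fun l _ => ?_
  rw [Pi.neg_apply, Int.natAbs_neg]

lemma match_in {D : Finset Site} {p : Site → Tile} {L : ℕ} {X X' : Cfg} {a : Site}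
    (h1 : a ∈ BB 3 L) (h2 : a ∉ Ein D L) : mt D p (mix L X X') a = mt D p X' a := by
  classical
  apply mt_congr
  intro i hi
  apply mix_in
  by_contra h3
  apply h2
  unfold Ein
  rw [Finset.mem_biUnion]
  refine ⟨i, hi, ?_⟩
  rw [Finset.mem_filter, add_comm]
  exact ⟨h1, h3⟩

lemma match_out {D : Finset Site} {p : Site → Tile} {L : ℕ} {X X' : Cfg} {a : Site}
    (h1 : a ∉ BB 3 L) (h2 : a ∉ Eout D L) : mt D p (mix L X X') a = mt D p X a := by
  classical
  apply mt_congr
  intro i hi
  apply mix_out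
  intro h3
  apply h2
  unfold Eout
  rw [Finset.mem_biUnion]
  refine ⟨i, hi, ?_⟩
  rw [Finset.mem_image]
  refine ⟨i + a, ?_, by abel⟩
  rw [Finset.mem_filter]
  refine ⟨h3, ?_⟩
  have : i + a + -i = a := by abel
  rw [this]
  exact h1

theorem countDiff (h : SBC) : CountDiff := by
  classical
  intro DA pA
  obtain ⟨C, hC⟩ := h DA pA
  refine ⟨|C| * 6 + 2 * sz DA, ?_⟩
  intro X X' hX hX' L hL
  have hL0 : 0 < L := hL
  set Y : Cfg := mix L X X' with hY
  have hfin : {u | Y u ≠ X u}.Finite := by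
    apply (Finset.finite_toSet (BB 3 L)).subset
    intro u hu
    rw [Finset.mem_coe]
    by_contra h1
    exact hu (mix_out h1)
  have h1 := hC X Y hX hfin
  have hcount : ∀ Z : Cfg, (((Fintype.piFinset fun _ : Fin 3 => Finset.Ico (0 : ℤ) L).filter
      fun a => ∀ i ∈ DA, Z (i + a) = pA i).card : ℝ) = ∑ a ∈ BB 3 L, mt DA pA Z a := by
    intro Z
    unfold mt
    rw [Finset.card_filter]
    push_cast
    rfl
  rw [hcount, hcount]
  -- the finsum
  have h2 : ∑ᶠ a : Site, ((if ∀ i ∈ DA, Y (i + a) = pA i then (1 : ℝ) else 0) -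
      (if ∀ i ∈ DA, X (i + a) = pA i then (1 : ℝ) else 0)) =
      ∑ a ∈ BB 3 L ∪ Eout DA L, (mt DA pA Y a - mt DA pA X a) := by
    have e : (fun a : Site => ((if ∀ i ∈ DA, Y (i + a) = pA i then (1 : ℝ) else 0) -
      (if ∀ i ∈ DA, X (i + a) = pA i then (1 : ℝ) else 0))) =
        fun a => mt DA pA Y a - mt DA pA X a := by
      funext a
      unfold mt
      congr
    rw [e]
    apply finsum_eq_sum_of_support_subset
    intro a ha
    rw [Finset.mem_coe, Finset.mem_union]
    by_contra h3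
    rw [not_or] at h3
    apply ha
    simp only
    rw [match_out h3.1 h3.2, sub_self]
  rw [h2] at h1
  have h3 : ∑ a ∈ BB 3 L ∪ Eout DA L, (mt DA pA Y a - mt DA pA X a) =
      ∑ a ∈ BB 3 L, (mt DA pA Y a - mt DA pA X a) +
        ∑ a ∈ Eout DA L \ BB 3 L, (mt DA pA Y a - mt DA pA X a) := by
    rw [← Finset.union_sdiff_self_eq_union, Finset.sum_union Finset.disjoint_sdiff]
  have h4 : |∑ a ∈ Eout DA L \ BB 3 L, (mt DA pA Y a - mt DA pA X a)| ≤ sz DA * (L : ℝ) ^ 2 := by
    refine (Finset.abs_sum_le_sum_abs _ _).trans ?_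
    have h5 := Finset.sum_le_card_nsmul (Eout DA L \ BB 3 L)
      (fun a => |mt DA pA Y a - mt DA pA X a|) 1 (fun a _ => mt_abs _ _ _ _ _)
    refine h5.trans ?_
    rw [nsmul_eq_mul, mul_one]
    have h6 : (Eout DA L \ BB 3 L).card ≤ sz DA * L ^ 2 :=
      (Finset.card_le_card Finset.sdiff_subset).trans (Eout_card DA L hL0)
    exact_mod_cast h6
  have h5 : |∑ a ∈ BB 3 L, (mt DA pA Y a - mt DA pA X' a)| ≤ sz DA * (L : ℝ) ^ 2 := by
    have e : ∑ a ∈ BB 3 L, (mt DA pA Y a - mt DA pA X' a) =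
        ∑ a ∈ (BB 3 L).filter (fun a => a ∈ Ein DA L), (mt DA pA Y a - mt DA pA X' a) := by
      rw [Finset.sum_filter]
      refine Finset.sum_congr rfl fun a ha => ?_
      by_cases h6 : a ∈ Ein DA L
      · rw [if_pos h6]
      · rw [if_neg h6, match_in ha h6, sub_self]
    rw [e]
    refine (Finset.abs_sum_le_sum_abs _ _).trans ?_
    have h6 := Finset.sum_le_card_nsmul ((BB 3 L).filter (fun a => a ∈ Ein DA L))
      (fun a => |mt DA pA Y a - mt DA pA X' a|) 1 (fun a _ => mt_abs _ _ _ _ _)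
    refine h6.trans ?_
    rw [nsmul_eq_mul, mul_one]
    have h7 : ((BB 3 L).filter (fun a => a ∈ Ein DA L)).card ≤ sz DA * L ^ 2 := by
      refine (Finset.card_le_card ?_).trans (Ein_card DA L hL0)
      intro a ha
      exact (Finset.mem_filter.1 ha).2
    exact_mod_cast h7
  have h6 : ((bad Y).ncard : ℝ) ≤ 6 * (L : ℝ) ^ 2 := by
    have h7 := Set.ncard_le_ncard (bad_sub hX hX' (L := L)) (Finset.finite_toSet (EE L))
    rw [Set.ncard_coe_finset] at h7
    have h8 := h7.trans (EE_card L hL0)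
    exact_mod_cast h8
  have h7 : C * ((bad Y).ncard : ℝ) ≤ |C| * (6 * (L : ℝ) ^ 2) :=
    mul_le_mul (le_abs_self C) h6 (Nat.cast_nonneg _) (abs_nonneg _)
  have h8 : ∑ a ∈ BB 3 L, mt DA pA X a - ∑ a ∈ BB 3 L, mt DA pA X' a =
      -(∑ a ∈ BB 3 L ∪ Eout DA L, (mt DA pA Y a - mt DA pA X a)) +
        ∑ a ∈ Eout DA L \ BB 3 L, (mt DA pA Y a - mt DA pA X a) +
          ∑ a ∈ BB 3 L, (mt DA pA Y a - mt DA pA X' a) := by
    rw [h3, Finset.sum_sub_distrib, Finset.sum_sub_distrib]
    simp only [Finset.sum_sub_distrib]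
    ring
  rw [h8, abs_le]
  rw [abs_le] at h1 h4 h5
  constructor <;> linarith [h1.1, h1.2, h4.1, h4.2, h5.1, h5.2]

end Pool.Agent.TH511.J590
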