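import Pool.Agent.TH843.PY.Stm

set_option autoImplicit false
open Polynomial NumberField

namespace Pool.Agent.TH511.J211
open Pool.Agent.TH843.PY

/-! ### adjoining a square root -/

/-- the field `K(w)` for `w ^ 2 ∈ K`, `w ∉ K` -/
def ext (K : IntermediateField ℚ ℂ) (w : ℂ) (hw : w ∉ K) (hu : w ^ 2 ∈ K) :
    IntermediateField ℚ ℂ where
  carrier := {z | ∃ a ∈ K, ∃ b ∈ K, z = a + b * w}
  mul_mem' := by
    rintro _ _ ⟨a, ha, b, hb, rfl⟩ ⟨c, hc, d, hd, rfl⟩
    refine ⟨a * c + b * d * w ^ 2, add_mem (mul_mem ha hc) (mul_mem (mul_mem hb hd) hu),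
      a * d + b * c, add_mem (mul_mem ha hd) (mul_mem hb hc), by ring⟩
  add_mem' := by
    rintro _ _ ⟨a, ha, b, hb, rfl⟩ ⟨c, hc, d, hd, rfl⟩
    exact ⟨a + c, add_mem ha hc, b + d, add_mem hb hd, by ring⟩
  algebraMap_mem' := fun r => ⟨algebraMap ℚ ℂ r, K.algebraMap_mem r, 0, K.zero_mem, by simp⟩
  inv_mem' := by
    rintro _ ⟨a, ha, b, hb, rfl⟩
    by_cases hb0 : b = 0
    · subst hb0
      exact ⟨a⁻¹, inv_mem ha, 0, K.zero_mem, by simp⟩
    · have hne : a ^ 2 - b ^ 2 * w ^ 2 ≠ 0 := by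
        intro h
        have h1 : (a / b - w) * (a / b + w) = 0 := by
          field_simp
          linear_combination h
        rcases mul_eq_zero.1 h1 with h2 | h2
        · apply hw
          have : w = a / b := by linear_combination -h2
          rw [this]
          exact div_mem ha hb
        · apply hw
          have : w = -(a / b) := by linear_combination h2
          rw [this]
          exact neg_mem (div_mem ha hb)
      have hne2 : a + b * w ≠ 0 := by
        intro h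
        apply hne
        linear_combination (a - b * w) * h
      have hmem : a ^ 2 - b ^ 2 * w ^ 2 ∈ K :=
        sub_mem (pow_mem ha 2) (mul_mem (pow_mem hb 2) hu)
      refine ⟨a / (a ^ 2 - b ^ 2 * w ^ 2), div_mem ha hmem, -b / (a ^ 2 - b ^ 2 * w ^ 2),
        div_mem (neg_mem hb) hmem, ?_⟩
      field_simp
      ring

theorem mem_ext (K : IntermediateField ℚ ℂ) (w : ℂ) (hw : w ∉ K) (hu : w ^ 2 ∈ K) (z : ℂ) :
    z ∈ ext K w hw hu ↔ ∃ a ∈ K, ∃ b ∈ K, z = a + b * w := Iff.rfl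

theorem le_ext (K : IntermediateField ℚ ℂ) (w : ℂ) (hw : w ∉ K) (hu : w ^ 2 ∈ K) :
    K ≤ ext K w hw hu := fun a ha => ⟨a, ha, 0, K.zero_mem, by simp⟩

theorem w_mem_ext (K : IntermediateField ℚ ℂ) (w : ℂ) (hw : w ∉ K) (hu : w ^ 2 ∈ K) :
    w ∈ ext K w hw hu := ⟨0, K.zero_mem, 1, K.one_mem, by simp⟩

theorem im_zero_of_sq {z : ℂ} (h1 : (z ^ 2).im = 0) (h2 : 0 ≤ (z ^ 2).re) : z.im = 0 := by
  simp only [sq, Complex.mul_im, Complex.mul_re] at h1 h2
  have h3 : z.re * z.im = 0 := by linarith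
  rcases mul_eq_zero.1 h3 with h | h
  · rw [h] at h2
    nlinarith
  · exact h

theorem sq_re_nonneg {z : ℂ} (h : z.im = 0) : 0 ≤ (z ^ 2).re := by
  simp only [sq, Complex.mul_re, h]
  nlinarith [mul_self_nonneg z.re]

theorem sq_im {z : ℂ} (h : z.im = 0) : (z ^ 2).im = 0 := by
  simp [sq, Complex.mul_im, h]

theorem TR_ext (K : IntermediateField ℚ ℂ) (hK : TR K) (w : ℂ) (hw : w ∉ K) (hu : w ^ 2 ∈ K)
    (hpos : ∀ φ : K →+* ℂ, 0 ≤ (φ ⟨w ^ 2, hu⟩).re) : TR (ext K w hw hu) := by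
  intro φ x
  obtain ⟨z, hz⟩ := x
  obtain ⟨a, ha, b, hb, rfl⟩ := (mem_ext K w hw hu z).1 hz
  let ψ : K →+* ℂ := φ.comp (IntermediateField.inclusion (le_ext K w hw hu)).toRingHom
  have hψ : ∀ (c : ℂ) (hc : c ∈ K), ψ ⟨c, hc⟩ = φ ⟨c, le_ext K w hw hu hc⟩ := fun c hc => rfl
  have e : φ ⟨a + b * w, hz⟩ = φ ⟨a, le_ext K w hw hu ha⟩ +
      φ ⟨b, le_ext K w hw hu hb⟩ * φ ⟨w, w_mem_ext K w hw hu⟩ := by
    rw [← map_mul, ← map_add]
    rfl
  have hwr : (φ ⟨w, w_mem_ext K w hw hu⟩).im = 0 := by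
    have h1 : φ ⟨w, w_mem_ext K w hw hu⟩ ^ 2 = ψ ⟨w ^ 2, hu⟩ := by
      rw [hψ, ← map_pow]
      rfl
    apply im_zero_of_sq
    · rw [h1]; exact hK ψ _
    · rw [h1]; exact hpos ψ
  have ha' : (φ ⟨a, le_ext K w hw hu ha⟩).im = 0 := by rw [← hψ a ha]; exact hK ψ _
  have hb' : (φ ⟨b, le_ext K w hw hu hb⟩).im = 0 := by rw [← hψ b hb]; exact hK ψ _
  rw [e, Complex.add_im, Complex.mul_im, ha', hb', hwr]
  simp

theorem TR_bot : TR ⊥ := by
  intro φ x
  obtain ⟨z, hz⟩ := x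
  obtain ⟨q, hq⟩ := IntermediateField.mem_bot.1 hz
  have : φ ⟨z, hz⟩ = algebraMap ℚ ℂ q := by
    have h1 : (⟨z, hz⟩ : (⊥ : IntermediateField ℚ ℂ)) = (q : (⊥ : IntermediateField ℚ ℂ)) := by
      apply Subtype.ext
      show z = ((q : (⊥ : IntermediateField ℚ ℂ)) : ℂ)
      rw [← hq]
      simp
    rw [h1, map_ratCast]
    simp
  rw [this]
  simp

/-- Zorn's lemma for totally real algebraic fields whose elements have a given property -/
theorem exists_max (Q : ℂ → Prop) (hQ : ∀ q : ℚ, Q q) : ∃ K : IntermediateField ℚ ℂ,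
    (TR K ∧ (∀ x ∈ K, IsAlgebraic ℚ x) ∧ ∀ x ∈ K, Q x) ∧
    ∀ K' : IntermediateField ℚ ℂ, K ≤ K' → TR K' → (∀ x ∈ K', IsAlgebraic ℚ x) →
      (∀ x ∈ K', Q x) → K' = K := by
  obtain ⟨K, -, hK⟩ := zorn_le_nonempty₀ {K : IntermediateField ℚ ℂ | TR K ∧
    (∀ x ∈ K, IsAlgebraic ℚ x) ∧ ∀ x ∈ K, Q x} (by
      intro c hc hchain K₀ hK₀
      have : Nonempty c := ⟨⟨K₀, hK₀⟩⟩
      have hdir : Directed (fun x1 x2 => x1 ≤ x2) (fun i : c => (i : IntermediateField ℚ ℂ)) := by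
        intro i j
        rcases hchain.total i.2 j.2 with h | h
        · exact ⟨j, h, le_rfl⟩
        · exact ⟨i, le_rfl, h⟩
      have hmem : ∀ x, x ∈ (⨆ i : c, (i : IntermediateField ℚ ℂ)) ↔ ∃ i : c, x ∈ (i : IntermediateField ℚ ℂ) := by
        intro x
        have := IntermediateField.coe_iSup_of_directed hdir
        rw [← SetLike.mem_coe, this, Set.mem_iUnion]
        rfl
      refine ⟨⨆ i : c, (i : IntermediateField ℚ ℂ), ⟨?_, ?_, ?_⟩, fun z hz => ?_⟩
      · intro φ x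
        obtain ⟨x, hx⟩ := x
        obtain ⟨i, hi⟩ := (hmem x).1 hx
        have hle : (i : IntermediateField ℚ ℂ) ≤ ⨆ i : c, (i : IntermediateField ℚ ℂ) :=
          le_iSup (fun i : c => (i : IntermediateField ℚ ℂ)) i
        exact (hc i.2).1 (φ.comp (IntermediateField.inclusion hle).toRingHom) ⟨x, hi⟩
      · intro x hx
        obtain ⟨i, hi⟩ := (hmem x).1 hx
        exact (hc i.2).2.1 x hi
      · intro x hx
        obtain ⟨i, hi⟩ := (hmem x).1 hx
        exact (hc i.2).2.2 x hi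
      · exact le_iSup (fun i : c => (i : IntermediateField ℚ ℂ)) ⟨z, hz⟩) ⊥ (by
      refine ⟨TR_bot, ?_, ?_⟩
      · intro x hx
        obtain ⟨q, hq⟩ := IntermediateField.mem_bot.1 hx
        rw [← hq]
        exact isAlgebraic_algebraMap q
      · intro x hx
        obtain ⟨q, hq⟩ := IntermediateField.mem_bot.1 hx
        rw [← hq]
        exact hQ q)
  refine ⟨K, hK.prop, fun K' h1 h2 h3 h4 => ?_⟩
  exact le_antisymm (hK.le_of_ge ⟨h2, h3, h4⟩ h1) h1

/-- adjoin a square root to a maximal field -/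
theorem alg_ext (K : IntermediateField ℚ ℂ) (hK : ∀ x ∈ K, IsAlgebraic ℚ x) (w : ℂ) (hw : w ∉ K)
    (hu : w ^ 2 ∈ K) : ∀ x ∈ ext K w hw hu, IsAlgebraic ℚ x := by
  rintro _ ⟨a, ha, b, hb, rfl⟩
  have hwa : IsAlgebraic ℚ w := by
    have := hK _ hu
    rw [isAlgebraic_iff_isIntegral] at this ⊢
    exact IsIntegral.of_pow two_pos this
  exact (hK a ha).add ((hK b hb).mul hwa)

/-! ### the tower of cosines -/

/-- `2 cos (π / 2 ^ (i + 1))` -/
noncomputable def xx : ℕ → ℝ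
  | 0 => 0
  | n + 1 => Real.sqrt (2 + xx n)

theorem xx_nonneg (n : ℕ) : 0 ≤ xx n := by
  cases n with
  | zero => exact le_rfl
  | succ n => exact Real.sqrt_nonneg _

theorem xx_sq (n : ℕ) : xx (n + 1) ^ 2 = 2 + xx n := by
  rw [xx, Real.sq_sqrt]
  have := xx_nonneg n
  linarith

theorem xx_inj : Function.Injective xx := by
  intro i
  induction i with
  | zero =>
    intro j h
    cases j with
    | zero => rfl
    | succ j =>
      exfalso
      have h1 := xx_sq j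
      rw [← h] at h1
      have h2 := xx_nonneg j
      have h3 : xx 0 = 0 := rfl
      rw [h3] at h1
      norm_num at h1
      linarith
  | succ i ih =>
    intro j h
    cases j with
    | zero =>
      exfalso
      have h1 := xx_sq i
      rw [h] at h1
      have h2 := xx_nonneg i
      have h3 : xx 0 = 0 := rfl
      rw [h3] at h1
      norm_num at h1
      linarith
    | succ j =>
      have h1 := xx_sq i
      rw [h, xx_sq j] at h1
      have : xx i = xx j := by linarith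
      rw [ih this]

theorem xx_int (n : ℕ) : IsIntegral ℤ ((xx n : ℝ) : ℂ) := by
  induction n with
  | zero => simp [xx, isIntegral_zero]
  | succ n ih =>
    apply IsIntegral.of_pow (n := 2) two_pos
    have : ((xx (n + 1) : ℝ) : ℂ) ^ 2 = 2 + ((xx n : ℝ) : ℂ) := by
      exact_mod_cast xx_sq n
    rw [this]
    have h2 : IsIntegral ℤ (2 : ℂ) := by
      have := isIntegral_algebraMap (R := ℤ) (A := ℂ) (x := 2)
      rwa [map_ofNat] at this
    exact h2.add ih

/-- conjugates of the elements of the tower -/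
theorem xx_conj (K : IntermediateField ℚ ℂ) (hK : TR K) (n : ℕ) :
    ∀ (hm : ((xx n : ℝ) : ℂ) ∈ K) (φ : K →+* ℂ), -2 < (φ ⟨_, hm⟩).re ∧ (φ ⟨_, hm⟩).re < 2 := by
  induction n with
  | zero =>
    intro hm φ
    have : φ ⟨_, hm⟩ = 0 := by
      have h0 : (⟨((xx 0 : ℝ) : ℂ), hm⟩ : K) = 0 := by
        apply Subtype.ext
        simp [xx]
      rw [h0, map_zero]
    rw [this]
    norm_num
  | succ n ih =>
    intro hm φ
    have hm' : ((xx n : ℝ) : ℂ) ∈ K := by
      have : ((xx n : ℝ) : ℂ) = ((xx (n + 1) : ℝ) : ℂ) ^ 2 - 2 := by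
        have h := xx_sq n
        have h' : ((xx (n + 1) : ℝ) : ℂ) ^ 2 = 2 + ((xx n : ℝ) : ℂ) := by exact_mod_cast h
        rw [h']; ring
      rw [this]
      have h2 : (2 : ℂ) ∈ K := by
        have := K.algebraMap_mem 2
        simpa using this
      exact sub_mem (pow_mem hm 2) h2
    obtain ⟨h1, h2⟩ := ih hm' φ
    have h3 : φ ⟨_, hm⟩ ^ 2 = 2 + φ ⟨_, hm'⟩ := by
      rw [← map_pow]
      have : (⟨((xx (n + 1) : ℝ) : ℂ), hm⟩ : K) ^ 2 = 2 + ⟨((xx n : ℝ) : ℂ), hm'⟩ := by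
        apply Subtype.ext
        have h := xx_sq n
        show ((xx (n + 1) : ℝ) : ℂ) ^ 2 = 2 + ((xx n : ℝ) : ℂ)
        exact_mod_cast h
      rw [this, map_add, map_ofNat]
    have h4 := congrArg Complex.re h3
    have h5 := hK φ ⟨_, hm⟩
    rw [sq, Complex.mul_re, h5] at h4
    simp only [Complex.add_re, Complex.re_ofNat] at h4
    constructor <;> nlinarith

/-- fields containing the tower of cosines are infinite over `ℚ` -/
theorem not_fin (K : IntermediateField ℚ ℂ) (hK : TR K) (hm : ∀ n, ((xx n : ℝ) : ℂ) ∈ K) :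
    ¬ FiniteDimensional ℚ K := by
  intro hfin
  have hfin' : @FiniteDimensional ℚ K _ _ (DivisionRing.toRatAlgebra.toModule) := by
    convert hfin
  have : NumberField K := @NumberField.mk K _ inferInstance hfin'
  have h := NumberField.Embeddings.finite_of_norm_le K ℂ 2
  have h2 : Set.range (fun n => (⟨_, hm n⟩ : K)) ⊆
      {x : K | IsIntegral ℤ x ∧ ∀ φ : K →+* ℂ, ‖φ x‖ ≤ 2} := by
    rintro _ ⟨n, rfl⟩
    refine ⟨?_, fun φ => ?_⟩
    · have := xx_int n
      exact (isIntegral_algHom_iff (K.val.restrictScalars ℤ) Subtype.val_injective).1 this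
    · obtain ⟨h1, h2⟩ := xx_conj K hK n (hm n) φ
      have h3 := hK φ ⟨_, hm n⟩
      have h4 : φ ⟨_, hm n⟩ = ((φ ⟨_, hm n⟩).re : ℂ) := by
        apply Complex.ext
        · simp
        · simpa using h3
      rw [h4, Complex.norm_real, Real.norm_eq_abs, abs_le]
      constructor <;> linarith
  have h3 := h.subset h2
  refine Set.infinite_range_of_injective ?_ h3
  intro i j hij
  have h4 : ((xx i : ℝ) : ℂ) = ((xx j : ℝ) : ℂ) := congrArg Subtype.val hij
  exact xx_inj (by exact_mod_cast h4)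

theorem exists_sqrt (z : ℂ) : ∃ w : ℂ, w ^ 2 = z := by
  obtain ⟨w, hw⟩ := IsAlgClosed.exists_pow_nat_eq z (n := 2) two_pos
  exact ⟨w, hw⟩

/-- from a field inside `ℂ` to the target -/
theorem target_of (n : ℕ) (K : IntermediateField ℚ ℂ) (hK : TR K)
    (halg : ∀ x ∈ K, IsAlgebraic ℚ x) (hx : ∀ n, ((xx n : ℝ) : ℂ) ∈ K)
    (h1 : ∀ (m : ℕ) (g : Fin m → ℂ), (∀ i, g i ∈ K) → (∀ i, IsIntegral ℤ (g i)) →
      ∃ f : Fin n → ℂ, (∀ i, f i ∈ K) ∧ (∀ i, IsIntegral ℤ (f i)) ∧ ∑ i, g i ^ 2 = ∑ i, f i ^ 2)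
    (h2 : ∃ (m : ℕ) (g : Fin m → ℂ), (∀ i, g i ∈ K) ∧ (∀ i, IsIntegral ℤ (g i)) ∧
      ∀ f : Fin (n - 1) → ℂ, (∀ i, f i ∈ K) → (∀ i, IsIntegral ℤ (f i)) →
        ∑ i, g i ^ 2 ≠ ∑ i, f i ^ 2) : Target n := by
  have hint : ∀ x : K, IsIntegral ℤ x ↔ IsIntegral ℤ (x : ℂ) := by
    intro x
    exact (isIntegral_algHom_iff (K.val.restrictScalars ℤ) Subtype.val_injective).symm
  refine ⟨K, inferInstance, inferInstance, ?_, ?_, hK, ?_, ?_⟩
  · have : @Algebra.IsAlgebraic ℚ K _ _ (IntermediateField.algebra' K) := by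
      constructor
      intro x
      rw [← isAlgebraic_algebraMap_iff (A := ℂ) (algebraMap K ℂ).injective]
      exact halg x x.2
    convert this
    exact Subsingleton.elim _ _
  · have := not_fin K hK hx
    intro hfin
    apply this
    convert hfin
  · rintro x ⟨m, g, hg, rfl⟩
    obtain ⟨f, hf1, hf2, hf3⟩ := h1 m (fun i => (g i : ℂ)) (fun i => (g i).2)
      (fun i => (hint _).1 (hg i))
    refine ⟨fun i => ⟨f i, hf1 i⟩, fun i => (hint _).2 (hf2 i), ?_⟩
    apply Subtype.ext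
    push_cast
    exact hf3
  · obtain ⟨m, g, hg1, hg2, hg3⟩ := h2
    refine ⟨∑ i, (⟨g i, hg1 i⟩ : K) ^ 2, ⟨m, fun i => ⟨g i, hg1 i⟩, fun i => (hint _).2 (hg2 i), rfl⟩, ?_⟩
    intro f hf h
    apply hg3 (fun i => (f i : ℂ)) (fun i => (f i).2) (fun i => (hint _).1 (hf i))
    have := congrArg (fun z : K => (z : ℂ)) h
    simpa using this

/-- a sum of squares of elements of a totally real field is totally nonnegative -/
theorem sum_sq_nonneg (K : IntermediateField ℚ ℂ) (hK : TR K) {m : ℕ} (g : Fin m → K)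
    (φ : K →+* ℂ) : 0 ≤ (φ (∑ i, g i ^ 2)).re := by
  rw [map_sum, Complex.re_sum]
  refine Finset.sum_nonneg fun i _ => ?_
  rw [map_pow]
  exact sq_re_nonneg (hK φ _)

theorem stmG1 : Target 1 := by
  obtain ⟨K, ⟨hK, halg, -⟩, hmax⟩ := exists_max (fun _ => True) (fun _ => trivial)
  have key : ∀ (w : ℂ) (hu : w ^ 2 ∈ K), (∀ φ : K →+* ℂ, 0 ≤ (φ ⟨w ^ 2, hu⟩).re) → w ∈ K := by
    intro w hu hpos
    by_contra hw
    have h1 := hmax (ext K w hw hu) (le_ext K w hw hu) (TR_ext K hK w hw hu hpos)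
      (alg_ext K halg w hw hu) (fun _ _ => trivial)
    apply hw
    rw [← h1]
    exact w_mem_ext K w hw hu
  have hxx : ∀ n, ((xx n : ℝ) : ℂ) ∈ K := by
    intro n
    induction n with
    | zero => simp [xx]
    | succ n ih =>
      have h2 : (2 : ℂ) ∈ K := by
        have := K.algebraMap_mem 2
        rwa [map_ofNat] at this
      have h3 : ((xx (n + 1) : ℝ) : ℂ) ^ 2 = 2 + ((xx n : ℝ) : ℂ) := by exact_mod_cast xx_sq n
      have hu : ((xx (n + 1) : ℝ) : ℂ) ^ 2 ∈ K := by rw [h3]; exact add_mem h2 ih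
      apply key _ hu
      intro φ
      have h4 : (⟨((xx (n + 1) : ℝ) : ℂ) ^ 2, hu⟩ : K) = 2 + ⟨((xx n : ℝ) : ℂ), ih⟩ := by
        apply Subtype.ext
        exact h3
      rw [h4, map_add, map_ofNat, Complex.add_re, Complex.re_ofNat]
      have := (xx_conj K hK n ih φ).1
      linarith
  apply target_of 1 K hK halg hxx
  · intro m g hg hgi
    obtain ⟨w, hw⟩ := exists_sqrt (∑ i, g i ^ 2)
    have hu : w ^ 2 ∈ K := by rw [hw]; exact sum_mem fun i _ => pow_mem (hg i) 2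
    have hwK : w ∈ K := by
      apply key w hu
      intro φ
      have : (⟨w ^ 2, hu⟩ : K) = ∑ i, (⟨g i, hg i⟩ : K) ^ 2 := by
        apply Subtype.ext
        push_cast
        exact hw
      rw [this]
      exact sum_sq_nonneg K hK _ φ
    refine ⟨fun _ => w, fun _ => hwK, fun _ => ?_, ?_⟩
    · apply IsIntegral.of_pow (n := 2) two_pos
      rw [hw]
      exact IsIntegral.sum _ fun i _ => (hgi i).pow 2
    · simp [hw]
  · refine ⟨1, fun _ => 1, fun _ => K.one_mem, fun _ => isIntegral_one, ?_⟩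
    intro f _ _
    simp

end Pool.Agent.TH511.J211
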