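import Pool.Agent.TH511.J211

set_option autoImplicit false
open Polynomial NumberField

namespace Pool.Agent.TH511.J212
open Pool.Agent.TH843.PY Pool.Agent.TH511.J211

/-- a valuation ring of `ℂ` whose maximal ideal contains `5` -/
theorem exists_V : ∃ V : ValuationSubring ℂ, V.valuation (5 : ℂ) < 1 := by
  let A : Subring ℂ := (Int.castRingHom ℂ).range
  let I : Ideal A := Ideal.span {(5 : A)}
  have hI : I ≠ ⊤ := by
    intro h
    rw [Ideal.eq_top_iff_one, Ideal.mem_span_singleton] at h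
    obtain ⟨⟨c, ⟨n, hn⟩⟩, hc⟩ := h
    have h1 : (1 : ℂ) = 5 * c := congrArg (fun z : A => (z : ℂ)) hc
    rw [← hn] at h1
    have h2 : (1 : ℤ) = 5 * n := by
      have : ((1 : ℤ) : ℂ) = ((5 * n : ℤ) : ℂ) := by
        push_cast
        simpa using h1
      exact_mod_cast this
    omega
  obtain ⟨B, hB1, hB2⟩ := Ideal.image_subset_nonunits_valuationSubring I hI
  refine ⟨B, ?_⟩
  rw [← ValuationSubring.mem_nonunits_iff]
  apply hB2
  exact ⟨(5 : A), Ideal.mem_span_singleton_self _, rfl⟩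

section
variable (V : ValuationSubring ℂ)

theorem int_le {z : ℂ} (hz : IsIntegral ℤ z) : V.valuation z ≤ 1 := by
  rw [ValuationSubring.valuation_le_one_iff]
  have h1 : IsIntegral V z := hz.tower_top
  obtain ⟨y, hy⟩ := IsIntegrallyClosed.isIntegral_iff.1 h1
  rw [← hy]
  exact y.2

theorem isInt_int (n : ℤ) : IsIntegral ℤ (n : ℂ) := by
  have := isIntegral_algebraMap (R := ℤ) (A := ℂ) (x := n)
  simpa using this

variable (h5 : V.valuation (5 : ℂ) < 1)
include h5

theorem v23 : V.valuation (2 : ℂ) = 1 ∧ V.valuation (3 : ℂ) = 1 := by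
  have h2 : V.valuation (2 : ℂ) ≤ 1 := by exact_mod_cast int_le V (isInt_int 2)
  have h3 : V.valuation (3 : ℂ) ≤ 1 := by exact_mod_cast int_le V (isInt_int 3)
  have h6 : V.valuation (2 : ℂ) * V.valuation (3 : ℂ) = 1 := by
    rw [← map_mul]
    have : (2 : ℂ) * 3 = 1 + 5 := by norm_num
    rw [this, Valuation.map_add_eq_of_lt_left, map_one]
    rw [map_one]
    exact h5
  constructor
  · apply le_antisymm h2
    calc (1 : V.ValueGroup) = _ := h6.symm
      _ ≤ V.valuation (2 : ℂ) * 1 := mul_le_mul_right h3 _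
      _ = _ := mul_one _
  · apply le_antisymm h3
    calc (1 : V.ValueGroup) = _ := h6.symm
      _ ≤ 1 * V.valuation (3 : ℂ) := mul_le_mul_left h2 _
      _ = _ := one_mul _

/-- integers prime to `5` are units -/
theorem v_coprime {n : ℕ} (hn : ¬ 5 ∣ n) : V.valuation (n : ℂ) = 1 := by
  have hle : V.valuation (n : ℂ) ≤ 1 := by exact_mod_cast int_le V (isInt_int n)
  apply le_antisymm hle
  by_contra hlt
  push Not at hlt
  have hc : IsCoprime (n : ℤ) 5 := by
    rw [Int.isCoprime_iff_gcd_eq_one]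
    have := (Nat.Prime.coprime_iff_not_dvd Nat.prime_five).2 hn
    have h2 : Nat.gcd n 5 = 1 := Nat.Coprime.symm this
    exact_mod_cast h2
  obtain ⟨a, b, hab⟩ := hc
  have h1 : (a : ℂ) * n + b * 5 = 1 := by exact_mod_cast hab
  have h2 : V.valuation (1 : ℂ) < 1 := by
    rw [← h1]
    apply Valuation.map_add_lt
    · rw [map_mul]
      calc _ ≤ 1 * V.valuation (n : ℂ) := mul_le_mul_left (int_le V (isInt_int a)) _
        _ = V.valuation (n : ℂ) := one_mul _
        _ < 1 := hlt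
    · rw [map_mul]
      calc _ ≤ 1 * V.valuation (5 : ℂ) := mul_le_mul_left (int_le V (isInt_int b)) _
        _ = V.valuation (5 : ℂ) := one_mul _
        _ < 1 := h5
  rw [map_one] at h2
  exact lt_irrefl _ h2

/-- `v 5` is not the square of the value of a rational number -/
theorem v5_ne {q : ℚ} : V.valuation (q : ℂ) ^ 2 ≠ V.valuation (5 : ℂ) := by
  intro h
  have h50 : V.valuation (5 : ℂ) ≠ 0 := by
    rw [Valuation.ne_zero_iff]; norm_num
  have hq : q ≠ 0 := by
    rintro rfl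
    simp at h
    exact h50 h.symm
  have hnum : q.num.natAbs ≠ 0 := by
    simpa using hq
  have hden : q.den ≠ 0 := q.den_ne_zero
  have key : ∀ n : ℕ, n ≠ 0 → ∃ k : ℕ, V.valuation (n : ℂ) = V.valuation (5 : ℂ) ^ k := by
    intro n hn
    obtain ⟨k, m, hm, hk⟩ := Nat.exists_eq_pow_mul_and_not_dvd hn 5 (by norm_num)
    refine ⟨k, ?_⟩
    rw [hk]
    push_cast
    rw [map_mul, map_pow, v_coprime V h5 hm, mul_one]
  obtain ⟨i, hi⟩ := key _ hnum
  obtain ⟨j, hj⟩ := key _ hden
  have hqv : V.valuation (q : ℂ) * V.valuation (q.den : ℂ) = V.valuation (q.num.natAbs : ℂ) := by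
    rw [← map_mul]
    have e1 : (q : ℂ) * q.den = (q.num : ℂ) := by
      exact_mod_cast congrArg (fun z : ℚ => (z : ℂ)) (Rat.mul_den_eq_num q)
    rw [e1]
    have e2 : ((q.num.natAbs : ℕ) : ℂ) = ((|q.num| : ℤ) : ℂ) := by
      rw [Nat.cast_natAbs]
    rw [e2]
    rcases abs_choice q.num with h | h
    · rw [h]
    · rw [h]; push_cast; rw [Valuation.map_neg]
  rw [hi, hj] at hqv
  have h1 : V.valuation (5 : ℂ) ^ (2 * i) = V.valuation (5 : ℂ) ^ (2 * j + 1) := by
    calc V.valuation (5 : ℂ) ^ (2 * i) = (V.valuation (5 : ℂ) ^ i) ^ 2 := by rw [mul_comm, pow_mul]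
      _ = V.valuation (q : ℂ) ^ 2 * (V.valuation (5 : ℂ) ^ j) ^ 2 := by rw [← hqv, mul_pow]
      _ = V.valuation (5 : ℂ) ^ (2 * j + 1) := by
        rw [h, ← pow_mul, mul_comm j 2, pow_succ, mul_comm]
  have hinj : ∀ a b : ℕ, a < b → V.valuation (5 : ℂ) ^ b < V.valuation (5 : ℂ) ^ a := by
    intro a b hab
    exact pow_lt_pow_right_of_lt_one₀ (zero_lt_iff.2 h50) h5 hab
  rcases lt_trichotomy (2 * i) (2 * j + 1) with h2 | h2 | h2
  · exact absurd h1 (hinj _ _ h2).ne'
  · omega
  · exact absurd h1 (hinj _ _ h2).ne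

theorem v_tower (n : ℕ) : V.valuation (2 + ((xx n : ℝ) : ℂ)) = 1 ∧
    V.valuation (2 - ((xx n : ℝ) : ℂ)) = 1 := by
  have h2i : IsIntegral ℤ (2 : ℂ) := by exact_mod_cast isInt_int 2
  induction n with
  | zero =>
    have h0 : ((xx 0 : ℝ) : ℂ) = 0 := by simp [xx]
    rw [h0, add_zero, sub_zero]
    exact ⟨(v23 V h5).1, (v23 V h5).1⟩
  | succ n ih =>
    have h3 : ((xx (n + 1) : ℝ) : ℂ) ^ 2 = 2 + ((xx n : ℝ) : ℂ) := by exact_mod_cast xx_sq n
    have h4 : (2 + ((xx (n + 1) : ℝ) : ℂ)) * (2 - ((xx (n + 1) : ℝ) : ℂ)) = 2 - ((xx n : ℝ) : ℂ) := by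
      linear_combination -h3
    have h5 := ih.2
    rw [← h4, map_mul] at h5
    have ha := int_le V (h2i.add (xx_int (n + 1)))
    have hb := int_le V (h2i.sub (xx_int (n + 1)))
    constructor
    · apply le_antisymm ha
      calc (1 : V.ValueGroup) = _ := h5.symm
        _ ≤ V.valuation (2 + ((xx (n + 1) : ℝ) : ℂ)) * 1 := mul_le_mul_right hb _
        _ = _ := mul_one _
    · apply le_antisymm hb
      calc (1 : V.ValueGroup) = _ := h5.symm
        _ ≤ 1 * V.valuation (2 - ((xx (n + 1) : ℝ) : ℂ)) := mul_le_mul_left ha _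
        _ = _ := one_mul _

/-- values in the quadratic extension -/
theorem val_ext (K : IntermediateField ℚ ℂ) (hQ : ∀ x ∈ K, ∃ r : ℚ, V.valuation x = V.valuation (r : ℂ))
    (w : ℂ) (hw : w ∉ K) (hu : w ^ 2 ∈ K) (hv : V.valuation w = 1) :
    ∀ x ∈ ext K w hw hu, ∃ r : ℚ, V.valuation x = V.valuation (r : ℂ) := by
  rintro _ ⟨a, ha, b, hb, rfl⟩
  have hbw : V.valuation (b * w) = V.valuation b := by rw [map_mul, hv, mul_one]
  rcases lt_trichotomy (V.valuation a) (V.valuation b) with h | h | h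
  · rw [Valuation.map_add_eq_of_lt_right _ (by rwa [hbw]), hbw]
    exact hQ b hb
  · by_cases he : V.valuation (a + b * w) = V.valuation a
    · rw [he]; exact hQ a ha
    · have hlt : V.valuation (a + b * w) < V.valuation a := by
        apply lt_of_le_of_ne _ he
        have := Valuation.map_add V.valuation a (b * w)
        rwa [hbw, ← h, max_self] at this
      have h2a : V.valuation (2 * a) = V.valuation a := by rw [map_mul, (v23 V h5).1, one_mul]
      have hm : V.valuation (a - b * w) = V.valuation a := by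
        have e : a - b * w = 2 * a + -(a + b * w) := by ring
        rw [e, Valuation.map_add_eq_of_lt_left, h2a]
        rw [Valuation.map_neg, h2a]
        exact hlt
      obtain ⟨r1, h1⟩ := hQ (a ^ 2 - b ^ 2 * w ^ 2)
        (sub_mem (pow_mem ha 2) (mul_mem (pow_mem hb 2) hu))
      obtain ⟨r2, h2⟩ := hQ a ha
      have e : a ^ 2 - b ^ 2 * w ^ 2 = (a + b * w) * (a - b * w) := by ring
      rw [e, map_mul, hm] at h1
      refine ⟨r1 / r2, ?_⟩
      have ha0 : V.valuation a ≠ 0 := (lt_of_le_of_lt zero_le hlt).ne'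
      push_cast
      rw [map_div₀, ← h1, ← h2, mul_div_assoc, div_self ha0, mul_one]
  · rw [Valuation.map_add_eq_of_lt_left _ (by rwa [hbw])]
    exact hQ a ha

omit h5 in
theorem v_sq_one {w : ℂ} (h : V.valuation (w ^ 2) = 1) : V.valuation w = 1 := by
  rw [map_pow, ← one_pow 2] at h
  exact (pow_left_inj₀ zero_le zero_le two_ne_zero).1 h

end

theorem stmG2 : Target 2 := by
  obtain ⟨V, h5⟩ := exists_V
  obtain ⟨K, ⟨hK, halg, hQ⟩, hmax⟩ := exists_max (fun x => ∃ r : ℚ, V.valuation x = V.valuation (r : ℂ))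
    (fun q => ⟨q, rfl⟩)
  have key : ∀ (w : ℂ) (hu : w ^ 2 ∈ K), (∀ φ : K →+* ℂ, 0 ≤ (φ ⟨w ^ 2, hu⟩).re) →
      V.valuation (w ^ 2) = 1 → w ∈ K := by
    intro w hu hpos hv
    by_contra hw
    have h1 := hmax (ext K w hw hu) (le_ext K w hw hu) (TR_ext K hK w hw hu hpos)
      (alg_ext K halg w hw hu) (val_ext V h5 K hQ w hw hu (v_sq_one V hv))
    apply hw
    rw [← h1]
    exact w_mem_ext K w hw hu
  have hxx : ∀ n, ((xx n : ℝ) : ℂ) ∈ K := by
    intro n
    induction n with
    | zero => simp [xx]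
    | succ n ih =>
      have h2 : (2 : ℂ) ∈ K := by
        have := K.algebraMap_mem 2
        rwa [map_ofNat] at this
      have h3 : ((xx (n + 1) : ℝ) : ℂ) ^ 2 = 2 + ((xx n : ℝ) : ℂ) := by exact_mod_cast xx_sq n
      have hu : ((xx (n + 1) : ℝ) : ℂ) ^ 2 ∈ K := by rw [h3]; exact add_mem h2 ih
      apply key _ hu
      · intro φ
        have h4 : (⟨((xx (n + 1) : ℝ) : ℂ) ^ 2, hu⟩ : K) = 2 + ⟨((xx n : ℝ) : ℂ), ih⟩ := by
          apply Subtype.ext
          exact h3
        rw [h4, map_add, map_ofNat, Complex.add_re, Complex.re_ofNat]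
        have := (xx_conj K hK n ih φ).1
        linarith
      · rw [h3]
        exact (v_tower V h5 n).1
  -- sums of two squares which are units at `V`
  have key2 : ∀ p ∈ K, ∀ q ∈ K, V.valuation (p ^ 2 + q ^ 2) = 1 → ∃ w ∈ K, w ^ 2 = p ^ 2 + q ^ 2 := by
    intro p hp q hq hv
    obtain ⟨w, hw⟩ := exists_sqrt (p ^ 2 + q ^ 2)
    have hu : w ^ 2 ∈ K := by rw [hw]; exact add_mem (pow_mem hp 2) (pow_mem hq 2)
    refine ⟨w, key w hu ?_ (by rw [hw]; exact hv), hw⟩
    intro φ
    have : (⟨w ^ 2, hu⟩ : K) = ∑ i, (![(⟨p, hp⟩ : K), ⟨q, hq⟩] i) ^ 2 := by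
      apply Subtype.ext
      rw [Fin.sum_univ_two]
      exact hw
    rw [this]
    exact sum_sq_nonneg K hK _ φ
  -- three squares, the first one with maximal value
  have three' : ∀ a ∈ K, ∀ b ∈ K, ∀ c ∈ K, V.valuation b ≤ V.valuation a →
      V.valuation c ≤ V.valuation a →
      ∃ w ∈ K, w ^ 2 = a ^ 2 + b ^ 2 ∨ w ^ 2 = a ^ 2 + c ^ 2 ∨ w ^ 2 = b ^ 2 + c ^ 2 := by
    intro a ha b hb c hc hba hca
    by_cases ha0 : a = 0
    · subst ha0
      rw [map_zero] at hba
      have hb0 : b = 0 := by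
        have : V.valuation b = 0 := le_antisymm hba zero_le
        exact (Valuation.zero_iff _).1 this
      exact ⟨0, K.zero_mem, Or.inl (by rw [hb0]; ring)⟩
    · have hva : V.valuation a ≠ 0 := (Valuation.ne_zero_iff _).2 ha0
      have hs : V.valuation (b / a) ≤ 1 := by
        rw [map_div₀]
        exact div_le_one_of_le₀ hba zero_le
      have ht : V.valuation (c / a) ≤ 1 := by
        rw [map_div₀]
        exact div_le_one_of_le₀ hca zero_le
      have hsK := div_mem hb ha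
      have htK := div_mem hc ha
      have hle : ∀ z : ℂ, V.valuation z ≤ 1 → V.valuation (1 ^ 2 + z ^ 2) ≤ 1 := by
        intro z hz
        refine (Valuation.map_add _ _ _).trans (max_le (by simp) ?_)
        rw [map_pow]
        exact pow_le_one' hz 2
      by_cases h1 : V.valuation (1 ^ 2 + (b / a) ^ 2) = 1
      · obtain ⟨w, hw, hw2⟩ := key2 1 K.one_mem _ hsK h1
        refine ⟨a * w, mul_mem ha hw, Or.inl ?_⟩
        rw [mul_pow, hw2]
        field_simp
      · by_cases h2 : V.valuation (1 ^ 2 + (c / a) ^ 2) = 1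
        · obtain ⟨w, hw, hw2⟩ := key2 1 K.one_mem _ htK h2
          refine ⟨a * w, mul_mem ha hw, Or.inr (Or.inl ?_)⟩
          rw [mul_pow, hw2]
          field_simp
        · have h1' := lt_of_le_of_ne (hle _ hs) h1
          have h2' := lt_of_le_of_ne (hle _ ht) h2
          have h3 : V.valuation ((b / a) ^ 2 + (c / a) ^ 2) = 1 := by
            have e : (b / a) ^ 2 + (c / a) ^ 2 =
              ((1 ^ 2 + (b / a) ^ 2) + (1 ^ 2 + (c / a) ^ 2)) + (-2) := by ring
            have h2v : V.valuation (-2 : ℂ) = 1 := by rw [Valuation.map_neg]; exact (v23 V h5).1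
            rw [e, Valuation.map_add_eq_of_lt_right, h2v]
            rw [h2v]
            exact Valuation.map_add_lt _ h1' h2'
          obtain ⟨w, hw, hw2⟩ := key2 _ hsK _ htK h3
          refine ⟨a * w, mul_mem ha hw, Or.inr (Or.inr ?_)⟩
          rw [mul_pow, hw2]
          field_simp
  have three : ∀ a ∈ K, ∀ b ∈ K, ∀ c ∈ K, IsIntegral ℤ a → IsIntegral ℤ b → IsIntegral ℤ c →
      ∃ d ∈ K, ∃ e ∈ K, IsIntegral ℤ d ∧ IsIntegral ℤ e ∧ a ^ 2 + b ^ 2 + c ^ 2 = d ^ 2 + e ^ 2 := by
    intro a ha b hb c hc ia ib ic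
    have hor : ∃ w ∈ K, w ^ 2 = a ^ 2 + b ^ 2 ∨ w ^ 2 = a ^ 2 + c ^ 2 ∨ w ^ 2 = b ^ 2 + c ^ 2 := by
      rcases le_total (V.valuation b) (V.valuation a) with h1 | h1
      · rcases le_total (V.valuation c) (V.valuation a) with h2 | h2
        · exact three' a ha b hb c hc h1 h2
        · obtain ⟨w, hw, h | h | h⟩ := three' c hc a ha b hb h2 (h1.trans h2)
          · exact ⟨w, hw, Or.inr (Or.inl (by rw [h]; ring))⟩
          · exact ⟨w, hw, Or.inr (Or.inr (by rw [h]; ring))⟩
          · exact ⟨w, hw, Or.inl (by rw [h])⟩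
      · rcases le_total (V.valuation c) (V.valuation b) with h2 | h2
        · obtain ⟨w, hw, h | h | h⟩ := three' b hb a ha c hc h1 h2
          · exact ⟨w, hw, Or.inl (by rw [h]; ring)⟩
          · exact ⟨w, hw, Or.inr (Or.inr (by rw [h]))⟩
          · exact ⟨w, hw, Or.inr (Or.inl (by rw [h]))⟩
        · obtain ⟨w, hw, h | h | h⟩ := three' c hc a ha b hb (h1.trans h2) h2
          · exact ⟨w, hw, Or.inr (Or.inl (by rw [h]; ring))⟩
          · exact ⟨w, hw, Or.inr (Or.inr (by rw [h]; ring))⟩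
          · exact ⟨w, hw, Or.inl (by rw [h])⟩
    obtain ⟨w, hw, h | h | h⟩ := hor
    · refine ⟨w, hw, c, hc, IsIntegral.of_pow two_pos ?_, ic, by rw [h]⟩
      rw [h]; exact (ia.pow 2).add (ib.pow 2)
    · refine ⟨w, hw, b, hb, IsIntegral.of_pow two_pos ?_, ib, by rw [h]; ring⟩
      rw [h]; exact (ia.pow 2).add (ic.pow 2)
    · refine ⟨w, hw, a, ha, IsIntegral.of_pow two_pos ?_, ia, by rw [h]; ring⟩
      rw [h]; exact (ib.pow 2).add (ic.pow 2)
  apply target_of 2 K hK halg hxx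
  · intro m
    induction m with
    | zero =>
      intro g _ _
      exact ⟨fun _ => 0, fun _ => K.zero_mem, fun _ => isIntegral_zero, by simp⟩
    | succ m ih =>
      intro g hg hgi
      obtain ⟨f, hf1, hf2, hf3⟩ := ih (fun i => g i.castSucc) (fun i => hg _) (fun i => hgi _)
      obtain ⟨d, hd, e, he, id, ie, hde⟩ := three (f 0) (hf1 0) (f 1) (hf1 1) (g (Fin.last m)) (hg _)
        (hf2 0) (hf2 1) (hgi _)
      refine ⟨![d, e], ?_, ?_, ?_⟩
      · intro i
        fin_cases i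
        · exact hd
        · exact he
      · intro i
        fin_cases i
        · exact id
        · exact ie
      · rw [Fin.sum_univ_castSucc, hf3, Fin.sum_univ_two, Fin.sum_univ_two, hde]
        rfl
  · refine ⟨2, ![1, 2], ?_, ?_, ?_⟩
    · intro i
      fin_cases i
      · exact K.one_mem
      · have := K.algebraMap_mem 2
        rwa [map_ofNat] at this
    · intro i
      fin_cases i
      · exact isIntegral_one
      · have := isInt_int 2
        exact_mod_cast this
    · intro f hf1 _ h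
      rw [Fin.sum_univ_two] at h
      have h1 : (5 : ℂ) = f 0 ^ 2 := by
        have h2 : ∑ i, f i ^ 2 = f 0 ^ 2 := by simp
        rw [h2] at h
        rw [← h]
        norm_num
      obtain ⟨r, hr⟩ := hQ _ (hf1 0)
      apply v5_ne V h5 (q := r)
      rw [← hr, ← map_pow, ← h1]

end Pool.Agent.TH511.J212
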