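import Pool.Agent.TH511.AM.Fin
set_option autoImplicit false

/-! Job 908 (MP_e5080e_gt): one marked point, the heart of the sphericity proof. -/
namespace Pool.Agent.TH511.J908
open Pool.Agent.TH547.Arc
open Finset Equiv

/-- the case of one allowed block -/
theorem one_marked {θ : Perm Sy} {μ : PW} {p : Sy} {Dd : Finset Sy} {c N0 : ℕ}
    (hE : Env θ μ {p} Dd) (hθ : ∀ n, mr n ∉ μ.x → θ (mr n) = mr n)
    (hN : ∀ n, N0 ≤ n → mr n ∉ μ.x) (hN1 : ∃ n1 < N0, mr n1 ∉ μ.x)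
    (hpar : (nf θ Dd μ.x + μ.ord.length) % 2 = c % 2)
    (hlift : ∀ (i : ℕ) (z : W.Q (W.nm μ) →₀ ℤ), i + μ.ord.length + 1 < c →
      z ∈ Sys.Ch (S := W) (W.nm μ) (PT θ μ {p} Dd c) i →
      Sys.D (S := W) (W.nm μ) (PT θ μ {p} Dd c) z = 0 →
      ∃ w ∈ Sys.Ch (S := W) (W.nm μ) (R0 θ μ p Dd c N0) i,
        Sys.push (S := W) (W.nm μ) (R0 θ μ p Dd c N0) (clrM N0) w = z ∧
        Sys.D (S := W) (W.nm μ) (R0 θ μ p Dd c N0) w = 0)
    {i : ℕ} (hi : i + μ.ord.length + 1 < c) :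
    Sys.Ex (S := W) (W.nm μ) (PN θ μ {p} Dd c) i :=
  Pool.Agent.TH511.AM.one_marked hE hθ hN hN1 hpar hlift hi

end Pool.Agent.TH511.J908
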