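import Pool.Agent.TH511.FLBC

/-! The value of `Lam` on the nilradical (job 1844). -/

set_option autoImplicit false

universe u v

namespace Pool.Agent.TH511.J1844

open Module TensorProduct Pool.Agent.TH28.FL Pool.Agent.TH511.FL

section hom

variable {K : Type u} {L : Type v} [Field K] [LieRing L] [LieAlgebra K L] [CharZero K]

/-- a homogeneous basis -/
theorem exists_hom_basis {w : L} (ht : ⨆ j : ℤ, dg K w j = ⊤) {d : ℕ} (E : Basis (Fin d) K L) :
    ∃ (b : Basis (Fin d) K L) (deg : Fin d → ℤ), (∀ i, b i ∈ dg K w (deg i)) ∧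
      ∀ i j, i ≤ j → deg j ≤ deg i := by
  classical
  have hfin : FiniteDimensional K L := Module.Finite.of_basis E
  have hI : DirectSum.IsInternal (fun j : ℤ => dg K w j) :=
    DirectSum.isInternal_submodule_of_iSupIndep_of_iSup_eq_top (dg_indep w) ht
  let B := hI.collectedBasis (fun j => Module.finBasis K (dg K w j))
  have hfi : Finite ((j : ℤ) × Fin (finrank K (dg K w j))) := Module.Finite.finite_basis B
  have hft : Fintype ((j : ℤ) × Fin (finrank K (dg K w j))) := Fintype.ofFinite _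
  have hcard : Fintype.card ((j : ℤ) × Fin (finrank K (dg K w j))) = d := by
    rw [← Module.finrank_eq_card_basis B, Module.finrank_eq_card_basis E, Fintype.card_fin]
  let eq := (Fintype.equivFin ((j : ℤ) × Fin (finrank K (dg K w j)))).trans (finCongr hcard)
  let b0 : Basis (Fin d) K L := B.reindex eq
  let deg0 : Fin d → ℤ := fun i => (eq.symm i).1
  have hb0 : ∀ i, b0 i ∈ dg K w (deg0 i) := by
    intro i
    show B.reindex eq i ∈ _
    rw [Basis.reindex_apply]
    exact hI.collectedBasis_mem _ _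
  let σ := Tuple.sort (fun i => - deg0 i)
  have hσ := Tuple.monotone_sort (fun i => - deg0 i)
  refine ⟨b0.reindex σ.symm, fun i => deg0 (σ i), fun i => ?_, fun i j hij => ?_⟩
  · rw [Basis.reindex_apply, Equiv.symm_symm]
    exact hb0 _
  · have := hσ hij
    simp only [Function.comp_apply, neg_le_neg_iff] at this
    exact this

variable {w : L} {d : ℕ} {b : Basis (Fin d) K L} {deg : Fin d → ℤ}

omit [CharZero K] in
theorem repr_lie (hb : ∀ i, b i ∈ dg K w (deg i)) (x : L) (i : Fin d) :
    b.repr ⁅w, x⁆ i = (deg i : K) * b.repr x i := by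
  have h : (Finsupp.lapply i : (Fin d →₀ K) →ₗ[K] K) ∘ₗ (b.repr : L →ₗ[K] (Fin d →₀ K)) ∘ₗ
      (LieAlgebra.ad K L w) = (deg i : K) • ((Finsupp.lapply i : (Fin d →₀ K) →ₗ[K] K) ∘ₗ
        (b.repr : L →ₗ[K] (Fin d →₀ K))) := by
    apply b.ext
    intro j
    show b.repr ⁅w, b j⁆ i = (deg i : K) • b.repr (b j) i
    rw [mem_dg.1 (hb j), map_smul, Finsupp.smul_apply, Basis.repr_self]
    by_cases hij : j = i
    · subst hij; rfl
    · rw [Finsupp.single_eq_of_ne' hij, smul_zero, smul_zero]
  exact LinearMap.congr_fun h x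

theorem repr_dg (hb : ∀ i, b i ∈ dg K w (deg i)) {m : ℤ} {x : L} (hx : x ∈ dg K w m) {i : Fin d}
    (hi : deg i ≠ m) : b.repr x i = 0 := by
  have h1 := repr_lie hb x i
  rw [mem_dg.1 hx, map_smul, Finsupp.smul_apply, smul_eq_mul] at h1
  have h2 : ((deg i - m : ℤ) : K) * b.repr x i = 0 := by
    push_cast
    linear_combination -h1
  rcases mul_eq_zero.1 h2 with h3 | h3
  · exact absurd (by exact_mod_cast h3) (sub_ne_zero.2 hi)
  · exact h3

theorem repr_of_graded (hb : ∀ i, b i ∈ dg K w (deg i)) {p : ℤ → Prop} {x : L}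
    (hx : x ∈ ⨆ j : ℤ, ⨆ _ : p j, dg K w j) {i : Fin d} (hi : ¬ p (deg i)) : b.repr x i = 0 := by
  obtain ⟨t, f, ht, hf, rfl⟩ := exists_sum_of_mem hx
  rw [map_sum, Finsupp.finsetSum_apply]
  refine Finset.sum_eq_zero fun j hj => repr_dg hb (hf j) ?_
  intro h
  exact hi (h ▸ ht j hj)

end hom

section

variable {k : Type u} [Field k] {s : Type v} [LieRing s] [LieAlgebra k s]
  {K : Type u} [Field K] [Algebra k K]

theorem repr_dL {d : ℕ} (e : Basis (Fin d) k s) (δ : Derivation k K K) (x : K ⊗[k] s) (i : Fin d) :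
    (e.baseChange K).repr (dL s δ x) i = δ ((e.baseChange K).repr x i) := by
  induction x using TensorProduct.induction_on with
  | zero => rw [map_zero, map_zero, Finsupp.zero_apply, map_zero]
  | tmul a x => rw [dL_tmul, Basis.baseChange_repr_tmul, Basis.baseChange_repr_tmul, Derivation.map_smul]
  | add x y hx hy => rw [map_add, map_add, Finsupp.add_apply, hx, hy, map_add, Finsupp.add_apply, map_add]

end

theorem lamd : S_LAMD.{u, v} := by
  intro k _ _ s _ _ _ _ d e K _ _ δ w A y ht hA hy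
  have hc : CharZero K := charZero_of_injective_algebraMap (algebraMap k K).injective
  set E := e.baseChange K with hE
  obtain ⟨b, deg, hb, hdeg⟩ := exists_hom_basis ht E
  have hPQ : E.toMatrix b * b.toMatrix E = 1 := Basis.toMatrix_mul_toMatrix_flip E b
  have hQP : b.toMatrix E * E.toMatrix b = 1 := Basis.toMatrix_mul_toMatrix_flip b E
  have hQXP : ∀ f : (K ⊗[k] s) →ₗ[K] (K ⊗[k] s), b.toMatrix E * LinearMap.toMatrix E E f * E.toMatrix b =
      LinearMap.toMatrix b b f := fun f => basis_toMatrix_mul_linearMap_toMatrix_mul_basis_toMatrix b E b E f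
  -- `ad y` raises the degrees
  have hyb : ∀ i j, deg i ≤ deg j →
      LinearMap.toMatrix b b (LieAlgebra.ad K (K ⊗[k] s) y) i j = 0 := by
    intro i j hij
    rw [LinearMap.toMatrix_apply, LieAlgebra.ad_apply]
    have h1 : b j ∈ ⨆ m : ℤ, ⨆ _ : m = deg j, dg K w m := by
      have hle : dg K w (deg j) ≤ ⨆ m : ℤ, ⨆ _ : m = deg j, dg K w m := le_iSup₂_of_le (deg j) rfl le_rfl
      exact hle (hb j)
    have h2 := lie_mem_of_graded (p := fun m => 0 < m) (q := fun m => m = deg j) (r := fun m => deg j < m)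
      (fun a c ha hc => by subst hc; omega) hy h1
    exact repr_of_graded hb h2 (not_lt.2 hij)
  refine ⟨E.toMatrix b, b.toMatrix E, ⟨hPQ, hQP, fun i j hij => ?_⟩, ?_⟩
  · rw [hQXP]
    exact hyb i j (hdeg j i hij)
  -- the derivative of `P`
  set X := LinearMap.toMatrix E E (LieAlgebra.ad K (K ⊗[k] s) y) with hX
  set Y := LinearMap.toMatrix E E (LieAlgebra.ad K (K ⊗[k] s) A) with hY
  let F : Matrix (Fin d) (Fin d) K := fun i j => b.repr (dL s δ (b j) - ⁅A, b j⁆) i
  have hF : ∀ i j, deg i ≠ deg j → F i j = 0 := fun i j hij => repr_dg hb (vel_dg hA (hb j)) hij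
  have hP : (E.toMatrix b).map δ = Y * E.toMatrix b + E.toMatrix b * F := by
    ext i j
    have h1 : (Y * E.toMatrix b) i j = E.repr ⁅A, b j⁆ i := by
      have h2 := congrFun (LinearMap.toMatrix_mulVec_repr E E (LieAlgebra.ad K (K ⊗[k] s) A) (b j)) i
      exact h2
    have h3 : (E.toMatrix b * F) i j = E.repr (dL s δ (b j) - ⁅A, b j⁆) i := by
      have h4 := congrFun (Basis.toMatrix_mulVec_repr b E (dL s δ (b j) - ⁅A, b j⁆)) i
      exact h4
    rw [Matrix.map_apply, Matrix.add_apply, h1, h3, map_sub, Finsupp.sub_apply, repr_dL, add_sub_cancel]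
    rfl
  have hkf : killingForm K (K ⊗[k] s) y A = (X * Y).trace := by
    rw [killingForm_apply_apply, LinearMap.trace_eq_matrix_trace K E, LinearMap.toMatrix_comp E E E]
  have hz : (X * (E.toMatrix b * F * b.toMatrix E)).trace = 0 := by
    have h1 : (X * (E.toMatrix b * F * b.toMatrix E)).trace =
        ((b.toMatrix E * X * E.toMatrix b) * F).trace := by
      rw [← Matrix.mul_assoc, Matrix.trace_mul_comm]
      simp only [Matrix.mul_assoc]
    rw [h1, hQXP]
    simp only [Matrix.trace, Matrix.diag_apply, Matrix.mul_apply]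
    refine Finset.sum_eq_zero fun i _ => Finset.sum_eq_zero fun l _ => ?_
    by_cases h2 : deg i ≤ deg l
    · rw [hyb i l h2, zero_mul]
    · rw [hF l i (by omega), mul_zero]
  rw [hP, Matrix.add_mul, Matrix.mul_add, Matrix.trace_add, hz, add_zero, hkf, Matrix.mul_assoc Y, hPQ,
    Matrix.mul_one]

end Pool.Agent.TH511.J1844
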