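import Pool.Agent.TH511.FLBC

/-! The simple root spaces generate (job 1846). -/

set_option autoImplicit false

universe u v

namespace Pool.Agent.TH511.J1846

open Module TensorProduct Pool.Agent.TH28.FL Pool.Agent.TH511.FL

section

variable {k : Type u} [Field k] {s : Type v} [LieRing s] [LieAlgebra k s]
  {K : Type u} [Field K] [Algebra k K]

theorem vel_span {w A : K ⊗[k] s}
    (hA : A ∈ Submodule.span K {A | ∃ δ : Derivation k K K, dL s δ w = ⁅A, w⁆}) :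
    ∃ δ : Derivation k K K, dL s δ w = ⁅A, w⁆ := by
  induction hA using Submodule.span_induction with
  | mem A h => exact h
  | zero =>
    refine ⟨(0 : K) • (0 : Derivation k K K), ?_⟩
    rw [dL_smul_der, zero_smul, zero_lie]
  | add A B _ _ ihA ihB =>
    obtain ⟨δ, hδ⟩ := ihA
    obtain ⟨δ', hδ'⟩ := ihB
    exact ⟨δ + δ', by rw [dL_add_der, hδ, hδ', add_lie]⟩
  | smul c A _ ih =>
    obtain ⟨δ, hδ⟩ := ih
    exact ⟨c • δ, by rw [dL_smul_der, hδ, smul_lie]⟩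

/-- the elements of `TT` -/
theorem mem_TT {r : Submodule k s} {w x : K ⊗[k] s} (hx : x ∈ TT r w) :
    ∃ (δ : Derivation k K K) (A ρ β : K ⊗[k] s), dL s δ w = ⁅A, w⁆ ∧ ρ ∈ rK K r ∧ β ∈ bb K w ∧
      x = A + ρ + β := by
  unfold TT at hx
  obtain ⟨z, hz, β, hβ, rfl⟩ := Submodule.mem_sup.1 hx
  obtain ⟨A, hA, ρ, hρ, rfl⟩ := Submodule.mem_sup.1 hz
  obtain ⟨δ, hδ⟩ := vel_span hA
  exact ⟨δ, A, ρ, β, hδ, hρ, hβ, rfl⟩

theorem vel_TT {r : Submodule k s} {w A : K ⊗[k] s} {δ : Derivation k K K} (h : dL s δ w = ⁅A, w⁆) :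
    A ∈ TT r w :=
  Submodule.mem_sup_left (Submodule.mem_sup_left (Submodule.subset_span ⟨δ, h⟩))

theorem rK_TT {r : Submodule k s} {w x : K ⊗[k] s} (h : x ∈ rK K r) : x ∈ TT r w :=
  Submodule.mem_sup_left (Submodule.mem_sup_right h)

theorem bb_TT {r : Submodule k s} {w x : K ⊗[k] s} (h : x ∈ bb K w) : x ∈ TT r w :=
  Submodule.mem_sup_right h

/-- brackets with elements of `bb` -/
theorem lie_bb_TT {r : Submodule k s} {w x β : K ⊗[k] s} {j c : ℤ}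
    (hT : ∀ i : ℤ, 0 < i → i < j → dg K w (-i) ≤ TT r w) (hc : c < j) (hx : x ∈ dg K w (-c))
    (hβ : β ∈ bb K w) : ⁅x, β⁆ ∈ TT r w := by
  obtain ⟨t, f, ht, hf, rfl⟩ := exists_sum_of_mem hβ
  rw [lie_sum]
  refine Submodule.sum_mem _ fun i hi => ?_
  have h1 := lie_dg hx (hf i)
  have h2 := ht i hi
  by_cases h0 : 0 ≤ -c + i
  · exact bb_TT (le_bb w h0 h1)
  · have h3 := hT (-(-c + i)) (by omega) (by omega)
    rw [neg_neg] at h3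
    exact h3 h1

theorem key (r : LieSubalgebra k s) {w x y : K ⊗[k] s} {j c : ℤ} (hc : 0 < c) (hcj : c < j)
    (hT : ∀ i : ℤ, 0 < i → i < j → dg K w (-i) ≤ TT r.toSubmodule w)
    (hx : x ∈ dg K w (-c)) (hy : y ∈ dg K w (-(j - c))) : ⁅x, y⁆ ∈ TT r.toSubmodule w := by
  obtain ⟨δ₁, A₁, ρ₁, β₁, hA₁, hρ₁, hβ₁, ex⟩ := mem_TT (hT c hc hcj hx)
  obtain ⟨δ₂, A₂, ρ₂, β₂, hA₂, hρ₂, hβ₂, ey⟩ := mem_TT (hT (j - c) (by omega) (by omega) hy)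
  -- the new velocity
  have hA₃ : dL s ⁅δ₁, δ₂⁆ w = ⁅dL s δ₁ A₂ - dL s δ₂ A₁ - ⁅A₁, A₂⁆, w⁆ := by
    rw [dL_bracket, hA₁, hA₂, dL_lie, dL_lie, hA₁, hA₂, sub_lie, sub_lie, lie_lie]
    abel
  -- the new element of `rK`
  have hρ₃ : dL s δ₁ ρ₂ - dL s δ₂ ρ₁ + ⁅ρ₁, ρ₂⁆ ∈ rK K r.toSubmodule :=
    add_mem (sub_mem (dL_rK δ₁ hρ₂) (dL_rK δ₂ hρ₁)) (rK_lie r hρ₁ hρ₂)
  have h1 : dL s δ₁ y - ⁅A₁, y⁆ ∈ TT r.toSubmodule w :=
    hT (j - c) (by omega) (by omega) (vel_dg hA₁ hy)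
  have h2 : dL s δ₂ x - ⁅A₂, x⁆ ∈ TT r.toSubmodule w := hT c hc hcj (vel_dg hA₂ hx)
  have h3 : dL s δ₁ β₂ - ⁅A₁, β₂⁆ ∈ TT r.toSubmodule w := bb_TT (vel_bb hA₁ hβ₂)
  have h4 : dL s δ₂ β₁ - ⁅A₂, β₁⁆ ∈ TT r.toSubmodule w := bb_TT (vel_bb hA₂ hβ₁)
  have h5 : ⁅x, β₂⁆ ∈ TT r.toSubmodule w := lie_bb_TT hT hcj hx hβ₂
  have h6 : ⁅y, β₁⁆ ∈ TT r.toSubmodule w := lie_bb_TT hT (by omega) hy hβ₁
  have h7 : ⁅β₁, β₂⁆ ∈ TT r.toSubmodule w := bb_TT (lie_bb_bb hβ₁ hβ₂)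
  have e : ⁅x, y⁆ = (dL s δ₁ A₂ - dL s δ₂ A₁ - ⁅A₁, A₂⁆) + (dL s δ₁ ρ₂ - dL s δ₂ ρ₁ + ⁅ρ₁, ρ₂⁆)
      - (dL s δ₁ y - ⁅A₁, y⁆) + (dL s δ₂ x - ⁅A₂, x⁆) + (dL s δ₁ β₂ - ⁅A₁, β₂⁆) - (dL s δ₂ β₁ - ⁅A₂, β₁⁆)
      + ⁅x, β₂⁆ - ⁅y, β₁⁆ - ⁅β₁, β₂⁆ := by
    rw [ex, ey]
    simp only [map_add, lie_add, add_lie]
    rw [← lie_skew A₂ A₁, ← lie_skew A₂ ρ₁, ← lie_skew A₂ β₁, ← lie_skew ρ₂ β₁, ← lie_skew β₂ β₁]
    abel
  rw [e]
  exact sub_mem (sub_mem (add_mem (sub_mem (add_mem (add_mem (sub_mem (add_mem (vel_TT hA₃) (rK_TT hρ₃)) h1) h2) h3)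
    h4) h5) h6) h7

end

theorem mc : S_MC.{u, v} := by
  intro k _ _ s _ _ _ _ r K _ _ w M hw hs
  have key2 : ∀ n : ℕ, ∀ j : ℤ, 0 < j → j < n → dg K w (-j) ≤ TT r.toSubmodule w := by
    intro n
    induction n with
    | zero => intro j h0 h1; exact absurd h1 (by push_cast; omega)
    | succ n ih =>
      intro j h0 h1
      by_cases h2 : j < M
      · rw [hw.gap (-j) (by omega) (by rw [abs_neg, abs_of_pos h0]; exact h2)]
        exact bot_le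
      by_cases h3 : j < 2 * M
      · exact hs j (by omega) h3
      intro z hz
      have h4 := hw.gen (-j) (by rw [abs_neg, abs_of_pos h0]; omega) z hz
      refine (Submodule.span_le (p := TT r.toSubmodule w)).2 ?_ h4
      rintro _ ⟨c, hc1, hc2, hc3, x, hx, y, hy, rfl⟩
      have hc0 : c < 0 := by
        by_contra hcon
        push Not at hcon
        nlinarith
      have hy' : y ∈ dg K w (-(j - -c)) := by
        have : -(j - -c) = -j - c := by ring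
        rw [this]
        exact hy
      have hx' : x ∈ dg K w (-(-c)) := by rw [neg_neg]; exact hx
      rw [abs_of_neg hc0] at hc1 hc2
      refine key r (j := j) (c := -c) (by omega) (by omega) ?_ hx' hy'
      intro i hi hij
      exact ih i hi (by push_cast at h1; omega)
  rw [eq_top_iff, ← hw.top]
  refine iSup_le fun j => ?_
  by_cases h : 0 ≤ j
  · exact (le_bb w h).trans (fun x hx => bb_TT hx)
  · have := key2 ((-j).toNat + 1) (-j) (by omega) (by push_cast; omega)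
    rwa [neg_neg] at this

end Pool.Agent.TH511.J1846
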