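import Pool.Agent.TH296.NC.Defs
set_option autoImplicit false
open Filter Topology Finset MeasureTheory
open scoped commutatorElement
namespace Pool.Agent.TH511.J154
open Pool.Agent.TH296.NC

/-- a positive transcendental number -/
theorem exists_x : ∃ x : ℝ, 0 < x ∧ Transcendental ℚ x := by
  have h1 : Transcendental ℤ (liouvilleNumber (2 : ℕ)) := transcendental_liouvilleNumber le_rfl
  have h2 : Transcendental ℚ (liouvilleNumber (2 : ℕ)) := by
    intro h3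
    exact h1 ((IsFractionRing.isAlgebraic_iff ℤ ℚ ℝ).2 h3)
  refine ⟨liouvilleNumber (2 : ℕ), ?_, h2⟩
  have h4 : 0 ≤ liouvilleNumber ((2 : ℕ) : ℝ) := by
    unfold liouvilleNumber
    exact tsum_nonneg fun i => by positivity
  rcases h4.lt_or_eq with h5 | h5
  · exact h5
  · exfalso
    rw [← h5] at h2
    exact h2 isAlgebraic_zero

/-- the transcendental number used -/
noncomputable def x0 : ℝ := exists_x.choose

theorem x0_pos : 0 < x0 := exists_x.choose_spec.1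

theorem x0_tr : Transcendental ℚ x0 := exists_x.choose_spec.2

/-- frequencies from denominators -/
noncomputable def al (M : ℕ → ℕ) (i : ℕ) : ℝ := x0 ^ (i + 1) / (M i + 1)

/-- points of the circle -/
noncomputable def ze (M : ℕ → ℕ) (i : ℕ) : Circle := Circle.exp (2 * Real.pi * al M i)

theorem lam_eq (M : ℕ → ℕ) (d : ℕ) (b : ℕ → ℤ) :
    lam (ze M) d b = Circle.exp (2 * Real.pi * ∑ i ∈ range d, b i * al M i) := by
  unfold lam
  induction d with
  | zero => simp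
  | succ d ih =>
    rw [Finset.prod_range_succ, Finset.sum_range_succ, mul_add, Circle.exp_add, ih]
    congr 1
    unfold ze
    rw [← Circle.exp_zsmul]
    congr 1
    rw [zsmul_eq_mul]
    ring

theorem lam_ne (M : ℕ → ℕ) (d : ℕ) (b : ℕ → ℤ) (hb : ∃ i < d, b i ≠ 0) :
    lam (ze M) d b ≠ 1 := by
  rw [lam_eq]
  intro h
  rw [Circle.exp_eq_one] at h
  obtain ⟨n, hn⟩ := h
  have hpi : (2 * Real.pi) ≠ 0 := by positivity
  have h1 : ∑ i ∈ range d, (b i : ℝ) * al M i = n := by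
    apply mul_left_cancel₀ hpi
    rw [hn]; ring
  obtain ⟨i, hi, hbi⟩ := hb
  let p : Polynomial ℚ := ∑ j ∈ range d, Polynomial.C ((b j : ℚ) / (M j + 1)) * Polynomial.X ^ (j + 1)
    - Polynomial.C (n : ℚ)
  have hp0 : Polynomial.aeval x0 p = 0 := by
    simp only [p, map_sub, map_sum, map_mul, Polynomial.aeval_C, Polynomial.aeval_X, map_pow]
    rw [sub_eq_zero]
    have : (algebraMap ℚ ℝ) (n : ℚ) = (n : ℝ) := by simp
    rw [this, ← h1]
    refine Finset.sum_congr rfl fun j _ => ?_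
    unfold al
    simp
    ring
  have hp : p = 0 := by
    by_contra hne
    exact x0_tr ⟨p, hne, hp0⟩
  have hc : p.coeff (i + 1) = (b i : ℚ) / (M i + 1) := by
    simp only [p, Polynomial.coeff_sub, Polynomial.finsetSum_coeff, Polynomial.coeff_C_mul,
      Polynomial.coeff_X_pow, Polynomial.coeff_C]
    rw [Finset.sum_eq_single i]
    · simp
    · intro j _ hj
      have : ¬ (i + 1 = j + 1) := by omega
      rw [if_neg this, mul_zero]
    · intro hi'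
      exact absurd (Finset.mem_range.2 hi) hi'
  rw [hp, Polynomial.coeff_zero] at hc
  have h2 : ((M i : ℚ) + 1) ≠ 0 := by positivity
  have h3 : (b i : ℚ) = 0 := by
    rcases div_eq_zero_iff.1 hc.symm with h | h
    · exact h
    · exact absurd h h2
  exact hbi (by exact_mod_cast h3)

theorem exists_pos_le {ι : Type*} (S : Finset ι) (f : ι → ℝ) (hf : ∀ i ∈ S, 0 < f i) :
    ∃ σ : ℝ, 0 < σ ∧ ∀ i ∈ S, σ ≤ f i := by
  classical
  induction S using Finset.induction with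
  | empty => exact ⟨1, one_pos, by simp⟩
  | insert a S ha ih =>
    obtain ⟨σ, hσ, h⟩ := ih (fun i hi => hf i (Finset.mem_insert_of_mem hi))
    refine ⟨min σ (f a), lt_min hσ (hf a (Finset.mem_insert_self _ _)), ?_⟩
    intro i hi
    rcases Finset.mem_insert.1 hi with h1 | h1
    · subst h1
      exact min_le_right _ _
    · exact (min_le_left _ _).trans (h i h1)

/-- extension by zero -/
def ext (d : ℕ) (c : Fin d → ℤ) (i : ℕ) : ℤ := if h : i < d then c ⟨i, h⟩ else 0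

theorem exists_sig' (K : ℕ → ℤ) (M : ℕ → ℕ) (d : ℕ) : ∃ σ : ℝ, 0 < σ ∧
    ∀ b : ℕ → ℤ, (∃ i < d, b i ≠ 0) → (∀ i < d, |b i| ≤ K i) →
    σ ≤ ‖((lam (ze M) d b : Circle) : ℂ) - 1‖ := by
  classical
  obtain ⟨S, hS⟩ : ∃ S : Finset (Fin d → ℤ), ∀ c, c ∈ S ↔ ((∀ i : Fin d, |c i| ≤ K i) ∧ ∃ i, c i ≠ 0) := by
    refine ⟨(Fintype.piFinset (fun i : Fin d => Finset.Icc (-(K i)) (K i))).filter
      (fun c => ∃ i, c i ≠ 0), fun c => ?_⟩
    rw [Finset.mem_filter, Fintype.mem_piFinset]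
    simp only [Finset.mem_Icc, abs_le]
  obtain ⟨σ, hσ, h⟩ := exists_pos_le S (fun c => ‖((lam (ze M) d (ext d c) : Circle) : ℂ) - 1‖) (by
    intro c hc
    rw [norm_pos_iff, sub_ne_zero]
    intro h1
    rw [hS] at hc
    obtain ⟨-, i, hi⟩ := hc
    refine lam_ne M d (ext d c) ⟨i, i.2, ?_⟩ ?_
    · simp only [ext, i.2, dif_pos]
      exact hi
    · apply Circle.ext
      rw [h1, Circle.coe_one])
  refine ⟨σ, hσ, fun b hb1 hb2 => ?_⟩
  have h2 : lam (ze M) d (ext d (fun i : Fin d => b i)) = lam (ze M) d b := by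
    unfold lam
    refine Finset.prod_congr rfl fun i hi => ?_
    simp only [ext, Finset.mem_range.1 hi, dif_pos]
  rw [← h2]
  apply h
  rw [hS]
  refine ⟨fun i => hb2 i i.2, ?_⟩
  obtain ⟨i, hi, hbi⟩ := hb1
  exact ⟨⟨i, hi⟩, hbi⟩

theorem exists_sig (R : ℕ → ℕ) (M : ℕ → ℕ) (d : ℕ) : ∃ σ : ℝ, 0 < σ ∧
    ∀ b : ℕ → ℤ, (∃ i < d, b i ≠ 0) → (∀ i < d, |b i| ≤ ((d + 1) ^ 2 * R i : ℕ)) →
    σ ≤ ‖((lam (ze M) d b : Circle) : ℂ) - 1‖ :=
  exists_sig' (fun i => (((d + 1) ^ 2 * R i : ℕ) : ℤ)) M d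

/-- separation -/
noncomputable def sig (R : ℕ → ℕ) (M : ℕ → ℕ) (d : ℕ) : ℝ := (exists_sig R M d).choose

theorem sig_pos (R M : ℕ → ℕ) (d : ℕ) : 0 < sig R M d := (exists_sig R M d).choose_spec.1

theorem sig_sep (R M : ℕ → ℕ) (d : ℕ) (b : ℕ → ℤ) (hb : ∃ i < d, b i ≠ 0)
    (hb2 : ∀ i < d, |b i| ≤ ((d + 1) ^ 2 * R i : ℕ)) :
    sig R M d ≤ ‖((lam (ze M) d b : Circle) : ℂ) - 1‖ :=
  (exists_sig R M d).choose_spec.2 b hb hb2

/-- truncation -/
def tr (M : ℕ → ℕ) (d : ℕ) : ℕ → ℕ := fun i => if i < d then M i else 0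

theorem tr_tr (M : ℕ → ℕ) (d e : ℕ) (h : e ≤ d) : tr (tr M d) e = tr M e := by
  funext i
  unfold tr
  by_cases hi : i < e
  · rw [if_pos hi, if_pos (lt_of_lt_of_le hi h), if_pos hi]
  · rw [if_neg hi, if_neg hi]

theorem lam_tr (M : ℕ → ℕ) (d : ℕ) (b : ℕ → ℤ) : lam (ze (tr M d)) d b = lam (ze M) d b := by
  unfold lam
  refine Finset.prod_congr rfl fun i hi => ?_
  have : ze (tr M d) i = ze M i := by
    unfold ze al tr
    rw [if_pos (Finset.mem_range.1 hi)]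
  rw [this]

/-- left side of the largeness condition -/
noncomputable def LL (R : ℕ → ℕ) (d : ℕ) : ℝ :=
  ((d : ℝ) + 1) ^ 2 * 2 ^ (d + 4) * (∏ i ∈ range d, (2 * (d : ℝ) * R i + 1))

/-- window length -/
noncomputable def NN (R : ℕ → ℕ) (M : ℕ → ℕ) (d : ℕ) : ℕ :=
  ∑ e ∈ range (d + 1), (⌈LL R e / sig R (tr M e) e⌉₊ + 1)

theorem NN_tr (R M : ℕ → ℕ) (d : ℕ) : NN R (tr M d) d = NN R M d := by
  unfold NN
  refine Finset.sum_congr rfl fun e he => ?_
  rw [tr_tr M d e (by have := Finset.mem_range.1 he; omega)]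

theorem exists_m (R : ℕ → ℕ) (s : ℕ → ℝ) (d n : ℕ) : ∃ m : ℕ, 0 < s d →
    2 * Real.pi * (x0 ^ (d + 1) / (m + 1)) * n * (1 + ((d : ℝ) + 1) * R d) ≤ (2 : ℝ)⁻¹ ^ d * s d ∧
    x0 ^ (d + 1) / (m + 1) < 1 / 4 := by
  by_cases hs : 0 < s d
  · obtain ⟨m1, hm1⟩ := exists_nat_ge (2 * Real.pi * x0 ^ (d + 1) * n * (1 + ((d : ℝ) + 1) * R d) /
      ((2 : ℝ)⁻¹ ^ d * s d))
    obtain ⟨m2, hm2⟩ := exists_nat_ge (4 * x0 ^ (d + 1))
    refine ⟨m1 + m2, fun _ => ⟨?_, ?_⟩⟩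
    · rw [div_le_iff₀ (by positivity)] at hm1
      have h1 : 2 * Real.pi * (x0 ^ (d + 1) / (((m1 + m2 : ℕ) : ℝ) + 1)) * n * (1 + ((d : ℝ) + 1) * R d)
          = (2 * Real.pi * x0 ^ (d + 1) * n * (1 + ((d : ℝ) + 1) * R d)) /
            (((m1 + m2 : ℕ) : ℝ) + 1) := by ring
      rw [h1, div_le_iff₀ (by positivity)]
      refine hm1.trans ?_
      have h2 : 0 ≤ (2 : ℝ)⁻¹ ^ d * s d := by positivity
      have h3 : (m1 : ℝ) ≤ ((m1 + m2 : ℕ) : ℝ) + 1 := by push_cast; linarith [Nat.cast_nonneg (α := ℝ) m2]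
      calc (m1 : ℝ) * ((2 : ℝ)⁻¹ ^ d * s d) ≤ (((m1 + m2 : ℕ) : ℝ) + 1) * ((2 : ℝ)⁻¹ ^ d * s d) :=
            mul_le_mul_of_nonneg_right h3 h2
        _ = _ := by ring
    · rw [div_lt_iff₀ (by positivity)]
      push_cast
      linarith [Nat.cast_nonneg (α := ℝ) m1]
  · exact ⟨0, fun h => absurd h hs⟩

/-- next denominator -/
noncomputable def mm (R : ℕ → ℕ) (s : ℕ → ℝ) (d n : ℕ) : ℕ := (exists_m R s d n).choose

theorem mm_spec (R : ℕ → ℕ) (s : ℕ → ℝ) (d n : ℕ) (h : 0 < s d) :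
    2 * Real.pi * (x0 ^ (d + 1) / (mm R s d n + 1)) * n * (1 + ((d : ℝ) + 1) * R d) ≤
      (2 : ℝ)⁻¹ ^ d * s d ∧ x0 ^ (d + 1) / (mm R s d n + 1) < 1 / 4 :=
  (exists_m R s d n).choose_spec h

/-- the denominators -/
noncomputable def MM (R : ℕ → ℕ) (s : ℕ → ℝ) (d : ℕ) : ℕ :=
  mm R s d (NN R (fun i => if _h : i < d then MM R s i else 0) d)
termination_by d
decreasing_by exact _h

theorem MM_eq (R : ℕ → ℕ) (s : ℕ → ℝ) (d : ℕ) : MM R s d = mm R s d (NN R (MM R s) d) := by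
  have h1 : (fun i => if _h : i < d then MM R s i else 0) = tr (MM R s) d := by
    funext i
    unfold tr
    by_cases hi : i < d
    · rw [dif_pos hi, if_pos hi]
    · rw [dif_neg hi, if_neg hi]
  rw [MM, h1, NN_tr]

theorem exists_adm (R : ℕ → ℕ) (s : ℕ → ℝ) (hR : ∀ i, 1 ≤ R i) (hs : ∀ i, 0 < s i)
    (hs1 : ∀ i, s i ≤ 1) (hRs : ∀ i, (2 : ℝ) ^ i ≤ R i * s i ^ 2) :
    ∃ (α : ℕ → ℝ) (N : ℕ → ℕ) (σ : ℕ → ℝ), (∀ i, 0 < α i ∧ α i < 1 / 4) ∧
      Adm R s (fun i => Circle.exp (2 * Real.pi * α i)) N σ := by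
  obtain ⟨M, hM⟩ : ∃ M : ℕ → ℕ, ∀ d, M d = mm R s d (NN R M d) := ⟨MM R s, MM_eq R s⟩
  have hspec := fun d => mm_spec R s d (NN R M d) (hs d)
  simp only [← hM] at hspec
  have hpos : ∀ i, 0 < al M i := by
    intro i
    unfold al
    have := x0_pos
    positivity
  refine ⟨al M, NN R M, fun d => sig R (tr M d) d, fun i => ⟨hpos i, (hspec i).2⟩, hR, hs, hs1, hRs,
    ?_, ?_, ?_, ?_, ?_, ?_⟩
  · intro d
    unfold NN
    rw [Finset.sum_range_succ]
    omega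
  · apply monotone_nat_of_le_succ
    intro d
    unfold NN
    rw [Finset.sum_range_succ _ (d + 1)]
    omega
  · intro d
    exact sig_pos _ _ _
  · intro d b hb hb2
    have := sig_sep R (tr M d) d b hb hb2
    rw [lam_tr] at this
    exact this
  · intro d
    show LL R d ≤ _
    have h1 : LL R d / sig R (tr M d) d ≤ (NN R M d : ℝ) := by
      unfold NN
      rw [Finset.sum_range_succ]
      push_cast
      have h2 : LL R d / sig R (tr M d) d ≤ (⌈LL R d / sig R (tr M d) d⌉₊ : ℝ) := Nat.le_ceil _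
      have h3 : (0 : ℝ) ≤ ∑ x ∈ range d, ((⌈LL R x / sig R (tr M x) x⌉₊ : ℝ) + 1) :=
        Finset.sum_nonneg fun i _ => by positivity
      linarith
    rwa [div_le_iff₀ (sig_pos _ _ _)] at h1
  · intro d
    have h1 : ‖((Circle.exp (2 * Real.pi * al M d) : Circle) : ℂ) - 1‖ ≤ 2 * Real.pi * al M d := by
      rw [Circle.coe_exp, mul_comm _ Complex.I]
      refine Real.norm_exp_I_mul_ofReal_sub_one_le.trans ?_
      rw [Real.norm_of_nonneg]
      have := hpos d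
      positivity
    refine le_trans ?_ (hspec d).1
    have h2 : (0 : ℝ) ≤ NN R M d := Nat.cast_nonneg _
    have h3 : (0 : ℝ) ≤ 1 + ((d : ℝ) + 1) * R d := by positivity
    exact mul_le_mul_of_nonneg_right (mul_le_mul_of_nonneg_right h1 h2) h3

end Pool.Agent.TH511.J154
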