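import Pool.Agent.TH511.BMSupp

/-! The invariant quadratic form. -/

set_option autoImplicit false

namespace Pool.Agent.TH511.BM

open Pool.TH328.BM

section

variable {F : Type*} [AddCommGroup F] [Module ℝ F] {g : Submodule ℝ (Module.End ℝ F)}

theorem exists_form (hg : Hyp g) (e : Module.End ℝ F) (he : Adj g e e) (he0 : e ≠ 0) (hee : e * e = e)
    (hmin : ∀ A A', Adj g A A' → ∃ l : ℝ, 0 ≤ l ∧ e * A' * A * e = l • e ∧ (A * e ≠ 0 → 0 < l))
    (hsup : ∀ A A' : Module.End ℝ F, Adj g A A' → ∃ M0 : Submodule ℝ F, FiniteDimensional ℝ M0 ∧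
      LinearMap.range A ≤ M0 ∧ LinearMap.range A' ≤ M0 ∧
      ∀ M : Submodule ℝ F, FiniteDimensional ℝ M → M0 ≤ M → ∀ β : F →ₗ[ℝ] F →ₗ[ℝ] ℝ, Good g M β →
        ∀ v ∈ M, ∀ w ∈ M, β (A v) w = β v (A' w))
    (htr : ∀ y : F, y ≠ 0 → ∀ z : F, ∃ A A', Adj g A A' ∧ A y = z) :
    ∃ Q : F → ℝ, (∀ (c : ℝ) v, Q (c • v) = c ^ 2 * Q v) ∧
      (∀ v w, Q (v + w) + Q (v - w) = 2 * Q v + 2 * Q w) ∧ (∀ v, v ≠ 0 → 0 < Q v) ∧
      ∀ A ∈ g, ∀ v (t : ℝ), Q (v + t • A v) = Q v + t ^ 2 * Q (A v) := by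
  obtain ⟨x0, hx0⟩ : ∃ x, e x ≠ 0 := by
    by_contra hcon
    push Not at hcon
    exact he0 (LinearMap.ext hcon)
  set y0 : F := e x0 with hy0
  have hey : e y0 = y0 := LinearMap.congr_fun hee x0
  obtain ⟨E0, k0, u0, -, w0⟩ := hsup e e he
  -- the values
  have hkey : ∀ v : F, ∃ (l : ℝ) (M0 : Submodule ℝ F), FiniteDimensional ℝ M0 ∧ y0 ∈ M0 ∧ v ∈ M0 ∧
      ∀ M : Submodule ℝ F, FiniteDimensional ℝ M → M0 ≤ M → ∀ β : F →ₗ[ℝ] F →ₗ[ℝ] ℝ, Good g M β →
        β v v = l * β y0 y0 := by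
    intro v
    obtain ⟨A, A', hA, hAv⟩ := htr y0 hx0 v
    obtain ⟨l, -, hl, -⟩ := hmin A A' hA
    obtain ⟨M1, f1, a1, b1, c1⟩ := hsup A A' hA
    refine ⟨l, M1 ⊔ E0, inferInstance, Submodule.mem_sup_right (u0 ⟨x0, rfl⟩),
      Submodule.mem_sup_left (a1 ⟨y0, hAv⟩), ?_⟩
    intro M hMf hM β hβ
    have hM1 : M1 ≤ M := le_sup_left.trans hM
    have hM2 : E0 ≤ M := le_sup_right.trans hM
    have hyM : y0 ∈ M := hM2 (u0 ⟨x0, rfl⟩)
    have hvM : v ∈ M := hM1 (a1 ⟨y0, hAv⟩)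
    have h1 := c1 M hMf hM1 β hβ y0 hyM v hvM
    rw [hAv] at h1
    have h2 := w0 M hMf hM2 β hβ y0 hyM (A' v) (hM1 (b1 ⟨v, rfl⟩))
    rw [hey] at h2
    have h3 : e (A' v) = l • y0 := by
      have h4 := LinearMap.congr_fun hl y0
      have h5 : (e * A' * A * e) y0 = e (A' (A (e y0))) := rfl
      rw [h5, hey, hAv] at h4
      rw [h4, LinearMap.smul_apply, hey]
    rw [h1, h2, h3, _root_.map_smul, smul_eq_mul]
  choose Q M0 hMf hy hv hQ using hkey
  have hpos : ∀ (M : Submodule ℝ F) (β : F →ₗ[ℝ] F →ₗ[ℝ] ℝ), Good g M β → y0 ∈ M → 0 < β y0 y0 :=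
    fun M β hβ hyM => hβ.pos y0 hyM hx0
  refine ⟨Q, ?_, ?_, ?_, ?_⟩
  · intro c v
    have f1 := hMf v
    have f2 := hMf (c • v)
    obtain ⟨β, hβ⟩ := hg.good (M0 v ⊔ M0 (c • v)) inferInstance
    have h1 := hQ v _ inferInstance le_sup_left β hβ
    have h2 := hQ (c • v) _ inferInstance le_sup_right β hβ
    have h3 := hpos _ β hβ (Submodule.mem_sup_left (hy v))
    rw [LinearMap.map_smul₂, _root_.map_smul, smul_eq_mul, smul_eq_mul, h1] at h2
    have h4 : (Q (c • v) - c ^ 2 * Q v) * β y0 y0 = 0 := by linear_combination -h2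
    rcases mul_eq_zero.1 h4 with h5 | h5
    · linarith
    · exact absurd h5 h3.ne'
  · intro v w
    have f1 := hMf v
    have f2 := hMf w
    have f3 := hMf (v + w)
    have f4 := hMf (v - w)
    obtain ⟨β, hβ⟩ := hg.good ((M0 v ⊔ M0 w) ⊔ (M0 (v + w) ⊔ M0 (v - w))) inferInstance
    have h1 := hQ v _ inferInstance (le_sup_left.trans le_sup_left) β hβ
    have h2 := hQ w _ inferInstance (le_sup_right.trans le_sup_left) β hβ
    have h3 := hQ (v + w) _ inferInstance (le_sup_left.trans le_sup_right) β hβ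
    have h4 := hQ (v - w) _ inferInstance (le_sup_right.trans le_sup_right) β hβ
    have h0 := hpos _ β hβ (Submodule.mem_sup_left (Submodule.mem_sup_left (hy v)))
    rw [LinearMap.map_add₂, _root_.map_add, _root_.map_add] at h3
    rw [LinearMap.map_sub₂, _root_.map_sub, _root_.map_sub] at h4
    have h5 : (Q (v + w) + Q (v - w) - (2 * Q v + 2 * Q w)) * β y0 y0 = 0 := by
      linear_combination 2 * h1 + 2 * h2 - h3 - h4
    rcases mul_eq_zero.1 h5 with h6 | h6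
    · linarith
    · exact absurd h6 h0.ne'
  · intro v hv0
    have f1 := hMf v
    obtain ⟨β, hβ⟩ := hg.good (M0 v) inferInstance
    have h1 := hQ v _ inferInstance le_rfl β hβ
    have h0 := hpos _ β hβ (hy v)
    have h2 := hβ.pos v (hv v) hv0
    rw [h1] at h2
    exact pos_of_mul_pos_left h2 h0.le
  · intro A hA v t
    have f0 := hg.fin A hA
    have f1 := hMf v
    have f2 := hMf (v + t • A v)
    have f3 := hMf (A v)
    obtain ⟨β, hβ⟩ := hg.good ((M0 v ⊔ LinearMap.range A) ⊔ (M0 (v + t • A v) ⊔ M0 (A v))) inferInstance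
    have h1 := hQ v _ inferInstance (le_sup_left.trans le_sup_left) β hβ
    have h3 := hQ (v + t • A v) _ inferInstance (le_sup_left.trans le_sup_right) β hβ
    have h4 := hQ (A v) _ inferInstance (le_sup_right.trans le_sup_right) β hβ
    have hvM : v ∈ (M0 v ⊔ LinearMap.range A) ⊔ (M0 (v + t • A v) ⊔ M0 (A v)) :=
      Submodule.mem_sup_left (Submodule.mem_sup_left (hv v))
    have hAvM : A v ∈ (M0 v ⊔ LinearMap.range A) ⊔ (M0 (v + t • A v) ⊔ M0 (A v)) :=
      Submodule.mem_sup_left (Submodule.mem_sup_right ⟨v, rfl⟩)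
    have h0 := hpos _ β hβ (Submodule.mem_sup_left (Submodule.mem_sup_left (hy v)))
    have hs := hβ.skew A hA (le_sup_right.trans le_sup_left) v hvM v hvM
    have hc := hβ.symm (A v) hAvM v hvM
    have hz : β (A v) v = 0 := by linarith
    have hz' : β v (A v) = 0 := by linarith
    simp only [LinearMap.add_apply, LinearMap.smul_apply, _root_.map_add, _root_.map_smul, smul_eq_mul, hz, hz',
      mul_zero, add_zero, zero_add] at h3
    have h5 : (Q (v + t • A v) - (Q v + t ^ 2 * Q (A v))) * β y0 y0 = 0 := by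
      linear_combination h1 + t ^ 2 * h4 - h3
    rcases mul_eq_zero.1 h5 with h6 | h6
    · linarith
    · exact absurd h6 h0.ne'

end

end Pool.Agent.TH511.BM
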