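import Pool.Agent.TH328.BM.Stm

/-! Adjoint pairs: supports, and minimal idempotents. -/

set_option autoImplicit false

namespace Pool.Agent.TH511.BM

open Pool.TH328.BM

section

variable {F : Type*} [AddCommGroup F] [Module ℝ F] {g : Submodule ℝ (Module.End ℝ F)}

theorem adj_symm {A A' : Module.End ℝ F} (h : Adj g A A') : Adj g A' A := by
  induction h with
  | base A hA =>
    have := Adj.base (-A) (g.neg_mem hA)
    rwa [neg_neg] at this
  | add _ _ ih1 ih2 => exact ih1.add ih2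
  | smul c _ ih => exact ih.smul c
  | mul _ _ ih1 ih2 => exact ih2.mul ih1

theorem adj_support (hg : Hyp g) {A A' : Module.End ℝ F} (h : Adj g A A') :
    ∃ M0 : Submodule ℝ F, FiniteDimensional ℝ M0 ∧ LinearMap.range A ≤ M0 ∧ LinearMap.range A' ≤ M0 ∧
      ∀ M : Submodule ℝ F, FiniteDimensional ℝ M → M0 ≤ M → ∀ β : F →ₗ[ℝ] F →ₗ[ℝ] ℝ, Good g M β →
        ∀ v ∈ M, ∀ w ∈ M, β (A v) w = β v (A' w) := by
  induction h with
  | base A hA =>
    refine ⟨LinearMap.range A, hg.fin A hA, le_rfl, ?_, ?_⟩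
    · rintro _ ⟨x, rfl⟩
      exact ⟨-x, by rw [_root_.map_neg]; rfl⟩
    · intro M _ hM β hβ v hv w hw
      rw [hβ.skew A hA hM v hv w hw, LinearMap.neg_apply, _root_.map_neg]
  | @add A A' B B' _ _ ih1 ih2 =>
    obtain ⟨M1, f1, a1, b1, c1⟩ := ih1
    obtain ⟨M2, f2, a2, b2, c2⟩ := ih2
    refine ⟨M1 ⊔ M2, inferInstance, ?_, ?_, ?_⟩
    · rintro _ ⟨x, rfl⟩
      exact add_mem (Submodule.mem_sup_left (a1 ⟨x, rfl⟩)) (Submodule.mem_sup_right (a2 ⟨x, rfl⟩))
    · rintro _ ⟨x, rfl⟩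
      exact add_mem (Submodule.mem_sup_left (b1 ⟨x, rfl⟩)) (Submodule.mem_sup_right (b2 ⟨x, rfl⟩))
    · intro M hMf hM β hβ v hv w hw
      rw [LinearMap.add_apply, LinearMap.add_apply, _root_.map_add, LinearMap.add_apply, _root_.map_add,
        c1 M hMf (le_sup_left.trans hM) β hβ v hv w hw, c2 M hMf (le_sup_right.trans hM) β hβ v hv w hw]
  | @smul c A A' _ ih =>
    obtain ⟨M1, f1, a1, b1, c1⟩ := ih
    refine ⟨M1, f1, ?_, ?_, ?_⟩
    · rintro _ ⟨x, rfl⟩
      exact M1.smul_mem c (a1 ⟨x, rfl⟩)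
    · rintro _ ⟨x, rfl⟩
      exact M1.smul_mem c (b1 ⟨x, rfl⟩)
    · intro M hMf hM β hβ v hv w hw
      rw [LinearMap.smul_apply, LinearMap.smul_apply, _root_.map_smul, LinearMap.smul_apply, _root_.map_smul,
        c1 M hMf hM β hβ v hv w hw]
  | @mul A A' B B' _ _ ih1 ih2 =>
    obtain ⟨M1, f1, a1, b1, c1⟩ := ih1
    obtain ⟨M2, f2, a2, b2, c2⟩ := ih2
    refine ⟨M1 ⊔ M2, inferInstance, ?_, ?_, ?_⟩
    · rintro _ ⟨x, rfl⟩
      exact Submodule.mem_sup_left (a1 ⟨B x, rfl⟩)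
    · rintro _ ⟨x, rfl⟩
      exact Submodule.mem_sup_right (b2 ⟨A' x, rfl⟩)
    · intro M hMf hM β hβ v hv w hw
      have hB : B v ∈ M := hM (Submodule.mem_sup_right (a2 ⟨v, rfl⟩))
      have hA : A' w ∈ M := hM (Submodule.mem_sup_left (b1 ⟨w, rfl⟩))
      show β (A (B v)) w = β v (B' (A' w))
      rw [c1 M hMf (le_sup_left.trans hM) β hβ _ hB w hw, c2 M hMf (le_sup_right.trans hM) β hβ v hv _ hA]

/-- symmetric operators on a finite-dimensional space have eigenvectors -/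
theorem eigen {L : Type*} [AddCommGroup L] [Module ℝ L] [FiniteDimensional ℝ L] [Nontrivial L]
    (b : L →ₗ[ℝ] L →ₗ[ℝ] ℝ) (hs : ∀ v w, b v w = b w v) (hp : ∀ v, v ≠ 0 → 0 < b v v) (T : L →ₗ[ℝ] L)
    (hT : ∀ v w, b (T v) w = b v (T w)) : ∃ (μ : ℝ) (v : L), v ≠ 0 ∧ T v = μ • v := by
  let core : InnerProductSpace.Core ℝ L :=
    { inner := fun v w => b v w
      conj_inner_symm := fun v w => by
        show b w v = b v w
        exact hs w v
      re_inner_nonneg := fun v => by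
        show 0 ≤ b v v
        by_cases h : v = 0
        · rw [h, _root_.map_zero]
        · exact (hp v h).le
      add_left := fun u v w => by
        show b (u + v) w = b u w + b v w
        rw [_root_.map_add]
        rfl
      smul_left := fun v w r => by
        show b (r • v) w = r * b v w
        rw [_root_.map_smul]
        rfl
      definite := fun v hv => by
        by_contra h
        exact absurd hv (hp v h).ne' }
  let i1 : NormedAddCommGroup L := @InnerProductSpace.Core.toNormedAddCommGroup ℝ L _ _ _ core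
  let i2 : InnerProductSpace ℝ L := InnerProductSpace.ofCore core.toCore
  have hTs : T.IsSymmetric := fun v w => hT v w
  have h := LinearMap.IsSymmetric.hasEigenvalue_iSup_of_finiteDimensional hTs
  obtain ⟨v, hv⟩ := h.exists_hasEigenvector
  exact ⟨_, v, hv.2, Module.End.mem_eigenspace_iff.1 hv.1⟩

/-- eigenvectors in an invariant subspace -/
theorem eigen_sub (L : Submodule ℝ F) (hL : FiniteDimensional ℝ L) (hL0 : L ≠ ⊥) (β : F →ₗ[ℝ] F →ₗ[ℝ] ℝ)
    (hs : ∀ v ∈ L, ∀ w ∈ L, β v w = β w v) (hp : ∀ v ∈ L, v ≠ 0 → 0 < β v v) (T : Module.End ℝ F)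
    (hTL : ∀ v ∈ L, T v ∈ L) (hT : ∀ v ∈ L, ∀ w ∈ L, β (T v) w = β v (T w)) :
    ∃ (μ : ℝ) (v : F), v ∈ L ∧ v ≠ 0 ∧ T v = μ • v := by
  have : Nontrivial L := (Submodule.nontrivial_iff_ne_bot).2 hL0
  let b : L →ₗ[ℝ] L →ₗ[ℝ] ℝ := (β.compl₁₂ L.subtype L.subtype)
  have hb : ∀ v w : L, b v w = β v w := fun v w => rfl
  obtain ⟨μ, v, hv, h⟩ := eigen b (fun v w => by rw [hb, hb]; exact hs _ v.2 _ w.2)
    (fun v hv => by rw [hb]; exact hp _ v.2 (fun h => hv (Subtype.ext h))) (T.restrict hTL)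
    (fun v w => by
      rw [hb, hb]
      exact hT _ v.2 _ w.2)
  refine ⟨μ, v, v.2, fun h => hv (Subtype.ext h), ?_⟩
  have := congrArg Subtype.val h
  exact this

/-- an operator which kills a vector of a subspace lowers the dimension -/
theorem finrank_map_lt (L : Submodule ℝ F) (hL : FiniteDimensional ℝ L) (T : Module.End ℝ F) (v : F) (hv : v ∈ L)
    (hv0 : v ≠ 0) (hT : T v = 0) : Module.finrank ℝ (L.map T) < Module.finrank ℝ L := by
  have h1 := LinearMap.finrank_range_add_finrank_ker (T.domRestrict L)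
  rw [LinearMap.range_domRestrict] at h1
  have h2 : (⟨v, hv⟩ : L) ∈ LinearMap.ker (T.domRestrict L) := hT
  have h3 : LinearMap.ker (T.domRestrict L) ≠ ⊥ := by
    intro h
    rw [h, Submodule.mem_bot] at h2
    exact hv0 (congrArg Subtype.val h2)
  have h4 : 0 < Module.finrank ℝ (LinearMap.ker (T.domRestrict L)) := by
    rw [Nat.pos_iff_ne_zero]
    intro h
    exact h3 (Submodule.finrank_eq_zero.1 h)
  omega

/-- a form adapted to finitely many data -/
theorem exists_form_on (hg : Hyp g) (M0 : Submodule ℝ F) (hM0 : FiniteDimensional ℝ M0) (x : F) :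
    ∃ (M : Submodule ℝ F) (β : F →ₗ[ℝ] F →ₗ[ℝ] ℝ), FiniteDimensional ℝ M ∧ M0 ≤ M ∧ x ∈ M ∧ Good g M β := by
  obtain ⟨β, hβ⟩ := hg.good (M0 ⊔ Submodule.span ℝ {x}) inferInstance
  exact ⟨_, β, inferInstance, le_sup_left,
    Submodule.mem_sup_right (Submodule.mem_span_singleton_self x), hβ⟩

theorem exists_min_idem (hg : Hyp g) :
    ∃ e : Module.End ℝ F, Adj g e e ∧ e ≠ 0 ∧ e * e = e ∧
      (∀ P, Adj g P P → ∃ l : ℝ, e * P * e = l • e) ∧
      (∀ A A', Adj g A A' → ∃ l : ℝ, 0 ≤ l ∧ e * A' * A * e = l • e ∧ (A * e ≠ 0 → 0 < l)) := by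
  classical
  -- the minimal rank
  have hex : ∃ n : ℕ, ∃ A A' : Module.End ℝ F, Adj g A A' ∧ A ≠ 0 ∧ Module.finrank ℝ (LinearMap.range A) = n := by
    obtain ⟨A, hA, hA0⟩ := hg.ne
    exact ⟨_, A, -A, Adj.base A hA, hA0, rfl⟩
  obtain ⟨A, A', hA, hA0, hAr⟩ := Nat.find_spec hex
  set r := Nat.find hex with hr
  have hmin : ∀ B B' : Module.End ℝ F, Adj g B B' → Module.finrank ℝ (LinearMap.range B) < r → B = 0 := by
    intro B B' hB hlt
    by_contra hB0
    exact Nat.find_min hex hlt ⟨B, B', hB, hB0, rfl⟩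
  obtain ⟨M0, f0, a0, b0, c0⟩ := adj_support hg hA
  have := f0
  have hfA : FiniteDimensional ℝ (LinearMap.range A) := Submodule.finiteDimensional_of_le a0
  set P : Module.End ℝ F := A' * A with hP
  have hPP : Adj g P P := (adj_symm hA).mul hA
  -- `P` is nonzero
  have hP0 : P ≠ 0 := by
    intro h
    have : ∃ v, A v ≠ 0 := by
      by_contra hcon
      push Not at hcon
      exact hA0 (LinearMap.ext hcon)
    obtain ⟨v, hv⟩ := this
    obtain ⟨M, β, hMf, hM, hvM, hβ⟩ := exists_form_on hg M0 f0 v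
    have hAv : A v ∈ M := hM (a0 ⟨v, rfl⟩)
    have h1 := c0 M hMf hM β hβ v hvM (A v) hAv
    have h2 : A' (A v) = P v := rfl
    rw [h2, h, LinearMap.zero_apply, _root_.map_zero] at h1
    exact absurd h1 (hβ.pos _ hAv hv).ne'
  have hPr : Module.finrank ℝ (LinearMap.range P) ≤ r := by
    have : LinearMap.range P = (LinearMap.range A).map A' := LinearMap.range_comp A A'
    rw [this]
    exact (Submodule.finrank_map_le A' _).trans hAr.le
  obtain ⟨N0, g0, p0, -, q0⟩ := adj_support hg hPP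
  have := g0
  have hfP : FiniteDimensional ℝ (LinearMap.range P) := Submodule.finiteDimensional_of_le p0
  have hPrng0 : LinearMap.range P ≠ ⊥ := fun h => hP0 (LinearMap.range_eq_bot.1 h)
  obtain ⟨μ, v, hvL, hv0, hPv⟩ : ∃ (μ : ℝ) (v : F), v ∈ LinearMap.range P ∧ v ≠ 0 ∧ P v = μ • v := by
    obtain ⟨M, β, hMf, hM, -, hβ⟩ := exists_form_on hg N0 g0 0
    exact eigen_sub _ hfP hPrng0 β (fun v hv w hw => hβ.symm v (hM (p0 hv)) w (hM (p0 hw)))
      (fun v hv => hβ.pos v (hM (p0 hv))) P (fun v _ => ⟨v, rfl⟩)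
      (fun v hv w hw => q0 M hMf hM β hβ v (hM (p0 hv)) w (hM (p0 hw)))
  have hμ : μ ≠ 0 := by
    intro h
    rw [h, zero_smul] at hPv
    obtain ⟨u, rfl⟩ := hvL
    obtain ⟨M, β, hMf, hM, huM, hβ⟩ := exists_form_on hg N0 g0 u
    have hPu : P u ∈ M := hM (p0 ⟨u, rfl⟩)
    have h1 := q0 M hMf hM β hβ u huM (P u) hPu
    rw [hPv, _root_.map_zero] at h1
    exact absurd h1 (hβ.pos _ hPu hv0).ne'
  have hPP2 : P * P = μ • P := by
    have hW : Adj g (P * P + (-μ) • P) (P * P + (-μ) • P) := (hPP.mul hPP).add (hPP.smul (-μ))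
    have h0 := hmin _ _ hW (by
      have h1 : LinearMap.range (P * P + (-μ) • P) ≤ (LinearMap.range P).map (P + (-μ) • 1) := by
        rintro _ ⟨x, rfl⟩
        exact ⟨P x, ⟨x, rfl⟩, rfl⟩
      have h2 := finrank_map_lt (LinearMap.range P) hfP (P + (-μ) • 1) v hvL hv0 (by
        show P v + (-μ) • v = 0
        rw [hPv, neg_smul, add_neg_cancel])
      exact ((Submodule.finrank_mono h1).trans_lt h2).trans_le hPr)
    rw [neg_smul, add_neg_eq_zero] at h0
    exact h0
  set e : Module.End ℝ F := μ⁻¹ • P with he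
  have hee : e * e = e := by
    rw [he, smul_mul_smul_comm, hPP2, smul_smul]
    congr 1
    field_simp
  have hAe : Adj g e e := hPP.smul μ⁻¹
  have he0 : e ≠ 0 := smul_ne_zero (inv_ne_zero hμ) hP0
  obtain ⟨E0, k0, u0, -, w0⟩ := adj_support hg hAe
  have := k0
  have hfe : FiniteDimensional ℝ (LinearMap.range e) := Submodule.finiteDimensional_of_le u0
  have her : Module.finrank ℝ (LinearMap.range e) ≤ r := by
    have h1 : LinearMap.range e ≤ LinearMap.range P := by
      rintro _ ⟨x, rfl⟩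
      exact ⟨μ⁻¹ • x, by rw [_root_.map_smul]; rfl⟩
    exact (Submodule.finrank_mono h1).trans hPr
  have herng0 : LinearMap.range e ≠ ⊥ := fun h => he0 (LinearMap.range_eq_bot.1 h)
  have hefix : ∀ y ∈ LinearMap.range e, e y = y := by
    rintro _ ⟨x, rfl⟩
    exact LinearMap.congr_fun hee x
  have item4 : ∀ P : Module.End ℝ F, Adj g P P → ∃ l : ℝ, e * P * e = l • e := by
    intro P hP
    have hQ : Adj g (e * P * e) (e * P * e) := by
      have h1 := (hAe.mul hP).mul hAe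
      rw [← mul_assoc] at h1
      exact h1
    obtain ⟨Q0, m0, s0, -, t0⟩ := adj_support hg hQ
    have := m0
    obtain ⟨l, y, hyL, hy0, hQy⟩ : ∃ (l : ℝ) (y : F), y ∈ LinearMap.range e ∧ y ≠ 0 ∧ (e * P * e) y = l • y := by
      obtain ⟨M, β, hMf, hM, -, hβ⟩ := exists_form_on hg (Q0 ⊔ E0) inferInstance 0
      have hM1 := le_sup_left.trans hM
      have hM2 := le_sup_right.trans hM
      exact eigen_sub _ hfe herng0 β (fun v hv w hw => hβ.symm v (hM2 (u0 hv)) w (hM2 (u0 hw)))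
        (fun v hv => hβ.pos v (hM2 (u0 hv))) (e * P * e) (fun v _ => ⟨P (e v), rfl⟩)
        (fun v hv w hw => t0 M hMf hM1 β hβ v (hM2 (u0 hv)) w (hM2 (u0 hw)))
    refine ⟨l, ?_⟩
    have hW : Adj g (e * P * e + (-l) • e) (e * P * e + (-l) • e) := hQ.add (hAe.smul (-l))
    have h0 := hmin _ _ hW (by
      have h1 : LinearMap.range (e * P * e + (-l) • e) ≤ (LinearMap.range e).map (e * P * e + (-l) • e) := by
        rintro _ ⟨x, rfl⟩
        refine ⟨e x, ⟨x, rfl⟩, ?_⟩
        have h2 : e (e x) = e x := LinearMap.congr_fun hee x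
        show e (P (e (e x))) + (-l) • e (e x) = e (P (e x)) + (-l) • e x
        rw [h2]
      have h2 := finrank_map_lt (LinearMap.range e) hfe (e * P * e + (-l) • e) y hyL hy0 (by
        show (e * P * e) y + (-l) • e y = 0
        rw [hQy, hefix y hyL, neg_smul, add_neg_cancel])
      exact ((Submodule.finrank_mono h1).trans_lt h2).trans_le her)
    rw [neg_smul, add_neg_eq_zero] at h0
    exact h0
  refine ⟨e, hAe, he0, hee, item4, ?_⟩
  intro A A' hA
  obtain ⟨l, hl⟩ := item4 (A' * A) ((adj_symm hA).mul hA)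
  have hl' : e * A' * A * e = l • e := by
    rw [← hl, mul_assoc e A' A]
  -- the value of the form
  obtain ⟨Q0, m0, s0, -, t0⟩ := adj_support hg hA
  have := m0
  have key : ∀ x : F, ∃ β : F →ₗ[ℝ] F →ₗ[ℝ] ℝ, β (A (e x)) (A (e x)) = l * β (e x) (e x) ∧
      (A (e x) ≠ 0 → 0 < β (A (e x)) (A (e x))) ∧ (e x ≠ 0 → 0 < β (e x) (e x)) ∧ 0 ≤ β (A (e x)) (A (e x)) := by
    intro x
    obtain ⟨M, β, hMf, hM, hx, hβ⟩ := exists_form_on hg (Q0 ⊔ E0) inferInstance (A' (A (e x)))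
    have hM1 := le_sup_left.trans hM
    have hM2 := le_sup_right.trans hM
    have hex : e x ∈ M := hM2 (u0 ⟨x, rfl⟩)
    have hAex : A (e x) ∈ M := hM1 (s0 ⟨e x, rfl⟩)
    have h1 := t0 M hMf hM1 β hβ (e x) hex (A (e x)) hAex
    have h2 := w0 M hMf hM2 β hβ (e x) hex _ hx
    have h3 : e (e x) = e x := LinearMap.congr_fun hee x
    have h4 : e (A' (A (e x))) = l • e x := by
      have := LinearMap.congr_fun hl' (e x)
      have h5 : (e * A' * A * e) (e x) = e (A' (A (e (e x)))) := rfl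
      rw [h5, h3] at this
      rw [this, LinearMap.smul_apply, h3]
    rw [h3, h4, _root_.map_smul, smul_eq_mul] at h2
    refine ⟨β, h1.trans h2, hβ.pos _ hAex, hβ.pos _ hex, ?_⟩
    by_cases h5 : A (e x) = 0
    · rw [h5, _root_.map_zero]
    · exact (hβ.pos _ hAex h5).le
  have hpos : 0 ≤ l := by
    have : ∃ x, e x ≠ 0 := by
      by_contra hcon
      push Not at hcon
      exact he0 (LinearMap.ext hcon)
    obtain ⟨x, hx⟩ := this
    obtain ⟨β, h1, -, h3, h4⟩ := key x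
    have h5 := h3 hx
    by_contra hneg
    push Not at hneg
    nlinarith
  refine ⟨l, hpos, hl', fun hne => ?_⟩
  have : ∃ x, A (e x) ≠ 0 := by
    by_contra hcon
    push Not at hcon
    exact hne (LinearMap.ext hcon)
  obtain ⟨x, hx⟩ := this
  obtain ⟨β, h1, h2, -, -⟩ := key x
  have h5 := h2 hx
  rcases hpos.lt_or_eq with h6 | h6
  · exact h6
  · rw [h1, ← h6, zero_mul] at h5
    exact absurd h5 (lt_irrefl 0)

end

end Pool.Agent.TH511.BM
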