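import Pool.Agent.TH511.BMSupp

/-! The polynomials in the skew operators act transitively on the nonzero vectors. -/

set_option autoImplicit false

namespace Pool.Agent.TH511.BM

open Pool.TH328.BM

section

variable {F : Type*} [AddCommGroup F] [Module ℝ F] {g : Submodule ℝ (Module.End ℝ F)}

theorem adj_conj (U : F ≃ₗ[ℝ] F) (hU : ∀ A ∈ g, U.conj A ∈ g) {A A' : Module.End ℝ F} (h : Adj g A A') :
    Adj g (U.conj A) (U.conj A') := by
  induction h with
  | base A hA =>
    rw [_root_.map_neg]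
    exact Adj.base _ (hU A hA)
  | add _ _ ih1 ih2 =>
    rw [_root_.map_add, _root_.map_add]
    exact ih1.add ih2
  | smul c _ ih =>
    rw [_root_.map_smul, _root_.map_smul]
    exact ih.smul c
  | mul _ _ ih1 ih2 =>
    have e : ∀ A B : Module.End ℝ F, U.conj (A * B) = U.conj A * U.conj B := by
      intro A B
      ext x
      show U (A (B (U.symm x))) = U (A (U.symm (U (B (U.symm x)))))
      rw [U.symm_apply_apply]
    rw [e, e]
    exact ih1.mul ih2

theorem conj_app (U : F ≃ₗ[ℝ] F) (A : Module.End ℝ F) (x : F) : U.conj A x = U (A (U.symm x)) := rfl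

theorem conj_symm_app (U : F ≃ₗ[ℝ] F) (A : Module.End ℝ F) (x : F) : U.symm.conj A x = U.symm (A (U x)) := rfl

theorem adj_zero (hg : Hyp g) : Adj g 0 0 := by
  obtain ⟨A, hA, -⟩ := hg.ne
  have := (Adj.base A hA).smul 0
  rwa [zero_smul, zero_smul] at this

theorem transitive_alg (hg : Hyp g) (e : Module.End ℝ F) (he : Adj g e e) (he0 : e ≠ 0) (hee : e * e = e)
    (hmin : ∀ A A', Adj g A A' → ∃ l : ℝ, 0 ≤ l ∧ e * A' * A * e = l • e ∧ (A * e ≠ 0 → 0 < l)) :
    ∀ y : F, y ≠ 0 → ∀ z : F, ∃ A A', Adj g A A' ∧ A y = z := by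
  obtain ⟨x0, hx0⟩ : ∃ x, e x ≠ 0 := by
    by_contra hcon
    push Not at hcon
    exact he0 (LinearMap.ext hcon)
  have hey : e (e x0) = e x0 := LinearMap.congr_fun hee x0
  set y1 : F := e x0 with hy1
  -- for the vectors in the range of the idempotent
  have hi0 : ∀ A A', Adj g A A' → A y1 ≠ 0 → ∃ B B', Adj g B B' ∧ B (A y1) = y1 := by
    intro A A' hA hne
    obtain ⟨l, -, hl, hl2⟩ := hmin A A' hA
    have hl0 : 0 < l := by
      apply hl2
      intro h
      apply hne
      have := LinearMap.congr_fun h y1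
      have h2 : (A * e) y1 = A (e y1) := rfl
      rw [h2, hey] at this
      exact this
    refine ⟨l⁻¹ • (e * A'), l⁻¹ • (A * e), (he.mul (adj_symm hA)).smul _, ?_⟩
    have h1 := LinearMap.congr_fun hl y1
    have h2 : (e * A' * A * e) y1 = e (A' (A (e y1))) := rfl
    rw [h2, hey, LinearMap.smul_apply, hey] at h1
    show l⁻¹ • e (A' (A y1)) = y1
    rw [h1, smul_smul, inv_mul_cancel₀ hl0.ne', one_smul]
  -- for all vectors
  have hi : ∀ y : F, y ≠ 0 → ∀ A A', Adj g A A' → A y ≠ 0 → ∃ B B', Adj g B B' ∧ B (A y) = y := by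
    intro y hy A A' hA hne
    obtain ⟨U, hU, hU1, hU2⟩ := hg.tr y1 y hx0 hy
    obtain ⟨B, B', hB, h⟩ := hi0 _ _ (adj_conj U.symm hU2 hA) (by
      rw [conj_symm_app, hU]
      intro h
      exact hne (U.symm.map_eq_zero_iff.1 h))
    refine ⟨U.conj B, U.conj B', adj_conj U hU1 hB, ?_⟩
    rw [conj_symm_app, hU] at h
    rw [conj_app, h, hU]
  have hself : ∀ y : F, y ≠ 0 → ∃ B B', Adj g B B' ∧ B y = y := by
    intro y hy
    obtain ⟨U, hU, hU1, hU2⟩ := hg.tr y1 y hx0 hy
    refine ⟨U.conj e, U.conj e, adj_conj U hU1 he, ?_⟩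
    have : U.symm y = y1 := by rw [← hU, U.symm_apply_apply]
    rw [conj_app, this, hey, hU]
  by_contra hcon
  push Not at hcon
  obtain ⟨y, hy, z, hz⟩ := hcon
  -- the kernel condition
  have hclaim : ∀ w : F, (∀ A A', Adj g A A' → A y ≠ w) → ∀ A A', Adj g A A' → A y = 0 → A w = 0 := by
    intro w hw A A' hA hAy
    by_contra hne
    have hu : y + w ≠ 0 := by
      intro h
      obtain ⟨B, B', hB, hBy⟩ := hself y hy
      apply hw ((-1 : ℝ) • B) ((-1 : ℝ) • B') (hB.smul _)
      rw [LinearMap.smul_apply, hBy, neg_smul, one_smul]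
      exact neg_eq_of_add_eq_zero_right h
    have hw0 : w ≠ 0 := by
      intro h
      exact hw 0 0 (adj_zero hg) (by rw [h]; rfl)
    have hAu : A (y + w) = A w := by rw [_root_.map_add, hAy, zero_add]
    obtain ⟨B, B', hB, hBu⟩ := hi (y + w) hu A A' hA (by rw [hAu]; exact hne)
    rw [hAu] at hBu
    obtain ⟨E, E', hE, hEw⟩ := hself w hw0
    have hD : Adj g (B * A + (-1 : ℝ) • E) (A' * B' + (-1 : ℝ) • E') := (hB.mul hA).add (hE.smul _)
    have hDw : (B * A + (-1 : ℝ) • E) w = y := by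
      show B (A w) + (-1 : ℝ) • E w = y
      rw [hBu, hEw, neg_smul, one_smul, add_neg_cancel_right]
    obtain ⟨C, C', hC, hCw⟩ := hi w hw0 _ _ hD (by rw [hDw]; exact hy)
    rw [hDw] at hCw
    exact hw C C' hC hCw
  have hkill : ∀ A A', Adj g A A' → A y = 0 → A = 0 := by
    intro A A' hA hAy
    ext w
    rw [LinearMap.zero_apply]
    by_cases hw : ∀ B B', Adj g B B' → B y ≠ w
    · exact hclaim w hw A A' hA hAy
    · push Not at hw
      obtain ⟨B, B', hB, hBw⟩ := hw
      have h1 : A (z + w) = 0 := by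
        refine hclaim (z + w) ?_ A A' hA hAy
        intro C C' hC hCy
        apply hz (C + (-1 : ℝ) • B) (C' + (-1 : ℝ) • B') (hC.add (hB.smul _))
        rw [LinearMap.add_apply, LinearMap.smul_apply, hCy, hBw, neg_smul, one_smul, add_neg_cancel_right]
      rw [_root_.map_add, hclaim z hz A A' hA hAy, zero_add] at h1
      exact h1
  obtain ⟨A, hA, hA0⟩ := hg.ne
  have hfin := hg.fin A hA
  apply hg.inf
  have hinj : LinearMap.ker A = ⊥ := by
    rw [LinearMap.ker_eq_bot']
    intro x hx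
    by_contra hx0
    obtain ⟨U, hU, hU1, hU2⟩ := hg.tr x y hx0 hy
    have h1 := hkill _ _ (adj_conj U hU1 (Adj.base A hA)) (by
      have : U.symm y = x := by rw [← hU, U.symm_apply_apply]
      rw [conj_app, this, hx, _root_.map_zero])
    exact hA0 ((LinearEquiv.map_eq_zero_iff _).1 h1)
  exact LinearEquiv.finiteDimensional (LinearEquiv.ofInjective A (LinearMap.ker_eq_bot.1 hinj)).symm

/-- the orbit of a vector -/
def orb (g : Submodule ℝ (Module.End ℝ F)) (x : F) : Submodule ℝ F := g.map (LinearMap.applyₗ x)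

theorem mem_orb {x z : F} : z ∈ orb g x ↔ ∃ A ∈ g, A x = z := Iff.rfl

theorem infinite_orbit (hg : Hyp g)
    (htr : ∀ y : F, y ≠ 0 → ∀ z : F, ∃ A A', Adj g A A' ∧ A y = z) (y : F) (hy : y ≠ 0)
    (D : Submodule ℝ F) (hD : FiniteDimensional ℝ D) : ∃ A ∈ g, A y ∉ D := by
  classical
  by_contra hcon
  push Not at hcon
  have hle : orb g y ≤ D := by
    rintro _ ⟨A, hA, rfl⟩
    exact hcon A hA
  have hfy : FiniteDimensional ℝ (orb g y) := Submodule.finiteDimensional_of_le hle
  have hmap : ∀ x : F, x ≠ 0 → ∃ U : F ≃ₗ[ℝ] F, orb g x ≤ (orb g y).map (U : F →ₗ[ℝ] F) := by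
    intro x hx
    obtain ⟨U, hU, hU1, hU2⟩ := hg.tr y x hy hx
    refine ⟨U, ?_⟩
    rintro _ ⟨A, hA, rfl⟩
    refine ⟨_, ⟨U.symm.conj A, hU2 A hA, rfl⟩, ?_⟩
    show U (U.symm (A (U y))) = A x
    rw [U.apply_symm_apply, hU]
  have hfx : ∀ x : F, FiniteDimensional ℝ (orb g x) := by
    intro x
    by_cases hx : x = 0
    · have : orb g x ≤ orb g y := by
        rintro _ ⟨A, hA, rfl⟩
        show A x ∈ _
        rw [hx, _root_.map_zero]
        exact zero_mem _
      exact Submodule.finiteDimensional_of_le this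
    · obtain ⟨U, hU⟩ := hmap x hx
      exact Submodule.finiteDimensional_of_le hU
  have hrk : ∀ x : F, x ≠ 0 → Module.finrank ℝ (orb g x) ≤ Module.finrank ℝ (orb g y) := by
    intro x hx
    obtain ⟨U, hU⟩ := hmap x hx
    exact (Submodule.finrank_mono hU).trans (Submodule.finrank_map_le _ _)
  -- generators of the orbit
  obtain ⟨S, hS⟩ := (Submodule.fg_iff_finiteDimensional (orb g y)).2 hfy
  have hS2 : ∀ s : S, ∃ A ∈ g, A y = (s : F) := fun s => by
    have : (s : F) ∈ orb g y := by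
      rw [← hS]
      exact Submodule.subset_span s.2
    exact this
  choose A hAg hAy using hS2
  let Φ : F →ₗ[ℝ] (S → F) := LinearMap.pi A
  have hΦ : FiniteDimensional ℝ (LinearMap.range Φ) := by
    have hf : ∀ s : S, FiniteDimensional ℝ (LinearMap.range (A s)) := fun s => hg.fin _ (hAg s)
    let Ψ : F →ₗ[ℝ] ((s : S) → LinearMap.range (A s)) := LinearMap.pi fun s => (A s).rangeRestrict
    let Θ : ((s : S) → LinearMap.range (A s)) →ₗ[ℝ] (S → F) :=
      LinearMap.pi fun s => (LinearMap.range (A s)).subtype.comp (LinearMap.proj s)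
    have h1 : LinearMap.range Φ ≤ LinearMap.range Θ := by
      rintro _ ⟨x, rfl⟩
      exact ⟨Ψ x, rfl⟩
    exact Submodule.finiteDimensional_of_le h1
  obtain ⟨W, hW⟩ := Submodule.exists_isCompl (LinearMap.ker Φ)
  have hWf : FiniteDimensional ℝ W :=
    LinearEquiv.finiteDimensional ((Submodule.quotientEquivOfIsCompl _ _ hW).symm.trans Φ.quotKerEquivRange).symm
  have hker : ∀ z ∈ LinearMap.ker Φ, ∀ B ∈ g, B z ∈ orb g y := by
    intro z hz B hB
    have hz' : ∀ s : S, A s z = 0 := fun s => congrFun (LinearMap.mem_ker.1 hz) s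
    by_cases h0 : y + z = 0
    · have : z = -y := (neg_eq_of_add_eq_zero_right h0).symm
      rw [this, _root_.map_neg]
      exact neg_mem ⟨B, hB, rfl⟩
    · have h1 : orb g y ≤ orb g (y + z) := by
        rw [← hS, Submodule.span_le]
        intro s hs
        refine ⟨A ⟨s, hs⟩, hAg _, ?_⟩
        show A ⟨s, hs⟩ (y + z) = s
        rw [_root_.map_add, hz', add_zero, hAy]
      have := hfx (y + z)
      have h2 := Submodule.eq_of_le_of_finrank_le h1 (hrk _ h0)
      have h3 : B (y + z) ∈ orb g y := by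
        rw [h2]
        exact ⟨B, hB, rfl⟩
      have h4 : B y ∈ orb g y := ⟨B, hB, rfl⟩
      have h5 := sub_mem h3 h4
      rw [_root_.map_add, add_sub_cancel_left] at h5
      exact h5
  let b := Module.finBasis ℝ W
  have hbf : ∀ j, FiniteDimensional ℝ (orb g (b j : F)) := fun j => hfx _
  have hfD : FiniteDimensional ℝ (orb g y ⊔ ⨆ j, orb g (b j : F) : Submodule ℝ F) := inferInstance
  set D2 : Submodule ℝ F := orb g y ⊔ ⨆ j, orb g (b j : F) with hD2
  have hrange : ∀ B ∈ g, ∀ x, B x ∈ D2 := by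
    intro B hB x
    obtain ⟨p, q, hp, hq, rfl⟩ : ∃ p q : F, p ∈ LinearMap.ker Φ ∧ q ∈ W ∧ p + q = x := by
      have : x ∈ LinearMap.ker Φ ⊔ W := by rw [hW.sup_eq_top]; trivial
      obtain ⟨p, hp, q, hq, h⟩ := Submodule.mem_sup.1 this
      exact ⟨p, q, hp, hq, h⟩
    rw [_root_.map_add]
    refine add_mem (Submodule.mem_sup_left (hker p hp B hB)) (Submodule.mem_sup_right ?_)
    have h1 := b.sum_repr ⟨q, hq⟩
    have h2 : q = ∑ j, b.repr ⟨q, hq⟩ j • (b j : F) := by
      have h3 := congrArg (Submodule.subtype W) h1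
      rw [map_sum] at h3
      exact h3.symm
    rw [h2, map_sum]
    refine Submodule.sum_mem _ fun j _ => ?_
    rw [_root_.map_smul]
    exact Submodule.smul_mem _ _ (Submodule.mem_iSup_of_mem j ⟨B, hB, rfl⟩)
  have hall : ∀ B B', Adj g B B' → ∀ x, B x ∈ D2 := by
    intro B B' hB
    induction hB with
    | base A hA => exact hrange A hA
    | add _ _ ih1 ih2 => exact fun x => add_mem (ih1 x) (ih2 x)
    | smul c _ ih => exact fun x => D2.smul_mem c (ih x)
    | mul _ _ ih1 ih2 => exact fun x => ih1 _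
  apply hg.inf
  have htop : D2 = ⊤ := by
    rw [eq_top_iff]
    intro x _
    by_cases hx : x = 0
    · rw [hx]; exact zero_mem _
    · obtain ⟨B, B', hB, hBx⟩ := htr x hx x
      rw [← hBx]
      exact hall B B' hB x
  rw [htop] at hfD
  exact LinearEquiv.finiteDimensional (Submodule.topEquiv : (⊤ : Submodule ℝ F) ≃ₗ[ℝ] F)

end

end Pool.Agent.TH511.BM
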