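import Pool.Agent.TH331.HV.Defs

/-!
# Almost surely some box has exactly one Poisson point in each small square
-/

set_option autoImplicit false

open MeasureTheory ProbabilityTheory UpperHalfPlane
open scoped NNReal ENNReal UpperHalfPlane

namespace Pool.Agent.TH511.HVBox

open Pool.Agent.TH331.HV

theorem box_meas (b : ℝ) (N i k : ℕ) : MeasurableSet (box b N i k) := by
  have hre : Measurable fun z : ℍ => z.re := UpperHalfPlane.continuous_re.measurable
  have him : Measurable fun z : ℍ => z.im := UpperHalfPlane.continuous_im.measurable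
  have h1 : MeasurableSet {z : ℍ | b + i / N ≤ z.re} := measurableSet_le measurable_const hre
  have h2 : MeasurableSet {z : ℍ | z.re < b + (i + 1) / N} := measurableSet_lt hre measurable_const
  have h3 : MeasurableSet {z : ℍ | 1 + (k : ℝ) / N ≤ z.im} := measurableSet_le measurable_const him
  have h4 : MeasurableSet {z : ℍ | z.im < 1 + ((k : ℝ) + 1) / N} :=
    measurableSet_lt him measurable_const
  exact h1.inter (h2.inter (h3.inter h4))

theorem box_bdd (b : ℝ) (N i k : ℕ) : Bornology.IsBounded (box b N i k) := by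
  let w : ℍ := ⟨⟨b, 1⟩, one_pos⟩
  refine (Metric.isBounded_closedBall (x := w)
    (r := |(i : ℝ) / N| + |((i : ℝ) + 1) / N| + |1 + ((k : ℝ) + 1) / N|)).subset ?_
  rintro z ⟨h1, h2, h3, h4⟩
  rw [Metric.mem_closedBall]
  have hkN : 0 ≤ (k : ℝ) / N := by positivity
  have him : 1 ≤ z.im := by linarith
  have hw : w.im = 1 := rfl
  have hwr : w.re = b := rfl
  have hd := dist_le_dist_coe_div_sqrt z w
  have hs : 1 ≤ √(z.im * w.im) := by
    rw [Real.one_le_sqrt, hw, mul_one]
    exact him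
  have hd2 : dist z w ≤ dist (z : ℂ) w := hd.trans (div_le_self dist_nonneg hs)
  refine hd2.trans ?_
  rw [Complex.dist_eq]
  refine (Complex.norm_le_abs_re_add_abs_im _).trans ?_
  have e1 : ((z : ℂ) - (w : ℂ)).re = z.re - b := by
    rw [Complex.sub_re]; rfl
  have e2 : ((z : ℂ) - (w : ℂ)).im = z.im - 1 := by
    rw [Complex.sub_im]; rfl
  rw [e1, e2]
  have l1 : |z.re - b| ≤ |(i : ℝ) / N| + |((i : ℝ) + 1) / N| := by
    rw [abs_le]
    constructor
    · have := neg_abs_le ((i : ℝ) / N)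
      have := abs_nonneg (((i : ℝ) + 1) / N)
      linarith
    · have := le_abs_self (((i : ℝ) + 1) / N)
      have := abs_nonneg ((i : ℝ) / N)
      linarith
  have l2 : |z.im - 1| ≤ |1 + ((k : ℝ) + 1) / N| := by
    rw [abs_of_nonneg (by linarith)]
    exact (by linarith : z.im - 1 ≤ 1 + ((k : ℝ) + 1) / N).trans (le_abs_self _)
  linarith

theorem box_disj {N : ℕ} (hN : 0 < N) {j j' i i' k k' : ℕ} (hi : i < N) (hi' : i' < N)
    (h : (box (j : ℝ) N i k ∩ box (j' : ℝ) N i' k').Nonempty) : j = j' ∧ i = i' ∧ k = k' := by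
  obtain ⟨z, ⟨h1, h2, h3, h4⟩, ⟨h1', h2', h3', h4'⟩⟩ := h
  have hN0 : (0 : ℝ) < N := by exact_mod_cast hN
  have key : ∀ a b : ℝ, a / N < b / N → a < b := fun a b h => by
    rwa [div_lt_div_iff_of_pos_right hN0] at h
  have c : ∀ a b : ℕ, (a : ℝ) + (b : ℝ) / N = ((a * N + b : ℕ) : ℝ) / N := by
    intro a b
    push_cast
    field_simp
  have c' : ∀ a b : ℕ, (a : ℝ) + ((b : ℝ) + 1) / N = ((a * N + b + 1 : ℕ) : ℝ) / N := by
    intro a b
    push_cast
    field_simp
    ring
  have d1 : j * N + i < j' * N + i' + 1 := by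
    have := key _ _ (by rw [← c, ← c']; linarith :
      ((j * N + i : ℕ) : ℝ) / N < ((j' * N + i' + 1 : ℕ) : ℝ) / N)
    exact_mod_cast this
  have d2 : j' * N + i' < j * N + i + 1 := by
    have := key _ _ (by rw [← c, ← c']; linarith :
      ((j' * N + i' : ℕ) : ℝ) / N < ((j * N + i + 1 : ℕ) : ℝ) / N)
    exact_mod_cast this
  have d3 : k < k' + 1 := by
    have := key (k : ℝ) ((k' : ℝ) + 1) (by linarith)
    exact_mod_cast this
  have d4 : k' < k + 1 := by
    have := key (k' : ℝ) ((k : ℝ) + 1) (by linarith)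
    exact_mod_cast this
  have d5 : j * N + i = j' * N + i' := by omega
  have d6 : i = i' := by
    have := congrArg (· % N) d5
    simpa [Nat.mul_add_mod', Nat.mod_eq_of_lt hi, Nat.mod_eq_of_lt hi'] using this
  refine ⟨?_, d6, by omega⟩
  subst d6
  have d7 : j * N = j' * N := by omega
  exact Nat.eq_of_mul_eq_mul_right hN d7

theorem rect_vol (a b c d : ℝ) (hab : a ≤ b) :
    volume {z : ℂ | (a ≤ z.re ∧ z.re < b) ∧ (c ≤ z.im ∧ z.im < d)} =
      ENNReal.ofReal ((b - a) * (d - c)) := by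
  have h1 : {z : ℂ | (a ≤ z.re ∧ z.re < b) ∧ (c ≤ z.im ∧ z.im < d)} =
      Complex.measurableEquivRealProd ⁻¹' (Set.Ico a b ×ˢ Set.Ico c d) := by
    ext z
    simp [Complex.measurableEquivRealProd]
  rw [h1, Complex.volume_preserving_equiv_real_prod.measure_preimage
    (measurableSet_Ico.prod measurableSet_Ico).nullMeasurableSet, Measure.volume_eq_prod,
    Measure.prod_prod, Real.volume_Ico, Real.volume_Ico, ENNReal.ofReal_mul (by linarith)]

theorem box_image (b : ℝ) {N : ℕ} (i k : ℕ) :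
    ((↑) '' (box b N i k) : Set ℂ) = {z : ℂ | (b + i / N ≤ z.re ∧ z.re < b + (i + 1) / N) ∧
      (1 + (k : ℝ) / N ≤ z.im ∧ z.im < 1 + ((k : ℝ) + 1) / N)} := by
  ext z
  constructor
  · rintro ⟨w, ⟨h1, h2, h3, h4⟩, rfl⟩
    exact ⟨⟨h1, h2⟩, h3, h4⟩
  · rintro ⟨⟨h1, h2⟩, h3, h4⟩
    have hkN : 0 ≤ (k : ℝ) / N := by positivity
    exact ⟨⟨z, by linarith⟩, ⟨h1, h2, h3, h4⟩, rfl⟩

theorem box_vol (b : ℝ) {N : ℕ} (hN : 0 < N) (i : ℕ) {k : ℕ} (hk : k < N) :
    ENNReal.ofReal (1 / (4 * N ^ 2)) ≤ volume (box b N i k) ∧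
      volume (box b N i k) ≤ ENNReal.ofReal (1 / N ^ 2) := by
  have hN0 : (0 : ℝ) < N := by exact_mod_cast hN
  have hR : volume ((↑) '' (box b N i k) : Set ℂ) = ENNReal.ofReal (1 / N ^ 2) := by
    rw [box_image, rect_vol]
    · congr 1
      field_simp
      ring
    · have : (i : ℝ) / N ≤ (i + 1) / N := by gcongr; linarith
      linarith
  have hm : MeasurableSet ((↑) '' (box b N i k) : Set ℂ) :=
    measurableEmbedding_coe.measurableSet_image.2 (box_meas b N i k)
  rw [volume_eq_lintegral]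
  have hz : ∀ z ∈ ((↑) '' (box b N i k) : Set ℂ), 1 ≤ z.im ∧ z.im ≤ 2 := by
    intro z hz
    rw [box_image] at hz
    obtain ⟨-, h3, h4⟩ := hz
    have hkN : 0 ≤ (k : ℝ) / N := by positivity
    have hk1 : ((k : ℝ) + 1) / N ≤ 1 := by
      rw [div_le_one hN0]
      exact_mod_cast hk
    constructor <;> linarith
  constructor
  · calc ENNReal.ofReal (1 / (4 * N ^ 2)) = ENNReal.ofReal (1 / 4) * ENNReal.ofReal (1 / N ^ 2) := by
          rw [← ENNReal.ofReal_mul (by norm_num)]
          congr 1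
          field_simp
      _ = ∫⁻ _z : ℂ in (↑) '' (box b N i k), ENNReal.ofReal (1 / 4) := by
          rw [setLIntegral_const, hR]
      _ ≤ _ := by
          refine setLIntegral_mono' hm fun z hz' => ?_
          obtain ⟨h1, h2⟩ := hz z hz'
          rw [ENNReal.ofReal, ENNReal.coe_le_coe]
          rw [← NNReal.coe_le_coe, Real.coe_toNNReal _ (by norm_num)]
          push_cast
          rw [Real.norm_of_nonneg (by linarith), div_pow, one_pow]
          gcongr
          nlinarith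
  · calc _ ≤ ∫⁻ _z : ℂ in (↑) '' (box b N i k), 1 := by
          refine setLIntegral_mono' hm fun z hz' => ?_
          obtain ⟨h1, h2⟩ := hz z hz'
          rw [← ENNReal.coe_one, ENNReal.coe_le_coe, ← NNReal.coe_le_coe]
          push_cast
          rw [Real.norm_of_nonneg (by linarith), div_pow, one_pow]
          rw [div_le_one (by positivity)]
          nlinarith
      _ = _ := by
          rw [setLIntegral_one, hR]

variable {Ω : Type*} [MeasurableSpace Ω] (P : Measure Ω)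

/-- the event that the small square with the index `t` has exactly one point -/
def B (S : Ω → Set ℍ) (N : ℕ) (t : ℕ × Fin N × Fin N) : Set Ω :=
  {ω | (S ω ∩ box (t.1 : ℝ) N t.2.1 t.2.2).ncard = 1}

theorem B_meas {lam : ℝ≥0} {S : Ω → Set ℍ} (hS : IsPoissonProcess P lam S) (N : ℕ)
    (t : ℕ × Fin N × Fin N) : MeasurableSet (B S N t) :=
  hS.meas _ (box_meas _ _ _ _) (box_bdd _ _ _ _) (measurableSet_singleton 1)

theorem B_prob {lam : ℝ≥0} {S : Ω → Set ℍ} (hS : IsPoissonProcess P lam S) {N : ℕ} (hN : 0 < N)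
    (t : ℕ × Fin N × Fin N) :
    ENNReal.ofReal (Real.exp (-(lam * (1 / N ^ 2))) * (lam * (1 / (4 * N ^ 2)))) ≤ P (B S N t) := by
  have hN0 : (0 : ℝ) < N := by exact_mod_cast hN
  have h1 := hS.law _ (box_meas (t.1 : ℝ) N t.2.1 t.2.2) (box_bdd (t.1 : ℝ) N t.2.1 t.2.2)
  have h2 : P (B S N t) = poissonMeasure
      (lam * (volume (box (t.1 : ℝ) N t.2.1 t.2.2)).toNNReal) {1} := by
    rw [← h1, Measure.map_apply (hS.meas _ (box_meas _ _ _ _) (box_bdd _ _ _ _))
      (measurableSet_singleton 1)]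
    rfl
  rw [h2, poissonMeasure_singleton]
  obtain ⟨v1, v2⟩ := box_vol (t.1 : ℝ) hN t.2.1 t.2.2.isLt
  set v := volume (box (t.1 : ℝ) N t.2.1 t.2.2) with hv
  have hvt : v ≠ ∞ := ne_top_of_le_ne_top ENNReal.ofReal_ne_top v2
  have w1 : 1 / (4 * (N : ℝ) ^ 2) ≤ v.toReal := by
    rwa [ENNReal.ofReal_le_iff_le_toReal hvt] at v1
  have w2 : v.toReal ≤ 1 / (N : ℝ) ^ 2 := by
    exact ENNReal.toReal_le_of_le_ofReal (by positivity) v2
  refine ENNReal.ofReal_le_ofReal ?_
  rw [Nat.factorial_one, Nat.cast_one, div_one, pow_one]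
  have h3 : ((lam * v.toNNReal : ℝ≥0) : ℝ) = lam * v.toReal := by
    rw [NNReal.coe_mul]; rfl
  rw [h3]
  gcongr

theorem prod_formula {lam : ℝ≥0} {S : Ω → Set ℍ} (hS : IsPoissonProcess P lam S) {N : ℕ}
    (hN : 0 < N) (s : Finset ℕ) :
    P (⋂ j ∈ s, ⋂ q : Fin N × Fin N, B S N (j, q)) =
      ∏ j ∈ s, ∏ q : Fin N × Fin N, P (B S N (j, q)) := by
  classical
  let T := s × (Fin N × Fin N)
  let e : Fin (Fintype.card T) ≃ T := (Fintype.equivFin T).symm
  let A : Fin (Fintype.card T) → Set ℍ := fun x =>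
    box (((e x).1 : ℕ) : ℝ) N (e x).2.1 (e x).2.2
  have hI := hS.indep (Fintype.card T) A (fun x => box_meas _ _ _ _) (fun x => box_bdd _ _ _ _) (by
    intro x y hxy
    show Disjoint (A x) (A y)
    rw [Set.disjoint_iff_inter_eq_empty]
    by_contra hne
    obtain ⟨h1, h2, h3⟩ := box_disj hN (e x).2.1.isLt (e y).2.1.isLt
      (Set.nonempty_iff_ne_empty.2 hne)
    apply hxy
    apply e.injective
    exact Prod.ext (Subtype.ext h1) (Prod.ext (Fin.ext h2) (Fin.ext h3)))
  have h := hI.measure_inter_preimage_eq_mul (S := Finset.univ) (sets := fun _ => {1})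
    (fun _ _ => measurableSet_singleton 1)
  have e1 : (⋂ j ∈ s, ⋂ q : Fin N × Fin N, B S N (j, q)) =
      ⋂ x ∈ (Finset.univ : Finset (Fin (Fintype.card T))),
        (fun ω => (S ω ∩ A x).ncard) ⁻¹' {1} := by
    ext ω
    simp only [Set.mem_iInter, Finset.mem_univ, true_imp_iff]
    constructor
    · intro h1 x
      exact h1 (e x).1 (e x).1.2 (e x).2
    · intro h1 j hj q
      have h2 := h1 (e.symm (⟨j, hj⟩, q))
      have h3 : A (e.symm (⟨j, hj⟩, q)) = box (j : ℝ) N q.1 q.2 := by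
        simp only [A, Equiv.apply_symm_apply]
      rw [h3] at h2
      exact h2
  rw [e1, h]
  have e2 : ∀ x, P ((fun ω => (S ω ∩ A x).ncard) ⁻¹' {1}) = P (B S N (((e x).1 : ℕ), (e x).2)) :=
    fun x => rfl
  rw [Finset.prod_congr rfl fun x _ => e2 x,
    Equiv.prod_comp e (fun t : T => P (B S N ((t.1 : ℕ), t.2))), Fintype.prod_prod_type,
    ← Finset.prod_coe_sort s]

/-- the event that all small squares of a box have exactly one point -/
def Ev (S : Ω → Set ℍ) (N : ℕ) (j : ℕ) : Set Ω := ⋂ q : Fin N × Fin N, B S N (j, q)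

theorem exists_box {Ω : Type*} [MeasurableSpace Ω] (P : Measure Ω) [IsProbabilityMeasure P]
    (lam : ℝ≥0) (hlam : 0 < lam) (S : Ω → Set ℍ) (hS : IsPoissonProcess P lam S) (N : ℕ)
    (hN : 0 < N) :
    ∀ᵐ ω ∂P, ∃ b : ℝ, ∀ i < N, ∀ k < N, (S ω ∩ box b N i k).ncard = 1 := by
  have hN0 : (0 : ℝ) < N := by exact_mod_cast hN
  have hm : ∀ j, MeasurableSet (Ev S N j) := fun j =>
    MeasurableSet.iInter fun q => B_meas P hS N _
  have hP : ∀ j, P (Ev S N j) = ∏ q : Fin N × Fin N, P (B S N (j, q)) := by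
    intro j
    have := prod_formula P hS hN {j}
    simpa [Ev] using this
  have hind : iIndepSet (Ev S N) P := by
    rw [iIndepSet_iff_meas_biInter hm]
    intro s
    have := prod_formula P hS hN s
    rw [Finset.prod_congr rfl fun j _ => (hP j).symm] at this
    exact this
  let c : ℝ≥0∞ := ENNReal.ofReal (Real.exp (-(lam * (1 / N ^ 2))) * (lam * (1 / (4 * N ^ 2))))
  have hc : c ≠ 0 := by
    have : 0 < Real.exp (-(lam * (1 / (N : ℝ) ^ 2))) * (lam * (1 / (4 * (N : ℝ) ^ 2))) := by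
      have : (0 : ℝ) < lam := by exact_mod_cast hlam
      positivity
    exact (ENNReal.ofReal_pos.2 this).ne'
  have hge : ∀ j, c ^ Fintype.card (Fin N × Fin N) ≤ P (Ev S N j) := by
    intro j
    rw [hP j, ← Finset.card_univ]
    exact Finset.pow_card_le_prod _ _ _ fun q _ => B_prob P hS hN _
  have hsum : ∑' j, P (Ev S N j) = ∞ := by
    refine top_unique ?_
    rw [← ENNReal.tsum_const_eq_top_of_ne_zero (α := ℕ) (pow_ne_zero _ hc)]
    exact ENNReal.tsum_le_tsum hge
  have hlim := measure_limsup_eq_one hm hind hsum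
  have hae : Filter.limsup (Ev S N) Filter.atTop ∈ ae P :=
    (mem_ae_iff_prob_eq_one₀
      (MeasurableSet.measurableSet_limsup hm).nullMeasurableSet).2 hlim
  filter_upwards [hae] with ω hω
  rw [Filter.limsup_eq_iInf_iSup_of_nat] at hω
  have h1 : ω ∈ ⨆ j ≥ 0, Ev S N j := by
    have := Set.mem_iInter.1 hω 0
    exact this
  simp only [Set.iSup_eq_iUnion, Set.mem_iUnion] at h1
  obtain ⟨j, -, hj⟩ := h1
  refine ⟨(j : ℝ), fun i hi k hk => ?_⟩
  have := Set.mem_iInter.1 hj (⟨i, hi⟩, ⟨k, hk⟩)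
  exact this

end Pool.Agent.TH511.HVBox
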