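import Pool.Agent.TH37.RF.Defs

set_option autoImplicit false

namespace Pool.Agent.TH511.RF_SMALLREP

open Pool.Agent.TH37.RF

section
variable (F : Type) [Field F] (C : Type) [Ring C] [Algebra F C] (m : ℕ)

/-- representations over the algebraic closure with small entries -/
def Rp (n : ℕ) : Type :=
  {ψ : C →ₐ[F] Matrix (Fin n) (Fin n) (AlgebraicClosure F) // ∀ c i j, ψ c i j ^ (m + 1) = ψ c i j}

theorem finite_Z {L : Type} [Field L] (hm : 1 ≤ m) : Finite {t : L // t ^ (m + 1) = t} := by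
  classical
  have hp : (Polynomial.X ^ (m + 1) - Polynomial.X : Polynomial L) ≠ 0 := by
    intro h
    have h2 := congrArg (fun q => Polynomial.coeff q (m + 1)) h
    simp only [Polynomial.coeff_sub, Polynomial.coeff_X_pow_self, Polynomial.coeff_zero] at h2
    rw [Polynomial.coeff_X_of_ne_one (by omega)] at h2
    simp at h2
  have h1 : {t : L | t ^ (m + 1) = t} ⊆ ((Polynomial.X ^ (m + 1) - Polynomial.X : Polynomial L).roots.toFinset : Set L) := by
    intro t ht
    simp only [Finset.mem_coe, Multiset.mem_toFinset]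
    rw [Polynomial.mem_roots hp, Polynomial.IsRoot.def]
    simp only [Polynomial.eval_sub, Polynomial.eval_pow, Polynomial.eval_X]
    rw [Set.mem_ofPred_eq] at ht
    rw [ht, sub_self]
  exact ((Finset.finite_toSet _).subset h1).to_subtype

theorem finite_M {L : Type} [Field L] (hm : 1 ≤ m) (n : ℕ) :
    Finite {M : Matrix (Fin n) (Fin n) L // ∀ i j, M i j ^ (m + 1) = M i j} := by
  have := finite_Z m (L := L) hm
  apply Finite.of_injective (β := Fin n → Fin n → {t : L // t ^ (m + 1) = t})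
    (fun M i j => ⟨M.1 i j, M.2 i j⟩)
  intro M M' h
  apply Subtype.ext
  ext i j
  have := congrFun (congrFun h i) j
  exact congrArg Subtype.val this

theorem finite_Rp (ε : C →ₐ[F] F) (hfg : FGen ε) (hm : 1 ≤ m) (n : ℕ) : Finite (Rp F C m n) := by
  obtain ⟨r, b, -, hb⟩ := hfg
  have := finite_M m (L := AlgebraicClosure F) hm n
  apply Finite.of_injective (β := Fin r → {M : Matrix (Fin n) (Fin n) (AlgebraicClosure F) //
    ∀ i j, M i j ^ (m + 1) = M i j}) (fun ψ k => ⟨ψ.1 (b k), ψ.2 (b k)⟩)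
  intro ψ ψ' h
  apply Subtype.ext
  apply AlgHom.ext_of_adjoin_eq_top hb
  rintro _ ⟨k, rfl⟩
  exact congrArg Subtype.val (congrFun h k)

end

/-- JOB SMALLREP -/
theorem small_rep {F C : Type} [Field F] [Finite F] [Ring C] [Algebra F C] (ε : C →ₐ[F] F)
    (hfg : FGen ε) (n0 m : ℕ) (hm : 1 ≤ m) :
    ∃ (Q : Type) (_ : Ring Q) (_ : Algebra F Q) (_ : Finite Q) (φ : C →ₐ[F] Q),
      ∀ (n : ℕ) (D : Type) [Field D] [Algebra F D] (ψ : C →ₐ[F] Matrix (Fin n) (Fin n) D),
        n ≤ n0 → (∀ t : D, t ^ (m + 1) = t) → ∀ c, φ c = 0 → ψ c = 0 := by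
  have hf1 : ∀ n, Finite (Rp F C m n) := fun n => finite_Rp F C m ε hfg hm n
  have hf2 : ∀ i : (Σ n : Fin (n0 + 1), Rp F C m n), Finite (i.2.1).range := by
    intro i
    have := finite_M m (L := AlgebraicClosure F) hm i.1
    apply Finite.of_injective (β := {M : Matrix (Fin i.1) (Fin i.1) (AlgebraicClosure F) //
      ∀ i j, M i j ^ (m + 1) = M i j}) (fun M => ⟨M.1, by
        obtain ⟨_, c, rfl⟩ := M
        exact i.2.2 c⟩)
    intro M M' h
    apply Subtype.ext
    have h2 := congrArg Subtype.val h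
    exact h2
  refine ⟨∀ i : (Σ n : Fin (n0 + 1), Rp F C m n), (i.2.1).range, inferInstance, inferInstance,
    inferInstance, AlgHom.pi (fun i => (i.2.1).rangeRestrict), ?_⟩
  intro n D _ _ ψ hn hD c hc
  have halg : Algebra.IsAlgebraic F D := by
    constructor
    intro t
    refine ⟨Polynomial.X ^ (m + 1) - Polynomial.X, ?_, ?_⟩
    · intro h
      have h2 := congrArg (fun q => Polynomial.coeff q (m + 1)) h
      simp only [Polynomial.coeff_sub, Polynomial.coeff_X_pow_self, Polynomial.coeff_zero] at h2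
      rw [Polynomial.coeff_X_of_ne_one (by omega)] at h2
      simp at h2
    · simp only [map_sub, map_pow, Polynomial.aeval_X]
      rw [hD t, sub_self]
  let ι : D →ₐ[F] AlgebraicClosure F := IsAlgClosed.lift
  let ψ' : C →ₐ[F] Matrix (Fin n) (Fin n) (AlgebraicClosure F) := ι.mapMatrix.comp ψ
  have hψ' : ∀ c i j, ψ' c i j = ι (ψ c i j) := fun c i j => rfl
  let x : (Σ n : Fin (n0 + 1), Rp F C m n) := ⟨⟨n, Nat.lt_succ_of_le hn⟩, ⟨ψ', by
    intro c i j
    rw [hψ', ← map_pow, hD]⟩⟩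
  have h1 := congrFun hc x
  have h2 : ψ' c = 0 := congrArg Subtype.val h1
  ext i j
  have h3 : ψ' c i j = 0 := by rw [h2]; rfl
  rw [hψ'] at h3
  have h4 : ψ c i j = 0 := by
    apply ι.toRingHom.injective
    rw [map_zero]
    exact h3
  rw [h4]
  rfl

end Pool.Agent.TH511.RF_SMALLREP
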