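import Pool.Agent.TH37.RF.Defs
import Pool.Agent.TH511.RF_SMALLREP

set_option autoImplicit false

namespace Pool.Agent.TH511.RF_CHAR

open Pool.Agent.TH37.RF Pool.Agent.TH511.RF_SMALLREP

section
variable {F C Q' K : Type} [Field F] [Ring C] [Algebra F C] {ε : C →ₐ[F] F}
  [Ring Q'] [Algebra F Q'] {φ' : C →ₐ[F] Q'} [CommRing K] [IsDomain K] [Algebra F K]

theorem mem_cut {c : C} (h1 : φ' c = 0) (h2 : ε c = 0) : c ∈ Cut ε φ' := by
  unfold Cut
  rw [AlgHom.mem_equalizer, h1]
  simp [h2]

theorem of_cut {z : Cut ε φ'} (h : cutε ε φ' z = 0) : φ' z = 0 ∧ ε z = 0 := by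
  have h2 : ε z = 0 := h
  refine ⟨?_, h2⟩
  have h3 := z.2
  unfold Cut at h3
  rw [AlgHom.mem_equalizer] at h3
  rw [h3]
  simp [h2]

/-- elements of the cut ideal as elements of the subalgebra -/
def el (c : C) (h : φ' c = 0 ∧ ε c = 0) : Cut ε φ' := ⟨c, mem_cut h.1 h.2⟩

theorem left_mem (c : C) {y : C} (h : φ' y = 0 ∧ ε y = 0) : φ' (c * y) = 0 ∧ ε (c * y) = 0 := by
  rw [map_mul, map_mul, h.1, h.2, mul_zero, mul_zero]
  exact ⟨rfl, rfl⟩

theorem right_mem (c : C) {y : C} (h : φ' y = 0 ∧ ε y = 0) : φ' (y * c) = 0 ∧ ε (y * c) = 0 := by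
  rw [map_mul, map_mul, h.1, h.2, zero_mul, zero_mul]
  exact ⟨rfl, rfl⟩

theorem symm_rel (χ : Cut ε φ' →ₐ[F] K) {y : C} (hy : φ' y = 0 ∧ ε y = 0) (hχ : χ (el y hy) ≠ 0)
    (c : C) {y1 y2 : C} (h1 : φ' y1 = 0 ∧ ε y1 = 0) (h2 : φ' y2 = 0 ∧ ε y2 = 0) :
    χ (el (c * y1) (left_mem c h1)) * χ (el y2 h2) = χ (el (c * y2) (left_mem c h2)) * χ (el y1 h1) := by
  apply mul_left_cancel₀ hχ
  have e1 : χ (el y hy) * (χ (el (c * y1) (left_mem c h1)) * χ (el y2 h2)) =
      χ (el (y * c) (right_mem c hy)) * χ (el y1 h1) * χ (el y2 h2) := by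
    rw [← map_mul, ← map_mul, ← map_mul, ← map_mul]
    congr 1
    apply Subtype.ext
    show y * (c * y1 * y2) = y * c * y1 * y2
    simp only [mul_assoc]
  have e2 : χ (el y hy) * (χ (el (c * y2) (left_mem c h2)) * χ (el y1 h1)) =
      χ (el (y * c) (right_mem c hy)) * χ (el y2 h2) * χ (el y1 h1) := by
    rw [← map_mul, ← map_mul, ← map_mul, ← map_mul]
    congr 1
    apply Subtype.ext
    show y * (c * y2 * y1) = y * c * y2 * y1
    simp only [mul_assoc]
  rw [e1, e2]
  ring

/-- extension of the character to the whole algebra -/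
noncomputable def psi (χ : Cut ε φ' →ₐ[F] K) {y : C} (hy : φ' y = 0 ∧ ε y = 0)
    (hχ : χ (el y hy) ≠ 0) : C →ₐ[F] FractionRing K where
  toFun c := algebraMap K (FractionRing K) (χ (el (c * y) (left_mem c hy))) /
    algebraMap K (FractionRing K) (χ (el y hy))
  map_one' := by
    have h : algebraMap K (FractionRing K) (χ (el y hy)) ≠ 0 := by
      rw [ne_eq, IsFractionRing.to_map_eq_zero_iff]; exact hχ
    have e : el (1 * y) (left_mem 1 hy) = el y hy := by
      apply Subtype.ext
      exact one_mul y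
    rw [e, div_self h]
  map_mul' c d := by
    have h : algebraMap K (FractionRing K) (χ (el y hy)) ≠ 0 := by
      rw [ne_eq, IsFractionRing.to_map_eq_zero_iff]; exact hχ
    rw [div_mul_div_comm, div_eq_div_iff h (mul_ne_zero h h)]
    have e1 := symm_rel χ hy hχ c (left_mem d hy) hy
    have e2 : el (c * (d * y)) (left_mem c (left_mem d hy)) = el (c * d * y) (left_mem (c * d) hy) := by
      apply Subtype.ext
      exact (mul_assoc c d y).symm
    rw [e2] at e1
    rw [← mul_assoc, ← map_mul, e1, map_mul]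
  map_zero' := by
    have e : el (0 * y) (left_mem 0 hy) = (0 : Cut ε φ') := by
      apply Subtype.ext
      exact zero_mul y
    rw [e, map_zero, map_zero, zero_div]
  map_add' c d := by
    have e : el ((c + d) * y) (left_mem (c + d) hy) =
        el (c * y) (left_mem c hy) + el (d * y) (left_mem d hy) := by
      apply Subtype.ext
      exact add_mul c d y
    rw [e, map_add, map_add, add_div]
  commutes' a := by
    have h : algebraMap K (FractionRing K) (χ (el y hy)) ≠ 0 := by
      rw [ne_eq, IsFractionRing.to_map_eq_zero_iff]; exact hχ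
    have e : el (algebraMap F C a * y) (left_mem _ hy) = algebraMap F (Cut ε φ') a * el y hy := by
      apply Subtype.ext
      rfl
    rw [e, map_mul, map_mul, AlgHom.commutes, mul_div_assoc, div_self h, mul_one,
      ← IsScalarTower.algebraMap_apply]

theorem small_values {p : Polynomial F} (hp : p ≠ 0) {N : ℕ} (hN : p.natDegree ≤ N)
    (χ : Cut ε φ' →ₐ[F] K) (h : ∀ z, cutε ε φ' z = 0 → Polynomial.aeval (χ z) p = 0)
    (z : Cut ε φ') (hz : cutε ε φ' z = 0) : χ z ^ (Nat.factorial (N + 1) + 1) = χ z := by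
  classical
  by_cases h0 : χ z = 0
  · rw [h0, zero_pow (by omega)]
  · have hpow : ∀ i : ℕ, χ z ^ (i + 1) ∈ (p.map (algebraMap F K)).roots.toFinset := by
      intro i
      have hpK : p.map (algebraMap F K) ≠ 0 := by
        rw [ne_eq, Polynomial.map_eq_zero_iff (algebraMap F K).injective]; exact hp
      rw [Multiset.mem_toFinset, Polynomial.mem_roots hpK, Polynomial.IsRoot.def,
        Polynomial.eval_map_algebraMap, ← map_pow]
      apply h
      rw [map_pow, hz, zero_pow (by omega)]
    have hcard : (p.map (algebraMap F K)).roots.toFinset.card < (Finset.range (N + 1)).card := by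
      rw [Finset.card_range]
      calc _ ≤ Multiset.card (p.map (algebraMap F K)).roots := Multiset.toFinset_card_le _
        _ ≤ (p.map (algebraMap F K)).natDegree := Polynomial.card_roots' _
        _ ≤ p.natDegree := Polynomial.natDegree_map_le
        _ < N + 1 := by omega
    obtain ⟨i, hi, j, hj, hij, he⟩ := Finset.exists_ne_map_eq_of_card_lt_of_maps_to hcard
      (f := fun i => χ z ^ (i + 1)) (fun i _ => hpow i)
    have key : ∀ i j : ℕ, i < j → j < N + 1 → χ z ^ (i + 1) = χ z ^ (j + 1) →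
        χ z ^ (Nat.factorial (N + 1)) = 1 := by
      intro i j hij hj he
      have h1 : χ z ^ (j - i) = 1 := by
        have h2 : χ z ^ (i + 1) * χ z ^ (j - i) = χ z ^ (i + 1) * 1 := by
          rw [← pow_add, mul_one, he]
          congr 1
          omega
        exact mul_left_cancel₀ (pow_ne_zero _ h0) h2
      obtain ⟨k, hk⟩ := Nat.dvd_factorial (show 0 < j - i by omega) (show j - i ≤ N + 1 by omega)
      rw [hk, pow_mul, h1, one_pow]
    have hfin : χ z ^ (Nat.factorial (N + 1)) = 1 := by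
      rcases lt_or_gt_of_ne hij with hlt | hlt
      · exact key i j hlt (Finset.mem_range.1 hj) he
      · exact key j i hlt (Finset.mem_range.1 hi) he.symm
    rw [pow_succ, hfin, one_mul]

end

/-- JOB CHAR -/
theorem no_small {F C : Type} [Field F] [Finite F] [Ring C] [Algebra F C] (ε : C →ₐ[F] F)
    (hfg : FGen ε) (N : ℕ) :
    ∃ (Q : Type) (_ : Ring Q) (_ : Algebra F Q) (_ : Finite Q) (φ : C →ₐ[F] Q),
      ∀ (Q' : Type) [Ring Q'] [Algebra F Q'] (φ' : C →ₐ[F] Q'), (∀ c, φ' c = 0 → φ c = 0) →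
        ∀ (K : Type) [CommRing K] [IsDomain K] [Algebra F K] (χ : Cut ε φ' →ₐ[F] K)
          (p : Polynomial F), p ≠ 0 → p.natDegree ≤ N →
          (∀ z, cutε ε φ' z = 0 → Polynomial.aeval (χ z) p = 0) →
          ∀ z, cutε ε φ' z = 0 → χ z = 0 := by
  obtain ⟨Q, i1, i2, i3, φ, hφ⟩ := small_rep ε hfg 1 (Nat.factorial (N + 1))
    (Nat.factorial_pos _)
  refine ⟨Q, i1, i2, i3, φ, ?_⟩
  intro Q' _ _ φ' hle K _ _ _ χ p hp hN h z hz
  by_contra hne
  have hy := of_cut hz
  have hel : el (z : C) hy = z := Subtype.ext rfl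
  have hχ : χ (el (z : C) hy) ≠ 0 := by rw [hel]; exact hne
  obtain ⟨m, hm⟩ : ∃ m, m = Nat.factorial (N + 1) := ⟨_, rfl⟩
  have hsv := small_values hp hN χ h
  rw [← hm] at hsv hφ
  have hval : ∀ c : C, psi χ hy hχ c ^ (m + 1) = psi χ hy hχ c := by
    intro c
    show (algebraMap K (FractionRing K) (χ (el (c * z) (left_mem c hy))) /
      algebraMap K (FractionRing K) (χ (el z hy))) ^ (m + 1) = _
    have e1 := congrArg (algebraMap K (FractionRing K)) (hsv (el (c * z) (left_mem c hy)) (left_mem c hy).2)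
    have e2 := congrArg (algebraMap K (FractionRing K)) (hsv (el z hy) hy.2)
    rw [map_pow] at e1 e2
    rw [div_pow, e1, e2]
    rfl
  -- the range is a finite field
  let D := (psi χ hy hχ).range
  have hD : ∀ t : D, t ^ (m + 1) = t := by
    rintro ⟨_, c, rfl⟩
    apply Subtype.ext
    exact hval c
  have hDfin : Finite D := by
    have := finite_Z m (L := FractionRing K) (hm ▸ Nat.factorial_pos _)
    apply Finite.of_injective (β := {t : FractionRing K // t ^ (m + 1) = t})
      (fun t => ⟨t.1, congrArg Subtype.val (hD t)⟩)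
    intro t t' h
    apply Subtype.ext
    have h2 := congrArg Subtype.val h
    exact h2
  let _ : Field D := (Finite.isField_of_domain D).toField
  let ψ : C →ₐ[F] Matrix (Fin 1) (Fin 1) D :=
    (Matrix.scalarAlgHom (Fin 1) F).comp (psi χ hy hχ).rangeRestrict
  have h1 := hφ 1 D ψ le_rfl hD z (hle _ hy.1)
  have h2 : (psi χ hy hχ).rangeRestrict (z : C) = 0 := by
    have := congrFun (congrFun h1 0) 0
    simpa [ψ] using this
  have h3 : psi χ hy hχ (z : C) = 0 := congrArg Subtype.val h2
  have h4 : psi χ hy hχ (z : C) = algebraMap K (FractionRing K) (χ (el z hy)) := by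
    show (algebraMap K (FractionRing K) (χ (el ((z : C) * z) (left_mem (z : C) hy))) /
      algebraMap K (FractionRing K) (χ (el z hy))) = _
    have h : algebraMap K (FractionRing K) (χ (el z hy)) ≠ 0 := by
      rw [ne_eq, IsFractionRing.to_map_eq_zero_iff]; exact hχ
    have e : el ((z : C) * z) (left_mem (z : C) hy) = el (z : C) hy * el (z : C) hy := Subtype.ext rfl
    rw [e, map_mul, map_mul, mul_div_assoc, div_self h, mul_one]
  rw [h4, IsFractionRing.to_map_eq_zero_iff] at h3
  exact hχ h3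

end Pool.Agent.TH511.RF_CHAR
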