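import Pool.Agent.TH511.J655

/-!
# Job 678 (PA-FINAL): final assembly from the main theorem
-/

set_option autoImplicit false

namespace Pool.Agent.TH511.J678

open Finset Pool.Agent.TH477.PA
open Pool.Agent.TH511.J655 (F_eq_pow edge_card)

theorem turan_edges (u n : ℕ) : Nat.card (SimpleGraph.turanGraph n u).edgeSet =
    (n ^ 2 - (n % u) ^ 2) * (u - 1) / (2 * u) + (n % u).choose 2 :=
  (edge_card _).symm.trans SimpleGraph.card_edgeFinset_turanGraph

theorem turan_upper (u n : ℕ) :
    2 * u * Nat.card (SimpleGraph.turanGraph n u).edgeSet ≤ (u - 1) * n ^ 2 := by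
  rw [← edge_card]
  exact SimpleGraph.mul_card_edgeFinset_turanGraph_le

theorem turan_lower (u n : ℕ) (hu : 1 ≤ u) :
    (1 - 1 / (u : ℝ)) * (n : ℝ) ^ 2 - ((u : ℝ) ^ 2 + 2) ≤
      2 * (Nat.card (SimpleGraph.turanGraph n u).edgeSet : ℝ) := by
  have hu0 : (0 : ℝ) < u := by exact_mod_cast (by omega : 0 < u)
  have h1 := turan_edges u n
  have hmod : n % u < u := Nat.mod_lt _ (by omega)
  set m := n % u with hm
  have hmn : m ≤ n := Nat.mod_le _ _
  set X := (n ^ 2 - m ^ 2) * (u - 1) with hX
  have h2 : X < 2 * u * (X / (2 * u) + 1) := by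
    have := Nat.lt_mul_div_succ X (show 0 < 2 * u by omega)
    exact this
  have h3 : (X : ℝ) < 2 * u * ((X / (2 * u) : ℕ) + 1) := by exact_mod_cast h2
  have h4 : (X : ℝ) = ((n : ℝ) ^ 2 - (m : ℝ) ^ 2) * ((u : ℝ) - 1) := by
    rw [hX, Nat.cast_mul, Nat.cast_sub (Nat.pow_le_pow_left hmn 2), Nat.cast_sub hu]
    push_cast; ring
  have h5 : (m : ℝ) ^ 2 ≤ (u : ℝ) ^ 2 := by
    have : (m : ℝ) ≤ u := by exact_mod_cast hmod.le
    exact pow_le_pow_left₀ (by positivity) this 2
  rw [h1]
  push_cast
  have h6 : (0 : ℝ) ≤ ((m.choose 2 : ℕ) : ℝ) := by positivity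
  have h7 : (1 - 1 / (u : ℝ)) * (n : ℝ) ^ 2 - ((u : ℝ) ^ 2 + 2) ≤
      2 * ((X / (2 * u) : ℕ) : ℝ) := by
    have e1 : (X : ℝ) / u < 2 * ((X / (2 * u) : ℕ) + 1) := by
      rw [div_lt_iff₀ hu0]
      linarith
    have e2 : (X : ℝ) / u = (1 - 1 / (u : ℝ)) * ((n : ℝ) ^ 2 - (m : ℝ) ^ 2) := by
      rw [h4]; field_simp
    rw [e2] at e1
    have h8 : 0 ≤ 1 - 1 / (u : ℝ) := by
      rw [sub_nonneg, div_le_one hu0]; exact_mod_cast hu
    have h9 : (1 - 1 / (u : ℝ)) * (m : ℝ) ^ 2 ≤ (u : ℝ) ^ 2 := by
      have h10 : 1 - 1 / (u : ℝ) ≤ 1 := by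
        have : 0 < 1 / (u : ℝ) := by positivity
        linarith
      calc (1 - 1 / (u : ℝ)) * (m : ℝ) ^ 2 ≤ 1 * (m : ℝ) ^ 2 :=
            mul_le_mul_of_nonneg_right h10 (by positivity)
        _ ≤ _ := by rw [one_mul]; exact h5
    linarith
  push_cast at h7
  linarith

/-- an isomorphism with the complete graph -/
theorem eq_top_of_iso {n : ℕ} {G : SimpleGraph (Fin n)}
    (h : Nonempty (G ≃g (⊤ : SimpleGraph (Fin n)))) : G = ⊤ := by
  obtain ⟨e⟩ := h
  ext x y
  rw [← e.map_rel_iff, SimpleGraph.top_adj, SimpleGraph.top_adj]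
  exact e.injective.ne_iff

/-- values of graphs isomorphic to the Turán graph -/
theorem F_turan {n : ℕ} (r k s : ℕ) (hk : 3 ≤ k) {G : SimpleGraph (Fin n)}
    (h : Nonempty (G ≃g SimpleGraph.turanGraph n (k - 1))) :
    F r k s G = r ^ Nat.card (SimpleGraph.turanGraph n (k - 1)).edgeSet := by
  classical
  obtain ⟨e⟩ := h
  have h1 := SimpleGraph.turanGraph_cliqueFree (n := n) (r := k - 1) (by omega)
  rw [show k - 1 + 1 = k by omega] at h1
  have h2 : G.CliqueFree k := SimpleGraph.CliqueFree.comap ⟨e.toEmbedding.toCopy⟩ h1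
  rw [F_eq_pow r k s G h2]
  congr 1
  exact Nat.card_congr e.mapEdgeSet

theorem exists_extremal (r k s n : ℕ) :
    ∃ G0 : SimpleGraph (Fin n), ∀ H : SimpleGraph (Fin n), F r k s H ≤ F r k s G0 := by
  classical
  obtain ⟨G0, _, hG0⟩ := Finset.exists_max_image (univ : Finset (SimpleGraph (Fin n)))
    (fun G => F r k s G) ⟨⊥, Finset.mem_univ _⟩
  exact ⟨G0, fun H => hG0 H (Finset.mem_univ _)⟩

/-- few colours -/
theorem F_small (r k s n : ℕ) (hrs : r < s) (G : SimpleGraph (Fin n)) :
    F r k s G = r ^ Nat.card G.edgeSet := by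
  unfold F
  have h1 : Nat.card {c : G.edgeSet → Fin r // ∀ S : Finset (Fin n), G.IsNClique k S →
      Set.ncard {i : Fin r | ∃ e : G.edgeSet, (∀ v ∈ (e : Sym2 (Fin n)), v ∈ S) ∧ c e = i} < s} =
      Nat.card (G.edgeSet → Fin r) := by
    refine Nat.card_congr (Equiv.subtypeUnivEquiv (fun c S _ => lt_of_le_of_lt ?_ hrs))
    have h2 := Set.ncard_le_ncard (Set.subset_univ {i : Fin r | ∃ e : G.edgeSet,
      (∀ v ∈ (e : Sym2 (Fin n)), v ∈ S) ∧ c e = i}) Set.finite_univ
    rw [Set.ncard_univ, Nat.card_eq_fintype_card, Fintype.card_fin] at h2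
    exact h2
  rw [h1, Nat.card_fun, Nat.card_eq_fintype_card (α := Fin r), Fintype.card_fin]

theorem top_edges (n : ℕ) : Nat.card (⊤ : SimpleGraph (Fin n)).edgeSet = n.choose 2 := by
  classical
  rw [← edge_card, SimpleGraph.card_edgeFinset_top_eq_card_choose_two, Fintype.card_fin]

theorem case_small (r k s n : ℕ) (hr : 2 ≤ r) (hrs : r < s) (G : SimpleGraph (Fin n)) :
    (∀ H : SimpleGraph (Fin n), F r k s H ≤ F r k s G) ↔
      Nonempty (G ≃g (⊤ : SimpleGraph (Fin n))) := by
  classical
  constructor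
  · intro h
    have h1 := h ⊤
    rw [F_small r k s n hrs, F_small r k s n hrs] at h1
    have h2 := (Nat.pow_le_pow_iff_right (by omega : 1 < r)).1 h1
    rw [← edge_card, ← edge_card] at h2
    have h3 : G.edgeFinset = (⊤ : SimpleGraph (Fin n)).edgeFinset :=
      Finset.eq_of_subset_of_card_le (SimpleGraph.edgeFinset_mono le_top) h2
    have h4 : G = ⊤ := SimpleGraph.edgeFinset_inj.1 h3
    rw [h4]
    exact ⟨SimpleGraph.Iso.refl⟩
  · intro h H
    rw [eq_top_of_iso h, F_small r k s n hrs, F_small r k s n hrs]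
    apply Nat.pow_le_pow_right (by omega)
    rw [← edge_card, ← edge_card]
    exact Finset.card_le_card (SimpleGraph.edgeFinset_mono le_top)

theorem J19_final
    (hMain : ∀ (k D r : ℕ) (ℓ : ℝ), Opt k D r ℓ → ∃ n0 : ℕ, ∀ n, n0 ≤ n →
      ∀ G : SimpleGraph (Fin n),
      (∀ H : SimpleGraph (Fin n), F r k (k.choose 2 + 1 - D) H ≤ F r k (k.choose 2 + 1 - D) G) →
      (G = ⊤ ∧ ∑ ψ : Sym2 (Fin n) → Fin r, ind (Good k (k.choose 2 + 1 - D) G Set.univ ψ) <
        2 * ∑ ψ : Sym2 (Fin n) → Fin r, ind (∃ (p : ℕ) (A : Finset (Fin r)),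
          IsType k D r ℓ p ∧ p ≠ k - 1 ∧ A.card = ct k D p ∧ Perf G p A ψ)) ∨
      (Nonempty (G ≃g SimpleGraph.turanGraph n (k - 1)) ∧ ((k - 1 : ℕ) : ℝ) * ℓ = Real.log r))
    (hCases : ∀ (k s : ℕ), 3 ≤ k → 3 ≤ s → s ≤ k.choose 2 →
      ∃ rstar : ℕ, (∀ r, r < s → r < rstar) ∧ ∀ r, s ≤ r →
      (r < rstar → ∃ (ℓ : ℝ) (p : ℕ), Opt k (k.choose 2 + 1 - s) r ℓ ∧
        IsType k (k.choose 2 + 1 - s) r ℓ p ∧ p ≠ k - 1 ∧
        (((k - 1 : ℕ) : ℝ) * ℓ < Real.log r ∨ (((k - 1 : ℕ) : ℝ) * ℓ = Real.log r ∧ 2 ≤ p))) ∧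
      (rstar ≤ r → ∃ ℓ : ℝ, Opt k (k.choose 2 + 1 - s) r ℓ ∧
        ((k - 1 : ℕ) : ℝ) * ℓ = Real.log r ∧
        ∀ p, IsType k (k.choose 2 + 1 - s) r ℓ p → p = 1 ∨ p = k - 1))
    (hTie : ∀ (k D r p c : ℕ), 1 ≤ D → 2 ≤ c → c < r → 2 ≤ p → k ≤ 2 * p → p + c + D = k →
      ∃ K : ℝ, 0 < K ∧ ∃ n0 : ℕ, ∀ n, n0 ≤ n →
      Real.exp ((Real.log r - (Real.log r - Real.log c) / p) * (n : ℝ) ^ 2 / 2 + K * n) ≤
      (F r k (k.choose 2 + 1 - D) (⊤ : SimpleGraph (Fin n)) : ℝ))
    (hNorm : ∀ (r k s n : ℕ) (G : SimpleGraph (Fin n)),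
      ∑ ψ : Sym2 (Fin n) → Fin r, ind (Good k s G Set.univ ψ) =
      (F r k s G : ℝ) * (r : ℝ) ^ (Fintype.card (Sym2 (Fin n)) - Nat.card G.edgeSet))
    (hTV : ∀ (k s r n : ℕ), 3 ≤ k → F r k s (SimpleGraph.turanGraph n (k - 1)) =
      r ^ Nat.card (SimpleGraph.turanGraph n (k - 1)).edgeSet)
    (hVal : ∀ (k s r n : ℕ), 3 ≤ k → 3 ≤ s → s ≤ r → s ≤ k.choose 2 →
      (∀ (A : Finset (Fin r)) , A.card = s - 1 →
      ∑ ψ : Sym2 (Fin n) → Fin r, ind (Perf (⊤ : SimpleGraph (Fin n)) 1 A ψ) =
      ((s - 1 : ℕ) : ℝ) ^ (n.choose 2) * (r : ℝ) ^ (Fintype.card (Sym2 (Fin n)) - n.choose 2))) :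
    ∀ k s : ℕ, 3 ≤ k → 3 ≤ s → s ≤ k.choose 2 →
      ∃ rstar : ℕ, ∀ r : ℕ, 2 ≤ r → ∃ n0 : ℕ, ∀ n : ℕ, n0 ≤ n →
        ∀ G : SimpleGraph (Fin n),
          ((∀ H : SimpleGraph (Fin n),
              Nat.card {c : H.edgeSet → Fin r //
                ∀ S : Finset (Fin n), H.IsNClique k S →
                  Set.ncard {i : Fin r | ∃ e : H.edgeSet,
                    (∀ v ∈ (e : Sym2 (Fin n)), v ∈ S) ∧ c e = i} < s}
              ≤ Nat.card {c : G.edgeSet → Fin r //
                ∀ S : Finset (Fin n), G.IsNClique k S →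
                  Set.ncard {i : Fin r | ∃ e : G.edgeSet,
                    (∀ v ∈ (e : Sym2 (Fin n)), v ∈ S) ∧ c e = i} < s}) ↔
            ((r < rstar ∧ Nonempty (G ≃g (⊤ : SimpleGraph (Fin n)))) ∨
              (rstar ≤ r ∧ Nonempty (G ≃g SimpleGraph.turanGraph n (k - 1))))) := by
  classical
  intro k s hk hs hsk
  obtain ⟨rstar, hst, hC⟩ := hCases k s hk hs hsk
  refine ⟨rstar, fun r hr => ?_⟩
  rcases lt_or_ge r s with hrs | hrs
  · -- few colours
    refine ⟨0, fun n _ G => ?_⟩
    change (∀ H : SimpleGraph (Fin n), F r k s H ≤ F r k s G) ↔ _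
    rw [case_small r k s n hr hrs G]
    have h1 := hst r hrs
    constructor
    · intro h
      exact Or.inl ⟨h1, h⟩
    · rintro (h | h)
      · exact h.2
      · exact absurd h.1 (by omega)
  · set D := k.choose 2 + 1 - s with hD
    have hD1 : 1 ≤ D := by omega
    have hDs : k.choose 2 + 1 - D = s := by omega
    have hDs' : k.choose 2 - D = s - 1 := by omega
    have hr0 : (0 : ℝ) < r := by exact_mod_cast (by omega : 0 < r)
    set L := Real.log r with hL
    have hLpos : 0 < L := Real.log_pos (by exact_mod_cast (by omega : 1 < r))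
    have hpow : ∀ j : ℕ, (r : ℝ) ^ j = Real.exp (j * L) := by
      intro j
      rw [Real.exp_nat_mul, Real.exp_log hr0]
    set u := k - 1 with hu
    have hu2 : 2 ≤ u := by omega
    have hu0 : (0 : ℝ) < u := by exact_mod_cast (by omega : 0 < u)
    rcases lt_or_ge r rstar with hlt | hge
    · -- the complete graph wins
      obtain ⟨ℓ, p, hO, hT, hpk, hcond⟩ := (hC r hrs).1 hlt
      obtain ⟨n1, hn1⟩ := hMain k D r ℓ hO
      rw [hDs] at hn1
      have key : ∃ n0 : ℕ, ∀ n : ℕ, n0 ≤ n → ∀ G : SimpleGraph (Fin n),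
          (∀ H : SimpleGraph (Fin n), F r k s H ≤ F r k s G) → G = ⊤ := by
        rcases hcond with hc | ⟨hc, hp2⟩
        · refine ⟨n1, fun n hn G hG => ?_⟩
          rcases hn1 n hn G hG with h | h
          · exact h.1
          · exact absurd h.2 hc.ne
        · obtain ⟨hT1, hT2, hT3, hT4⟩ := hT
          have hct : ct k D p = k - p - D := by
            unfold ct
            rw [if_neg (by omega)]
          rw [hct] at hT3 hT4
          obtain ⟨hk2p, hcc⟩ : k ≤ 2 * p ∧ 2 ≤ k - p - D := by
            rcases hT3 with h | ⟨h1, h2 | h2⟩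
            · omega
            · exact absurd h2 hpk
            · exact ⟨h1, h2⟩
          set c := k - p - D with hcdef
          have hkc : k ≤ k.choose 2 := by
            have := Nat.choose_symm_add (a := k - 2) (b := 2)
            obtain ⟨j, rfl⟩ : ∃ j, k = j + 3 := ⟨k - 3, by omega⟩
            rw [Nat.choose_two_right]
            have h1 : (j + 3) * (j + 3 - 1) = (j + 3) * (j + 2) := rfl
            rw [h1, Nat.le_div_iff_mul_le (by norm_num)]
            nlinarith
          have hcr : c < r := by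
            have := hO.hr
            omega
          obtain ⟨K, hK, n2, hn2⟩ := hTie k D r p c hD1 hcc hcr hp2 hk2p (by omega)
          rw [hDs] at hn2
          refine ⟨max n1 (max n2 1), fun n hn G hG => ?_⟩
          have hnn1 : n1 ≤ n := (le_max_left _ _).trans hn
          have hnn2 : n2 ≤ n := (le_max_left _ _).trans ((le_max_right _ _).trans hn)
          have hn3 : 1 ≤ n := (le_max_right _ _).trans ((le_max_right _ _).trans hn)
          have hnr : (1 : ℝ) ≤ (n : ℝ) := by exact_mod_cast hn3
          rcases hn1 n hnn1 G hG with h | h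
          · exact h.1
          · exfalso
            have hp0 : (0 : ℝ) < p := by exact_mod_cast (by omega : 0 < p)
            have hℓ : (Real.log r - Real.log c) / p = ℓ := by
              rw [← hT4, mul_comm, mul_div_assoc, div_self hp0.ne', mul_one]
            have h1 := hn2 n hnn2
            rw [hℓ] at h1
            have h2 : (F r k s G : ℝ) ≤ Real.exp ((L - ℓ) * (n : ℝ) ^ 2 / 2) := by
              rw [F_turan r k s hk h.1]
              push_cast
              rw [hpow]
              apply Real.exp_le_exp.2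
              have h3 := turan_upper u n
              have h4 : 2 * (u : ℝ) * (Nat.card (SimpleGraph.turanGraph n u).edgeSet : ℝ) ≤
                  ((u : ℝ) - 1) * (n : ℝ) ^ 2 := by
                have : ((u - 1 : ℕ) : ℝ) = (u : ℝ) - 1 := by
                  rw [Nat.cast_sub (by omega)]; simp
                rw [← this]
                exact_mod_cast h3
              have h5 : (u : ℝ) * (L - ℓ) = ((u : ℝ) - 1) * L := by
                have := h.2
                linarith
              have h6 : (u : ℝ) * ((Nat.card (SimpleGraph.turanGraph n u).edgeSet : ℝ) * L) ≤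
                  (u : ℝ) * ((L - ℓ) * (n : ℝ) ^ 2 / 2) := by
                have h7 := mul_le_mul_of_nonneg_right h4 hLpos.le
                have h8 : (u : ℝ) * ((L - ℓ) * (n : ℝ) ^ 2 / 2) =
                    (((u : ℝ) - 1) * L) * (n : ℝ) ^ 2 / 2 := by
                  rw [← h5]; ring
                rw [h8]
                linarith
              exact le_of_mul_le_mul_left h6 hu0
            have h3 : (F r k s (⊤ : SimpleGraph (Fin n)) : ℝ) ≤ F r k s G := by
              exact_mod_cast hG ⊤
            have h4 : Real.exp ((L - ℓ) * (n : ℝ) ^ 2 / 2) <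
                Real.exp ((L - ℓ) * (n : ℝ) ^ 2 / 2 + K * n) := by
              apply Real.exp_lt_exp.2
              have : 0 < K * n := by positivity
              linarith
            linarith
      obtain ⟨n0, hn0⟩ := key
      refine ⟨n0, fun n hn G => ?_⟩
      change (∀ H : SimpleGraph (Fin n), F r k s H ≤ F r k s G) ↔ _
      constructor
      · intro h
        rw [hn0 n hn G h]
        exact Or.inl ⟨hlt, ⟨SimpleGraph.Iso.refl⟩⟩
      · rintro (h | h)
        · obtain ⟨G0, hG0⟩ := exists_extremal r k s n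
          rw [eq_top_of_iso h.2, ← hn0 n hn G0 hG0]
          exact hG0
        · exact absurd h.1 (by omega)
    · -- the Turán graph wins
      obtain ⟨ℓ, hO, hℓ, htypes⟩ := (hC r hrs).2 hge
      obtain ⟨n1, hn1⟩ := hMain k D r ℓ hO
      rw [hDs] at hn1
      have key : ∃ n0 : ℕ, ∀ n : ℕ, n0 ≤ n → ∀ G : SimpleGraph (Fin n),
          (∀ H : SimpleGraph (Fin n), F r k s H ≤ F r k s G) →
          Nonempty (G ≃g SimpleGraph.turanGraph n u) := by
        by_cases hT1 : IsType k D r ℓ 1
        · have hlog : ℓ = L - Real.log ((s - 1 : ℕ) : ℝ) := by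
            have h1 := hT1.2.2.2
            unfold ct at h1
            rw [if_pos rfl, hDs'] at h1
            push_cast at h1
            push_cast
            linarith
          have hs1 : (1 : ℝ) < ((s - 1 : ℕ) : ℝ) := by exact_mod_cast (by omega : 1 < s - 1)
          set M := L - ℓ with hM
          have hMlog : M = Real.log ((s - 1 : ℕ) : ℝ) := by rw [hM, hlog]; ring
          have hMpos : 0 < M := by rw [hMlog]; exact Real.log_pos hs1
          set K0 : ℝ := (r + 1) * Real.log 2 + L * ((u : ℝ) ^ 2 + 2) / 2 with hK0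
          refine ⟨max n1 (⌈2 * K0 / M⌉₊ + 1), fun n hn G hG => ?_⟩
          have hnn1 : n1 ≤ n := (le_max_left _ _).trans hn
          have hnn2 : ⌈2 * K0 / M⌉₊ + 1 ≤ n := (le_max_right _ _).trans hn
          have hnK : 2 * K0 < M * n := by
            have h1 : 2 * K0 / M ≤ ((⌈2 * K0 / M⌉₊ : ℕ) : ℝ) := Nat.le_ceil _
            have h2 : ((⌈2 * K0 / M⌉₊ : ℕ) : ℝ) + 1 ≤ n := by exact_mod_cast hnn2
            have h3 : 2 * K0 / M < n := by linarith
            rw [div_lt_iff₀ hMpos] at h3
            linarith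
          rcases hn1 n hnn1 G hG with ⟨h1, h2⟩ | h
          · exfalso
            subst h1
            set T := Fintype.card (Sym2 (Fin n)) with hTdef
            have h3 : ∑ ψ : Sym2 (Fin n) → Fin r, ind (∃ (p : ℕ) (A : Finset (Fin r)),
                IsType k D r ℓ p ∧ p ≠ u ∧ A.card = ct k D p ∧
                  Perf (⊤ : SimpleGraph (Fin n)) p A ψ) ≤
                (2 : ℝ) ^ r * (((s - 1 : ℕ) : ℝ) ^ (n.choose 2) * (r : ℝ) ^ (T - n.choose 2)) := by
              have h4 : ∀ ψ : Sym2 (Fin n) → Fin r, ind (∃ (p : ℕ) (A : Finset (Fin r)),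
                IsType k D r ℓ p ∧ p ≠ u ∧ A.card = ct k D p ∧
                  Perf (⊤ : SimpleGraph (Fin n)) p A ψ) ≤
                  ∑ A ∈ (univ : Finset (Finset (Fin r))).filter (fun A => A.card = s - 1),
                    ind (Perf (⊤ : SimpleGraph (Fin n)) 1 A ψ) := by
                intro ψ
                by_cases h5 : ∃ (p : ℕ) (A : Finset (Fin r)),
                  IsType k D r ℓ p ∧ p ≠ u ∧ A.card = ct k D p ∧
                    Perf (⊤ : SimpleGraph (Fin n)) p A ψ
                · rw [ind_pos h5]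
                  obtain ⟨p, A, h6, h7, h8, h9⟩ := h5
                  have hp1 : p = 1 := by
                    rcases htypes p h6 with h10 | h10
                    · exact h10
                    · exact absurd h10 h7
                  subst hp1
                  have h10 : A.card = s - 1 := by
                    rw [h8]
                    unfold ct
                    rw [if_pos rfl, hDs']
                  have h10' : A ∈ (univ : Finset (Finset (Fin r))).filter
                      (fun A => A.card = s - 1) :=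
                    Finset.mem_filter.2 ⟨Finset.mem_univ A, h10⟩
                  have h11 := Finset.single_le_sum (f := fun A =>
                    ind (Perf (⊤ : SimpleGraph (Fin n)) 1 A ψ)) (fun A _ => ind_nonneg _) h10'
                  rw [ind_pos h9] at h11
                  exact h11
                · rw [ind_neg h5]
                  exact Finset.sum_nonneg fun A _ => ind_nonneg _
              refine (Finset.sum_le_sum fun ψ _ => h4 ψ).trans ?_
              rw [Finset.sum_comm]
              have h5 : ∀ A ∈ (univ : Finset (Finset (Fin r))).filter (fun A => A.card = s - 1),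
                  ∑ ψ : Sym2 (Fin n) → Fin r, ind (Perf (⊤ : SimpleGraph (Fin n)) 1 A ψ) =
                  ((s - 1 : ℕ) : ℝ) ^ (n.choose 2) * (r : ℝ) ^ (T - n.choose 2) := fun A hA =>
                hVal k s r n hk hs hrs hsk A (Finset.mem_filter.1 hA).2
              rw [Finset.sum_congr rfl h5, Finset.sum_const, nsmul_eq_mul]
              apply mul_le_mul_of_nonneg_right _ (by positivity)
              have h6 : ((univ : Finset (Finset (Fin r))).filter (fun A => A.card = s - 1)).card ≤
                  2 ^ r := by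
                refine (Finset.card_filter_le _ _).trans ?_
                rw [Finset.card_univ, Fintype.card_finset, Fintype.card_fin]
              exact_mod_cast h6
            rw [hNorm, top_edges, ← hTdef] at h2
            have hrT : (0 : ℝ) < (r : ℝ) ^ (T - n.choose 2) := by positivity
            have h4 : (F r k s (⊤ : SimpleGraph (Fin n)) : ℝ) <
                2 ^ (r + 1) * ((s - 1 : ℕ) : ℝ) ^ (n.choose 2) := by
              have h5 : (F r k s (⊤ : SimpleGraph (Fin n)) : ℝ) * (r : ℝ) ^ (T - n.choose 2) <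
                  (2 ^ (r + 1) * ((s - 1 : ℕ) : ℝ) ^ (n.choose 2)) *
                    (r : ℝ) ^ (T - n.choose 2) := by
                refine lt_of_lt_of_le h2 ?_
                have h6 := mul_le_mul_of_nonneg_left h3 (by norm_num : (0 : ℝ) ≤ 2)
                refine h6.trans (le_of_eq ?_)
                ring
              exact lt_of_mul_lt_mul_right h5 hrT.le
            have h5 : (F r k s (SimpleGraph.turanGraph n u) : ℝ) ≤
                F r k s (⊤ : SimpleGraph (Fin n)) := by exact_mod_cast hG _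
            rw [hTV k s r n hk] at h5
            push_cast at h5
            have h6 := lt_of_le_of_lt h5 h4
            set e := Nat.card (SimpleGraph.turanGraph n u).edgeSet with he
            have hs0 : (0 : ℝ) < ((s - 1 : ℕ) : ℝ) := by linarith
            have h7 := Real.log_lt_log (by positivity) h6
            rw [Real.log_mul (by positivity) (by positivity), Real.log_pow, Real.log_pow,
              Real.log_pow, ← hL, ← hMlog] at h7
            have h8 := turan_lower u n (by omega)
            rw [← he] at h8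
            have h9 : (((n.choose 2 : ℕ)) : ℝ) = ((n : ℝ) ^ 2 - n) / 2 := by
              rw [Nat.cast_choose_two]; ring
            rw [h9] at h7
            have h10 : (1 - 1 / (u : ℝ)) * L = M := by
              have hLu : L / u = ℓ := by
                rw [div_eq_iff hu0.ne']
                linarith
              have e1 : (1 - 1 / (u : ℝ)) * L = L - L / u := by ring
              rw [e1, hLu]
            have h11 := mul_le_mul_of_nonneg_right h8 hLpos.le
            have h12 : ((1 - 1 / (u : ℝ)) * (n : ℝ) ^ 2 - ((u : ℝ) ^ 2 + 2)) * L =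
                M * (n : ℝ) ^ 2 - L * ((u : ℝ) ^ 2 + 2) := by
              rw [← h10]; ring
            rw [h12] at h11
            push_cast at h7
            have h13 : 2 * K0 = 2 * ((r + 1) * Real.log 2) + L * ((u : ℝ) ^ 2 + 2) := by
              rw [hK0]; ring
            nlinarith
          · exact h.1
        · refine ⟨n1, fun n hn G hG => ?_⟩
          rcases hn1 n hn G hG with ⟨h1, h2⟩ | h
          · exfalso
            have h3 : ∀ ψ : Sym2 (Fin n) → Fin r, ind (∃ (p : ℕ) (A : Finset (Fin r)),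
                IsType k D r ℓ p ∧ p ≠ u ∧ A.card = ct k D p ∧ Perf G p A ψ) = 0 := by
              intro ψ
              apply ind_neg
              rintro ⟨p, A, h4, h5, _⟩
              rcases htypes p h4 with h6 | h6
              · exact hT1 (h6 ▸ h4)
              · exact h5 h6
            rw [Finset.sum_congr rfl (fun ψ _ => h3 ψ), Finset.sum_const_zero, mul_zero] at h2
            have h4 : 0 ≤ ∑ ψ : Sym2 (Fin n) → Fin r, ind (Good k s G Set.univ ψ) :=
              Finset.sum_nonneg fun ψ _ => ind_nonneg _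
            linarith
          · exact h.1
      obtain ⟨n0, hn0⟩ := key
      refine ⟨n0, fun n hn G => ?_⟩
      change (∀ H : SimpleGraph (Fin n), F r k s H ≤ F r k s G) ↔ _
      constructor
      · intro h
        exact Or.inr ⟨hge, hn0 n hn G h⟩
      · rintro (h | h)
        · exact absurd h.1 (by omega)
        · obtain ⟨G0, hG0⟩ := exists_extremal r k s n
          have h1 := F_turan r k s hk (hn0 n hn G0 hG0)
          have h2 := F_turan r k s hk h.2
          intro H
          rw [h2, ← h1]
          exact hG0 H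

end Pool.Agent.TH511.J678
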