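import Pool.Agent.TH28.FL.DatK

/-! Basic facts on `dL` and `rK` (own copies, used for the jobs 1844 and 1846). -/

set_option autoImplicit false

universe u v

namespace Pool.Agent.TH511.FL

open Module TensorProduct Pool.Agent.TH28.FL

section

variable {k : Type u} [Field k] {s : Type v} [LieRing s] [LieAlgebra k s]
  {K : Type u} [Field K] [Algebra k K]

theorem dL_tmul (δ : Derivation k K K) (a : K) (x : s) : dL s δ (a ⊗ₜ[k] x) = δ a ⊗ₜ[k] x := rfl

theorem dL_smul (δ : Derivation k K K) (c : K) (x : K ⊗[k] s) :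
    dL s δ (c • x) = δ c • x + c • dL s δ x := by
  induction x using TensorProduct.induction_on with
  | zero => rw [smul_zero, map_zero, smul_zero, smul_zero, add_zero]
  | tmul a x =>
    rw [TensorProduct.smul_tmul', dL_tmul, dL_tmul, smul_eq_mul, Derivation.leibniz, TensorProduct.add_tmul,
      TensorProduct.smul_tmul', TensorProduct.smul_tmul', smul_eq_mul, smul_eq_mul, smul_eq_mul,
      mul_comm a, add_comm]
  | add x y hx hy =>
    rw [smul_add, map_add, hx, hy, smul_add, map_add, smul_add]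
    abel

theorem dL_lie (δ : Derivation k K K) (x y : K ⊗[k] s) :
    dL s δ ⁅x, y⁆ = ⁅dL s δ x, y⁆ + ⁅x, dL s δ y⁆ := by
  induction x using TensorProduct.induction_on with
  | zero => rw [zero_lie, map_zero, zero_lie, zero_lie, add_zero]
  | tmul a x =>
    induction y using TensorProduct.induction_on with
    | zero => rw [lie_zero, map_zero, lie_zero, lie_zero, add_zero]
    | tmul b y =>
      rw [LieAlgebra.ExtendScalars.bracket_tmul, dL_tmul, dL_tmul, dL_tmul,
        LieAlgebra.ExtendScalars.bracket_tmul, LieAlgebra.ExtendScalars.bracket_tmul, Derivation.leibniz,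
        TensorProduct.add_tmul, smul_eq_mul, smul_eq_mul, mul_comm b, add_comm]
    | add y z hy hz =>
      rw [lie_add, map_add, hy, hz, lie_add, map_add, lie_add]
      abel
  | add x z hx hz =>
    rw [add_lie, map_add, hx, hz, add_lie, map_add, add_lie]
    abel

theorem dL_add_der (δ δ' : Derivation k K K) (x : K ⊗[k] s) :
    dL s (δ + δ') x = dL s δ x + dL s δ' x := by
  induction x using TensorProduct.induction_on with
  | zero => rw [map_zero, map_zero, map_zero, add_zero]
  | tmul a x => rw [dL_tmul, dL_tmul, dL_tmul, Derivation.add_apply, TensorProduct.add_tmul]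
  | add x y hx hy =>
    rw [map_add, hx, hy, map_add, map_add]
    abel

theorem dL_smul_der (c : K) (δ : Derivation k K K) (x : K ⊗[k] s) :
    dL s (c • δ) x = c • dL s δ x := by
  induction x using TensorProduct.induction_on with
  | zero => rw [map_zero, map_zero, smul_zero]
  | tmul a x => rw [dL_tmul, dL_tmul, Derivation.smul_apply, TensorProduct.smul_tmul']
  | add x y hx hy => rw [map_add, hx, hy, map_add, smul_add]

theorem dL_bracket (δ δ' : Derivation k K K) (x : K ⊗[k] s) :
    dL s ⁅δ, δ'⁆ x = dL s δ (dL s δ' x) - dL s δ' (dL s δ x) := by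
  induction x using TensorProduct.induction_on with
  | zero => rw [map_zero, map_zero, map_zero, map_zero, sub_zero]
  | tmul a x =>
    rw [dL_tmul, dL_tmul, dL_tmul, dL_tmul, dL_tmul, Derivation.commutator_apply, TensorProduct.sub_tmul]
  | add x y hx hy =>
    rw [map_add, hx, hy, map_add, map_add, map_add, map_add]
    abel

theorem mem_rK_induction {r : Submodule k s} {p : K ⊗[k] s → Prop} (h1 : ∀ v ∈ r, p (1 ⊗ₜ[k] v)) (h0 : p 0)
    (hadd : ∀ x y, p x → p y → p (x + y)) (hs : ∀ (c : K) x, x ∈ rK K r → p x → p (c • x)) {x : K ⊗[k] s}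
    (hx : x ∈ rK K r) : p x := by
  have hx' : x ∈ Submodule.span K ((r.map (TensorProduct.mk k K s 1) : Submodule k (K ⊗[k] s)) : Set (K ⊗[k] s)) := by
    rw [← Submodule.baseChange_eq_span]
    exact hx
  induction hx' using Submodule.span_induction with
  | mem x h =>
    obtain ⟨v, hv, rfl⟩ := h
    exact h1 v hv
  | zero => exact h0
  | add x y a b ha hb =>
    refine hadd x y (ha ?_) (hb ?_)
    · unfold rK
      rw [Submodule.baseChange_eq_span]
      exact a
    · unfold rK
      rw [Submodule.baseChange_eq_span]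
      exact b
  | smul c x a ha =>
    have : x ∈ rK K r := by
      unfold rK
      rw [Submodule.baseChange_eq_span]
      exact a
    exact hs c x this (ha this)

theorem tmul_mem_rK {r : Submodule k s} (a : K) {v : s} (hv : v ∈ r) : a ⊗ₜ[k] v ∈ rK K r :=
  Submodule.tmul_mem_baseChange_of_mem a hv

theorem dL_rK {r : Submodule k s} (δ : Derivation k K K) {x : K ⊗[k] s} (hx : x ∈ rK K r) :
    dL s δ x ∈ rK K r := by
  refine mem_rK_induction (p := fun x => dL s δ x ∈ rK K r) ?_ ?_ ?_ ?_ hx
  · intro v hv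
    rw [dL_tmul]
    exact tmul_mem_rK _ hv
  · rw [map_zero]; exact zero_mem _
  · intro x y hx hy
    rw [map_add]; exact add_mem hx hy
  · intro c x hx h
    rw [dL_smul]
    exact add_mem (Submodule.smul_mem _ _ hx) (Submodule.smul_mem _ _ h)

theorem rK_lie (r : LieSubalgebra k s) {x y : K ⊗[k] s} (hx : x ∈ rK K r.toSubmodule)
    (hy : y ∈ rK K r.toSubmodule) : ⁅x, y⁆ ∈ rK K r.toSubmodule := by
  refine mem_rK_induction (p := fun x => ⁅x, y⁆ ∈ rK K r.toSubmodule) ?_ ?_ ?_ ?_ hx
  · intro v hv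
    refine mem_rK_induction (p := fun y => ⁅(1 : K) ⊗ₜ[k] v, y⁆ ∈ rK K r.toSubmodule) ?_ ?_ ?_ ?_ hy
    · intro v' hv'
      rw [LieAlgebra.ExtendScalars.bracket_tmul]
      exact tmul_mem_rK _ (r.lie_mem hv hv')
    · rw [lie_zero]; exact zero_mem _
    · intro a b ha hb
      rw [lie_add]; exact add_mem ha hb
    · intro c a _ ha
      rw [lie_smul]; exact Submodule.smul_mem _ _ ha
  · rw [zero_lie]; exact zero_mem _
  · intro a b ha hb
    rw [add_lie]; exact add_mem ha hb
  · intro c a _ ha
    rw [smul_lie]; exact Submodule.smul_mem _ _ ha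

theorem vel_dg {δ : Derivation k K K} {w A x : K ⊗[k] s} {j : ℤ} (hA : dL s δ w = ⁅A, w⁆)
    (hx : x ∈ dg K w j) : dL s δ x - ⁅A, x⁆ ∈ dg K w j := by
  rw [mem_dg] at hx ⊢
  have h1 := congrArg (dL s δ) hx
  rw [dL_lie, hA, dL_smul] at h1
  have h2 : δ ((j : ℤ) : K) = 0 := Derivation.map_intCast δ j
  rw [h2, zero_smul, zero_add] at h1
  have h3 := congrArg (fun z => ⁅A, z⁆) hx
  rw [leibniz_lie, lie_smul] at h3
  rw [lie_sub, smul_sub, ← h1, ← h3]
  abel

theorem vel_bb {δ : Derivation k K K} {w A x : K ⊗[k] s} (hA : dL s δ w = ⁅A, w⁆)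
    (hx : x ∈ bb K w) : dL s δ x - ⁅A, x⁆ ∈ bb K w := by
  obtain ⟨t, f, ht, hf, rfl⟩ := exists_sum_of_mem hx
  rw [map_sum, lie_sum, ← Finset.sum_sub_distrib]
  exact Submodule.sum_mem _ fun j hj => le_bb w (ht j hj) (vel_dg hA (hf j))

end

end Pool.Agent.TH511.FL
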