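import Pool.Agent.TH511.Z361.D
import Pool.Agent.TH563.Z.Defs

/-!
# Job 361 (Z-BND): bounds of the kernel on the line `Im = η`
-/

set_option autoImplicit false

namespace Pool.Agent.TH511.J361

open Filter Finset Topology MeasureTheory
open Pool.Agent.W711.HT hiding XX
open Pool.Agent.TH511.Z361 hiding gd
open Pool.Agent.TH563.Z
open scoped Real

lemma u0_dz (η : ℝ) : u0 η = 2 * π * dz η := by
  unfold u0 dz c0
  have hπ := Real.pi_pos
  field_simp

lemma WW_AA {η : ℝ} (hη : 0 ≤ η) : WW η = AA η := by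
  rw [WW_eq hη]
  rfl

lemma cut_lt {ε : ℝ} (hε0 : 0 < ε) (hε : ε < 1 / 4) {N d : ℕ} (hd : d < cut ε N) :
    d < N ∧ 2 * π * ((d : ℝ) / N) ≤ π + 2 * π * ε := by
  have hπ := Real.pi_pos
  unfold cut at hd
  rw [Nat.lt_ceil] at hd
  have hN0 : (0 : ℝ) ≤ N := Nat.cast_nonneg N
  have hd0 : (0 : ℝ) ≤ d := Nat.cast_nonneg d
  have hN : (0 : ℝ) < N := by
    rcases hN0.eq_or_lt with h | h
    · rw [← h, mul_zero] at hd
      linarith
    · exact h
  constructor
  · have h1 : (d : ℝ) < N := by nlinarith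
    exact_mod_cast h1
  · have h1 : (d : ℝ) / N ≤ 1 / 2 + ε := by
      rw [div_le_iff₀ hN]
      exact hd.le
    nlinarith

theorem bndz : Pool.Agent.TH563.Z.S_BNDZ := by
  intro η hη
  have hπ := Real.pi_pos
  have hη0 : 0 < η := hη.1
  obtain ⟨ε, hε0, hε1, H⟩ := choose_eps hη0.le
  refine ⟨ε, hε0, hε1, ?_, ?_⟩
  · intro r hr
    obtain ⟨κ, hκ, h1⟩ := gap_far hη0.le hε1 H (r := 2 * π * r) (by positivity)
    obtain ⟨τ, hτ, h2⟩ := fin hη0 (ε := κ / 2) (by positivity)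
    refine ⟨κ / 2, by positivity, τ, hτ, ?_⟩
    filter_upwards [h2] with N h2
    intro d hd hdr x y x' y' hx hy hx' hy'
    obtain ⟨hdN, hdu⟩ := cut_lt hε0 hε1 hd
    have hS := Pool.Agent.W688.HT.Sd_pos hdN
    refine (h2 d hdN x y x' y' hx hy hx' hy').trans ?_
    apply mul_le_mul_of_nonneg_left _ (by positivity)
    apply Real.exp_le_exp.2
    apply mul_le_mul_of_nonneg_left _ (Nat.cast_nonneg N)
    have h3 := h1 (2 * π * ((d : ℝ) / N)) x x' (by positivity) hdu (by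
      rw [u0_dz, ← mul_sub, abs_mul, abs_of_pos (by positivity : 0 < 2 * π)]
      exact mul_le_mul_of_nonneg_left hdr (by positivity)) hx hx'
    rw [WW_AA hη0.le] at h3
    linarith
  · obtain ⟨c, hc, h1⟩ := quad hη0.le hε1 H
    refine ⟨1, c, one_pos, le_rfl, hc, ?_⟩
    intro ε' hε'
    obtain ⟨τ, hτ, h2⟩ := fin hη0 hε'
    refine ⟨τ, hτ, ?_⟩
    filter_upwards [h2] with N h2
    intro d hd x y x' y' hx hy hx' hy'
    obtain ⟨hdN, hdu⟩ := cut_lt hε0 hε1 hd
    have hS := Pool.Agent.W688.HT.Sd_pos hdN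
    refine (h2 d hdN x y x' y' hx hy hx' hy').trans ?_
    apply mul_le_mul_of_nonneg_left _ (by positivity)
    apply Real.exp_le_exp.2
    apply mul_le_mul_of_nonneg_left _ (Nat.cast_nonneg N)
    have h3 := h1 (2 * π * ((d : ℝ) / N)) x x' (by positivity) hdu hx hx'
    rw [WW_AA hη0.le] at h3
    linarith

end Pool.Agent.TH511.J361
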