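import Mathlib
import Pool.Agent.Helper549.Tri.DataDef
import Pool.Agent.TH387.Base
import Pool.Agent.TH387.ShapeH
import Pool.Agent.TH511.J45
set_option autoImplicit false
set_option maxHeartbeats 2000000
noncomputable section
open scoped BigOperators

namespace Pool.Agent.TH511.J46
open Pool.Agent.Helper549.Tri

/-- a rational linear relation for an irrational number is trivial -/
theorem irr2 {x : ℝ} (hx : ¬ ∃ q : ℚ, x = q) {p q : ℚ} (h : p * x + q = 0) : p = 0 ∧ q = 0 := by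
  by_cases hp : p = 0
  · subst hp
    have h1 : (q : ℝ) = 0 := by push_cast at h; linarith
    exact ⟨rfl, by exact_mod_cast h1⟩
  · exfalso
    apply hx
    have hp' : (p : ℝ) ≠ 0 := by exact_mod_cast hp
    refine ⟨-q / p, ?_⟩
    push_cast
    rw [eq_div_iff hp']
    linear_combination h

end Pool.Agent.TH511.J46

namespace Pool.Agent.TH387
open Pool.Agent.Helper549.Tri Pool.Agent.TH511.J45 Pool.Agent.TH511.J46

theorem shape_u3 {N : ℕ} (hN : ¬ IsSquare N) : ShapeH N ![![2,1,0],![1,1,0],![0,1,0]] := by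
  intro ℓ θ S A β h hcor
  have hA0 : A 0 = 2 * θ 0 + θ 1 := by simpa [Fin.sum_univ_three] using h.angles 0
  have hA1 : A 1 = θ 0 + θ 1 := by simpa [Fin.sum_univ_three] using h.angles 1
  have hA2 : A 2 = θ 1 := by simpa [Fin.sum_univ_three] using h.angles 2
  have hAs := h.Asum
  have h3 : θ 0 + θ 1 = Real.pi / 3 := by linarith
  obtain ⟨t, ht0, ht2, hsg, hs3, e1, e2, g1, g2, law⟩ := setup h h3
  obtain ⟨a, ha⟩ : ∃ a, a = ℓ 0 := ⟨_, rfl⟩
  obtain ⟨b, hb⟩ : ∃ b, b = ℓ 1 := ⟨_, rfl⟩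
  obtain ⟨c, hc⟩ : ∃ c, c = ℓ 2 := ⟨_, rfl⟩
  have ha0 : 0 < a := ha ▸ h.lpos 0
  have hb0 : 0 < b := hb ▸ h.lpos 1
  have hc0 : 0 < c := hc ▸ h.lpos 2
  rw [← ha, ← hc] at e1
  rw [← hb, ← hc] at e2
  rw [← ha, ← hb, ← hc] at g1 g2 law
  have sA0 : c * Real.sin (A 0) = t * (a + b) := by
    have : A 0 = θ 0 + Real.pi / 3 := by linarith
    rw [this, Real.sin_add, Real.cos_pi_div_three, hs3]
    linear_combination t * g1 - (1 / 2) * e1
  have sA1 : Real.sin (A 1) = t := by
    rw [hA1, h3, hs3]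
  have sA2 : c * Real.sin (A 2) = t * b := by
    rw [hA2, ← e2]; ring
  have q1 := h.sineT 0 1
  have q2 := h.sineT 2 1
  rw [sA1] at q1 q2
  obtain ⟨k, hk⟩ : ∃ k, k = S 1 / c := ⟨_, rfl⟩
  have hS1 : S 1 = k * c := by rw [hk]; field_simp
  have hk0 : 0 < k := by rw [hk]; have := h.Spos 1; positivity
  have hS0' : S 0 = k * (a + b) := by
    have : (t * c) * S 0 = (t * c) * (k * (a + b)) := by
      linear_combination c * q1 + S 1 * sA0 + t * (a + b) * hS1
    exact mul_left_cancel₀ (by positivity) this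
  have hS2' : S 2 = k * b := by
    have : (t * c) * S 2 = (t * c) * (k * b) := by
      linear_combination c * q2 + S 1 * sA2 + t * b * hS1
    exact mul_left_cancel₀ (by positivity) this
  have har := h.area
  rw [hsg, ← ha, ← hb] at har
  have harea : (N : ℝ) * a = k ^ 2 * (a + b) := by
    have h1 : (N : ℝ) * (a * b * t) = k ^ 2 * (a + b) * (c * Real.sin (A 2)) := by
      rw [hS0', hS1] at har
      linear_combination har
    rw [sA2] at h1
    have h2 : (b * t) * ((N : ℝ) * a) = (b * t) * (k ^ 2 * (a + b)) := by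
      linear_combination h1
    exact mul_left_cancel₀ (by positivity) h2
  obtain ⟨M, hM1, -, hM3, -⟩ := h.char ![1, -1, 1] (by intro k; fin_cases k <;> simp) (by simp)
    ⟨2, by decide⟩ (by decide)
  obtain ⟨n, hn1, -, hn3, -⟩ := h.char ![-1, 1, 1] (by intro k; fin_cases k <;> simp) (by simp)
    ⟨2, by decide⟩ (by decide)
  obtain ⟨m, hmM⟩ : ∃ m : ℤ, m = -M := ⟨_, rfl⟩
  have hM' : M = -m := by omega
  subst hM'
  obtain ⟨y, u, w, hy1, hy2, hu0, hw0, hud, hwd, hau, hcw, hlaw⟩ := paramY ha0 hb0 hc0 law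
  have hd0 : 0 < 2 * y - 1 := by linarith
  have hd2 : 0 < 2 - y := by linarith
  have hd1 : 0 < 1 - y := by linarith
  have hy0 : 0 < y := by linarith
  have hm : k * (u + 2 + w) = m * (u - 1 + w) := by
    simp [Fin.sum_univ_three, Fin.prod_univ_three, ← ha, ← hb, ← hc] at hM3
    rw [hS0', hS1, hS2', hau, hcw] at hM3
    apply mul_left_cancel₀ hb0.ne'
    linear_combination -hM3
  have hn : k * (u + 2 - w) = n * (-u + 1 + w) := by
    simp [Fin.sum_univ_three, Fin.prod_univ_three, ← ha, ← hb, ← hc] at hn3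
    rw [hS0', hS1, hS2', hau, hcw] at hn3
    apply mul_left_cancel₀ hb0.ne'
    linear_combination hn3
  have hmy : (m : ℝ) * (1 - y) = k * y := by
    have e3 : (u - 1 + w) * (2 * y - 1) = 3 * (1 - y) := by linear_combination hud + hwd
    have e4 : (u + 2 + w) * (2 * y - 1) = 3 * y := by linear_combination hud + hwd
    linear_combination (-(m : ℝ) / 3) * e3 - ((2 * y - 1) / 3) * hm + (k / 3) * e4
  have hny : (n : ℝ) * (1 + y) = k * (2 - y) := by
    have e3 : (-u + 1 + w) * (2 * y - 1) = (2 * y - 1) * (1 + y) := by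
      linear_combination -hud + hwd
    have e4 : (u + 2 - w) * (2 * y - 1) = (2 * y - 1) * (2 - y) := by
      linear_combination hud - hwd
    have h3 : (2 * y - 1) * ((n : ℝ) * (1 + y)) = (2 * y - 1) * (k * (2 - y)) := by
      linear_combination (-(n : ℝ)) * e3 - (2 * y - 1) * hn + k * e4
    exact mul_left_cancel₀ (by positivity) h3
  have hm0 : (0 : ℝ) < m := by
    have : 0 < (m : ℝ) * (1 - y) := by rw [hmy]; positivity
    exact (mul_pos_iff_of_pos_right hd1).1 this
  have hquad : (n - m : ℝ) * y ^ 2 + (n + 3 * m) * y - 2 * m = 0 := by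
    linear_combination y * hny - (2 - y) * hmy
  by_cases hyr : ∃ q : ℚ, y = q
  · obtain ⟨yq, hyq⟩ := hyr
    have huq : u = (((1 - yq ^ 2) / (2 * yq - 1) : ℚ) : ℝ) := by
      push_cast
      rw [← hyq, eq_div_iff hd0.ne', hud]
    have hwq : w = (((yq ^ 2 - yq + 1) / (2 * yq - 1) : ℚ) : ℝ) := by
      push_cast
      rw [← hyq, eq_div_iff hd0.ne', hwd]
    have hkq : k = ((m * (1 - yq) / yq : ℚ) : ℝ) := by
      push_cast
      rw [← hyq, eq_div_iff hy0.ne', hmy]
    obtain ⟨p, q, c0, r, hp, hq, hc', hr, hpq, ep, eq, ec⟩ :=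
      natshape hb0 hu0 hw0 hau hcw hlaw huq hwq
    refine Or.inr (Or.inr (Or.inr (Or.inr (Or.inr
      ⟨p, q, c0, hp, hq, hpq, Or.inl ⟨?_, ?_⟩⟩))))
    · rintro ⟨x, hx⟩
      apply hN
      have hp' : (0 : ℝ) < p := by exact_mod_cast hp
      apply nat_sq (q := m * (1 - yq) / yq * x / p)
      have h1 : ((N : ℚ) : ℝ) = ((m * (1 - yq) / yq * x / p * (m * (1 - yq) / yq * x / p) : ℚ) : ℝ) := by
        rw [Rat.cast_mul, Rat.cast_div, Rat.cast_mul, ← hkq]
        push_cast
        have hx' : (p : ℝ) * ((p : ℝ) + q) = x * x := by exact_mod_cast hx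
        have e : (N : ℝ) * p = k ^ 2 * (p + q) := by
          have : r * ((N : ℝ) * p) = r * (k ^ 2 * (p + q)) := by
            rw [ep, eq] at harea
            linear_combination harea
          exact mul_left_cancel₀ hr.ne' this
        field_simp
        linear_combination (p : ℝ) * e + k ^ 2 * hx'
      exact_mod_cast h1
    · refine ⟨Equiv.refl _, k * r, by positivity, ?_, ?_, ?_⟩
      · simp only [Equiv.refl_apply]
        rw [hS0', ep, eq]; ring
      · simp only [Equiv.refl_apply]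
        rw [hS1, ec]; ring
      · simp only [Equiv.refl_apply]
        rw [hS2', eq]; ring
  · exfalso
    have hw1 : (m - n : ℝ) * w = m + n := by
      apply mul_right_cancel₀ hd0.ne'
      linear_combination (m - n : ℝ) * hwd - hquad
    have hmn : (m - n : ℝ) ≠ 0 := by
      intro h0
      have h1 : (m : ℝ) = n := by linarith
      apply hyr
      refine ⟨1 / 2, ?_⟩
      push_cast
      rw [h1] at hw1 hm0
      linarith
    have hkK : k = ((m - n : ℝ) / 2) * u := by
      have h1 : (2 * y * (2 * y - 1)) * k = (2 * y * (2 * y - 1)) * (((m - n : ℝ) / 2) * u) := by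
        linear_combination (-2 * (2 * y - 1)) * hmy - (m - n : ℝ) * y * hud + (1 - y) * hquad
      exact mul_left_cancel₀ (by positivity) h1
    have hwq : w = (((m + n) / (m - n) : ℚ) : ℝ) := by
      push_cast
      rw [eq_div_iff hmn]
      linear_combination hw1
    have hur : ¬ ∃ q : ℚ, u = q := by
      rintro ⟨q, hq⟩
      apply hyr
      have hyw : y = w - u := by
        apply mul_right_cancel₀ hd0.ne'
        linear_combination hud - hwd
      refine ⟨(m + n) / (m - n) - q, ?_⟩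
      rw [hyw, hwq, hq]
      push_cast
      ring
    obtain ⟨wq, hwq'⟩ : ∃ wq : ℚ, wq = (m + n) / (m - n) := ⟨_, rfl⟩
    rw [← hwq'] at hwq
    have side1 := h.side 1
    have side2 := h.side 2
    rw [Fin.sum_univ_three, ← ha, ← hb, ← hc, hS1, hau, hcw] at side1
    rw [Fin.sum_univ_three, ← ha, ← hb, ← hc, hS2', hau, hcw] at side2
    have s1 : (((m - n) / 2 * wq - β 1 0 : ℚ) : ℝ) * u + ((-(β 1 1 + β 1 2 * wq) : ℚ) : ℝ) = 0 := by
      push_cast
      rw [← hwq]
      apply mul_left_cancel₀ hb0.ne'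
      linear_combination side1 - b * w * hkK
    have s2 : (((m - n) / 2 - β 2 0 : ℚ) : ℝ) * u + ((-(β 2 1 + β 2 2 * wq) : ℚ) : ℝ) = 0 := by
      push_cast
      rw [← hwq]
      apply mul_left_cancel₀ hb0.ne'
      linear_combination side2 - b * hkK
    have hwq0 : 0 < wq := by
      rw [hwq] at hw0
      exact_mod_cast hw0
    obtain ⟨-, t1⟩ := irr2 hur s1
    obtain ⟨-, t2⟩ := irr2 hur s2
    have z11 : (0 : ℚ) ≤ β 1 1 := Nat.cast_nonneg _
    have z12 : (0 : ℚ) ≤ β 1 2 * wq := mul_nonneg (Nat.cast_nonneg _) hwq0.le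
    have z21 : (0 : ℚ) ≤ β 2 1 := Nat.cast_nonneg _
    have z22 : (0 : ℚ) ≤ β 2 2 * wq := mul_nonneg (Nat.cast_nonneg _) hwq0.le
    have b11 : β 1 1 = 0 := by
      have : (β 1 1 : ℚ) = 0 := by linarith
      exact_mod_cast this
    have b21 : β 2 1 = 0 := by
      have : (β 2 1 : ℚ) = 0 := by linarith
      exact_mod_cast this
    have b12 : β 1 2 = 0 := by
      have h1 : (β 1 2 : ℚ) * wq = 0 := by linarith
      rcases mul_eq_zero.1 h1 with h2 | h2
      · exact_mod_cast h2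
      · exact absurd h2 hwq0.ne'
    have b22 : β 2 2 = 0 := by
      have h1 : (β 2 2 : ℚ) * wq = 0 := by linarith
      rcases mul_eq_zero.1 h1 with h2 | h2
      · exact_mod_cast h2
      · exact absurd h2 hwq0.ne'
    obtain ⟨x1, y1, x2, y2, hxy1, hxy2, k1, k2, bb1, bb2, hfin⟩ :=
      hcor 0 1 2 (by decide) (by decide) (by decide)
    have hy1' : y1 = 0 := by
      fin_cases y1
      · rfl
      · simp [b11] at bb1
      · simp [b12] at bb1
    have hy2' : y2 = 0 := by
      fin_cases y2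
      · rfl
      · simp [b21] at bb2
      · simp [b22] at bb2
    subst hy1' hy2'
    have hx1 : x1 = 1 := by
      fin_cases x1
      · exact absurd rfl hxy1
      · rfl
      · simp at k1
    have hx2 : x2 = 1 := by
      fin_cases x2
      · exact absurd rfl hxy2
      · rfl
      · simp at k2
    subst hx1 hx2
    rcases hfin with hf | hf | hf
    · exact hf.2 rfl
    · exact hf rfl
    · simp at hf

theorem shape_u4 {N : ℕ} (hN : ¬ IsSquare N) : ShapeH N ![![2,0,0],![1,1,0],![0,2,0]] := by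
  intro ℓ θ S A β h _
  have hA0 : A 0 = 2 * θ 0 := by simpa [Fin.sum_univ_three] using h.angles 0
  have hA1 : A 1 = θ 0 + θ 1 := by simpa [Fin.sum_univ_three] using h.angles 1
  have hA2 : A 2 = 2 * θ 1 := by simpa [Fin.sum_univ_three] using h.angles 2
  have hAs := h.Asum
  have h3 : θ 0 + θ 1 = Real.pi / 3 := by linarith
  obtain ⟨t, ht0, ht2, hsg, hs3, e1, e2, g1, g2, law⟩ := setup h h3
  obtain ⟨a, ha⟩ : ∃ a, a = ℓ 0 := ⟨_, rfl⟩
  obtain ⟨b, hb⟩ : ∃ b, b = ℓ 1 := ⟨_, rfl⟩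
  obtain ⟨c, hc⟩ : ∃ c, c = ℓ 2 := ⟨_, rfl⟩
  have ha0 : 0 < a := ha ▸ h.lpos 0
  have hb0 : 0 < b := hb ▸ h.lpos 1
  have hc0 : 0 < c := hc ▸ h.lpos 2
  rw [← ha, ← hc] at e1
  rw [← hb, ← hc] at e2
  rw [← ha, ← hb, ← hc] at g1 g2 law
  have hsA1 : Real.sin (A 1) = t := by rw [hA1, h3, hs3]
  have sA0 : c ^ 2 * Real.sin (A 0) = t * (a * (a + 2 * b)) := by
    rw [hA0, Real.sin_two_mul]
    have : c ^ 2 * (2 * Real.sin (θ 0) * Real.cos (θ 0)) =
        2 * (c * Real.sin (θ 0)) * (c * Real.cos (θ 0)) := by ring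
    rw [this, ← e1, g1]
    ring
  have sA2 : c ^ 2 * Real.sin (A 2) = t * (b * (2 * a + b)) := by
    rw [hA2, Real.sin_two_mul]
    have : c ^ 2 * (2 * Real.sin (θ 1) * Real.cos (θ 1)) =
        2 * (c * Real.sin (θ 1)) * (c * Real.cos (θ 1)) := by ring
    rw [this, ← e2, g2]
    ring
  have q1 := h.sineT 0 1
  have q2 := h.sineT 2 1
  rw [hsA1] at q1 q2
  have hS0 : S 0 * c ^ 2 = S 1 * (a * (a + 2 * b)) := by
    have : t * (S 0 * c ^ 2) = t * (S 1 * (a * (a + 2 * b))) := by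
      linear_combination c ^ 2 * q1 + S 1 * sA0
    exact mul_left_cancel₀ ht0.ne' this
  have hS2 : S 2 * c ^ 2 = S 1 * (b * (2 * a + b)) := by
    have : t * (S 2 * c ^ 2) = t * (S 1 * (b * (2 * a + b))) := by
      linear_combination c ^ 2 * q2 + S 1 * sA2
    exact mul_left_cancel₀ ht0.ne' this
  have har := h.area
  rw [hsg, ← ha, ← hb] at har
  obtain ⟨s, hs⟩ : ∃ s, s = S 1 / c ^ 2 := ⟨_, rfl⟩
  have hS1 : S 1 = s * c ^ 2 := by rw [hs]; field_simp
  have hs0 : 0 < s := by rw [hs]; have := h.Spos 1; positivity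
  have hS0' : S 0 = s * (a * (a + 2 * b)) := by
    have : S 0 * c ^ 2 = (s * (a * (a + 2 * b))) * c ^ 2 := by
      rw [hS0, hS1]; ring
    exact mul_right_cancel₀ (by positivity) this
  have hS2' : S 2 = s * (b * (2 * a + b)) := by
    have : S 2 * c ^ 2 = (s * (b * (2 * a + b))) * c ^ 2 := by
      rw [hS2, hS1]; ring
    exact mul_right_cancel₀ (by positivity) this
  have harea : (N : ℝ) = s ^ 2 * ((2 * a + b) * (a + 2 * b)) := by
    have h1 : (N : ℝ) * (a * b * t) = s * (a * (a + 2 * b)) * s * (c ^ 2 * Real.sin (A 2)) := by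
      rw [hS0', hS1] at har
      linear_combination har
    rw [sA2] at h1
    have h2 : (a * b * t) * (N : ℝ) = (a * b * t) * (s ^ 2 * ((2 * a + b) * (a + 2 * b))) := by
      linear_combination h1
    exact mul_left_cancel₀ (by positivity) h2
  obtain ⟨m, hm1, -, hm3, -⟩ := h.char ![1, -1, 1] (by intro k; fin_cases k <;> simp) (by simp)
    ⟨2, by decide⟩ (by decide)
  obtain ⟨n, hn1, -, hn3, -⟩ := h.char ![-1, 1, 1] (by intro k; fin_cases k <;> simp) (by simp)
    ⟨2, by decide⟩ (by decide)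
  have pab : 0 < a * b := by positivity
  have hlt : (a - b) ^ 2 < c ^ 2 := by rw [law]; nlinarith
  have wabs : |a - b| < c := abs_lt_of_sq_lt_sq hlt hc0.le
  rw [abs_lt] at wabs
  have w1 : 0 < a - b + c := by linarith [wabs.1]
  have w2 : 0 < -a + b + c := by linarith [wabs.2]
  have hm : (m : ℝ) = s * (-a + b + c) := by
    simp [Fin.sum_univ_three, Fin.prod_univ_three, ← ha, ← hb, ← hc] at hm3
    rw [hS0', hS1, hS2'] at hm3
    apply mul_right_cancel₀ w1.ne'
    linear_combination -hm3 - 2 * s * law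
  have hn : (n : ℝ) = s * (a - b + c) := by
    simp [Fin.sum_univ_three, Fin.prod_univ_three, ← ha, ← hb, ← hc] at hn3
    rw [hS0', hS1, hS2'] at hn3
    apply mul_right_cancel₀ w2.ne'
    linear_combination -hn3 - 2 * s * law
  obtain ⟨ρ, hρ⟩ : ∃ ρ, ρ = s * (a + b) := ⟨_, rfl⟩
  have hsa : s * a = (((n - m) / 4 : ℚ) : ℝ) + ρ / 2 := by
    push_cast; rw [hm, hn, hρ]; ring
  have hsb : s * b = -(((n - m) / 4 : ℚ) : ℝ) + ρ / 2 := by
    push_cast; rw [hm, hn, hρ]; ring
  have hsc : s * c = (((n + m) / 2 : ℚ) : ℝ) := by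
    push_cast; rw [hm, hn]; ring
  have hρ2 : ρ ^ 2 = ((((n - m) / 2) ^ 2 + 4 * (m * n) / 3 : ℚ) : ℝ) := by
    push_cast
    rw [hm, hn, hρ]
    linear_combination (-(4 / 3 : ℝ)) * s ^ 2 * law
  by_cases hρr : ∃ q : ℚ, ρ = q
  · obtain ⟨ρq, hρq⟩ := hρr
    obtain ⟨A', hA'⟩ : ∃ A' : ℚ, A' = (n - m) / 4 + ρq / 2 := ⟨_, rfl⟩
    obtain ⟨B', hB'⟩ : ∃ B' : ℚ, B' = -(n - m) / 4 + ρq / 2 := ⟨_, rfl⟩
    obtain ⟨C', hC'⟩ : ∃ C' : ℚ, C' = (n + m) / 2 := ⟨_, rfl⟩
    have hsa' : s * a = A' := by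
      rw [hsa, hA', hρq]; push_cast; ring
    have hsb' : s * b = B' := by
      rw [hsb, hB', hρq]; push_cast; ring
    have hsc' : s * c = C' := by
      rw [hsc, hC']
    obtain ⟨u, hu⟩ : ∃ u, u = a / b := ⟨_, rfl⟩
    obtain ⟨w, hw⟩ : ∃ w, w = c / b := ⟨_, rfl⟩
    have hau : a = b * u := by rw [hu]; field_simp
    have hcw : c = b * w := by rw [hw]; field_simp
    have hu0 : 0 < u := by rw [hu]; positivity
    have hw0 : 0 < w := by rw [hw]; positivity
    have hlaw : w ^ 2 = u ^ 2 + u + 1 := by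
      have law' := law
      rw [hau, hcw] at law'
      have : b ^ 2 * w ^ 2 = b ^ 2 * (u ^ 2 + u + 1) := by linear_combination law'
      exact mul_left_cancel₀ (by positivity) this
    have huq : u = ((A' / B' : ℚ) : ℝ) := by
      push_cast
      rw [← hsa', ← hsb', hu]; field_simp
    have hwq : w = ((C' / B' : ℚ) : ℝ) := by
      push_cast
      rw [← hsc', ← hsb', hw]; field_simp
    obtain ⟨p, q, c0, r, hp, hq, hc', hr, hpq, ep, eq, ec⟩ :=
      natshape hb0 hu0 hw0 hau hcw hlaw huq hwq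
    refine Or.inr (Or.inr (Or.inr (Or.inr (Or.inr
      ⟨p, q, c0, hp, hq, hpq, Or.inr (Or.inr (Or.inl ⟨?_, ?_⟩))⟩))))
    · rintro ⟨x, hx⟩
      apply hN
      have hq' : (0 : ℝ) < q := by exact_mod_cast hq
      apply nat_sq (q := B' * x / q)
      have h1 : ((N : ℚ) : ℝ) = ((B' * x / q * (B' * x / q) : ℚ) : ℝ) := by
        push_cast
        rw [← hsb']
        have hx' : (2 * (p : ℝ) + q) * (p + 2 * q) = x * x := by exact_mod_cast hx
        have : s * r = s * b / q := by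
          rw [eq]; field_simp
        have e : (N : ℝ) = (s * r) ^ 2 * ((2 * (p : ℝ) + q) * (p + 2 * q)) := by
          rw [harea, ep, eq]; ring
        rw [e, hx', this]
        field_simp
      exact_mod_cast h1
    · refine ⟨Equiv.refl _, s * r ^ 2, by positivity, ?_, ?_, ?_⟩
      · simp only [Equiv.refl_apply]
        rw [hS0', ep, eq]; ring
      · simp only [Equiv.refl_apply]
        rw [hS1, ec]; ring
      · simp only [Equiv.refl_apply]
        rw [hS2', ep, eq]; ring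
  · left
    refine ⟨0, 2, by decide, ?_⟩
    obtain ⟨d, hd⟩ : ∃ d : ℚ, d = (n - m) / 2 := ⟨_, rfl⟩
    obtain ⟨D, hD⟩ : ∃ D : ℚ, D = ((n - m) / 2) ^ 2 + 4 * (m * n) / 3 := ⟨_, rfl⟩
    obtain ⟨C, hC⟩ : ∃ C : ℚ, C = (n + m) / 2 := ⟨_, rfl⟩
    have hd' : s * (a - b) = (d : ℝ) := by rw [hd]; push_cast; rw [hm, hn]; ring
    rw [← hD] at hρ2
    rw [← hC] at hsc
    have hsa' : s * a = (d : ℝ) / 2 + ρ / 2 := by
      rw [hsa, hd]; push_cast; ring
    have hsb' : s * b = -(d : ℝ) / 2 + ρ / 2 := by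
      rw [hsb, hd]; push_cast; ring
    have side0 := h.side 0
    have side2 := h.side 2
    rw [Fin.sum_univ_three, ← ha, ← hb, ← hc, hS0'] at side0
    rw [Fin.sum_univ_three, ← ha, ← hb, ← hc, hS2'] at side2
    have s0 : ((d / 2 - (β 0 0 + β 0 1) / 2 : ℚ) : ℝ) * ρ +
        (((3 * D - d ^ 2) / 4 - (β 0 0 - β 0 1) * d / 2 - β 0 2 * C : ℚ) : ℝ) = 0 := by
      push_cast
      have e' : (s * a) ^ 2 + 2 * (s * a) * (s * b) =
          β 0 0 * (s * a) + β 0 1 * (s * b) + β 0 2 * (s * c) := by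
        linear_combination s * side0
      rw [hsa', hsb', hsc] at e'
      linear_combination e' - (3 / 4 : ℝ) * hρ2
    have s2 : ((-d / 2 - (β 2 0 + β 2 1) / 2 : ℚ) : ℝ) * ρ +
        (((3 * D - d ^ 2) / 4 - (β 2 0 - β 2 1) * d / 2 - β 2 2 * C : ℚ) : ℝ) = 0 := by
      push_cast
      have e' : (s * b) ^ 2 + 2 * (s * a) * (s * b) =
          β 2 0 * (s * a) + β 2 1 * (s * b) + β 2 2 * (s * c) := by
        linear_combination s * side2
      rw [hsa', hsb', hsc] at e'
      linear_combination e' - (3 / 4 : ℝ) * hρ2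
    obtain ⟨t0, -⟩ := irr2 hρr s0
    obtain ⟨t2, -⟩ := irr2 hρr s2
    have z00 : (0 : ℚ) ≤ β 0 0 := Nat.cast_nonneg _
    have z01 : (0 : ℚ) ≤ β 0 1 := Nat.cast_nonneg _
    have z20 : (0 : ℚ) ≤ β 2 0 := Nat.cast_nonneg _
    have z21 : (0 : ℚ) ≤ β 2 1 := Nat.cast_nonneg _
    have hd0 : d = 0 := by linarith only [t0, t2, z00, z01, z20, z21]
    have hab : s * (a - b) = 0 := by rw [hd', hd0]; simp
    have hab' : a - b = 0 := by
      rcases mul_eq_zero.1 hab with h0 | h0
      · exact absurd h0 hs0.ne'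
      · exact h0
    have hab2 : a = b := by linarith
    rw [hS0', hS2', hab2]
    ring

end Pool.Agent.TH387
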