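import Pool.Agent.TH477.PA.Defs

/-!
# Job 655 (PA-TURAN): the Turán case
-/

set_option autoImplicit false

namespace Pool.Agent.TH511.J655

open Finset Pool.Agent.TH477.PA

theorem F_eq_pow {V : Type} [Finite V] (r k s : ℕ) (G : SimpleGraph V) (h : G.CliqueFree k) :
    F r k s G = r ^ Nat.card G.edgeSet := by
  unfold F
  have h1 : Nat.card {c : G.edgeSet → Fin r // ∀ S : Finset V, G.IsNClique k S →
      Set.ncard {i : Fin r | ∃ e : G.edgeSet, (∀ v ∈ (e : Sym2 V), v ∈ S) ∧ c e = i} < s} =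
      Nat.card (G.edgeSet → Fin r) :=
    Nat.card_congr (Equiv.subtypeUnivEquiv (fun c S hS => absurd hS (h S)))
  rw [h1, Nat.card_fun, Nat.card_eq_fintype_card (α := Fin r), Fintype.card_fin]

theorem edge_card {n : ℕ} (G : SimpleGraph (Fin n)) [Fintype G.edgeSet] :
    G.edgeFinset.card = Nat.card G.edgeSet := by
  rw [SimpleGraph.edgeFinset_card, Nat.card_eq_fintype_card]

theorem J15_turan (k s r n : ℕ) (hk : 3 ≤ k) (hs : 2 ≤ s) (hr : 2 ≤ r) (G : SimpleGraph (Fin n))
    (ψ : Sym2 (Fin n) → Fin r) (hψ : Perf G (k - 1) ∅ ψ)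
    (hmax : ∀ H : SimpleGraph (Fin n), F r k s H ≤ F r k s G) :
    Nonempty (G ≃g SimpleGraph.turanGraph n (k - 1)) := by
  classical
  obtain ⟨κ, hκ, hadj⟩ := hψ
  have hcol : G.Colorable (k - 1) := by
    refine ⟨SimpleGraph.Coloring.mk (fun x => (⟨κ x, hκ x⟩ : Fin (k - 1))) ?_⟩
    intro x y hxy heq
    have := hadj x y hxy (congrArg Fin.val heq)
    exact absurd this (Finset.notMem_empty _)
  have hk1 : k - 1 + 1 = k := by omega
  have hfree : G.CliqueFree k := hcol.cliqueFree (by omega)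
  have h := SimpleGraph.isTuranMaximal_iff_nonempty_iso_turanGraph (G := G) (r := k - 1) (by omega)
  rw [Fintype.card_fin] at h
  rw [← h]
  refine ⟨by rw [hk1]; exact hfree, ?_⟩
  intro H _ hH
  rw [hk1] at hH
  have h2 := hmax H
  rw [F_eq_pow r k s H hH, F_eq_pow r k s G hfree] at h2
  have h3 := (Nat.pow_le_pow_iff_right (by omega : 1 < r)).1 h2
  rw [edge_card, edge_card]
  exact h3

theorem J15_turan_value (k s r n : ℕ) (hk : 3 ≤ k) :
    F r k s (SimpleGraph.turanGraph n (k - 1)) =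
      r ^ Nat.card (SimpleGraph.turanGraph n (k - 1)).edgeSet := by
  have h := SimpleGraph.turanGraph_cliqueFree (n := n) (r := k - 1) (by omega)
  rw [show k - 1 + 1 = k by omega] at h
  exact F_eq_pow r k s _ h

end Pool.Agent.TH511.J655
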