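import Mathlib
import Pool.Agent.TH600.YT.Defs

/-!
# Job 739 (YT-GN1): a sharp one dimensional inequality
-/

set_option autoImplicit false

open MeasureTheory Real Set
open scoped ContDiff

namespace Pool.Agent.TH511.YT739

lemma prim_deriv {t : ℝ} (h0 : -1 < t) (h1 : t < 1) :
    HasDerivAt (fun t : ℝ => (arcsin t - t * √(1 - t ^ 2) * (1 - 2 * t ^ 2)) / 8)
      (t ^ 2 * √(1 - t ^ 2)) t := by
  have hp : 0 < 1 - t ^ 2 := by nlinarith
  have hw : 0 < √(1 - t ^ 2) := Real.sqrt_pos.2 hp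
  have hw2 : √(1 - t ^ 2) ^ 2 = 1 - t ^ 2 := Real.sq_sqrt hp.le
  have d1 : HasDerivAt (fun t : ℝ => 1 - t ^ 2) (-(2 * t)) t := by
    have := ((hasDerivAt_id t).pow 2).const_sub 1
    simpa using this
  have d2 : HasDerivAt (fun t : ℝ => √(1 - t ^ 2)) (-(2 * t) / (2 * √(1 - t ^ 2))) t :=
    d1.sqrt hp.ne'
  have d3 : HasDerivAt (fun t : ℝ => 1 - 2 * t ^ 2) (-(4 * t)) t := by
    have := (((hasDerivAt_id t).pow 2).const_mul 2).const_sub 1
    simp only [id] at this
    refine this.congr_deriv ?_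
    ring
  have d4 := Real.hasDerivAt_arcsin h0.ne' h1.ne
  have d5 := (d4.sub (((hasDerivAt_id t).mul d2).mul d3)).div_const 8
  refine d5.congr_deriv ?_
  simp only [id, Pi.mul_apply]
  set w := √(1 - t ^ 2) with hwdef
  have ht : t ^ 2 = 1 - w ^ 2 := by linarith
  field_simp
  have e : t ^ 4 = (1 - w ^ 2) ^ 2 := by rw [← ht]; ring
  ring_nf
  rw [e, ht]
  ring

lemma int_one : ∫ t in (0:ℝ)..1, t ^ 2 * √(1 - t ^ 2) = π / 16 := by
  have hc : Continuous (fun t : ℝ => t ^ 2 * √(1 - t ^ 2)) := by fun_prop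
  have hc2 : Continuous (fun t : ℝ => (arcsin t - t * √(1 - t ^ 2) * (1 - 2 * t ^ 2)) / 8) := by
    have := Real.continuous_arcsin
    fun_prop
  rw [intervalIntegral.integral_eq_sub_of_hasDerivAt_of_le zero_le_one hc2.continuousOn
    (fun x hx => prim_deriv (by linarith [hx.1]) hx.2) (hc.intervalIntegrable _ _)]
  simp only [Real.arcsin_one, Real.arcsin_zero]
  norm_num
  ring

lemma int_M {M : ℝ} (hM : 0 < M) :
    ∫ s in (0:ℝ)..M, s ^ 2 * √(M ^ 2 - s ^ 2) = π * M ^ 4 / 16 := by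
  have h1 := intervalIntegral.mul_integral_comp_mul_left (a := 0) (b := 1)
    (f := fun s : ℝ => s ^ 2 * √(M ^ 2 - s ^ 2)) (c := M)
  rw [mul_zero, mul_one] at h1
  rw [← h1]
  have h2 : ∀ t : ℝ, (M * t) ^ 2 * √(M ^ 2 - (M * t) ^ 2) = M ^ 3 * (t ^ 2 * √(1 - t ^ 2)) := by
    intro t
    have : M ^ 2 - (M * t) ^ 2 = M ^ 2 * (1 - t ^ 2) := by ring
    rw [this, Real.sqrt_mul (by positivity), Real.sqrt_sq hM.le]
    ring
  simp only [h2]
  rw [intervalIntegral.integral_const_mul, int_one]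
  ring

theorem one_dim (f : ℝ → ℝ) (hf : ContDiff ℝ 1 f) (h0 : ∀ x, 0 ≤ f x) (hs : HasCompactSupport f)
    (K : ℝ) (hK : 0 ≤ K) :
    K * (∫ x, f x ^ 6) - K * √K / π * (∫ x, f x ^ 4) ^ 2 ≤ ∫ x, (deriv f x) ^ 2 := by
  have hπ := Real.pi_pos
  have hfc : Continuous f := hf.continuous
  have hdc : Continuous (deriv f) := hf.continuous_deriv le_rfl
  have hfd : ∀ x, HasDerivAt f (deriv f x) x := fun x =>
    (hf.differentiable (by norm_num) x).hasDerivAt
  -- support
  obtain ⟨R, hR0, hR⟩ : ∃ R : ℝ, 0 < R ∧ tsupport f ⊆ Ioo (-R) R := by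
    obtain ⟨R, hR⟩ := hs.isCompact.isBounded.subset_closedBall (0 : ℝ)
    refine ⟨|R| + 1, by positivity, fun x hx => ?_⟩
    have h1 := hR hx
    rw [Metric.mem_closedBall, Real.dist_eq, sub_zero] at h1
    have h2 := le_abs_self R
    have h3 := abs_le.1 (h1.trans h2)
    exact ⟨by linarith, by linarith⟩
  have hz : ∀ x, x ∉ Ioo (-R) R → f x = 0 := fun x hx =>
    image_eq_zero_of_notMem_tsupport (fun h => hx (hR h))
  have hdz : ∀ x, x ∉ Ioo (-R) R → deriv f x = 0 := by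
    intro x hx
    by_contra h
    exact hx (hR (support_deriv_subset h))
  have hconv : ∀ g : ℝ → ℝ, (∀ x, x ∉ Ioo (-R) R → g x = 0) →
      ∫ x, g x = ∫ x in (-R)..R, g x := by
    intro g hg
    rw [intervalIntegral.integral_eq_integral_of_support_subset]
    intro x hx
    by_contra h
    exact hx (hg x (fun h2 => h ⟨h2.1, h2.2.le⟩))
  rw [hconv (fun x => f x ^ 6) (fun x hx => by simp [hz x hx]),
    hconv (fun x => f x ^ 4) (fun x hx => by simp [hz x hx]),
    hconv (fun x => deriv f x ^ 2) (fun x hx => by simp [hdz x hx])]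
  -- maximum
  obtain ⟨x0, hx0, hmax⟩ := isCompact_Icc.exists_isMaxOn
    (nonempty_Icc.2 (by linarith : -R ≤ R)) hfc.continuousOn
  have hle : ∀ x, f x ≤ f x0 := by
    intro x
    by_cases hx : x ∈ Ioo (-R) R
    · exact hmax ⟨hx.1.le, hx.2.le⟩
    · rw [hz x hx]
      exact h0 x0
  set M := f x0 with hM
  rcases (h0 x0).eq_or_lt with hM0 | hM0
  · have hf0 : ∀ x, f x = 0 := fun x => le_antisymm ((hle x).trans hM0.symm.le) (h0 x)
    simp only [hf0]
    norm_num
    apply intervalIntegral.integral_nonneg (by linarith)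
    intro x _
    positivity
  set h : ℝ → ℝ := fun s => s ^ 2 * √(M ^ 2 - s ^ 2) with hh
  have hhc : Continuous h := by rw [hh]; fun_prop
  have hpt : ∀ x, 2 * √K * (h (f x) * deriv f x) ≤
      deriv f x ^ 2 + K * (f x ^ 4 * (M ^ 2 - f x ^ 2)) ∧
      -(2 * √K * (h (f x) * deriv f x)) ≤
      deriv f x ^ 2 + K * (f x ^ 4 * (M ^ 2 - f x ^ 2)) := by
    intro x
    have h1 : 0 ≤ M ^ 2 - f x ^ 2 := by
      have := hle x
      have := h0 x
      nlinarith
    have h2 : √(M ^ 2 - f x ^ 2) ^ 2 = M ^ 2 - f x ^ 2 := Real.sq_sqrt h1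
    have h3 : √K ^ 2 = K := Real.sq_sqrt hK
    have e1 : deriv f x ^ 2 + K * (f x ^ 4 * (M ^ 2 - f x ^ 2)) =
        deriv f x ^ 2 + (√K * (f x ^ 2 * √(M ^ 2 - f x ^ 2))) ^ 2 := by
      rw [mul_pow, mul_pow, h2, h3]
      ring
    rw [e1]
    simp only [hh]
    constructor
    · nlinarith [sq_nonneg (deriv f x - √K * (f x ^ 2 * √(M ^ 2 - f x ^ 2)))]
    · nlinarith [sq_nonneg (deriv f x + √K * (f x ^ 2 * √(M ^ 2 - f x ^ 2)))]
  have hGc : Continuous (fun x => deriv f x ^ 2 + K * (f x ^ 4 * (M ^ 2 - f x ^ 2))) := by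
    fun_prop
  have hLc : Continuous (fun x => h (f x) * deriv f x) := (hhc.comp hfc).mul hdc
  have i1 : ∫ x in (-R)..x0, h (f x) * deriv f x = π * M ^ 4 / 16 := by
    have := intervalIntegral.integral_comp_mul_deriv (a := -R) (b := x0) (f := f)
      (f' := deriv f) (g := h) (fun x _ => hfd x) hdc.continuousOn hhc
    simp only [Function.comp_apply] at this
    rw [this, hz (-R) (by simp), ← hM, hh]
    exact int_M hM0
  have i2 : ∫ x in x0..R, h (f x) * deriv f x = -(π * M ^ 4 / 16) := by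
    have := intervalIntegral.integral_comp_mul_deriv (a := x0) (b := R) (f := f)
      (f' := deriv f) (g := h) (fun x _ => hfd x) hdc.continuousOn hhc
    simp only [Function.comp_apply] at this
    rw [this, hz R (by simp), ← hM, intervalIntegral.integral_symm, hh]
    rw [int_M hM0]
  have j1 : 2 * √K * (π * M ^ 4 / 16) ≤
      ∫ x in (-R)..x0, (deriv f x ^ 2 + K * (f x ^ 4 * (M ^ 2 - f x ^ 2))) := by
    rw [← i1, ← intervalIntegral.integral_const_mul]
    apply intervalIntegral.integral_mono_on hx0.1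
      ((hLc.const_mul _).intervalIntegrable _ _) (hGc.intervalIntegrable _ _)
    intro x _
    exact (hpt x).1
  have j2 : 2 * √K * (π * M ^ 4 / 16) ≤
      ∫ x in x0..R, (deriv f x ^ 2 + K * (f x ^ 4 * (M ^ 2 - f x ^ 2))) := by
    have e : 2 * √K * (π * M ^ 4 / 16) = ∫ x in x0..R, -(2 * √K * (h (f x) * deriv f x)) := by
      rw [intervalIntegral.integral_neg, intervalIntegral.integral_const_mul, i2]
      ring
    rw [e]
    apply intervalIntegral.integral_mono_on hx0.2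
      ((hLc.const_mul _).neg.intervalIntegrable _ _) (hGc.intervalIntegrable _ _)
    intro x _
    exact (hpt x).2
  have j3 := intervalIntegral.integral_add_adjacent_intervals
    (hGc.intervalIntegrable (μ := volume) (-R) x0) (hGc.intervalIntegrable x0 R)
  have e4 : ∫ x in (-R)..R, (deriv f x ^ 2 + K * (f x ^ 4 * (M ^ 2 - f x ^ 2))) =
      (∫ x in (-R)..R, deriv f x ^ 2) + K * (M ^ 2 * (∫ x in (-R)..R, f x ^ 4) -
        ∫ x in (-R)..R, f x ^ 6) := by
    have c1 : Continuous (fun x => deriv f x ^ 2) := hdc.pow 2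
    have c2 : Continuous (fun x => K * (f x ^ 4 * (M ^ 2 - f x ^ 2))) := by fun_prop
    rw [intervalIntegral.integral_add (c1.intervalIntegrable _ _) (c2.intervalIntegrable _ _),
      intervalIntegral.integral_const_mul]
    congr 2
    have e5 : (fun x => f x ^ 4 * (M ^ 2 - f x ^ 2)) = fun x => M ^ 2 * f x ^ 4 - f x ^ 6 := by
      funext x; ring
    have c3 : Continuous (fun x => M ^ 2 * f x ^ 4) := by fun_prop
    have c4 : Continuous (fun x => f x ^ 6) := by fun_prop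
    rw [e5, intervalIntegral.integral_sub (c3.intervalIntegrable _ _)
      (c4.intervalIntegrable _ _), intervalIntegral.integral_const_mul]
  rw [← j3] at e4
  set Y := ∫ x in (-R)..R, f x ^ 4
  set N := ∫ x in (-R)..R, f x ^ 6
  set A := ∫ x in (-R)..R, deriv f x ^ 2
  have hK2 : √K ^ 2 = K := Real.sq_sqrt hK
  have hsK : 0 ≤ √K := Real.sqrt_nonneg K
  have hfin : 0 ≤ √K * (π * M ^ 4 / 4 - √K * M ^ 2 * Y + K * Y ^ 2 / π) := by
    apply mul_nonneg hsK
    have e6 : ∀ q : ℝ, π * M ^ 4 / 4 - q * M ^ 2 * Y + q ^ 2 * Y ^ 2 / π =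
        (π * M ^ 2 / 2 - q * Y) ^ 2 / π := by
      intro q
      field_simp
      ring
    have e8 := e6 (√K)
    rw [hK2] at e8
    rw [e8]
    positivity
  have e7 : √K * (π * M ^ 4 / 4 - √K * M ^ 2 * Y + K * Y ^ 2 / π) =
      √K * (π * M ^ 4 / 4) - K * M ^ 2 * Y + K * √K / π * Y ^ 2 := by
    have : √K * (π * M ^ 4 / 4 - √K * M ^ 2 * Y + K * Y ^ 2 / π) =
      √K * (π * M ^ 4 / 4) - √K ^ 2 * M ^ 2 * Y + K * √K / π * Y ^ 2 := by ring
    rw [this, hK2]
  rw [e7] at hfin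
  linarith

end Pool.Agent.TH511.YT739
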