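import Mathlib
import Pool.Agent.TH600.YT.Defs

/-!
# Job 740 (YT-GN2): a sharp planar inequality
-/

set_option autoImplicit false

open MeasureTheory Real Set
open scoped ContDiff

namespace Pool.Agent.TH511.YT740

/-! ### the weight -/

/-- truncated cube root -/
noncomputable def sc (δ t : ℝ) : ℝ := (max t (δ ^ 3)) ^ (1 / 3 : ℝ)

/-- the weight -/
noncomputable def gg (δ t : ℝ) : ℝ := √(1 / sc δ t ^ 2 - 1)

lemma sc_pos {δ : ℝ} (hδ : 0 < δ) (t : ℝ) : 0 < sc δ t :=
  Real.rpow_pos_of_pos (lt_max_of_lt_right (by positivity)) _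

lemma sc_cube {δ : ℝ} (hδ : 0 < δ) (t : ℝ) : sc δ t ^ 3 = max t (δ ^ 3) := by
  unfold sc
  have h : 0 ≤ max t (δ ^ 3) := le_max_of_le_right (by positivity)
  rw [← Real.rpow_natCast, ← Real.rpow_mul h]
  norm_num

lemma sc_of {δ σ : ℝ} (hδ : 0 < δ) (h : δ ≤ σ) : sc δ (σ ^ 3) = σ := by
  unfold sc
  have hσ : 0 < σ := hδ.trans_le h
  have h1 : max (σ ^ 3) (δ ^ 3) = σ ^ 3 := max_eq_left (pow_le_pow_left₀ hδ.le h 3)
  rw [h1, ← Real.rpow_natCast, ← Real.rpow_mul hσ.le]
  norm_num

lemma sc_le {δ t : ℝ} (hδ : 0 < δ) (hδ1 : δ < 1) (ht : t ≤ 1) : sc δ t ≤ 1 := by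
  have h1 : sc δ t ^ 3 ≤ 1 := by
    rw [sc_cube hδ]
    exact max_le ht (pow_le_one₀ hδ.le hδ1.le)
  by_contra h
  rw [not_le] at h
  have := one_lt_pow₀ h (n := 3) (by norm_num)
  linarith

lemma gg_cont {δ : ℝ} (hδ : 0 < δ) : Continuous (gg δ) := by
  have h1 : Continuous (sc δ) := by
    unfold sc
    apply Continuous.rpow_const (by fun_prop)
    intro t
    left
    exact (lt_max_of_lt_right (by positivity)).ne'
  unfold gg
  apply Continuous.sqrt
  apply Continuous.sub _ continuous_const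
  apply Continuous.div continuous_const (h1.pow 2)
  intro t
  exact (pow_pos (sc_pos hδ t) 2).ne'

lemma gg_nonneg (δ t : ℝ) : 0 ≤ gg δ t := Real.sqrt_nonneg _

lemma cube_deriv {σ : ℝ} (h0 : -1 < σ) (h1 : σ < 1) :
    HasDerivAt (fun σ : ℝ => -((1 - σ ^ 2) * √(1 - σ ^ 2))) (3 * σ * √(1 - σ ^ 2)) σ := by
  have hp : 0 < 1 - σ ^ 2 := by nlinarith
  have hw : 0 < √(1 - σ ^ 2) := Real.sqrt_pos.2 hp
  have hw2 : √(1 - σ ^ 2) ^ 2 = 1 - σ ^ 2 := Real.sq_sqrt hp.le
  have d1 : HasDerivAt (fun t : ℝ => 1 - t ^ 2) (-(2 * σ)) σ := by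
    have := ((hasDerivAt_id σ).pow 2).const_sub 1
    simpa using this
  have d2 : HasDerivAt (fun t : ℝ => √(1 - t ^ 2)) (-(2 * σ) / (2 * √(1 - σ ^ 2))) σ :=
    d1.sqrt hp.ne'
  refine (d1.mul d2).neg.congr_deriv ?_
  set w := √(1 - σ ^ 2) with hwdef
  rw [← hw2]
  field_simp
  ring

lemma gg_int {δ : ℝ} (hδ : 0 < δ) (hδ1 : δ < 1) : 1 - 2 * δ ^ 2 ≤ ∫ t in (0:ℝ)..1, gg δ t := by
  have hg := gg_cont hδ
  have hd3 : δ ^ 3 ≤ 1 := pow_le_one₀ hδ.le hδ1.le
  have hd30 : 0 ≤ δ ^ 3 := by positivity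
  have h1 := intervalIntegral.integral_add_adjacent_intervals
    (hg.intervalIntegrable (μ := volume) 0 (δ ^ 3)) (hg.intervalIntegrable (δ ^ 3) 1)
  have h2 : 0 ≤ ∫ t in (0:ℝ)..(δ ^ 3), gg δ t :=
    intervalIntegral.integral_nonneg hd30 fun t _ => gg_nonneg δ t
  have h3 : ∫ σ in δ..1, 3 * σ * √(1 - σ ^ 2) = ∫ t in (δ ^ 3)..1, gg δ t := by
    have e := intervalIntegral.integral_comp_mul_deriv (a := δ) (b := 1) (f := fun σ : ℝ => σ ^ 3)
      (f' := fun σ => 3 * σ ^ 2) (g := gg δ) (fun x _ => by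
        have := hasDerivAt_pow 3 x
        simpa using this) (by fun_prop) hg
    rw [one_pow] at e
    rw [← e]
    apply intervalIntegral.integral_congr
    intro σ hσ
    rw [uIcc_of_le hδ1.le] at hσ
    simp only [Function.comp_apply]
    unfold gg
    rw [sc_of hδ hσ.1]
    have hσ0 : 0 < σ := hδ.trans_le hσ.1
    have e1 : 1 / σ ^ 2 - 1 = (1 - σ ^ 2) / σ ^ 2 := by field_simp
    rw [e1, Real.sqrt_div' _ (by positivity), Real.sqrt_sq hσ0.le]
    field_simp
  have h4 : ∫ σ in δ..1, 3 * σ * √(1 - σ ^ 2) = (1 - δ ^ 2) * √(1 - δ ^ 2) := by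
    rw [intervalIntegral.integral_eq_sub_of_hasDerivAt_of_le hδ1.le
      (f := fun σ : ℝ => -((1 - σ ^ 2) * √(1 - σ ^ 2)))
      (Continuous.continuousOn (by fun_prop)) (fun x hx => cube_deriv (by linarith [hx.1]) hx.2)
      (Continuous.intervalIntegrable (by fun_prop) _ _)]
    norm_num
  have h5 : 0 ≤ 1 - δ ^ 2 := by nlinarith
  have h6 : 1 - δ ^ 2 ≤ √(1 - δ ^ 2) := by
    apply Real.le_sqrt_of_sq_le
    have : 0 ≤ δ ^ 2 := by positivity
    nlinarith
  have h7 : (1 - δ ^ 2) * (1 - δ ^ 2) ≤ (1 - δ ^ 2) * √(1 - δ ^ 2) :=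
    mul_le_mul_of_nonneg_left h6 h5
  have h8 : 0 ≤ (δ ^ 2) ^ 2 := by positivity
  nlinarith

/-- the choice of the constant in the one dimensional inequality -/
lemma choice {κ m δ Y A ν : ℝ} (hκ : 0 < κ) (hm : 0 < m) (hδ : 0 < δ) (hδ1 : δ < 1)
    (hY0 : 0 ≤ Y) (hYm : Y ≤ m)
    (h : ∀ K : ℝ, 0 ≤ K → K * ν - K * √K / π * Y ^ 2 ≤ A) :
    (κ + (√κ * gg δ (Y / m)) ^ 2) * ν - κ * √κ * m * Y / π ≤ A := by
  have hπ := Real.pi_pos
  set s := sc δ (Y / m) with hs
  have hs0 : 0 < s := sc_pos hδ _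
  have hs1 : s ≤ 1 := sc_le hδ hδ1 (by rw [div_le_one hm]; exact hYm)
  have hs3 : s ^ 3 = max (Y / m) (δ ^ 3) := sc_cube hδ _
  have h1 : 0 ≤ 1 / s ^ 2 - 1 := by
    rw [sub_nonneg, le_div_iff₀ (by positivity), one_mul]
    exact pow_le_one₀ hs0.le hs1
  have h2 : κ + (√κ * gg δ (Y / m)) ^ 2 = κ / s ^ 2 := by
    unfold gg
    rw [← hs, mul_pow, Real.sq_sqrt hκ.le, Real.sq_sqrt h1]
    field_simp
    ring
  have h3 : √(κ / s ^ 2) = √κ / s := by
    rw [Real.sqrt_div' _ (by positivity), Real.sqrt_sq hs0.le]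
  have h4 := h (κ / s ^ 2) (by positivity)
  rw [h3] at h4
  rw [h2]
  have h5 : κ / s ^ 2 * (√κ / s) / π * Y ^ 2 ≤ κ * √κ * m * Y / π := by
    have e1 : κ / s ^ 2 * (√κ / s) / π * Y ^ 2 = (κ * √κ * Y / π) * (Y / s ^ 3) := by
      field_simp
    have e2 : κ * √κ * m * Y / π = (κ * √κ * Y / π) * m := by ring
    rw [e1, e2]
    apply mul_le_mul_of_nonneg_left _ (by positivity)
    rw [div_le_iff₀ (by positivity), hs3]
    have h6 : Y / m ≤ max (Y / m) (δ ^ 3) := le_max_left _ _
    rw [div_le_iff₀ hm] at h6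
    linarith
  linarith

/-! ### the planar inequality -/

lemma fub {R : ℝ} (g : ℝ × ℝ → ℝ) (hg : Continuous g)
    (h : ∀ p : ℝ × ℝ, (p.1 ∉ Ioo (-R) R ∨ p.2 ∉ Ioo (-R) R) → g p = 0) :
    ∫ p, g p = ∫ y in (-R)..R, ∫ x in (-R)..R, g (x, y) := by
  have hconv : ∀ k : ℝ → ℝ, (∀ x, x ∉ Ioo (-R) R → k x = 0) →
      ∫ x, k x = ∫ x in (-R)..R, k x := by
    intro k hk
    rw [intervalIntegral.integral_eq_integral_of_support_subset]
    intro x hx
    by_contra h
    exact hx (hk x (fun h2 => h ⟨h2.1, h2.2.le⟩))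
  have hsupp : HasCompactSupport g := by
    apply HasCompactSupport.intro (isCompact_Icc.prod isCompact_Icc : IsCompact
      (Icc (-R) R ×ˢ Icc (-R) R))
    intro p hp
    apply h
    by_contra h1
    rw [not_or, not_not, not_not] at h1
    exact hp ⟨⟨h1.1.1.le, h1.1.2.le⟩, ⟨h1.2.1.le, h1.2.2.le⟩⟩
  have hint : Integrable g := hg.integrable_of_hasCompactSupport hsupp
  rw [Measure.volume_eq_prod] at hint ⊢
  rw [integral_prod_symm g hint]
  rw [← hconv (fun y => ∫ x in (-R)..R, g (x, y))]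
  · congr 1
    funext y
    exact hconv (fun x => g (x, y)) (fun x hx => h (x, y) (Or.inl hx))
  · intro y hy
    have : ∀ x, g (x, y) = 0 := fun x => h (x, y) (Or.inr hy)
    simp [this]

theorem two_dim
    (one_dim : ∀ (f : ℝ → ℝ), ContDiff ℝ 1 f → (∀ x, 0 ≤ f x) → HasCompactSupport f →
      ∀ K : ℝ, 0 ≤ K →
      K * (∫ x, f x ^ 6) - K * √K / π * (∫ x, f x ^ 4) ^ 2 ≤ ∫ x, (deriv f x) ^ 2)
    (f : ℝ × ℝ → ℝ) (hf : ContDiff ℝ 1 f) (h0 : ∀ p, 0 ≤ f p) (hs : HasCompactSupport f) :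
    π * (∫ p, f p ^ 6) ≤
      (∫ p, f p ^ 4) * (∫ p, ((fderiv ℝ f p (1, 0)) ^ 2 + (fderiv ℝ f p (0, 1)) ^ 2)) := by
  have hπ := Real.pi_pos
  have hfc : Continuous f := hf.continuous
  have hdf : Differentiable ℝ f := hf.differentiable (by norm_num)
  have hdc : Continuous (fderiv ℝ f) := hf.continuous_fderiv (by norm_num)
  set fx : ℝ × ℝ → ℝ := fun p => fderiv ℝ f p (1, 0) with hfx
  set fy : ℝ × ℝ → ℝ := fun p => fderiv ℝ f p (0, 1) with hfy
  have hfxc : Continuous fx := hdc.clm_apply continuous_const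
  have hfyc : Continuous fy := hdc.clm_apply continuous_const
  obtain ⟨R, hR0, hR⟩ : ∃ R : ℝ, 0 < R ∧ tsupport f ⊆ Ioo (-R) R ×ˢ Ioo (-R) R := by
    obtain ⟨R, hR⟩ := hs.isCompact.isBounded.subset_closedBall (0 : ℝ × ℝ)
    refine ⟨|R| + 1, by positivity, fun p hp => ?_⟩
    have h1 := hR hp
    rw [Metric.mem_closedBall, dist_zero_right] at h1
    have h2 := le_abs_self R
    have h3 := (norm_fst_le p).trans (h1.trans h2)
    have h4 := (norm_snd_le p).trans (h1.trans h2)
    rw [Real.norm_eq_abs] at h3 h4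
    have h5 := abs_le.1 h3
    have h6 := abs_le.1 h4
    exact ⟨⟨by linarith, by linarith⟩, ⟨by linarith, by linarith⟩⟩
  have hz : ∀ p : ℝ × ℝ, (p.1 ∉ Ioo (-R) R ∨ p.2 ∉ Ioo (-R) R) → f p = 0 := by
    intro p hp
    apply image_eq_zero_of_notMem_tsupport
    intro h
    have := hR h
    rcases hp with h1 | h1
    · exact h1 this.1
    · exact h1 this.2
  have hdz : ∀ p : ℝ × ℝ, (p.1 ∉ Ioo (-R) R ∨ p.2 ∉ Ioo (-R) R) → fderiv ℝ f p = 0 := by
    intro p hp
    by_contra h
    have h2 : p ∈ tsupport f := support_fderiv_subset ℝ h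
    have := hR h2
    rcases hp with h1 | h1
    · exact h1 this.1
    · exact h1 this.2
  have hxz : ∀ p : ℝ × ℝ, (p.1 ∉ Ioo (-R) R ∨ p.2 ∉ Ioo (-R) R) → fx p = 0 := by
    intro p hp
    simp only [hfx]
    rw [hdz p hp]
    rfl
  have hyz : ∀ p : ℝ × ℝ, (p.1 ∉ Ioo (-R) R ∨ p.2 ∉ Ioo (-R) R) → fy p = 0 := by
    intro p hp
    simp only [hfy]
    rw [hdz p hp]
    rfl
  -- slices
  set Y : ℝ → ℝ := fun y => ∫ x in (-R)..R, f (x, y) ^ 4 with hY
  set ν : ℝ → ℝ := fun y => ∫ x in (-R)..R, f (x, y) ^ 6 with hν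
  set A : ℝ → ℝ := fun y => ∫ x in (-R)..R, fx (x, y) ^ 2 with hA
  set B : ℝ → ℝ := fun y => ∫ x in (-R)..R, fy (x, y) ^ 2 with hB
  set Y' : ℝ → ℝ := fun y => ∫ x in (-R)..R, 4 * f (x, y) ^ 3 * fy (x, y) with hY'
  have hswap : Continuous (fun p : ℝ × ℝ => (p.2, p.1)) := continuous_swap
  have hcs : ∀ g : ℝ × ℝ → ℝ, Continuous g → Continuous (fun y => ∫ x in (-R)..R, g (x, y)) := by
    intro g hg
    apply intervalIntegral.continuous_parametric_intervalIntegral_of_continuous'
    exact hg.comp hswap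
  have hYc : Continuous Y := hcs (fun p => f p ^ 4) (by fun_prop)
  have hνc : Continuous ν := hcs (fun p => f p ^ 6) (by fun_prop)
  have hAc : Continuous A := hcs (fun p => fx p ^ 2) (by fun_prop)
  have hBc : Continuous B := hcs (fun p => fy p ^ 2) (by fun_prop)
  have hY'c : Continuous Y' := hcs (fun p => 4 * f p ^ 3 * fy p) (by fun_prop)
  have e4 : ∫ p, f p ^ 4 = ∫ y in (-R)..R, Y y :=
    fub (fun p => f p ^ 4) (by fun_prop) (fun p hp => by simp [hz p hp])
  have e6 : ∫ p, f p ^ 6 = ∫ y in (-R)..R, ν y :=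
    fub (fun p => f p ^ 6) (by fun_prop) (fun p hp => by simp [hz p hp])
  have eE : ∫ p, (fx p ^ 2 + fy p ^ 2) = ∫ y in (-R)..R, (A y + B y) := by
    rw [fub (R := R) (fun p => fx p ^ 2 + fy p ^ 2) (by fun_prop)
      (fun p hp => by simp [hxz p hp, hyz p hp])]
    congr 1
    funext y
    rw [intervalIntegral.integral_add]
    · exact Continuous.intervalIntegrable (by fun_prop) _ _
    · exact Continuous.intervalIntegrable (by fun_prop) _ _
  change π * (∫ p, f p ^ 6) ≤ (∫ p, f p ^ 4) * (∫ p, (fx p ^ 2 + fy p ^ 2))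
  rw [e4, e6, eE]
  -- derivative of Y
  have hYd : ∀ y, HasDerivAt Y (Y' y) y := by
    intro y
    have hcomp : HasCompactSupport (fun p : ℝ × ℝ => 4 * f p ^ 3 * fy p) := by
      apply HasCompactSupport.intro (isCompact_Icc.prod isCompact_Icc : IsCompact
        (Icc (-R) R ×ˢ Icc (-R) R))
      intro p hp
      have : f p = 0 := by
        apply hz
        by_contra h1
        rw [not_or, not_not, not_not] at h1
        exact hp ⟨⟨h1.1.1.le, h1.1.2.le⟩, ⟨h1.2.1.le, h1.2.2.le⟩⟩
      simp [this]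
    obtain ⟨C, hC⟩ := hcomp.exists_bound_of_continuous (by fun_prop)
    have h := intervalIntegral.hasDerivAt_integral_of_dominated_loc_of_deriv_le
      (μ := volume) (a := -R) (b := R) (x₀ := y) (F := fun y x => f (x, y) ^ 4)
      (F' := fun y x => 4 * f (x, y) ^ 3 * fy (x, y))
      (bound := fun _ => C) (s := univ) Filter.univ_mem ?_ ?_ ?_ ?_ ?_ ?_
    · exact h.2
    · refine Filter.Eventually.of_forall fun y' => ?_
      exact (Continuous.aestronglyMeasurable (by fun_prop))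
    · exact Continuous.intervalIntegrable (by fun_prop) _ _
    · exact (Continuous.aestronglyMeasurable (by fun_prop))
    · exact Filter.Eventually.of_forall fun x _ y' _ => hC (x, y')
    · exact intervalIntegrable_const
    · refine Filter.Eventually.of_forall fun x _ y' _ => ?_
      have h1 : HasDerivAt (fun y : ℝ => (x, y)) ((0 : ℝ), (1 : ℝ)) y' :=
        (hasDerivAt_const y' x).prodMk (hasDerivAt_id y')
      have h2 : HasDerivAt (fun y : ℝ => f (x, y)) (fy (x, y')) y' :=
        (hdf (x, y')).hasFDerivAt.comp_hasDerivAt y' h1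
      have h3 := h2.pow 4
      refine h3.congr_deriv ?_
      push_cast
      ring
  have hY0 : ∀ y, 0 ≤ Y y := fun y =>
    intervalIntegral.integral_nonneg (by linarith) fun x _ => by positivity
  have hν0 : ∀ y, 0 ≤ ν y := fun y =>
    intervalIntegral.integral_nonneg (by linarith) fun x _ => by
      have := h0 (x, y)
      positivity
  have hYz : ∀ y, y ∉ Ioo (-R) R → Y y = 0 := by
    intro y hy
    simp only [hY]
    have : ∀ x, f (x, y) = 0 := fun x => hz (x, y) (Or.inr hy)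
    simp [this]
  -- the maximum of Y
  obtain ⟨y0, hy0, hmax⟩ := isCompact_Icc.exists_isMaxOn
    (nonempty_Icc.2 (by linarith : -R ≤ R)) hYc.continuousOn
  have hle : ∀ y, Y y ≤ Y y0 := by
    intro y
    by_cases hy : y ∈ Ioo (-R) R
    · exact hmax ⟨hy.1.le, hy.2.le⟩
    · rw [hYz y hy]
      exact hY0 y0
  set m := Y y0 with hm
  -- degenerate case
  have hIm : (∫ y in (-R)..R, Y y) = 0 → ∀ p, f p = 0 := by
    intro h
    have h1 : ∫ p, f p ^ 4 = 0 := by rw [e4, h]
    have hsup4 : HasCompactSupport (fun p => f p ^ 4) := by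
      apply HasCompactSupport.intro (isCompact_Icc.prod isCompact_Icc : IsCompact
        (Icc (-R) R ×ˢ Icc (-R) R))
      intro p hp
      have : f p = 0 := by
        apply hz
        by_contra h1
        rw [not_or, not_not, not_not] at h1
        exact hp ⟨⟨h1.1.1.le, h1.1.2.le⟩, ⟨h1.2.1.le, h1.2.2.le⟩⟩
      simp [this]
    have hc4 : Continuous (fun p => f p ^ 4) := by fun_prop
    intro p
    by_contra hp
    have h2 := hc4.integral_pos_of_hasCompactSupport_nonneg_nonzero (μ := volume) hsup4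
      (fun p => by positivity) (x := p) (pow_ne_zero 4 hp)
    linarith
  have hI0 : 0 ≤ ∫ y in (-R)..R, Y y :=
    intervalIntegral.integral_nonneg (by linarith) fun y _ => hY0 y
  rcases hI0.eq_or_lt with hI | hI
  · have hf0 := hIm hI.symm
    have : ∀ y, ν y = 0 := by
      intro y
      simp [hν, hf0]
    rw [← hI]
    simp [this]
  set I := ∫ y in (-R)..R, Y y with hIdef
  set N := ∫ y in (-R)..R, ν y with hNdef
  have hm0 : 0 < m := by
    by_contra h
    rw [not_lt] at h
    have : ∀ y, Y y = 0 := fun y => le_antisymm ((hle y).trans h) (hY0 y)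
    have h2 : I = 0 := by
      rw [hIdef]
      simp [this]
    linarith
  set κ := π / I with hκ
  have hκ0 : 0 < κ := by positivity
  have hκI : κ * I = π := by rw [hκ]; field_simp
  -- pointwise estimates
  have hone : ∀ y, ∀ K : ℝ, 0 ≤ K → K * ν y - K * √K / π * Y y ^ 2 ≤ A y := by
    intro y K hK
    have hc1 : ContDiff ℝ 1 (fun x : ℝ => f (x, y)) := hf.comp (by fun_prop)
    have hsup : HasCompactSupport (fun x : ℝ => f (x, y)) := by
      apply HasCompactSupport.intro (isCompact_Icc : IsCompact (Icc (-R) R))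
      intro x hx
      apply hz
      left
      exact fun h => hx ⟨h.1.le, h.2.le⟩
    have h1 := one_dim (fun x => f (x, y)) hc1 (fun x => h0 (x, y)) hsup K hK
    have hconv : ∀ k : ℝ → ℝ, (∀ x, x ∉ Ioo (-R) R → k x = 0) →
        ∫ x, k x = ∫ x in (-R)..R, k x := by
      intro k hk
      rw [intervalIntegral.integral_eq_integral_of_support_subset]
      intro x hx
      by_contra h
      exact hx (hk x (fun h2 => h ⟨h2.1, h2.2.le⟩))
    have hd : ∀ x, deriv (fun x => f (x, y)) x = fx (x, y) := by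
      intro x
      have h1 : HasDerivAt (fun x : ℝ => (x, y)) ((1 : ℝ), (0 : ℝ)) x :=
        (hasDerivAt_id x).prodMk (hasDerivAt_const x y)
      have h2 : HasDerivAt (fun x : ℝ => f (x, y)) (fx (x, y)) x :=
        (hdf (x, y)).hasFDerivAt.comp_hasDerivAt x h1
      exact h2.deriv
    simp only [hd] at h1
    rw [hconv (fun x => f (x, y) ^ 6) (fun x hx => by simp [hz (x, y) (Or.inl hx)]),
      hconv (fun x => f (x, y) ^ 4) (fun x hx => by simp [hz (x, y) (Or.inl hx)]),
      hconv (fun x => fx (x, y) ^ 2) (fun x hx => by simp [hxz (x, y) (Or.inl hx)])] at h1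
    exact h1
  have hsq : ∀ y c : ℝ, -(c / 2 * Y' y) - c ^ 2 * ν y ≤ B y := by
    intro y c
    have h1 : 0 ≤ ∫ x in (-R)..R, (fy (x, y) + c * f (x, y) ^ 3) ^ 2 :=
      intervalIntegral.integral_nonneg (by linarith) fun x _ => sq_nonneg _
    have h2 : (fun x => (fy (x, y) + c * f (x, y) ^ 3) ^ 2) = fun x =>
        fy (x, y) ^ 2 + (c / 2 * (4 * f (x, y) ^ 3 * fy (x, y)) + c ^ 2 * f (x, y) ^ 6) := by
      funext x; ring
    rw [h2, intervalIntegral.integral_add (Continuous.intervalIntegrable (by fun_prop) _ _)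
      (Continuous.intervalIntegrable (by fun_prop) _ _),
      intervalIntegral.integral_add (Continuous.intervalIntegrable (by fun_prop) _ _)
      (Continuous.intervalIntegrable (by fun_prop) _ _),
      intervalIntegral.integral_const_mul, intervalIntegral.integral_const_mul] at h1
    simp only [hB, hY', hν]
    linarith
  have main : ∀ δ : ℝ, 0 < δ → δ < 1 →
      κ * N - 2 * √κ * m * δ ^ 2 ≤ ∫ y in (-R)..R, (A y + B y) := by
    intro δ hδ hδ1
    have hg := gg_cont hδ
    have hpt : ∀ y σ : ℝ, σ ^ 2 = 1 →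
        κ * ν y - κ * √κ * m * Y y / π - σ / 2 * √κ * m * (gg δ (Y y / m) * (Y' y / m)) ≤
          A y + B y := by
      intro y σ hσ
      have h1 := choice hκ0 hm0 hδ hδ1 (hY0 y) (hle y) (hone y)
      have h2 := hsq y (σ * (√κ * gg δ (Y y / m)))
      have h3 : (σ * (√κ * gg δ (Y y / m))) ^ 2 = (√κ * gg δ (Y y / m)) ^ 2 := by
        rw [mul_pow, hσ, one_mul]
      rw [h3] at h2
      have h4 : σ / 2 * √κ * m * (gg δ (Y y / m) * (Y' y / m)) =
          σ * (√κ * gg δ (Y y / m)) / 2 * Y' y := by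
        field_simp
      rw [h4]
      linarith
    have hTd : ∀ y, HasDerivAt (fun y => Y y / m) (Y' y / m) y := fun y => (hYd y).div_const m
    have hYl : Y (-R) = 0 := hYz _ (by simp)
    have hYr : Y R = 0 := hYz _ (by simp)
    have hT0 : Y y0 / m = 1 := div_self hm0.ne'
    have hT'c : Continuous (fun y => Y' y / m) := hY'c.div_const m
    have k1 : ∫ y in (-R)..y0, gg δ (Y y / m) * (Y' y / m) = ∫ t in (0:ℝ)..1, gg δ t := by
      have := intervalIntegral.integral_comp_mul_deriv (a := -R) (b := y0)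
        (f := fun y => Y y / m) (f' := fun y => Y' y / m) (g := gg δ) (fun y _ => hTd y)
        hT'c.continuousOn hg
      simp only [Function.comp_apply] at this
      rw [this, hYl, zero_div, hT0]
    have k2 : ∫ y in y0..R, gg δ (Y y / m) * (Y' y / m) = -∫ t in (0:ℝ)..1, gg δ t := by
      have := intervalIntegral.integral_comp_mul_deriv (a := y0) (b := R)
        (f := fun y => Y y / m) (f' := fun y => Y' y / m) (g := gg δ) (fun y _ => hTd y)
        hT'c.continuousOn hg
      simp only [Function.comp_apply] at this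
      rw [this, hYr, zero_div, hT0, intervalIntegral.integral_symm]
    have hGc : Continuous (fun y => gg δ (Y y / m) * (Y' y / m)) :=
      (hg.comp (hYc.div_const m)).mul hT'c
    have hPc : Continuous (fun y => κ * ν y - κ * √κ * m * Y y / π) := by fun_prop
    have hABc : Continuous (fun y => A y + B y) := hAc.add hBc
    have l1 : (∫ y in (-R)..y0, (κ * ν y - κ * √κ * m * Y y / π)) +
        1 / 2 * √κ * m * (∫ t in (0:ℝ)..1, gg δ t) ≤ ∫ y in (-R)..y0, (A y + B y) := by
      have h1 : ∫ y in (-R)..y0, (κ * ν y - κ * √κ * m * Y y / π -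
          (-1) / 2 * √κ * m * (gg δ (Y y / m) * (Y' y / m))) ≤
          ∫ y in (-R)..y0, (A y + B y) := by
        apply intervalIntegral.integral_mono_on hy0.1
          ((hPc.sub (hGc.const_mul _)).intervalIntegrable _ _) (hABc.intervalIntegrable _ _)
        intro y _
        exact hpt y (-1) (by norm_num)
      rw [intervalIntegral.integral_sub (hPc.intervalIntegrable _ _)
        ((hGc.const_mul _).intervalIntegrable _ _), intervalIntegral.integral_const_mul, k1] at h1
      linarith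
    have l2 : (∫ y in y0..R, (κ * ν y - κ * √κ * m * Y y / π)) +
        1 / 2 * √κ * m * (∫ t in (0:ℝ)..1, gg δ t) ≤ ∫ y in y0..R, (A y + B y) := by
      have h1 : ∫ y in y0..R, (κ * ν y - κ * √κ * m * Y y / π -
          1 / 2 * √κ * m * (gg δ (Y y / m) * (Y' y / m))) ≤
          ∫ y in y0..R, (A y + B y) := by
        apply intervalIntegral.integral_mono_on hy0.2
          ((hPc.sub (hGc.const_mul _)).intervalIntegrable _ _) (hABc.intervalIntegrable _ _)
        intro y _
        exact hpt y 1 (by norm_num)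
      rw [intervalIntegral.integral_sub (hPc.intervalIntegrable _ _)
        ((hGc.const_mul _).intervalIntegrable _ _), intervalIntegral.integral_const_mul, k2] at h1
      linarith
    have s1 := intervalIntegral.integral_add_adjacent_intervals
      (hPc.intervalIntegrable (μ := volume) (-R) y0) (hPc.intervalIntegrable y0 R)
    have s2 := intervalIntegral.integral_add_adjacent_intervals
      (hABc.intervalIntegrable (μ := volume) (-R) y0) (hABc.intervalIntegrable y0 R)
    have s3 : ∫ y in (-R)..R, (κ * ν y - κ * √κ * m * Y y / π) = κ * N - √κ * m := by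
      have c2 : Continuous (fun y => κ * √κ * m * Y y / π) := by fun_prop
      rw [intervalIntegral.integral_sub ((hνc.const_mul κ).intervalIntegrable _ _)
        (c2.intervalIntegrable _ _), intervalIntegral.integral_const_mul]
      have h1 : (fun y => κ * √κ * m * Y y / π) = fun y => (κ * √κ * m / π) * Y y := by
        funext y; ring
      rw [h1, intervalIntegral.integral_const_mul, ← hNdef, ← hIdef]
      have h2 : κ * √κ * m / π * I = √κ * m * (κ * I) / π := by ring
      rw [h2, hκI]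
      field_simp
    rw [← s2]
    have hG := gg_int hδ hδ1
    have hsm : 0 ≤ √κ * m := by positivity
    have hG2 := mul_le_mul_of_nonneg_left hG hsm
    rw [s3] at s1
    nlinarith
  set E := ∫ y in (-R)..R, (A y + B y) with hE
  have hlim : κ * N ≤ E := by
    by_contra h
    rw [not_le] at h
    set c := 2 * √κ * m with hc
    have hc0 : 0 ≤ c := by positivity
    set d := κ * N - E with hd
    have hd0 : 0 < d := by rw [hd]; linarith
    obtain ⟨δ, h1, h2, h3⟩ : ∃ δ : ℝ, 0 < δ ∧ δ < 1 ∧ c * δ ^ 2 < d := by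
      refine ⟨min (1 / 2) (d / (2 * (c + 1))), by positivity,
        lt_of_le_of_lt (min_le_left _ _) (by norm_num), ?_⟩
      set δ := min (1 / 2) (d / (2 * (c + 1))) with hδ
      have a1 : δ ≤ 1 / 2 := min_le_left _ _
      have a2 : δ ≤ d / (2 * (c + 1)) := min_le_right _ _
      have a0 : 0 < δ := by positivity
      rw [le_div_iff₀ (by positivity)] at a2
      nlinarith
    have h4 := main δ h1 h2
    linarith
  have hfin : π * N = I * (κ * N) := by
    rw [← hκI]; ring
  rw [hfin]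
  exact mul_le_mul_of_nonneg_left hlim hI.le

end Pool.Agent.TH511.YT740
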