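import Mathlib
import Pool.Agent.TH600.YT.Defs

/-!
# Job 741 (YT-HALF): a sharp Sobolev inequality on the half space
-/

set_option autoImplicit false

open MeasureTheory Real Set
open scoped ContDiff

namespace Pool.Agent.TH511.YT741

open Pool.Agent.TH600.YT (D1 D2 D3)

/-! ### the weight -/

/-- the weight -/
noncomputable def gd (d t : ℝ) : ℝ := √(1 / max t (d ^ 2) - 1)

lemma mx_pos {d : ℝ} (hd : 0 < d) (t : ℝ) : 0 < max t (d ^ 2) :=
  lt_max_of_lt_right (by positivity)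

lemma gd_cont {d : ℝ} (hd : 0 < d) : Continuous (gd d) := by
  unfold gd
  apply Continuous.sqrt
  apply Continuous.sub _ continuous_const
  apply Continuous.div continuous_const (by fun_prop)
  intro t
  exact (mx_pos hd t).ne'

lemma gd_nonneg (d t : ℝ) : 0 ≤ gd d t := Real.sqrt_nonneg _

lemma half_circle : ∫ s in (0:ℝ)..1, 2 * √(1 - s ^ 2) = π / 2 := by
  have h1 := integral_sqrt_one_sub_sq
  have hc : Continuous (fun s : ℝ => √(1 - s ^ 2)) := by fun_prop
  have h2 := intervalIntegral.integral_add_adjacent_intervals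
    (hc.intervalIntegrable (μ := volume) (-1) 0) (hc.intervalIntegrable 0 1)
  have h3 : ∫ s in (-1:ℝ)..0, √(1 - s ^ 2) = ∫ s in (0:ℝ)..1, √(1 - s ^ 2) := by
    have := intervalIntegral.integral_comp_neg (a := 0) (b := 1) (fun s : ℝ => √(1 - s ^ 2))
    simp only [neg_sq, neg_zero] at this
    exact this.symm
  rw [h1, h3] at h2
  rw [intervalIntegral.integral_const_mul]
  linarith

lemma gd_int {d : ℝ} (hd : 0 < d) (hd1 : d < 1) :
    π / 2 - 2 * d ≤ ∫ t in (0:ℝ)..1, gd d t := by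
  have hg := gd_cont hd
  have hd2 : d ^ 2 ≤ 1 := pow_le_one₀ hd.le hd1.le
  have hd20 : 0 ≤ d ^ 2 := by positivity
  have h1 := intervalIntegral.integral_add_adjacent_intervals
    (hg.intervalIntegrable (μ := volume) 0 (d ^ 2)) (hg.intervalIntegrable (d ^ 2) 1)
  have h2 : 0 ≤ ∫ t in (0:ℝ)..(d ^ 2), gd d t :=
    intervalIntegral.integral_nonneg hd20 fun t _ => gd_nonneg d t
  have h3 : ∫ s in d..1, 2 * √(1 - s ^ 2) = ∫ t in (d ^ 2)..1, gd d t := by
    have e := intervalIntegral.integral_comp_mul_deriv (a := d) (b := 1) (f := fun s : ℝ => s ^ 2)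
      (f' := fun s => 2 * s) (g := gd d) (fun x _ => by
        have := hasDerivAt_pow 2 x
        simpa using this) (by fun_prop) hg
    rw [one_pow] at e
    rw [← e]
    apply intervalIntegral.integral_congr
    intro s hs
    rw [uIcc_of_le hd1.le] at hs
    simp only [Function.comp_apply]
    unfold gd
    have hs0 : 0 < s := hd.trans_le hs.1
    have h4 : max (s ^ 2) (d ^ 2) = s ^ 2 := max_eq_left (pow_le_pow_left₀ hd.le hs.1 2)
    have e1 : 1 / s ^ 2 - 1 = (1 - s ^ 2) / s ^ 2 := by field_simp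
    rw [h4, e1, Real.sqrt_div' _ (by positivity), Real.sqrt_sq hs0.le]
    field_simp
  have hc : Continuous (fun s : ℝ => 2 * √(1 - s ^ 2)) := by fun_prop
  have h5 := intervalIntegral.integral_add_adjacent_intervals
    (hc.intervalIntegrable (μ := volume) 0 d) (hc.intervalIntegrable d 1)
  rw [half_circle] at h5
  have h6 : ∫ s in (0:ℝ)..d, 2 * √(1 - s ^ 2) ≤ ∫ s in (0:ℝ)..d, (2 : ℝ) := by
    apply intervalIntegral.integral_mono_on hd.le (hc.intervalIntegrable _ _)
      intervalIntegrable_const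
    intro s _
    have : √(1 - s ^ 2) ≤ 1 := by
      rw [Real.sqrt_le_one]
      have := sq_nonneg s
      linarith
    linarith
  rw [intervalIntegral.integral_const, smul_eq_mul, sub_zero] at h6
  linarith

/-! ### Fubini for the half space -/

/-- the square -/
def Q (R : ℝ) : Set (ℝ × ℝ) := Icc (-R) R ×ˢ Icc (-R) R

lemma Q_compact (R : ℝ) : IsCompact (Q R) := isCompact_Icc.prod isCompact_Icc

lemma Q_meas (R : ℝ) : MeasurableSet (Q R) := measurableSet_Icc.prod measurableSet_Icc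

/-- clamped point -/
def cl (z : ℝ) (q : ℝ × ℝ) : ℝ × ℝ × ℝ := (q.1, q.2, max z 0)

lemma cl_cont : Continuous (fun p : ℝ × (ℝ × ℝ) => cl p.1 p.2) := by
  unfold cl
  fun_prop

lemma cl_mem (z : ℝ) (q : ℝ × ℝ) : 0 ≤ (cl z q).2.2 := le_max_right _ _

lemma clamp_cont {g : ℝ × ℝ × ℝ → ℝ} (hg : ∀ p : ℝ × ℝ × ℝ, 0 ≤ p.2.2 → ContinuousAt g p) :
    Continuous (fun p : ℝ × (ℝ × ℝ) => g (cl p.1 p.2)) := by
  rw [continuous_iff_continuousAt]
  intro p
  exact ContinuousAt.comp (f := fun p : ℝ × (ℝ × ℝ) => cl p.1 p.2) (hg _ (cl_mem _ _))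
    cl_cont.continuousAt

lemma fub3 {R : ℝ} (hR : 0 < R) (g : ℝ × ℝ × ℝ → ℝ)
    (hg : ∀ p : ℝ × ℝ × ℝ, 0 ≤ p.2.2 → ContinuousAt g p)
    (hz : ∀ p : ℝ × ℝ × ℝ, 0 < p.2.2 →
      (p.1 ∉ Icc (-R) R ∨ p.2.1 ∉ Icc (-R) R ∨ R < p.2.2) → g p = 0) :
    ∫ p in {p : ℝ × ℝ × ℝ | 0 < p.2.2}, g p = ∫ z in (0:ℝ)..R, ∫ q in Q R, g (cl z q) := by
  set B : Set (ℝ × ℝ × ℝ) := Icc (-R) R ×ˢ Icc (-R) R ×ˢ Ioc 0 R with hB
  have hBm : MeasurableSet B := measurableSet_Icc.prod (measurableSet_Icc.prod measurableSet_Ioc)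
  have hS : MeasurableSet {p : ℝ × ℝ × ℝ | 0 < p.2.2} :=
    measurableSet_lt measurable_const measurable_snd.snd
  have h1 : ∫ p in {p : ℝ × ℝ × ℝ | 0 < p.2.2}, g p = ∫ p in B, g p := by
    apply setIntegral_eq_of_subset_of_forall_sdiff_eq_zero hS
    · intro p hp
      exact hp.2.2.1
    · intro p hp
      apply hz p hp.1
      by_contra h
      rw [not_or, not_or, not_not, not_not, not_lt] at h
      exact hp.2 ⟨h.1, h.2.1, ⟨hp.1, h.2.2⟩⟩
  set G : ℝ × ℝ × ℝ → ℝ := fun p => g (cl p.2.2 (p.1, p.2.1)) with hG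
  have hGc : Continuous G := by
    have := (clamp_cont hg).comp (f := fun p : ℝ × ℝ × ℝ => (p.2.2, (p.1, p.2.1)))
      (by fun_prop)
    exact this
  have h2 : ∫ p in B, g p = ∫ p in B, G p := by
    apply setIntegral_congr_fun hBm
    intro p hp
    simp only [hG, cl]
    rw [max_eq_left hp.2.2.1.le]
  have h3 := (volume_preserving_prodAssoc (α₁ := ℝ) (β₁ := ℝ) (γ₁ := ℝ)).setIntegral_preimage_emb
    MeasurableEquiv.prodAssoc.measurableEmbedding G B
  have h4 : (MeasurableEquiv.prodAssoc : (ℝ × ℝ) × ℝ ≃ᵐ ℝ × ℝ × ℝ) ⁻¹' B = Q R ×ˢ Ioc 0 R := by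
    ext ⟨⟨x, y⟩, z⟩
    simp only [hB, Q, mem_preimage, mem_prod, MeasurableEquiv.prodAssoc, MeasurableEquiv.coe_mk,
      Equiv.prodAssoc_apply]
    tauto
  have hK : IntegrableOn (fun q : (ℝ × ℝ) × ℝ => G (MeasurableEquiv.prodAssoc q))
      (Q R ×ˢ Ioc 0 R) := by
    have hc : Continuous (fun q : (ℝ × ℝ) × ℝ => G (MeasurableEquiv.prodAssoc q)) := by
      have e : (fun q : (ℝ × ℝ) × ℝ => G (MeasurableEquiv.prodAssoc q)) =
          fun q => G (q.1.1, (q.1.2, q.2)) := rfl
      rw [e]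
      exact hGc.comp (by fun_prop)
    have h5 : IntegrableOn (fun q : (ℝ × ℝ) × ℝ => G (MeasurableEquiv.prodAssoc q))
        (Q R ×ˢ Icc 0 R) := hc.continuousOn.integrableOn_compact ((Q_compact R).prod isCompact_Icc)
    exact h5.mono_set (prod_mono_right Ioc_subset_Icc_self)
  rw [h1, h2, ← h3, h4]
  rw [Measure.volume_eq_prod (ℝ × ℝ) ℝ, ← Measure.prod_restrict]
  rw [IntegrableOn, Measure.volume_eq_prod (ℝ × ℝ) ℝ, ← Measure.prod_restrict] at hK
  rw [integral_prod_symm _ hK, intervalIntegral.integral_of_le hR.le]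
  rfl

/-! ### the main inequality -/

theorem halfSpace
    (two_dim : ∀ (f : ℝ × ℝ → ℝ), ContDiff ℝ 1 f → (∀ p, 0 ≤ f p) → HasCompactSupport f →
      π * (∫ p, f p ^ 6) ≤
        (∫ p, f p ^ 4) * (∫ p, ((fderiv ℝ f p (1, 0)) ^ 2 + (fderiv ℝ f p (0, 1)) ^ 2)))
    (U : ℝ × ℝ × ℝ → ℝ)
    (hU : ∀ p : ℝ × ℝ × ℝ, 0 ≤ p.2.2 → ContDiffAt ℝ 1 U p)
    (h0 : ∀ p : ℝ × ℝ × ℝ, 0 ≤ p.2.2 → 0 ≤ U p) (M : ℝ)
    (hM : ∀ p : ℝ × ℝ × ℝ, 0 ≤ p.2.2 → M ≤ ‖p‖ → U p = 0) :
    216 * π ^ 4 * (∫ p in {p : ℝ × ℝ × ℝ | 0 < p.2.2}, U p ^ 6) ≤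
      (8 * ∫ p in {p : ℝ × ℝ × ℝ | 0 < p.2.2},
        ((D1 U p) ^ 2 + (D2 U p) ^ 2 + (D3 U p) ^ 2)) ^ 3 := by
  have hπ := Real.pi_pos
  have hUc : ∀ p : ℝ × ℝ × ℝ, 0 ≤ p.2.2 → ContinuousAt U p := fun p hp => (hU p hp).continuousAt
  have hDc : ∀ p : ℝ × ℝ × ℝ, 0 ≤ p.2.2 → ContinuousAt (fderiv ℝ U) p := fun p hp =>
    ((hU p hp).fderiv_right (m := 0) (by norm_num)).continuousAt
  have hD1c : ∀ p : ℝ × ℝ × ℝ, 0 ≤ p.2.2 → ContinuousAt (D1 U) p := fun p hp =>
    (hDc p hp).clm_apply continuousAt_const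
  have hD2c : ∀ p : ℝ × ℝ × ℝ, 0 ≤ p.2.2 → ContinuousAt (D2 U) p := fun p hp =>
    (hDc p hp).clm_apply continuousAt_const
  have hD3c : ∀ p : ℝ × ℝ × ℝ, 0 ≤ p.2.2 → ContinuousAt (D3 U) p := fun p hp =>
    (hDc p hp).clm_apply continuousAt_const
  have hdiff : ∀ p : ℝ × ℝ × ℝ, 0 ≤ p.2.2 → HasFDerivAt U (fderiv ℝ U p) p := fun p hp =>
    ((hU p hp).differentiableAt (by norm_num)).hasFDerivAt
  set R : ℝ := |M| + 1 with hRdef
  have hR : 0 < R := by positivity
  have hMR : M < R := by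
    have := le_abs_self M
    rw [hRdef]; linarith
  have hfar : ∀ p : ℝ × ℝ × ℝ,
      (p.1 ∉ Icc (-R) R ∨ p.2.1 ∉ Icc (-R) R ∨ R < p.2.2) → M < ‖p‖ := by
    intro p hp
    have n1 : |p.1| ≤ ‖p‖ := norm_fst_le p
    have n2 : ‖p.2‖ ≤ ‖p‖ := norm_snd_le p
    have n3 : |p.2.1| ≤ ‖p.2‖ := norm_fst_le p.2
    have n4 : |p.2.2| ≤ ‖p.2‖ := norm_snd_le p.2
    rcases hp with h | h | h
    · have : R < |p.1| := by
        by_contra h2
        rw [not_lt] at h2
        exact h (abs_le.1 h2)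
      linarith
    · have : R < |p.2.1| := by
        by_contra h2
        rw [not_lt] at h2
        exact h (abs_le.1 h2)
      linarith
    · have := le_abs_self p.2.2
      linarith
  have hUz : ∀ p : ℝ × ℝ × ℝ, 0 ≤ p.2.2 →
      (p.1 ∉ Icc (-R) R ∨ p.2.1 ∉ Icc (-R) R ∨ R < p.2.2) → U p = 0 := fun p hp hp2 =>
    hM p hp (hfar p hp2).le
  have hDz : ∀ p : ℝ × ℝ × ℝ, 0 < p.2.2 →
      (p.1 ∉ Icc (-R) R ∨ p.2.1 ∉ Icc (-R) R ∨ R < p.2.2) → fderiv ℝ U p = 0 := by
    intro p hp hp2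
    have h1 : ∀ᶠ q : ℝ × ℝ × ℝ in nhds p, U q = 0 := by
      have a1 : ∀ᶠ q : ℝ × ℝ × ℝ in nhds p, 0 < q.2.2 :=
        (continuous_snd.snd.tendsto p).eventually (lt_mem_nhds hp)
      have a2 : ∀ᶠ q : ℝ × ℝ × ℝ in nhds p, M < ‖q‖ :=
        (continuous_norm.tendsto p).eventually (lt_mem_nhds (hfar p hp2))
      filter_upwards [a1, a2] with q h1 h2
      exact hM q h1.le h2.le
    have h2 : U =ᶠ[nhds p] fun _ => (0 : ℝ) := h1
    rw [h2.fderiv_eq, fderiv_fun_const]
    rfl
  -- slices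
  set Y : ℝ → ℝ := fun z => ∫ q in Q R, U (cl z q) ^ 4 with hY
  set ν : ℝ → ℝ := fun z => ∫ q in Q R, U (cl z q) ^ 6 with hν
  set A : ℝ → ℝ := fun z => ∫ q in Q R, (D1 U (cl z q) ^ 2 + D2 U (cl z q) ^ 2) with hA
  set C : ℝ → ℝ := fun z => ∫ q in Q R, D3 U (cl z q) ^ 2 with hC
  set Y' : ℝ → ℝ := fun z => ∫ q in Q R, 4 * U (cl z q) ^ 3 * D3 U (cl z q) with hY'
  have kU := clamp_cont hUc
  have k1 := clamp_cont hD1c
  have k2 := clamp_cont hD2c
  have k3 := clamp_cont hD3c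
  have hpar : ∀ G : ℝ → ℝ × ℝ → ℝ, Continuous (fun p : ℝ × (ℝ × ℝ) => G p.1 p.2) →
      Continuous (fun z => ∫ q in Q R, G z q) := fun G hG =>
    continuous_parametric_integral_of_continuous (f := G) hG (Q_compact R)
  have hYc : Continuous Y := hpar (fun z q => U (cl z q) ^ 4) (kU.pow 4)
  have hνc : Continuous ν := hpar (fun z q => U (cl z q) ^ 6) (kU.pow 6)
  have hAc : Continuous A := hpar (fun z q => D1 U (cl z q) ^ 2 + D2 U (cl z q) ^ 2)
    ((k1.pow 2).add (k2.pow 2))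
  have hCc : Continuous C := hpar (fun z q => D3 U (cl z q) ^ 2) (k3.pow 2)
  have hY'c : Continuous Y' := hpar (fun z q => 4 * U (cl z q) ^ 3 * D3 U (cl z q))
    (((kU.pow 3).const_mul 4).mul k3)
  have hsl : ∀ (G : ℝ → ℝ × ℝ → ℝ), Continuous (fun p : ℝ × (ℝ × ℝ) => G p.1 p.2) →
      ∀ z, IntegrableOn (G z) (Q R) := by
    intro G hG z
    have hc : Continuous (G z) := hG.comp (f := fun q : ℝ × ℝ => (z, q)) (by fun_prop)
    exact hc.continuousOn.integrableOn_compact (Q_compact R)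
  have e6 : ∫ p in {p : ℝ × ℝ × ℝ | 0 < p.2.2}, U p ^ 6 = ∫ z in (0:ℝ)..R, ν z :=
    fub3 hR (fun p => U p ^ 6) (fun p hp => (hUc p hp).pow 6)
      (fun p hp hp2 => by rw [hUz p hp.le hp2]; norm_num)
  have eE : ∫ p in {p : ℝ × ℝ × ℝ | 0 < p.2.2}, ((D1 U p) ^ 2 + (D2 U p) ^ 2 + (D3 U p) ^ 2) =
      ∫ z in (0:ℝ)..R, (A z + C z) := by
    rw [fub3 hR (fun p => (D1 U p) ^ 2 + (D2 U p) ^ 2 + (D3 U p) ^ 2)
      (fun p hp => (((hD1c p hp).pow 2).add ((hD2c p hp).pow 2)).add ((hD3c p hp).pow 2))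
      (fun p hp hp2 => by
        unfold D1 D2 D3
        rw [hDz p hp hp2]
        simp)]
    congr 1
    funext z
    exact integral_add (hsl (fun z q => D1 U (cl z q) ^ 2 + D2 U (cl z q) ^ 2)
      ((k1.pow 2).add (k2.pow 2)) z) (hsl (fun z q => D3 U (cl z q) ^ 2) (k3.pow 2) z)
  rw [e6, eE]
  have hY0 : ∀ z, 0 ≤ Y z := fun z => integral_nonneg fun q => by positivity
  have hν0 : ∀ z, 0 ≤ ν z := fun z => integral_nonneg fun q => by
    have := h0 (cl z q) (cl_mem z q)
    positivity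
  have hA0 : ∀ z, 0 ≤ A z := fun z => integral_nonneg fun q => by positivity
  have hC0 : ∀ z, 0 ≤ C z := fun z => integral_nonneg fun q => by positivity
  -- planar inequality on slices
  have hplane : ∀ z, 0 < z → π * ν z ≤ Y z * A z := by
    intro z hz
    have hcl : ∀ q : ℝ × ℝ, cl z q = (q.1, q.2, z) := by
      intro q
      unfold cl
      rw [max_eq_left hz.le]
    have hι : ContDiff ℝ 1 (fun q : ℝ × ℝ => (q.1, q.2, z)) := by fun_prop
    have hf1 : ContDiff ℝ 1 (fun q : ℝ × ℝ => U (q.1, q.2, z)) := by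
      rw [contDiff_iff_contDiffAt]
      intro q
      exact ContDiffAt.comp (f := fun q : ℝ × ℝ => (q.1, q.2, z)) q (hU (q.1, q.2, z) hz.le)
        hι.contDiffAt
    have hsup : HasCompactSupport (fun q : ℝ × ℝ => U (q.1, q.2, z)) := by
      apply HasCompactSupport.intro (Q_compact R)
      intro q hq
      apply hUz _ hz.le
      by_contra h
      rw [not_or, not_or, not_not, not_not] at h
      exact hq ⟨h.1, h.2.1⟩
    have h1 := two_dim (fun q => U (q.1, q.2, z)) hf1 (fun q => h0 _ hz.le) hsup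
    have hfd : ∀ q : ℝ × ℝ, HasFDerivAt (fun q : ℝ × ℝ => U (q.1, q.2, z))
        ((fderiv ℝ U (q.1, q.2, z)).comp ((ContinuousLinearMap.fst ℝ ℝ ℝ).prod
          ((ContinuousLinearMap.snd ℝ ℝ ℝ).prod 0))) q := by
      intro q
      have a1 : HasFDerivAt (fun q : ℝ × ℝ => (q.1, q.2, z)) ((ContinuousLinearMap.fst ℝ ℝ ℝ).prod
          ((ContinuousLinearMap.snd ℝ ℝ ℝ).prod 0)) q :=
        hasFDerivAt_fst.prodMk (hasFDerivAt_snd.prodMk (hasFDerivAt_const z q))
      exact (hdiff (q.1, q.2, z) hz.le).comp q a1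
    have d1 : ∀ q : ℝ × ℝ, fderiv ℝ (fun q : ℝ × ℝ => U (q.1, q.2, z)) q (1, 0) =
        D1 U (q.1, q.2, z) := by
      intro q
      rw [(hfd q).fderiv]
      simp [D1]
    have d2 : ∀ q : ℝ × ℝ, fderiv ℝ (fun q : ℝ × ℝ => U (q.1, q.2, z)) q (0, 1) =
        D2 U (q.1, q.2, z) := by
      intro q
      rw [(hfd q).fderiv]
      simp [D2]
    simp only [d1, d2] at h1
    have hout : ∀ q : ℝ × ℝ, q ∉ Q R → (((q.1, q.2, z) : ℝ × ℝ × ℝ).1 ∉ Icc (-R) R ∨
        ((q.1, q.2, z) : ℝ × ℝ × ℝ).2.1 ∉ Icc (-R) R ∨ R < ((q.1, q.2, z) : ℝ × ℝ × ℝ).2.2) := by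
      intro q hq
      by_contra h
      rw [not_or, not_or, not_not, not_not] at h
      exact hq ⟨h.1, h.2.1⟩
    rw [← setIntegral_eq_integral_of_forall_compl_eq_zero (s := Q R)
        (f := fun q : ℝ × ℝ => U (q.1, q.2, z) ^ 6)
        (fun q hq => by rw [hUz _ hz.le (hout q hq)]; norm_num),
      ← setIntegral_eq_integral_of_forall_compl_eq_zero (s := Q R)
        (f := fun q : ℝ × ℝ => U (q.1, q.2, z) ^ 4)
        (fun q hq => by rw [hUz _ hz.le (hout q hq)]; norm_num),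
      ← setIntegral_eq_integral_of_forall_compl_eq_zero (s := Q R)
        (f := fun q : ℝ × ℝ => D1 U (q.1, q.2, z) ^ 2 + D2 U (q.1, q.2, z) ^ 2)
        (fun q hq => by
          unfold D1 D2
          rw [hDz _ hz (hout q hq)]
          simp)] at h1
    simp only [hν, hY, hA, hcl]
    exact h1
  -- derivative of Y
  have hYd : ∀ z, 0 < z → HasDerivAt Y (Y' z) z := by
    intro z hz
    have hkc : Continuous (fun p : ℝ × (ℝ × ℝ) => 4 * U (cl p.1 p.2) ^ 3 * D3 U (cl p.1 p.2)) :=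
      ((kU.pow 3).const_mul 4).mul k3
    obtain ⟨C1, hC1⟩ := (isCompact_Icc.prod (Q_compact R) :
      IsCompact (Icc (0:ℝ) R ×ˢ Q R)).exists_bound_of_continuousOn hkc.continuousOn
    have h := hasDerivAt_integral_of_dominated_loc_of_deriv_le
      (μ := volume.restrict (Q R)) (x₀ := z) (F := fun z q => U (cl z q) ^ 4)
      (F' := fun z q => 4 * U (cl z q) ^ 3 * D3 U (cl z q))
      (bound := fun _ => |C1|) (s := Ioi 0) (Ioi_mem_nhds hz) ?_ ?_ ?_ ?_ ?_ ?_
    · exact h.2
    · refine Filter.Eventually.of_forall fun z' => ?_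
      exact (hsl (fun z q => U (cl z q) ^ 4) (kU.pow 4) z').aestronglyMeasurable
    · exact hsl (fun z q => U (cl z q) ^ 4) (kU.pow 4) z
    · exact (hsl (fun z q => 4 * U (cl z q) ^ 3 * D3 U (cl z q)) hkc z).aestronglyMeasurable
    · rw [ae_restrict_iff' (Q_meas R)]
      refine Filter.Eventually.of_forall fun q hq z' hz' => ?_
      rcases le_or_gt z' R with h1 | h1
      · exact (hC1 (z', q) ⟨⟨le_of_lt hz', h1⟩, hq⟩).trans (le_abs_self _)
      · have h2 : U (cl z' q) = 0 := by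
          apply hUz _ (cl_mem _ _)
          right; right
          unfold cl
          exact lt_of_lt_of_le h1 (le_max_left _ _)
        rw [h2]
        simp
    · exact continuous_const.continuousOn.integrableOn_compact (Q_compact R)
    · refine Filter.Eventually.of_forall fun q z' hz' => ?_
      have hz0 : (0:ℝ) < z' := hz'
      have e1 : (fun z => U (cl z q) ^ 4) =ᶠ[nhds z'] fun z => U (q.1, q.2, z) ^ 4 := by
        filter_upwards [Ioi_mem_nhds hz0] with w hw
        unfold cl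
        rw [max_eq_left (le_of_lt hw)]
      have e2 : cl z' q = (q.1, q.2, z') := by
        unfold cl
        rw [max_eq_left hz0.le]
      rw [e2]
      have h1 : HasDerivAt (fun z : ℝ => (q.1, q.2, z)) ((0 : ℝ), (0 : ℝ), (1 : ℝ)) z' :=
        (hasDerivAt_const z' q.1).prodMk ((hasDerivAt_const z' q.2).prodMk (hasDerivAt_id z'))
      have h2 : HasDerivAt (fun z : ℝ => U (q.1, q.2, z)) (D3 U (q.1, q.2, z')) z' :=
        (hdiff (q.1, q.2, z') hz0.le).comp_hasDerivAt z' h1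
      have h3 := h2.pow 4
      refine HasDerivAt.congr_of_eventuallyEq (h3.congr_deriv ?_) e1
      push_cast
      ring
  have hsq : ∀ z c : ℝ, -(c / 2 * Y' z) - c ^ 2 * ν z ≤ C z := by
    intro z c
    have h1 : 0 ≤ ∫ q in Q R, (D3 U (cl z q) + c * U (cl z q) ^ 3) ^ 2 :=
      integral_nonneg fun q => sq_nonneg _
    have h2 : (fun q => (D3 U (cl z q) + c * U (cl z q) ^ 3) ^ 2) = fun q =>
        D3 U (cl z q) ^ 2 + (c / 2 * (4 * U (cl z q) ^ 3 * D3 U (cl z q)) +
          c ^ 2 * U (cl z q) ^ 6) := by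
      funext q; ring
    have i1 := hsl (fun z q => D3 U (cl z q) ^ 2) (k3.pow 2) z
    have i2 := (hsl (fun z q => 4 * U (cl z q) ^ 3 * D3 U (cl z q))
      (((kU.pow 3).const_mul 4).mul k3) z).const_mul (c / 2)
    have i3 := (hsl (fun z q => U (cl z q) ^ 6) (kU.pow 6) z).const_mul (c ^ 2)
    have i23 : Integrable (fun q => c / 2 * (4 * U (cl z q) ^ 3 * D3 U (cl z q)) +
        c ^ 2 * U (cl z q) ^ 6) (volume.restrict (Q R)) := i2.add i3
    rw [h2, integral_add i1 i23, integral_add i2 i3, integral_const_mul,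
      integral_const_mul] at h1
    simp only [hC, hY', hν]
    linarith
  -- maximum
  obtain ⟨z0, hz0, hmax⟩ := isCompact_Icc.exists_isMaxOn (nonempty_Icc.2 hR.le) hYc.continuousOn
  have hle : ∀ z, z ∈ Icc 0 R → Y z ≤ Y z0 := fun z hz => hmax hz
  set m := Y z0 with hm
  set N := ∫ z in (0:ℝ)..R, ν z with hN
  set E := ∫ z in (0:ℝ)..R, (A z + C z) with hE
  have hE0 : 0 ≤ E := intervalIntegral.integral_nonneg hR.le fun z _ => by
    have := hA0 z
    have := hC0 z
    linarith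
  rcases (hY0 z0).eq_or_lt with hm0 | hm0
  · -- degenerate case
    have hν00 : N ≤ 0 := by
      have h1 : N ≤ ∫ z in (0:ℝ)..R, (0:ℝ) := by
        apply intervalIntegral.integral_mono_on_of_le_Ioo hR.le (hνc.intervalIntegrable _ _)
          intervalIntegrable_const
        intro z hz
        have h1 := hplane z hz.1
        have h2 := hle z ⟨hz.1.le, hz.2.le⟩
        have h3 := hY0 z
        have h4 : Y z = 0 := le_antisymm (h2.trans hm0.symm.le) h3
        rw [h4, zero_mul] at h1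
        nlinarith
      simpa using h1
    have h2 : 216 * π ^ 4 * N ≤ 0 := mul_nonpos_of_nonneg_of_nonpos (by positivity) hν00
    have h3 : 0 ≤ (8 * E) ^ 3 := by positivity
    linarith
  have hN0 : 0 ≤ N := intervalIntegral.integral_nonneg hR.le fun z _ => hν0 z
  have hm' : 0 < m := hm0
  -- the case with a parameter
  have main : ∀ d : ℝ, 0 < d → d < 1 → π / m * N + √(π * m) / 2 * (π / 2 - 2 * d) ≤ E := by
    intro d hd hd1
    have hg := gd_cont hd
    have hK : ∀ z, z ∈ Ioo 0 R → π / m * ν z ≤ A z ∧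
        (π / m + (√(π / m) * gd d (Y z / m)) ^ 2) * ν z ≤ A z := by
      intro z hz
      have h1 := hplane z hz.1
      have h2 := hle z ⟨hz.1.le, hz.2.le⟩
      have h3 := hY0 z
      have h4 := hA0 z
      have h5 := hν0 z
      constructor
      · rw [div_mul_eq_mul_div, div_le_iff₀ hm']
        have : Y z * A z ≤ m * A z := mul_le_mul_of_nonneg_right h2 h4
        linarith
      · have ht1 : Y z / m ≤ 1 := by rw [div_le_one hm']; exact h2
        have hmx : max (Y z / m) (d ^ 2) ≤ 1 := max_le ht1 (pow_le_one₀ hd.le hd1.le)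
        have hmp := mx_pos hd (Y z / m)
        have h6 : 0 ≤ 1 / max (Y z / m) (d ^ 2) - 1 := by
          rw [sub_nonneg, le_div_iff₀ hmp, one_mul]
          exact hmx
        have h7 : π / m + (√(π / m) * gd d (Y z / m)) ^ 2 = π / m / max (Y z / m) (d ^ 2) := by
          unfold gd
          rw [mul_pow, Real.sq_sqrt (by positivity), Real.sq_sqrt h6]
          field_simp
          ring
        rw [h7, div_div, div_mul_eq_mul_div, div_le_iff₀ (by positivity)]
        have h8 : Y z ≤ m * max (Y z / m) (d ^ 2) := by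
          have := le_max_left (Y z / m) (d ^ 2)
          rw [div_le_iff₀ hm'] at this
          linarith
        have : Y z * A z ≤ (m * max (Y z / m) (d ^ 2)) * A z := mul_le_mul_of_nonneg_right h8 h4
        linarith
    have hGc : Continuous (fun z => gd d (Y z / m) * (Y' z / m)) :=
      (hg.comp (hYc.div_const m)).mul (hY'c.div_const m)
    have hACc : Continuous (fun z => A z + C z) := hAc.add hCc
    have hPc : Continuous (fun z => π / m * ν z) := hνc.const_mul _
    have hYR : Y R = 0 := by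
      simp only [hY]
      apply integral_eq_zero_of_ae
      refine Filter.Eventually.of_forall fun q => ?_
      have h1 : U (cl R q) = 0 := by
        apply hM _ (cl_mem _ _)
        have n2 : ‖(cl R q).2‖ ≤ ‖cl R q‖ := norm_snd_le _
        have n4 : |(cl R q).2.2| ≤ ‖(cl R q).2‖ := norm_snd_le (cl R q).2
        have n5 : (cl R q).2.2 = R := by
          unfold cl
          exact max_eq_left hR.le
        rw [n5, abs_of_pos hR] at n4
        linarith
      simp [h1]
    have k2' : ∫ z in z0..R, gd d (Y z / m) * (Y' z / m) = -∫ t in (0:ℝ)..1, gd d t := by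
      have := intervalIntegral.integral_comp_mul_deriv'' (a := z0) (b := R)
        (f := fun z => Y z / m) (f' := fun z => Y' z / m) (g := gd d)
        (hYc.div_const m).continuousOn (fun z hz => by
          rw [min_eq_left hz0.2, max_eq_right hz0.2] at hz
          exact ((hYd z (lt_of_le_of_lt hz0.1 hz.1)).div_const m).hasDerivWithinAt)
        (hY'c.div_const m).continuousOn hg.continuousOn
      simp only [Function.comp_apply] at this
      rw [this, hYR, zero_div, ← hm, div_self hm'.ne', intervalIntegral.integral_symm]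
    have l1 : ∫ z in (0:ℝ)..z0, π / m * ν z ≤ ∫ z in (0:ℝ)..z0, (A z + C z) := by
      apply intervalIntegral.integral_mono_on_of_le_Ioo hz0.1 (hPc.intervalIntegrable _ _)
        (hACc.intervalIntegrable _ _)
      intro z hz
      have h1 := (hK z ⟨hz.1, lt_of_lt_of_le hz.2 hz0.2⟩).1
      have h2 := hC0 z
      linarith
    have l2 : (∫ z in z0..R, π / m * ν z) + √(π / m) * m / 2 * (∫ t in (0:ℝ)..1, gd d t) ≤
        ∫ z in z0..R, (A z + C z) := by
      have h1 : ∫ z in z0..R, (π / m * ν z - √(π / m) * m / 2 * (gd d (Y z / m) * (Y' z / m))) ≤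
          ∫ z in z0..R, (A z + C z) := by
        apply intervalIntegral.integral_mono_on_of_le_Ioo hz0.2
          ((hPc.sub (hGc.const_mul _)).intervalIntegrable _ _) (hACc.intervalIntegrable _ _)
        intro z hz
        have h1 := (hK z ⟨lt_of_le_of_lt hz0.1 hz.1, hz.2⟩).2
        have h2 := hsq z (√(π / m) * gd d (Y z / m))
        have h4 : √(π / m) * m / 2 * (gd d (Y z / m) * (Y' z / m)) =
            (√(π / m) * gd d (Y z / m)) / 2 * Y' z := by
          field_simp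
        show π / m * ν z - √(π / m) * m / 2 * (gd d (Y z / m) * (Y' z / m)) ≤ A z + C z
        rw [h4]
        linarith
      rw [intervalIntegral.integral_sub (hPc.intervalIntegrable _ _)
        ((hGc.const_mul _).intervalIntegrable _ _), intervalIntegral.integral_const_mul,
        intervalIntegral.integral_const_mul, k2'] at h1
      rw [intervalIntegral.integral_const_mul]
      linarith
    have s1 := intervalIntegral.integral_add_adjacent_intervals
      (hPc.intervalIntegrable (μ := volume) 0 z0) (hPc.intervalIntegrable z0 R)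
    have s2 := intervalIntegral.integral_add_adjacent_intervals
      (hACc.intervalIntegrable (μ := volume) 0 z0) (hACc.intervalIntegrable z0 R)
    rw [intervalIntegral.integral_const_mul (a := 0) (b := R), ← hN] at s1
    rw [← hE] at s2
    have hG := gd_int hd hd1
    have hsm : √(π / m) * m = √(π * m) := by
      have h1 : π * m = π / m * m ^ 2 := by field_simp
      rw [h1, Real.sqrt_mul (by positivity), Real.sqrt_sq hm'.le]
    rw [hsm] at l2
    have hG2 := mul_le_mul_of_nonneg_left hG (by positivity : 0 ≤ √(π * m) / 2)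
    linarith
  have hlim : π / m * N + √(π * m) / 2 * (π / 2) ≤ E := by
    by_contra h
    rw [not_le] at h
    set c := √(π * m) with hc
    have hc0 : 0 ≤ c := Real.sqrt_nonneg _
    set e := π / m * N + c / 2 * (π / 2) - E with he
    have he0 : 0 < e := by rw [he]; linarith
    obtain ⟨d, h1, h2, h3⟩ : ∃ d : ℝ, 0 < d ∧ d < 1 ∧ c * d < e := by
      refine ⟨min (1 / 2) (e / (2 * (c + 1))), by positivity,
        lt_of_le_of_lt (min_le_left _ _) (by norm_num), ?_⟩
      set d := min (1 / 2) (e / (2 * (c + 1))) with hd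
      have a2 : d ≤ e / (2 * (c + 1)) := min_le_right _ _
      have a0 : 0 < d := by positivity
      rw [le_div_iff₀ (by positivity)] at a2
      nlinarith
    have h4 := main d h1 h2
    have h5 : c / 2 * (π / 2 - 2 * d) = c / 2 * (π / 2) - c * d := by ring
    rw [h5] at h4
    linarith
  -- AM-GM
  set b := π * √(π * m) with hb
  set a := 8 * π * N / m with ha
  have hb0 : 0 ≤ b := by positivity
  have ha0 : 0 ≤ a := by positivity
  have h8 : a + 2 * b ≤ 8 * E := by
    have h9 : a + 2 * b = 8 * (π / m * N + √(π * m) / 2 * (π / 2)) := by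
      rw [ha, hb]; ring
    rw [h9]
    linarith
  have h10 : 27 * (a * b ^ 2) ≤ (a + 2 * b) ^ 3 := by
    have : (a + 2 * b) ^ 3 - 27 * (a * b ^ 2) = (a - b) ^ 2 * (a + 8 * b) := by ring
    have h11 : 0 ≤ (a - b) ^ 2 * (a + 8 * b) := by positivity
    linarith
  have h12 : 27 * (a * b ^ 2) = 216 * π ^ 4 * N := by
    rw [ha, hb, mul_pow, Real.sq_sqrt (by positivity)]
    field_simp
    ring
  rw [← h12]
  refine h10.trans ?_
  exact pow_le_pow_left₀ (by positivity) h8 3

end Pool.Agent.TH511.YT741
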